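import Pool.Agent.H24.GH.SumK
import Pool.Agent.H24.GG.Lab

/-!
# JOB GH-20: the label structure of a connected graph is connected

`core_path`: all vertices of a path (`Walk.IsPath`) between two vertices of the core are in the core: the set of the core vertices
and the vertices of the path has minimum degree two (an inner vertex of the path has two different neighbours on the path), so
it is contained in the core (`Cr`). (Cf. `covIff_inner` in the file `Pool.Agent.H24.GG.CovIff`.) So if `H` is connected then any two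
core vertices are joined by a path of core vertices; each vertex of it is in `cn` of the previous one.
`lab_conn`. Let `x` be a branch vertex, `R` the set of the branch vertices which are reachable from `x` (`ReflTransGen` in
`lab H`), `S` the set of the `v` with `v ∈ R`, or `Wk H b q r v` for some `b ∈ R`, `q ∈ cn H b`, `r`, and `¬ Br H v`. Claim: if `v ∈ S`,
`u ∈ cn H v` then `u ∈ S`. (1) `v ∈ R`: if `Br H u` then `Ln H v u v u` (`Wk.refl`), so `u ∈ R` (the dart `(v, u)`, its reversed
dart is `(u, v)`: `lrv_eq`); otherwise `Wk.refl`. (2) `¬ Br H v`, `Wk H b q r v`: if `u ≠ r` then `Wk H b q v u` (`Wk.step`); if `Br H u`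
this is a link, so `u ∈ R` (`lrv_eq`, the dart `(b, q)`, reversed `(u, v)`), otherwise `u ∈ S`. If `u = r`: induct on the walk:
if `v = q` then `u = b ∈ R`; otherwise the last step of the walk goes from `(r', r)` to `(r, v)`, so `¬ Br H r`,
`Wk H b q r' r`. So `u ∈ S`.
So by the path of core vertices all branch vertices are in `S`, so in `R`.
-/

namespace Pool.Agent.H24.GH

open Pool.Agent.H24.GC Pool.Agent.H24.GG

theorem core_path {V : Type} {H : SimpleGraph V} {x y : V} (hx : Cr H x) (hy : Cr H y)
    (p : H.Walk x y) (hp : p.IsPath) : ∀ z ∈ p.support, Cr H z := by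
  have key : Mn2 H ({x | Cr H x} ∪ {x | x ∈ p.support}) := by
    intro z hz
    by_cases hc : Cr H z
    · obtain ⟨a, ha, c, hc', hac, hxa, hxc⟩ := cr_set H z hc
      exact ⟨a, Or.inl ha, c, Or.inl hc', hac, hxa, hxc⟩
    · rcases hz with hz | hz
      · exact absurd hz hc
      · refine covIff_inner H _ (fun y hy => Or.inl hy) p hp hy (fun y hy => Or.inr hy) z hz ?_
        rintro rfl
        exact hc hx
  intro z hz
  exact ⟨_, Or.inr hz, key⟩

/-- reachable branch vertices -/
private def lconnR {V : Type} [Finite V] (H : SimpleGraph V) (x : LV H) (v : V) : Prop :=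
  ∃ hv : Br H v, Relation.ReflTransGen
    (fun a b => ∃ d, (lab H).tl d = a ∧ (lab H).hd d = b) x ⟨v, hv⟩

private theorem lconn_link {V : Type} [Finite V] {H : SimpleGraph V} {x : LV H} {b q r s : V}
    (hb : lconnR H x b) (hq : q ∈ cn H b) (hw : Wk H b q r s) (hs : Br H s) :
    lconnR H x s := by
  obtain ⟨hb, hR⟩ := hb
  have hl : Ln H b q r s := ⟨hb, hq, hw, hs⟩
  have hr : r ∈ cn H s := (wk_arc hb.1 hq hw).2
  have e : lrv H ⟨(b, q), hb, hq⟩ = ⟨(s, r), hs, hr⟩ := lrv_eq hl
  refine ⟨hs, hR.tail ⟨⟨(b, q), hb, hq⟩, rfl, ?_⟩⟩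
  show (⟨(lrv H ⟨(b, q), hb, hq⟩).1.1, (lrv H ⟨(b, q), hb, hq⟩).2.1⟩ : LV H) = ⟨s, hs⟩
  rw [Subtype.mk.injEq, e]

private def lconnS {V : Type} [Finite V] (H : SimpleGraph V) (x : LV H) (v : V) : Prop :=
  lconnR H x v ∨ (¬ Br H v ∧ ∃ b q r, lconnR H x b ∧ q ∈ cn H b ∧ Wk H b q r v)

private theorem lconn_step {V : Type} [Finite V] {H : SimpleGraph V} {x : LV H} {v u : V}
    (hv : lconnS H x v) (hu : u ∈ cn H v) : lconnS H x u := by
  rcases hv with hv | ⟨hnb, b, q, r, hb, hq, hw⟩
  · by_cases hbu : Br H u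
    · exact Or.inl (lconn_link hv hu Wk.refl hbu)
    · exact Or.inr ⟨hbu, v, u, v, hv, hu, Wk.refl⟩
  · by_cases hur : u = r
    · subst hur
      cases hw with
      | refl => exact Or.inl hb
      | step hw' hnb' _ _ => exact Or.inr ⟨hnb', b, q, _, hb, hq, hw'⟩
    · have hw' : Wk H b q v u := Wk.step hw hnb hu hur
      by_cases hbu : Br H u
      · exact Or.inl (lconn_link hb hq hw' hbu)
      · exact Or.inr ⟨hbu, b, q, v, hb, hq, hw'⟩

theorem lab_conn {V : Type} [Finite V] {H : SimpleGraph V} (hc : H.Connected) :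
    LConn (lab H) := by
  intro x y
  have h1 := Pool.Agent.H24.GG.core_path H x.2.1 y.2.1 (hc.preconnected x.1 y.1)
  have h2 : ∀ z, Relation.ReflTransGen (fun a b => Cr H a ∧ b ∈ cn H a) x.1 z → lconnS H x z := by
    intro z hz
    induction hz with
    | refl => exact Or.inl ⟨x.2, Relation.ReflTransGen.refl⟩
    | tail _ hbc ih => exact lconn_step ih hbc.2
  have h2 := h2 y.1 h1
  rcases h2 with ⟨hy, h⟩ | ⟨hn, -⟩
  · exact h
  · exact absurd y.2 hn

end Pool.Agent.H24.GH
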