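import Pool.Agent.H24.GH.UnitT
import Pool.Agent.H24.GG.Volt

/-!
# JOB GH-11: the lift for a walk of types with children

`NArr L g ch κD κc tt`: the type `ch c` leads from the position `κD` to the position `κc c`. `tt` is a set of types with the
same source such that (`st`) every function `n` which is constant along the steps which avoid `κD` and the `κc c` has for
`τ` with `tt τ` the same value at all points `(v, g τ κD)`, `v` an end of a dart of type `τ` at `y`, for all `y` which are joined to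
one `x` by darts of one type `ch c`.

`exists_narr`. Let `R = unitPer h ch hsc`, `m₀` from `stab2 R`, `P` the subtype of `win (Fin j ⊕ Ch) (-(m₀ + 1)) (m₀ + 1)` (finite: it
is the product of a finite interval and a finite set), `Sg` the restriction of `R.Sg` to `P`; `exists_vt` (with `sg_symm`,
`unit_hu`) gives `g`. `κD = (0, inl 0)`, `κc c = (0, inr c)`.
`c1`, `cd`: clear. `t1`: `g (w 0) κD` is `(0, inl 1)` if `1 < j` and `(1, inl i)` if `j = 1`; if `i = 0` then `g (bar (w (j - 1))) κD` is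
`(-1, inl (j - 1))`. `t2`: `h1`, `h2`. `tsc`: `hsc`; `sc (bar (w (j - 1))) = sc (w j) = sc (w i)` by `nx`, `rep`.
`st` for `τ = w 0`: put `q = g (w 0) κD`. The points `(v, q)`, `(v', q)` are connected over `win 0 (m₀ + 1)`: via `(y, κD)`,
`(x, κc c)`, `(y', κD)`. By `stab2` (`a = 0`, `b = m₀ + 1`, `c = 1`, `X` the set of `unit_right`) they are connected over `X`. `n` is
constant along every step over `X`: the positions of `X` are in `P` and different from `κD`, `κc c`; `Sg p s q` gives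
`g s p = q`. Induction (`Relation.ReflTransGen`) gives `n v q = n v' q`. For `i = 0` and `τ = bar (w (j - 1))` the same with
`q = (-1, inl (j - 1))`, `a = -(m₀ + 1)`, `b = 0`, `c = -(m₀ + 1)`, `X = win (-(m₀ + 1)) (-1)` (`win_conn`).
The classes: `kz q = sc (bar τ)`, `dt_cl`.
-/

namespace Pool.Agent.H24.GH

open Pool.Agent.H24.GG

variable {V D T K : Type} {L : LS V D T K}

/-- a lift for the types `ch c` and `tt` with the same source -/
structure NArr (L : LS V D T K) {P : Type} (g : Vt L P) {Ch : Type} (ch : Ch → T) (κD : P)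
    (κc : Ch → P) (tt : T → Prop) : Prop where
  c1 : ∀ c, g.g (ch c) κD = κc c
  cd : ∀ c, κc c ≠ κD
  t1 : ∀ τ, tt τ → g.g τ κD ≠ κD
  t2 : ∀ τ, tt τ → ∀ c, τ ≠ ch c
  tsc : ∀ τ, tt τ → ∀ c, L.sc τ = L.sc (ch c)
  st : ∀ n : V → P → ℤ,
    (∀ s u v κ, Dt L s u v → κ ≠ κD → (∀ c, κ ≠ κc c) → g.g s κ ≠ κD → (∀ c, g.g s κ ≠ κc c) →
      n u κ = n v (g.g s κ)) →
    ∀ τ c x y y' v v', tt τ → Dt L (ch c) y x → Dt L (ch c) y' x → Dt L τ y v → Dt L τ y' v' →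
      n v (g.g τ κD) = n v' (g.g τ κD)

private theorem NArrT_sc {U : Type} (R : Per L U) {a b : ℤ × U} {t : T} (h : R.Sg a t b) :
    L.sc t = R.kz a := by
  unfold Per.kz
  rcases h with ⟨_, h2⟩ | ⟨_, h2, _, h4⟩ | ⟨_, _, h3, h4⟩
  · exact R.ca _ _ _ h2
  · rw [h4, h2]; exact R.cz
  · rw [h4, h3]; exact R.cz'

private theorem NArrT_winfin (U : Type) [Finite U] (a b : ℤ) : (win U a b).Finite := by
  have h : (Set.Icc a b ×ˢ (Set.univ : Set U)).Finite :=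
    Set.Finite.prod (Set.finite_Icc a b) Set.finite_univ
  exact h.subset (fun q hq => ⟨hq, Set.mem_univ _⟩)

/-- a function which is constant along the steps over `X` is constant on the classes over `X` -/
private theorem NArrT_const {U : Type} (R : Per L U) {a b : ℤ} {X : Set (ℤ × U)}
    (hX : X ⊆ win U a b) (n : V → {q : ℤ × U // q ∈ win U a b} → ℤ)
    (hn : ∀ (u v : V) (t : T) (p q : ℤ × U) (hp : p ∈ X) (hq : q ∈ X), R.Sg p t q → Dt L t u v →
      n u ⟨p, hX hp⟩ = n v ⟨q, hX hq⟩)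
    {s t : V × (ℤ × U)} (hs : s.2 ∈ X) (h : Cn L R.Sg X s t) :
    ∃ ht : t.2 ∈ X, n s.1 ⟨s.2, hX hs⟩ = n t.1 ⟨t.2, hX ht⟩ := by
  induction h with
  | refl => exact ⟨hs, rfl⟩
  | tail _ hbc ih =>
    obtain ⟨hb, hb'⟩ := ih
    obtain ⟨h1, h2, τ, h3, h4⟩ := hbc
    exact ⟨h2, hb'.trans (hn _ _ τ _ _ h1 h2 h3 h4)⟩

/-- the value at `(v, q)` is the value at `(v', q)` -/
private theorem NArrT_st [Finite V] {U : Type} [Finite U] (R : Per L U) {m₀ : ℕ}
    (hst : ∀ (a b c : ℤ) (X : Set (ℤ × U)), a ≤ c → c + m₀ ≤ b → X ⊆ win U a b →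
      win U c (c + m₀) ⊆ X →
      (∀ p ∈ X, ∀ q ∈ X, Relation.ReflTransGen
        (fun s t => s ∈ X ∧ t ∈ X ∧ ∃ τ, R.Sg s τ t) p q) →
      ∀ s t : V × (ℤ × U), s.2 ∈ X → t.2 ∈ X → L.cl s.1 = R.kz s.2 → L.cl t.1 = R.kz t.2 →
        Cn L R.Sg (win U a b) s t → Cn L R.Sg X s t)
    {A B a b c : ℤ} (h0 : a ≤ 0) (h0' : 0 ≤ b)
    {X : Set (ℤ × U)} (hac : a ≤ c) (hcb : c + m₀ ≤ b) (hXW : X ⊆ win U a b)
    (hWX : win U c (c + m₀) ⊆ X)
    (hXc : ∀ p ∈ X, ∀ q ∈ X, Relation.ReflTransGen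
        (fun s t => s ∈ X ∧ t ∈ X ∧ ∃ τ, R.Sg s τ t) p q)
    (hXX : X ⊆ win U A B) (n : V → {q : ℤ × U // q ∈ win U A B} → ℤ)
    (hn : ∀ (u v : V) (t : T) (p q : ℤ × U) (hp : p ∈ X) (hq : q ∈ X), R.Sg p t q → Dt L t u v →
      n u ⟨p, hXX hp⟩ = n v ⟨q, hXX hq⟩)
    {D C : U} {q : ℤ × U} {τ t : T} (hDq : R.Sg (0, D) τ q) (hDC : R.Sg (0, D) t (0, C))
    (hq : q ∈ X) {x y y' v v' : V} (h1 : Dt L t y x) (h2 : Dt L t y' x) (h3 : Dt L τ y v)
    (h4 : Dt L τ y' v') : n v ⟨q, hXX hq⟩ = n v' ⟨q, hXX hq⟩ := by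
  have hD : ((0 : ℤ), D) ∈ win U a b := ⟨h0, h0'⟩
  have hC : ((0 : ℤ), C) ∈ win U a b := ⟨h0, h0'⟩
  have hc : Cn L R.Sg (win U a b) (v, q) (v', q) := by
    refine (((Relation.ReflTransGen.single (b := (y, ((0 : ℤ), D))) ?_).tail
      (c := (x, ((0 : ℤ), C))) ?_).tail (c := (y', ((0 : ℤ), D))) ?_).tail ?_
    · exact ⟨hXW hq, hD, L.bar τ, sg_symm R hDq, dt_symm h3⟩
    · exact ⟨hD, hC, t, hDC, h1⟩
    · exact ⟨hC, hD, L.bar t, sg_symm R hDC, dt_symm h2⟩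
    · exact ⟨hD, hXW hq, τ, hDq, h4⟩
  have hk : L.sc (L.bar τ) = R.kz q := NArrT_sc R (sg_symm R hDq)
  have hc' := hst a b c X hac hcb hXW hWX hXc (v, q) (v', q) hq hq ((dt_cl h3).2.trans hk)
    ((dt_cl h4).2.trans hk) hc
  obtain ⟨_, h5⟩ := NArrT_const R hXX n hn (s := (v, q)) (t := (v', q)) hq hc'
  exact h5

theorem exists_narr [Finite V] [Finite T] {w : ℕ → T} {i j : ℕ} (h : LollT L.sc L.bar w i j)
    {Ch : Type} [Finite Ch] (ch : Ch → T) (hsc : ∀ c, L.sc (ch c) = L.sc (w 0))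
    (hinj : Function.Injective ch) (h1 : ∀ c, ch c ≠ w 0)
    (h2 : i = 0 → ∀ c, ch c ≠ L.bar (w (j - 1))) :
    ∃ (P : Type) (_ : Finite P) (g : Vt L P) (κD : P) (κc : Ch → P),
      NArr L g ch κD κc (fun τ => τ = w 0 ∨ (i = 0 ∧ τ = L.bar (w (j - 1)))) := by
  have hlt := h.lt
  have hj : 0 < j := by omega
  obtain ⟨m₀, hst⟩ := stab2 (unitPer h ch hsc)
  obtain ⟨M, hM⟩ : ∃ M : ℤ, M = m₀ + 1 := ⟨_, rfl⟩
  have hM0 : 1 ≤ M := by omega
  have hfin : Finite {q : ℤ × (Fin j ⊕ Ch) // q ∈ win (Fin j ⊕ Ch) (-M) M} :=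
    (NArrT_winfin (Fin j ⊕ Ch) (-M) M).to_subtype
  obtain ⟨g, hg⟩ := exists_vt L
    (fun (p : {q : ℤ × (Fin j ⊕ Ch) // q ∈ win (Fin j ⊕ Ch) (-M) M}) t p' =>
      (unitPer h ch hsc).Sg p.1 t p'.1)
    (fun _ _ _ h3 => sg_symm _ h3)
    (fun _ _ _ _ h3 h4 => Subtype.ext (unit_hu h ch hsc hinj h1 h2 h3 h4))
  have m0 : ∀ u : Fin j ⊕ Ch, ((0 : ℤ), u) ∈ win (Fin j ⊕ Ch) (-M) M := fun u =>
    ⟨by simp only; omega, by simp only; omega⟩
  -- the point `0`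
  obtain ⟨z, hz⟩ : ∃ z : Fin j, (z : ℕ) = 0 := ⟨⟨0, hj⟩, rfl⟩
  -- the links of the centre
  have lc : ∀ c, (unitPer h ch hsc).Sg (0, Sum.inl z) (ch c) (0, Sum.inr c) := fun c =>
    Or.inl ⟨rfl, hz, rfl⟩
  -- the position `q` of the type `w 0`
  have l1 : ∃ q : ℤ × (Fin j ⊕ Ch), (unitPer h ch hsc).Sg (0, Sum.inl z) (w 0) q ∧ 0 ≤ q.1 ∧
      q.1 ≤ M ∧ q ≠ (0, Sum.inl z) ∧ ∀ c, q ≠ (0, Sum.inr c) := by
    rcases (show 1 < j ∨ j = 1 by omega) with h3 | h3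
    · refine ⟨(0, Sum.inl ⟨1, h3⟩), Or.inl ⟨rfl, Or.inl ⟨by simp only; omega, by rw [hz]⟩⟩,
        le_refl _, by simp only; omega, ?_, ?_⟩
      · intro h4
        have h5 : (⟨1, h3⟩ : Fin j) = z := Sum.inl.inj (congrArg Prod.snd h4)
        rw [← h5] at hz
        simp at hz
      · intro c h4
        have h5 : (Sum.inl ⟨1, h3⟩ : Fin j ⊕ Ch) = Sum.inr c := congrArg Prod.snd h4
        simp at h5
    · refine ⟨(1, Sum.inl ⟨i, hlt⟩), Or.inr (Or.inl ⟨rfl, ?_, rfl, ?_⟩), by simp only; omega,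
        hM0, ?_, ?_⟩
      · exact congrArg Sum.inl (Fin.ext (by simp only; omega))
      · show w 0 = w (j - 1)
        rw [h3]
      · intro h4
        have h5 : (1 : ℤ) = 0 := congrArg Prod.fst h4
        omega
      · intro c h4
        have h5 : (1 : ℤ) = 0 := congrArg Prod.fst h4
        omega
  -- the position of the type `bar (w (j - 1))`
  have l2 : i = 0 → (unitPer h ch hsc).Sg (0, Sum.inl z) (L.bar (w (j - 1)))
      (-1, Sum.inl ⟨j - 1, by omega⟩) := by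
    intro h3
    refine Or.inr (Or.inr ⟨rfl, rfl, ?_, rfl⟩)
    exact congrArg Sum.inl (Fin.ext (by simp only; omega))
  obtain ⟨q, hq, hq0, hqM, hqD, hqc⟩ := l1
  have mq : q ∈ win (Fin j ⊕ Ch) (-M) M := ⟨by omega, hqM⟩
  have m1 : ((-1 : ℤ), (Sum.inl ⟨j - 1, by omega⟩ : Fin j ⊕ Ch)) ∈ win (Fin j ⊕ Ch) (-M) M :=
    ⟨by simp only; omega, by simp only; omega⟩
  have gq : g.g (w 0) ⟨(0, Sum.inl z), m0 _⟩ = ⟨q, mq⟩ := hg _ _ _ hq
  have g1 : i = 0 → g.g (L.bar (w (j - 1))) ⟨(0, Sum.inl z), m0 _⟩ = ⟨_, m1⟩ := fun h3 =>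
    hg _ _ ⟨_, m1⟩ (l2 h3)
  refine ⟨_, hfin, g, ⟨(0, Sum.inl z), m0 _⟩, fun c => ⟨(0, Sum.inr c), m0 _⟩, ?_, ?_, ?_, ?_, ?_,
    ?_⟩
  · intro c
    exact hg _ _ _ (lc c)
  · intro c h3
    have h4 : (Sum.inr c : Fin j ⊕ Ch) = Sum.inl z := congrArg (fun p => p.1.2) h3
    simp at h4
  · rintro τ (h3 | ⟨h3, h4⟩)
    · rw [h3, gq]
      exact fun h5 => hqD (congrArg Subtype.val h5)
    · rw [h4, g1 h3]
      intro h5
      have h6 : (-1 : ℤ) = 0 := congrArg (fun p => p.1.1) h5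
      omega
  · rintro τ (h3 | ⟨h3, h4⟩) c h5
    · exact h1 c (h5.symm.trans h3)
    · exact h2 h3 c (h5.symm.trans h4)
  · rintro τ (h3 | ⟨h3, h4⟩) c
    · rw [h3, hsc]
    · have h5 := (h.nx (j - 1) (by omega)).1
      rw [show j - 1 + 1 = j by omega, h.rep, h3] at h5
      rw [h4, hsc, h5]
  · intro n hn τ c x y y' v v' ht d1 d2 d3 d4
    -- steps
    have hstep : ∀ (X : Set (ℤ × (Fin j ⊕ Ch))) (hX : X ⊆ win (Fin j ⊕ Ch) (-M) M),
        (∀ p ∈ X, p ≠ (0, Sum.inl z) ∧ ∀ c, p ≠ (0, Sum.inr c)) →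
        ∀ (u v : V) (t : T) (p q : ℤ × (Fin j ⊕ Ch)) (hp : p ∈ X) (hq : q ∈ X),
          (unitPer h ch hsc).Sg p t q → Dt L t u v → n u ⟨p, hX hp⟩ = n v ⟨q, hX hq⟩ := by
      intro X hX hX' u v t p q hp hq h3 h4
      have h5 : g.g t ⟨p, hX hp⟩ = ⟨q, hX hq⟩ := hg _ _ _ h3
      have h6 := hn t u v ⟨p, hX hp⟩ h4 (fun h7 => (hX' p hp).1 (congrArg Subtype.val h7))
        (fun c h7 => (hX' p hp).2 c (congrArg Subtype.val h7))
        (by rw [h5]; exact fun h7 => (hX' q hq).1 (congrArg Subtype.val h7))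
        (by rw [h5]; exact fun c h7 => (hX' q hq).2 c (congrArg Subtype.val h7))
      rw [h5] at h6
      exact h6
    rcases ht with h3 | ⟨h3, h4⟩
    · subst h3
      rw [gq]
      obtain ⟨X, hX⟩ : ∃ X : Set (ℤ × (Fin j ⊕ Ch)),
        X = {q | 0 ≤ q.1 ∧ q.1 ≤ M ∧ q ≠ (0, Sum.inl z) ∧ ∀ c, q ≠ (0, Sum.inr c)} := ⟨_, rfl⟩
      have hXm : ∀ p, p ∈ X ↔ 0 ≤ p.1 ∧ p.1 ≤ M ∧ p ≠ (0, Sum.inl z) ∧
          ∀ c, p ≠ (0, Sum.inr c) := by
        intro p
        rw [hX]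
        exact Iff.rfl
      have hXX : X ⊆ win (Fin j ⊕ Ch) (-M) M := by
        intro p hp
        obtain ⟨e1, e2, -, -⟩ := (hXm p).1 hp
        exact ⟨by omega, e2⟩
      exact NArrT_st (unitPer h ch hsc) hst (A := -M) (B := M) (a := 0) (b := M) (c := 1)
        (le_refl _) (by omega) (X := X) (by omega) (by omega)
        (fun p hp => by
          obtain ⟨e1, e2, -, -⟩ := (hXm p).1 hp
          exact ⟨e1, e2⟩)
        (fun p hp => by
          obtain ⟨e1, e2⟩ := hp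
          refine (hXm p).2 ⟨by omega, by omega, ?_, ?_⟩
          · intro e3
            rw [e3] at e1
            exact absurd e1 (by norm_num)
          · intro c e3
            rw [e3] at e1
            exact absurd e1 (by norm_num))
        (unit_right h ch hsc hM0 hz hX) hXX n
        (hstep X hXX (fun p hp => ((hXm p).1 hp).2.2)) hq (lc c)
        ((hXm q).2 ⟨hq0, hqM, hqD, hqc⟩) d1 d2 d3 d4
    · subst h4
      rw [g1 h3]
      have hXX : win (Fin j ⊕ Ch) (-M) (-1) ⊆ win (Fin j ⊕ Ch) (-M) M := by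
        intro p hp
        obtain ⟨e1, e2⟩ := hp
        exact ⟨e1, by omega⟩
      exact NArrT_st (unitPer h ch hsc) hst (A := -M) (B := M) (a := -M) (b := 0) (c := -M)
        (by omega) (le_refl _) (X := win (Fin j ⊕ Ch) (-M) (-1))
        (le_refl _) (by omega)
        (fun p hp => by
          obtain ⟨e1, e2⟩ := hp
          exact ⟨e1, by omega⟩)
        (fun p hp => by
          obtain ⟨e1, e2⟩ := hp
          exact ⟨e1, by omega⟩)
        (win_conn _ _ _) hXX n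
        (hstep _ hXX (fun p hp => by
          obtain ⟨e1, e2⟩ := hp
          refine ⟨?_, ?_⟩
          · intro e3
            rw [e3] at e2
            exact absurd e2 (by norm_num)
          · intro c e3
            rw [e3] at e2
            exact absurd e2 (by norm_num))) (l2 h3) (lc c)
        (show _ ∈ win (Fin j ⊕ Ch) (-M) (-1) from ⟨by simp only; omega, by simp⟩) d1 d2 d3 d4

end Pool.Agent.H24.GH
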