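import Pool.Agent.H24.GH.NHp

/-!
# JOB GH-18: a leaf type, the star at its source

`hpat_D`. `s` a live type with the source `sc c`; `exists_loll` for `s`; `Ch = Unit`, `ch _ = c`; `exists_narr` (`h1`: `c` is not live,
`lfs_dead`; `h2`: `loll_leaf`, `lfs_ne`); `exists_ukit` gives `k₀`; `k = liftKt k₀ g`. `τ = ζ = c`, `m = num c`, `Xg = True`.
`SBase k c v (κ v, κD)`, `v` a vertex of the class `sc c`: `lift_ustar`, `ukit_star`; `R d q ≠ q`: the second component is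
`g c κD = κc () ≠ κD`; `narr_ex_y`, `narr_tie_y`: `CutY`: all cut darts have the type `c`, no one has a type in `tt` (`t2`).
`PBase k v' (κ v', κc ()) d d'`, `v'` a vertex of the class `sc (bar c)`, `d ≠ d'` two darts at `v'` (`3 ≤ num (bar c)` by `leaf_all`,
`h3`), they have the type `bar c`; `narr_ex_x`, `narr_tie_x`; `R d q ≠ q`: `g (bar c) (κc ()) = κD ≠ κc ()` (`Vt.inv`).
`GBase`: `g = (d₁, (κ v, κD))`, `d₁` a dart of type `c` at `v`; `cp`: let `y₀` be a star of `x₀` (`star_pair` for `d₁` and another dart of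
type `c` at `v`, `4 ≤ num c`, `d₁ ↦ yt`), `UStar`.
`zt y`: if `2 ≤ M c x₀ y` let `zt y = x₀`; if `M c x₀ y = 1` there is `z ≠ x₀` with `Dt c z y`, as `y` has `num (bar c) ≥ 3` darts of type
`bar c` and only `M (bar c) y x₀ = M c x₀ y` of them lead to `x₀` (`M_bar`); other `y`: arbitrary (`x₀`).
`hp_fin`: `M c x z = M (bar c) z x ≤ num (bar c) < num c` (`M_bar`, `M_le`); `Ful c x' (fun _ => z)` gives `M c x' z = num c`,
contradiction.
-/

namespace Pool.Agent.H24.GH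

open Pool.Agent.H24.GG

variable {V D T K : Type} {L : LS V D T K}

/-- the cut darts have the type `c` -/
private theorem nCaseD_cut {P : Type} {g : Vt L P} {c : T} {κD : P} {κc : Unit → P}
    {tt : T → Prop} (hA : NArr L g (fun _ : Unit => c) κD κc tt) (ht : ∃ τ, tt τ) {C : Set D}
    (hC : ∀ d ∈ C, L.ty d = c) : CutY L (fun _ : Unit => c) tt () C := by
  refine ⟨fun d hd => Or.inl ⟨(), hC d hd⟩, ?_, ?_⟩
  · obtain ⟨τ, hτ⟩ := ht
    refine ⟨τ, hτ, ?_⟩
    have h1 : {d ∈ C | L.ty d = τ} = ∅ := by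
      apply Set.eq_empty_of_forall_notMem
      rintro d ⟨h2, h3⟩
      exact hA.t2 τ hτ () (h3.symm.trans (hC d h2))
    rw [h1, Set.ncard_empty]
    exact L.num_pos τ
  · intro d hd h1
    exact absurd (hC d hd) (hA.t2 _ h1 ())

/-- a second vertex -/
private theorem nCaseD_zt [Finite D] {c : T} (h3 : 3 ≤ L.num (L.bar c)) {x₀ y : V}
    (hy : Dt L c x₀ y) : ∃ z, Dt L c z y ∧ (z = x₀ → 2 ≤ L.M c x₀ y) := by
  by_cases h : 2 ≤ L.M c x₀ y
  · exact ⟨x₀, hy, fun _ => h⟩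
  · have h1 : L.M (L.bar c) y x₀ < L.num (L.bar c) := by
      rw [M_bar]
      omega
    have h2 : L.cl y = L.sc (L.bar c) := (dt_cl hy).2
    rw [← L.num_eq y (L.bar c) h2] at h1
    obtain ⟨d, h4, h5⟩ := Set.exists_mem_notMem_of_ncard_lt_ncard h1 (Set.toFinite _)
    have h6 : L.hd d ≠ x₀ := fun h7 => h5 ⟨h4.1, h4.2, h7⟩
    have h7 : Dt L (L.bar c) y (L.hd d) := ⟨d, h4.1, rfl, h4.2⟩
    have h8 := dt_symm h7
    rw [L.bar_bar] at h8
    exact ⟨L.hd d, h8, fun h9 => absurd h9 h6⟩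

theorem hpat_D [Finite V] [Finite D] [Finite T] (h3 : ∀ x, 3 ≤ {d | L.tl d = x}.ncard) {c : T}
    (hc : Lfs L.sc (L.bar c)) (hl : ∃ s, L.sc s = L.sc c ∧ TLive L.sc L.bar s)
    (hlt : L.num (L.bar c) < L.num c) : ∃ k : Kt L, HPat k := by
  obtain ⟨s, hs, hsl⟩ := hl
  have hdead : ¬ TLive L.sc L.bar c := lfs_dead hc
  have hne : L.sc (L.bar c) ≠ L.sc c := lfs_ne L.bar_bar hc hs hsl
  obtain ⟨w, i, j, hw0, hw⟩ := exists_loll hsl
  obtain ⟨P, hP, g, κD, κc, hA⟩ := exists_narr hw (fun _ : Unit => c)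
    (fun _ => by rw [hw0, hs]) (Function.injective_of_subsingleton _)
    (fun _ h => hdead (by rw [h, hw0]; exact hsl))
    (fun h _ => by
      subst h
      exact loll_leaf L.bar_bar hw hc (by rw [hw0, hs]) hne)
  obtain ⟨k₀, sd, κ, -, -, hκ⟩ := exists_ukit L
  have htt : ∃ τ, (fun τ => τ = w 0 ∨ (i = 0 ∧ τ = L.bar (w (j - 1)))) τ := ⟨w 0, Or.inl rfl⟩
  have hlf : ∀ u : Unit, Lfs L.sc (L.bar ((fun _ : Unit => c) u)) := fun _ => hc
  obtain ⟨v', hv'⟩ := L.cls (L.bar c)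
  have hb3 : 3 ≤ L.num (L.bar c) := by
    rw [← leaf_all hc hv']
    exact h3 v'
  have hall : ∀ d, L.tl d = v' → L.ty d = L.bar c := by
    intro d hd
    apply hc
    rw [← L.cl_tl, hd, hv']
  have hR : ∀ (d : D) (q : k₀.Q) (p : P),
      (liftKt k₀ g).R d (q, p) = (k₀.R d q, g.g (L.ty d) p) := fun _ _ _ => rfl
  have hMlt : ∀ x z, L.M c x z < L.num c := by
    intro x z
    rw [← M_bar]
    exact lt_of_le_of_lt (M_le _ _ _) hlt
  refine ⟨liftKt k₀ g, hp_fin (τ := c) (m := L.num c) rfl (Xg := fun _ => True) ?_ ?_ ?_ ?_⟩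
  · obtain ⟨x, hx⟩ := L.cls c
    exact ⟨x, trivial, hx⟩
  · intro x z _ _
    exact hMlt x z
  · intro x z x' _ _ hF
    have h1 := hF.2 z
    have h2 : {i : Fin (L.num c) | (fun _ : Fin (L.num c) => z) i = z} = Set.univ :=
      Set.eq_univ_of_forall fun _ => rfl
    rw [h2, Set.ncard_univ, Nat.card_eq_fintype_card, Fintype.card_fin] at h1
    exact absurd (hMlt x' z) (by omega)
  · intro x₀ _ hx₀
    have hus : UStar (liftKt k₀ g) x₀ (κ x₀, κD) := lift_ustar k₀ g (ukit_star (hκ x₀)) κD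
    have hS : SBase (liftKt k₀ g) c x₀ (κ x₀, κD) := by
      refine ⟨hx₀, hus, ?_, ?_, ?_⟩
      · intro d _ h2 h4
        rw [hR, h2] at h4
        have h5 : g.g c κD = κD := congrArg Prod.snd h4
        exact hA.cd () ((hA.c1 ()).symm.trans h5)
      · intro d h1 h2
        refine narr_ex_y hA h3 hlf (c₀ := ()) (d := d) (q := κ x₀) (by rw [h1]; exact hx₀) ?_
        refine nCaseD_cut hA htt ?_
        rintro d' rfl
        exact h2
      · intro d d' h1 h1' h2 h2' h4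
        refine narr_tie_y hA h3 hlf (c₀ := ()) (q := κ x₀) (by rw [h1]; exact hx₀)
          (h1.trans h1'.symm) h4 ?_
        refine nCaseD_cut hA htt ?_
        rintro d'' (rfl | rfl)
        · exact h2
        · exact h2'
    -- two darts at `v'`
    have hv3 : 1 < {d | L.tl d = v'}.ncard := lt_of_lt_of_le (by norm_num) (h3 v')
    obtain ⟨d, d', hd, hd', hdd⟩ := (Set.one_lt_ncard_iff (Set.toFinite _)).1 hv3
    have hcl' : L.cl (L.tl d) = L.sc (L.bar ((fun _ : Unit => c) ())) := by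
      rw [hd]
      exact hv'
    have hcl'' : L.cl (L.tl d') = L.sc (L.bar ((fun _ : Unit => c) ())) := by
      rw [hd']
      exact hv'
    have hPB : PBase (liftKt k₀ g) v' (κ v', κc ()) d d' := by
      refine ⟨lift_ustar k₀ g (ukit_star (hκ v')) (κc ()), hd, hd', hdd, ?_, ?_, ?_, ?_⟩
      · intro h4
        rw [hR, hall d hd] at h4
        have h5 : g.g (L.bar c) (κc ()) = κc () := congrArg Prod.snd h4
        rw [g.inv, Equiv.symm_apply_eq] at h5
        have h6 : g.g c κD = g.g c (κc ()) := (hA.c1 ()).trans h5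
        exact hA.cd () ((g.g c).injective h6).symm
      · exact narr_ex_x hA h3 htt (c₀ := ()) hc (q := κ v') hcl'
      · exact narr_ex_x hA h3 htt (c₀ := ()) hc (q := κ v') hcl''
      · exact narr_tie_x hA h3 htt (c₀ := ()) hc (q := κ v') hcl' (hd.trans hd'.symm) hdd
    -- the guard
    obtain ⟨yt, d₁, e1, e2, e3⟩ := dt_exists hx₀
    have hG : GBase (liftKt k₀ g) c x₀ yt (fun _ => True) (d₁, (κ x₀, κD)) := by
      refine ⟨e3, hS.ex d₁ e1 e3, fun _ _ _ => trivial, ?_⟩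
      obtain ⟨f, e, h1, h2, h4⟩ := hus x₀ L.hd rfl (fun t z => rfl)
      refine ⟨f, e, h1, ?_⟩
      have h5 : (liftKt k₀ g).net.tl (d₁, (κ x₀, κD)) = (x₀, (κ x₀, κD)) := by
        show (L.tl d₁, (κ x₀, κD)) = _
        rw [e1]
      have h6 : f ((liftKt k₀ g).net.tl (d₁, (κ x₀, κD))) = x₀ := (congrArg f h5).trans h2
      exact Prod.ext h6 ((h4 d₁ e1).trans e2)
    have hz : ∀ y, ∃ z, Dt L c x₀ y → Dt L c z y ∧ (z = x₀ → 2 ≤ L.M c x₀ y) := by
      intro y
      by_cases h : Dt L c x₀ y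
      · obtain ⟨z, hz⟩ := nCaseD_zt hb3 h
        exact ⟨z, fun _ => hz⟩
      · exact ⟨x₀, fun h' => absurd h' h⟩
    choose zt hzt using hz
    exact ⟨c, yt, zt, mk_ties (by omega) rfl hS hPB (hall d hd) (hall d' hd')
      (fun y hy => ⟨(hzt y hy).1, fun _ => (hzt y hy).2⟩) ⟨d₁, e1, e2, e3⟩ hG⟩

end Pool.Agent.H24.GH
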