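import Pool.Agent.H24.GH.NHp

/-!
# JOB GH-19: a leaf type, the star at its end

`leaf_np`: if `num c ≤ num (bar c)` and `c` is not matched or `num c = 1` then there is `x` of the class `sc (bar c)` with
`2 ≤ supp (bar c) x`. Otherwise `supp (bar c) x ≤ 1` for all these `x`; `M c y x = num (bar c)` for `Dt c y x` (`supp_one`, `M_bar`). As
`3 ≤ num (bar c)`, `num c = 1` is impossible (`M_le`), and `Dt c y x`, `Dt c y x'`, `x ≠ x'` would give (`M_two`)
`2 * num (bar c) ≤ num c`; so every `y` has one end of type `c`, `c` is matched, contradiction to `hr`.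
`hpat_X`. `exists_sec` gives `g, ch, κD, κc, tt, c₀, σ`; `exists_ukit` gives `k₀`; `k = sumKt (liftKt k₀ g) (liftKt (unitKt L) g)`.
`τ = bar c`, `ζ = bar σ`, `m = num (bar c)`, `Xg x` iff `2 ≤ supp L (bar c) x`.
`SBase k (bar c) v (inl (κ v, κc c₀))`, `v` of the class `sc (bar c)`: `sum_ustar_inl`, `lift_ustar`, `ukit_star`; `R d q ≠ q`:
`g (bar c) (κc c₀) = κD`; `sum_exact_inl`, `narr_ex_x`, `sum_tie_inl`, `narr_tie_x`.
`PBase k v' (inl (κ v', κD)) d d'`, `v'` of the class `sc c`, `d` of type `c`, `d'` of type `σ`, `d ≠ d'` (if `σ = c` then `2 ≤ num c`);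
`narr_ex_y`, `narr_tie_y`, `CutY` from `exists_sec`; `R d q ≠ q`: `g c κD = κc c₀ ≠ κD`.
`GBase` at `g = (d₁, inr ((), κc c₀))`, `d₁` a dart of type `bar c` from `x₀` to `yt`: `ex`: `sum_exact_inr`, `narr_ex_x` for the kit
`unitKt L`; `xg`: `sum_el_inr`, `guard_supp` for `v = x₀`; `cp`: `proj_el`.
`zt y` for `Dt (bar c) x₀ y`: if `σ ≠ c` any `z` with `Dt σ y z` (`dt_exists`, `cl y = sc c`), so `Dt ζ z y` (`dt_symm`); `ζ = τ` would
give `σ = c`. If `σ = c`, `2 ≤ num c`: if `2 ≤ M (bar c) x₀ y` let `zt y = x₀`; otherwise there is `z ≠ x₀` with `Dt c y z`, as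
`M c y x₀ = 1 < num c`.
`hp_fin`: `hX`: `leaf_np`. `hM`: if `M (bar c) x z = num (bar c)` then all darts of type `bar c` at `x` have the end `z`, so
`supp (bar c) x ≤ 1`. `h1`: `Ful (bar c) x' (fun _ => z)` gives `M (bar c) x' z = num (bar c)`, so `M c z x' = num (bar c) ≥ num c`;
`Dt (bar c) x z` gives `M c z x ≠ 0`, so `x = x'` by `M_two`; but then `supp (bar c) x ≤ 1`, contradiction.
-/

namespace Pool.Agent.H24.GH

open Pool.Agent.H24.GG

variable {V D T K : Type} {L : LS V D T K}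

theorem ncaseX_num3 (h3 : ∀ x, 3 ≤ {d | L.tl d = x}.ncard) {c : T}
    (hc : Lfs L.sc (L.bar c)) : 3 ≤ L.num (L.bar c) := by
  obtain ⟨x, hx⟩ := L.cls (L.bar c)
  rw [← leaf_all hc hx]
  exact h3 x

theorem ncaseX_uniq [Finite D] {τ : T} {x y y' : V} (h : L.M τ x y = L.num τ) (hy : Dt L τ x y') :
    y' = y := by
  by_contra hne
  have h1 := M_two (L := L) (τ := τ) (x := x) hne
  have h2 : L.M τ x y' ≠ 0 := dt_iff.1 hy
  omega

theorem ncaseX_supp [Finite D] {τ : T} {x y : V} (h : L.M τ x y = L.num τ) : supp L τ x ≤ 1 := by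
  unfold supp
  have h1 : {y | Dt L τ x y} ⊆ {y} := fun y' hy' => ncaseX_uniq h hy'
  calc {y | Dt L τ x y}.ncard ≤ ({y} : Set V).ncard := Set.ncard_le_ncard h1 (Set.finite_singleton y)
    _ = 1 := Set.ncard_singleton y

theorem leaf_np [Finite D] (h3 : ∀ x, 3 ≤ {d | L.tl d = x}.ncard) {c : T}
    (hc : Lfs L.sc (L.bar c)) (hle : L.num c ≤ L.num (L.bar c)) (hr : Mtd L c → L.num c = 1) :
    ∃ x, 2 ≤ supp L (L.bar c) x ∧ L.cl x = L.sc (L.bar c) := by
  by_contra hno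
  have hs : ∀ x, L.cl x = L.sc (L.bar c) → supp L (L.bar c) x ≤ 1 := by
    intro x hx
    by_contra h
    exact hno ⟨x, by omega, hx⟩
  have hn3 := ncaseX_num3 h3 hc
  have hM : ∀ y x, Dt L c y x → L.M c y x = L.num (L.bar c) := by
    intro y x hd
    have h1 := dt_symm hd
    rw [← M_bar]
    exact supp_one (hs x (dt_cl hd).2) h1
  have hMtd : Mtd L c := by
    constructor
    · intro d d' hd hd' ht
      by_contra hne
      have h1 := hM (L.tl d) (L.hd d) ⟨d, rfl, rfl, hd⟩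
      have h2 := hM (L.tl d) (L.hd d') ⟨d', ht.symm, rfl, hd'⟩
      have h4 := M_two (L := L) (τ := c) (x := L.tl d) hne
      omega
    · intro d d' hd hd' ht
      have h1 : Dt L (L.bar c) (L.tl d) (L.hd d) := ⟨d, rfl, rfl, hd⟩
      have h2 : Dt L (L.bar c) (L.tl d) (L.hd d') := ⟨d', ht.symm, rfl, hd'⟩
      exact ncaseX_uniq (supp_one (hs _ (dt_cl h1).1) h2) h1
  have h1 := hr hMtd
  obtain ⟨y, hy⟩ := L.cls c
  obtain ⟨x, hx⟩ := dt_exists hy
  have h2 := hM y x hx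
  have h4 := M_le (L := L) c y x
  omega

theorem ncaseX_two {V D T K : Type} {L : LS V D T K} [Finite D] {c σ : T}
    (hσ : L.sc σ = L.sc c) (hσc : σ = c → 2 ≤ L.num c) {v : V} (hv : L.cl v = L.sc c) :
    ∃ d d', L.tl d = v ∧ L.tl d' = v ∧ L.ty d = c ∧ L.ty d' = σ ∧ d ≠ d' := by
  by_cases h : σ = c
  · have h1 : 1 < {d | L.tl d = v ∧ L.ty d = c}.ncard := by
      rw [L.num_eq v c hv]
      exact hσc h
    obtain ⟨d, hd, d', hd', hne⟩ := (Set.one_lt_ncard (Set.toFinite _)).1 h1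
    exact ⟨d, d', hd.1, hd'.1, hd.2, by rw [h]; exact hd'.2, hne⟩
  · obtain ⟨y, d, hd1, -, hd2⟩ := dt_exists (t := c) hv
    obtain ⟨y', d', hd1', -, hd2'⟩ := dt_exists (t := σ) (x := v) (by rw [hσ]; exact hv)
    refine ⟨d, d', hd1, hd1', hd2, hd2', ?_⟩
    rintro rfl
    exact h (hd2'.symm.trans hd2)

theorem ncaseX_zt {V D T K : Type} {L : LS V D T K} [Finite D] {c σ : T}
    (hσ : L.sc σ = L.sc c) (hσc : σ = c → 2 ≤ L.num c) (x₀ : V) :
    ∃ zt : V → V, ∀ y, Dt L (L.bar c) x₀ y → Dt L (L.bar σ) (zt y) y ∧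
      (L.bar σ = L.bar c → zt y = x₀ → 2 ≤ L.M (L.bar c) x₀ y) := by
  have key : ∀ y, ∃ z, Dt L (L.bar c) x₀ y → Dt L (L.bar σ) z y ∧
      (L.bar σ = L.bar c → z = x₀ → 2 ≤ L.M (L.bar c) x₀ y) := by
    intro y
    by_cases hy : Dt L (L.bar c) x₀ y
    · have hcy : L.cl y = L.sc c := by
        have h1 := (dt_cl hy).2
        rwa [L.bar_bar] at h1
      by_cases h : σ = c
      · subst h
        by_cases h2 : 2 ≤ L.M (L.bar σ) x₀ y
        · exact ⟨x₀, fun _ => ⟨hy, fun _ _ => h2⟩⟩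
        · have h4 : L.M σ y x₀ < L.num σ := by
            have h5 := hσc rfl
            rw [← M_bar]
            omega
          have h5 : {d | L.tl d = y ∧ L.ty d = σ ∧ L.hd d = x₀}.ncard <
              {d | L.tl d = y ∧ L.ty d = σ}.ncard := by
            rw [L.num_eq y σ hcy]
            exact h4
          obtain ⟨d, hd, hd'⟩ := Set.exists_mem_notMem_of_ncard_lt_ncard h5 (Set.toFinite _)
          refine ⟨L.hd d, fun _ => ⟨dt_symm ⟨d, hd.1, rfl, hd.2⟩, fun _ h6 => ?_⟩⟩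
          exact absurd ⟨hd.1, hd.2, h6⟩ hd'
      · obtain ⟨z, hz⟩ := dt_exists (t := σ) (x := y) (by rw [hσ]; exact hcy)
        refine ⟨z, fun _ => ⟨dt_symm hz, fun h6 => absurd ?_ h⟩⟩
        rw [← L.bar_bar σ, h6, L.bar_bar]
    · exact ⟨x₀, fun h => absurd h hy⟩
  choose zt hzt using key
  exact ⟨zt, hzt⟩

theorem hpat_X [Finite V] [Finite D] [Finite T] (h3 : ∀ x, 3 ≤ {d | L.tl d = x}.ncard)
    (hcn : LConn L) {c : T} (hc : Lfs L.sc (L.bar c))
    (hl : ∃ s, L.sc s = L.sc c ∧ TLive L.sc L.bar s)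
    (hnd : ∀ s, L.sc s = L.sc c → TLive L.sc L.bar s ∨ Lfs L.sc (L.bar s))
    (hle : L.num c ≤ L.num (L.bar c)) (hr : Mtd L c → L.num c = 1) : ∃ k : Kt L, HPat k := by
  obtain ⟨P, iP, g, Ch, ch, κD, κc, tt, c₀, σ, hA, ht, hlf, hch, hσ, hσc, hcut⟩ :=
    exists_sec h3 hc hl hnd
  obtain ⟨k₀, sd, κ, -, -, hu⟩ := exists_ukit L
  have hn3 := ncaseX_num3 h3 hc
  have g1 : g.g c κD = κc c₀ := by
    rw [← hch]
    exact hA.c1 c₀
  have g2 : g.g (L.bar c) (κc c₀) = κD := by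
    rw [g.inv, ← g1, Equiv.symm_apply_apply]
  have hcd : κc c₀ ≠ κD := hA.cd c₀
  have hbc : L.bar (ch c₀) = L.bar c := by rw [hch]
  have hM : ∀ x z, 2 ≤ supp L (L.bar c) x → L.cl x = L.sc (L.bar c) →
      L.M (L.bar c) x z < L.num (L.bar c) := by
    intro x z hx _
    refine lt_of_le_of_ne (M_le _ _ _) fun h => ?_
    have := ncaseX_supp h
    omega
  refine ⟨sumKt (liftKt k₀ g) (liftKt (unitKt L) g), ?_⟩
  refine hp_fin (τ := L.bar c) (m := L.num (L.bar c)) rfl (Xg := fun x => 2 ≤ supp L (L.bar c) x)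
    (leaf_np h3 hc hle hr) hM ?_ ?_
  · intro x z x' hx hz hf
    have hcx : L.cl x = L.sc (L.bar c) := (dt_cl hz).1
    have h1 : L.M (L.bar c) x' z = L.num (L.bar c) := by
      rw [← hf.2 z]
      have h2 : {i : Fin (L.num (L.bar c)) | z = z} = Set.univ := by
        ext i
        simp
      rw [h2, Set.ncard_univ, Nat.card_eq_fintype_card, Fintype.card_fin]
    by_cases hxx : x = x'
    · rw [← hxx] at h1
      exact (hM x z hx hcx).ne h1
    · have h4 := M_two (L := L) (τ := c) (x := z) hxx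
      have h5 : L.M c z x' = L.num (L.bar c) := by rw [← M_bar, h1]
      have h6 : L.M c z x ≠ 0 := by
        rw [← M_bar]
        exact dt_iff.1 hz
      omega
  · intro x₀ hx₀ hcx₀
    obtain ⟨yt, hyt⟩ := dt_exists hcx₀
    obtain ⟨zt, hzt⟩ := ncaseX_zt hσ hσc x₀
    refine ⟨L.bar σ, yt, zt, ?_⟩
    have hs : SBase (sumKt (liftKt k₀ g) (liftKt (unitKt L) g)) (L.bar c) x₀
        (Sum.inl (κ x₀, κc c₀)) := by
      refine ⟨hcx₀, sum_ustar_inl (lift_ustar k₀ g (ukit_star (hu x₀)) (κc c₀)), ?_, ?_, ?_⟩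
      · intro d _ hd h
        have h1 : (Sum.inl (k₀.R d (κ x₀), g.g (L.ty d) (κc c₀)) :
            (k₀.Q × P) ⊕ (Unit × P)) = Sum.inl (κ x₀, κc c₀) := h
        have h2 : g.g (L.ty d) (κc c₀) = κc c₀ := congrArg Prod.snd (Sum.inl_injective h1)
        rw [hd, g2] at h2
        exact hcd h2.symm
      · intro d hd _
        refine sum_exact_inl (k₁ := liftKt k₀ g) (narr_ex_x hA h3 ht (hlf c₀) ?_)
        rw [hd, hbc]
        exact hcx₀
      · intro d d' hd hd' _ _ hne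
        refine sum_tie_inl (k₁ := liftKt k₀ g) (narr_tie_x hA h3 ht (hlf c₀) ?_ ?_ hne)
        · rw [hd, hbc]
          exact hcx₀
        · rw [hd, hd']
    obtain ⟨vb, hvb⟩ := L.cls c
    obtain ⟨d, d', hd1, hd1', hd2, hd2', hne⟩ := ncaseX_two hσ hσc hvb
    obtain ⟨hc1, hc2, hc3⟩ := hcut d d' (by rw [hd1, hd1']) hd2 hd2'
    have hcd' : L.cl (L.tl d) = L.sc (ch c₀) := by
      rw [hd1, hch]
      exact hvb
    have hcd'' : L.cl (L.tl d') = L.sc (ch c₀) := by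
      rw [hd1', hch]
      exact hvb
    have hb : PBase (sumKt (liftKt k₀ g) (liftKt (unitKt L) g)) vb (Sum.inl (κ vb, κD)) d d' := by
      refine ⟨sum_ustar_inl (lift_ustar k₀ g (ukit_star (hu vb)) κD), hd1, hd1', hne, ?_, ?_, ?_,
        ?_⟩
      · intro h
        have h1 : (Sum.inl (k₀.R d (κ vb), g.g (L.ty d) κD) :
            (k₀.Q × P) ⊕ (Unit × P)) = Sum.inl (κ vb, κD) := h
        have h2 : g.g (L.ty d) κD = κD := congrArg Prod.snd (Sum.inl_injective h1)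
        rw [hd2, g1] at h2
        exact hcd h2
      · exact sum_exact_inl (k₁ := liftKt k₀ g) (narr_ex_y hA h3 hlf hcd' hc1)
      · exact sum_exact_inl (k₁ := liftKt k₀ g) (narr_ex_y hA h3 hlf hcd'' hc2)
      · exact sum_tie_inl (k₁ := liftKt k₀ g)
          (narr_tie_y hA h3 hlf hcd' (by rw [hd1, hd1']) hne hc3)
    obtain ⟨d₁, ha1, ha2, ha3⟩ := hyt
    have hg : GBase (sumKt (liftKt k₀ g) (liftKt (unitKt L) g)) (L.bar c) x₀ yt
        (fun x => 2 ≤ supp L (L.bar c) x) (d₁, Sum.inr ((), κc c₀)) := by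
      refine ⟨ha3, ?_, ?_, ?_⟩
      · refine sum_exact_inr (k₂ := liftKt (unitKt L) g)
          (narr_ex_x (k := unitKt L) hA h3 ht (hlf c₀) ?_)
        rw [ha1, hbc]
        exact hcx₀
      · intro f e hfe
        have h1 : EL (liftKt (unitKt L) g).net ∅ (fun w => f (w.1, Sum.inr w.2))
            (fun δ => e (δ.1, Sum.inr δ.2)) := sum_el_inr hfe
        have h4 := guard_supp hcn g (τ := L.bar c) h1 (v := x₀) (q := ((), κc c₀)) hcx₀ hx₀
        show 2 ≤ supp L (L.bar c) (f (L.tl d₁, Sum.inr ((), κc c₀)))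
        rw [ha1]
        exact h4
      · refine ⟨_, _, proj_el _, ?_⟩
        show (L.tl d₁, L.hd d₁) = (x₀, yt)
        rw [ha1, ha2]
    exact mk_ties hn3 rfl hs hb (by rw [hd2, L.bar_bar]) (by rw [hd2', L.bar_bar]) hzt
      ⟨d₁, ha1, ha2, ha3⟩ hg

end Pool.Agent.H24.GH
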