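import Pool.Agent.H24.GG.TGraph

/-!
# JOB GH-9: the choice of the leaf type; eventually periodic walks of types

`Lfs src s`: `s` is the only type with its source. `LollT w i j`: the walk `w 0, ..., w (j - 1)` can be continued by `w i`; the
types `w (i - 1)` and `w (j - 1)` are different.

`lfs_dead`: a successor `s'` of `c` has the source `src (bar c)`, so `s' = bar c`, contradiction.
`lfs_ne`: if `src (bar c) = src c` then every type with this source is `bar c`, so `c = bar c` and the live type is `c`,
contradiction to `lfs_dead`.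
`exists_loll`: the walk of `TLive`; `S` is finite, so there are `i < j` with `w i = w j`; take such a pair with the smallest `j`
(`Nat.find`); if `w (i - 1) = w (j - 1)` then `(i - 1, j - 1)` is a smaller pair.
`loll_closed`: the walk `a ↦ if a ≤ l then w a else w 0`, `i = 0`, `j = l + 1`; `NX (bar s') s` as `src s = src s'`, `s ≠ s'`.
`loll_leaf`: suppose `bar (w (j - 1)) = c`, so `w (j - 1) = bar c` is the only type with its source. If `2 ≤ j` then
`NX (w (j - 2)) (w (j - 1))` says `src (bar (w (j - 2))) = src (w (j - 1))`, so `bar (w (j - 2)) = w (j - 1)`, contradiction to `NX`.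
If `j = 1` (`i = 0`): `w 0 = bar c`, `src (w 0) = src c`, contradiction to `hne`.

`exists_ndt`. (0) Every source of a type is the source of a live type: it suffices (by `hc`) that if `src t = a`, `src (bar t) = b` and
`b` is the source of a live type `e` then `a` is the source of a live type: if `e ≠ bar t` then `t` is live (`t` followed by the walk
of `e`); if `e = bar t`: let `w` be its walk; `w 1` is live and `src (w 1) = src (bar (bar t)) = a`.
(1) Suppose there is a dead type `s` for which `bar s` is not `Lfs`. The relation `NX s' s''` on dead types is well-founded in the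
sense that there is no infinite walk, so (`S` finite) there is such an `s` for which all dead successors `e` of `s` satisfy
`Lfs (bar e)` (otherwise choose successors again and again: an infinite walk `NX` starting with `s`, contradiction to dead). All
successors of `s` are dead (otherwise `s` is live). As `bar s` is not `Lfs` there is a type `e ≠ bar s` with the source
`src (bar s)`: it is a successor. Let `c = e`. The types with the source `src c = src (bar s)` are `bar s` and successors `e'` of `s`,
for which `Lfs (bar e')`. By (0) there is a live type with this source; it is `bar s`.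
(2) Otherwise `Lfs (bar s)` for all dead `s`. Let `c = bar s₀`, where `Lfs s₀` (`hlf`).
-/

namespace Pool.Agent.H24.GH

open Pool.Agent.H24.GG

variable {S K : Type} {src : S → K} {bar : S → S}

/-- the only type with its source -/
def Lfs (src : S → K) (s : S) : Prop := ∀ s', src s' = src s → s' = s

/-- an eventually periodic walk -/
structure LollT (src : S → K) (bar : S → S) (w : ℕ → S) (i j : ℕ) : Prop where
  lt : i < j
  nx : ∀ a, a < j → NX src bar (w a) (w (a + 1))
  rep : w j = w i
  nb : ∀ a, i = a + 1 → w a ≠ w (j - 1)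

theorem lfs_dead {c : S} (h : Lfs src (bar c)) : ¬ TLive src bar c := by
  intro hl
  obtain ⟨b, hb, _⟩ := TG20_succ hl
  exact hb.2 (h b hb.1)

theorem lfs_ne (hb : ∀ s, bar (bar s) = s) {c s : S} (h : Lfs src (bar c)) (hs : src s = src c)
    (hl : TLive src bar s) : src (bar c) ≠ src c := by
  intro he
  have h1 : s = bar c := h s (hs.trans he.symm)
  have h2 : c = bar c := h c he.symm
  rw [h1, ← h2] at hl
  exact lfs_dead h hl

theorem exists_loll [Finite S] {s : S} (h : TLive src bar s) :
    ∃ (w : ℕ → S) (i j : ℕ), w 0 = s ∧ LollT src bar w i j := by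
  classical
  obtain ⟨w, h0, hw⟩ := h
  have hex : ∃ j : ℕ, ∃ i : ℕ, i < j ∧ w j = w i := by
    obtain ⟨i, j, hij, he⟩ := Finite.exists_ne_map_eq_of_infinite w
    rcases lt_or_gt_of_ne hij with h | h
    · exact ⟨j, i, h, he.symm⟩
    · exact ⟨i, j, h, he⟩
  obtain ⟨i, hi, he⟩ := Nat.find_spec hex
  refine ⟨w, i, Nat.find hex, h0, ⟨hi, fun a _ => hw a, he, fun a ha hn => ?_⟩⟩
  have hlt : Nat.find hex - 1 < Nat.find hex := by omega
  exact Nat.find_min hex hlt ⟨a, by omega, hn.symm⟩

theorem loll_closed (hb : ∀ s, bar (bar s) = s) {s s' : S} {l : ℕ} {w : ℕ → S} (h0 : w 0 = s)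
    (hl : w l = bar s') (hw : ∀ a < l, NX src bar (w a) (w (a + 1))) (hs : src s = src s')
    (hne : s ≠ s') : ∃ w' : ℕ → S, w' 0 = s ∧ w' l = bar s' ∧ LollT src bar w' 0 (l + 1) := by
  obtain ⟨v, hv⟩ : ∃ v : ℕ → S, v = fun a => if a ≤ l then w a else w 0 := ⟨_, rfl⟩
  have hv1 : ∀ a, a ≤ l → v a = w a := by
    intro a ha
    rw [hv]
    exact if_pos ha
  have hv2 : v (l + 1) = w 0 := by
    rw [hv]
    exact if_neg (by omega)
  have hv0 : v 0 = s := by rw [hv1 0 (Nat.zero_le l), h0]
  refine ⟨v, hv0, by rw [hv1 l le_rfl, hl], ⟨Nat.succ_pos l, fun a ha => ?_, ?_, fun a ha => ?_⟩⟩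
  · rcases Nat.lt_or_ge a l with h | h
    · rw [hv1 a h.le, hv1 (a + 1) h]
      exact hw a h
    · have ha' : a = l := by omega
      subst ha'
      rw [hv1 a le_rfl, hv2, hl, h0]
      refine ⟨?_, ?_⟩
      · rw [hb s']
        exact hs
      · rw [hb s']
        exact hne
  · rw [hv2, hv0, h0]
  · omega

theorem loll_leaf (hb : ∀ s, bar (bar s) = s) {w : ℕ → S} {j : ℕ} (h : LollT src bar w 0 j) {c : S}
    (hc : Lfs src (bar c)) (hs : src (w 0) = src c) (hne : src (bar c) ≠ src c) :
    c ≠ bar (w (j - 1)) := by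
  intro hcw
  have h1 : w (j - 1) = bar c := by rw [hcw, hb]
  have hj := h.lt
  rcases Nat.lt_or_ge j 2 with h2 | h2
  · have hj1 : j - 1 = 0 := by omega
    rw [hj1] at h1
    rw [h1] at hs
    exact hne hs
  · obtain ⟨m, hm⟩ : ∃ m, j = m + 2 := ⟨j - 2, by omega⟩
    have h3 := h.nx m (by omega)
    have h4 : j - 1 = m + 1 := by omega
    rw [h4] at h1
    have h5 := h3.1
    have h6 := h3.2
    rw [h1] at h5 h6
    exact h6 (hc _ h5.symm).symm

theorem exists_ndt [Finite S] (hb : ∀ s, bar (bar s) = s)
    (hc : ∀ s s', Relation.ReflTransGen (fun a b => ∃ t, src t = a ∧ src (bar t) = b) (src s)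
      (src s')) (hl : ∃ s, TLive src bar s) (hlf : ∃ s, Lfs src s) :
    ∃ c, Lfs src (bar c) ∧ (∃ s, src s = src c ∧ TLive src bar s) ∧
      ∀ s, src s = src c → TLive src bar s ∨ Lfs src (bar s) := by
  classical
  obtain ⟨s₁, hs₁⟩ := hl
  have h0 : ∀ t : S, ∃ e, src e = src t ∧ TLive src bar e := by
    intro t
    have key : ∀ a b : K, (∃ t, src t = a ∧ src (bar t) = b) →
        (∃ e, src e = b ∧ TLive src bar e) → ∃ e, src e = a ∧ TLive src bar e := by
      rintro a b ⟨t, ht1, ht2⟩ ⟨e, he1, he2⟩
      by_cases hne : e = bar t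
      · rw [hne] at he2
        obtain ⟨f, hf1, hf2⟩ := TG20_succ he2
        refine ⟨f, ?_, hf2⟩
        rw [hf1.1, hb t, ht1]
      · exact ⟨t, ht1, TG20_cons ⟨by rw [he1, ht2], hne⟩ he2⟩
    have h1 := hc t s₁
    exact Relation.ReflTransGen.head_induction_on
      (motive := fun a _ => ∃ e, src e = a ∧ TLive src bar e) h1 ⟨s₁, rfl, hs₁⟩
      (fun {a b} hab _ ih => key a b hab ih)
  by_cases hD : ∃ s, ¬ TLive src bar s ∧ ¬ Lfs src (bar s)
  · obtain ⟨s₂, hs₂⟩ := hD
    have h1 : ∃ s, (¬ TLive src bar s ∧ ¬ Lfs src (bar s)) ∧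
        ∀ e, NX src bar s e → ¬ TLive src bar e → Lfs src (bar e) := by
      by_contra hcon
      push Not at hcon
      exact hs₂.1 (TG20_inf (fun s => ¬ TLive src bar s ∧ ¬ Lfs src (bar s))
        (fun a ha => by
          obtain ⟨e, he1, he2, he3⟩ := hcon a ha
          exact ⟨e, ⟨he2, he3⟩, he1⟩) hs₂)
    obtain ⟨s, ⟨hsd, hsl⟩, hsucc⟩ := h1
    have hdead : ∀ e, NX src bar s e → ¬ TLive src bar e := fun e he hl => hsd (TG20_cons he hl)
    obtain ⟨c, hc1, hc2⟩ : ∃ c, src c = src (bar s) ∧ c ≠ bar s := by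
      unfold Lfs at hsl
      push Not at hsl
      exact hsl
    have hNX : NX src bar s c := ⟨hc1, hc2⟩
    obtain ⟨e, he1, he2⟩ := h0 c
    refine ⟨c, hsucc c hNX (hdead c hNX), ⟨e, he1, he2⟩, fun t ht => ?_⟩
    by_cases htb : t = bar s
    · left
      have heb : e = bar s := by
        by_contra hne
        exact hdead e ⟨by rw [he1, hc1], hne⟩ he2
      rw [htb, ← heb]
      exact he2
    · right
      have hNt : NX src bar s t := ⟨by rw [ht, hc1], htb⟩
      exact hsucc t hNt (hdead t hNt)
  · push Not at hD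
    obtain ⟨s₀, hs₀⟩ := hlf
    obtain ⟨e, he1, he2⟩ := h0 (bar s₀)
    refine ⟨bar s₀, by rw [hb]; exact hs₀, ⟨e, he1, he2⟩, fun t _ => ?_⟩
    by_cases ht : TLive src bar t
    · exact Or.inl ht
    · exact Or.inr (hD t ht)

end Pool.Agent.H24.GH
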