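import Pool.Agent.H24.GH.NCaseD
import Pool.Agent.H24.GH.NCaseX
import Pool.Agent.H24.GH.LConn
import Pool.Agent.H24.GG.MFin

/-!
# JOB GH-21: hardness if there is a leaf type and a live type

`hpat_leaf`: `exists_ndt` (`hc`: from `hcn`: let `cl x = sc s`, `cl y = sc s'` (`cls`), a path of darts from `x` to `y`; a dart `d` gives
the step from `sc (ty d) = cl (tl d)` to `sc (bar (ty d)) = cl (hd d)`) gives `c`. If `num (bar c) < num c`: `hpat_D`, otherwise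
`hpat_X`.
`hard_leaf`: `lab_deg` and `lab_conn` for `L'` (`Rf.tl`, `Rf.rv`), `hpat_leaf`, `HPat.tr`, `hard_of_hpat`.
-/

namespace Pool.Agent.H24.GH

open Pool.Agent.H24.GC Pool.Agent.H24.GG

theorem hpat_leaf {V D T K : Type} {L : LS V D T K} [Finite V] [Finite D] [Finite T]
    (h3 : ∀ x, 3 ≤ {d | L.tl d = x}.ncard) (hcn : LConn L) (hr : ∀ t, Mtd L t → L.num t = 1)
    (hl : ∃ s, TLive L.sc L.bar s) (hlf : ∃ s, Lfs L.sc s) : ∃ k : Kt L, HPat k := by
  have hc : ∀ s s', Relation.ReflTransGen (fun a b => ∃ t, L.sc t = a ∧ L.sc (L.bar t) = b)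
      (L.sc s) (L.sc s') := by
    intro s s'
    obtain ⟨x, hx⟩ := L.cls s
    obtain ⟨y, hy⟩ := L.cls s'
    rw [← hx, ← hy]
    refine Relation.ReflTransGen.lift L.cl ?_ x y (hcn x y)
    rintro a b ⟨d, h1, h2⟩
    refine ⟨L.ty d, ?_, ?_⟩
    · rw [← h1, L.cl_tl]
    · rw [← h2]
      show _ = L.cl (L.tl (L.rv d))
      rw [L.cl_tl, L.ty_rv]
  obtain ⟨c, h1, h2, h4⟩ := exists_ndt L.bar_bar hc hl hlf
  by_cases h : L.num (L.bar c) < L.num c
  · exact hpat_D h3 h1 h2 h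
  · exact hpat_X h3 hcn h1 h2 h4 (not_lt.1 h) (hr c)

theorem hard_leaf {V : Type} [Finite V] {H : SimpleGraph V} (hH : Gd H) (hc : H.Connected)
    {T' : Type} [Finite T'] {L' : LS (LV H) (LD H) T' (LK H)} {ρ : T' → LT H}
    (h : Rf (lab H) L' ρ) (hr : ∀ t', Mtd L' t' → L'.num t' = 1)
    (hl : ∃ s, TLive L'.sc L'.bar s) (hlf : ∃ s, Lfs L'.sc s) : HardH H := by
  have h3 : ∀ x, 3 ≤ {d | L'.tl d = x}.ncard := by
    intro x
    rw [h.tl]
    exact lab_deg H x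
  have hcn : LConn L' := by
    intro x y
    refine Relation.ReflTransGen.mono ?_ x y (lab_conn hc x y)
    rintro a b ⟨d, h1, h2⟩
    refine ⟨d, ?_, ?_⟩
    · rw [h.tl]
      exact h1
    · show L'.tl (L'.rv d) = b
      rw [h.tl, h.rv]
      exact h2
  obtain ⟨k, hk⟩ := hpat_leaf h3 hcn hr hl hlf
  exact hard_of_hpat hH (HPat.tr h hk)

end Pool.Agent.H24.GH
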