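import Pool.Agent.H24.GH.NPotA

/-!
# JOB GH-14: the disjoint union of two kits; the guard

`sumKt k₁ k₂`: the disjoint union. `unitKt`: the net is `L` itself. `proj_el`: the projection is a labelling (`d ↦ (d, κ)` is a
bijection of the darts at `x` to the darts at `(x, κ)`).
`sum_el_inl`, `sum_el_inr`: the restriction of a labelling (at the vertex `(x, inl κ)` the darts are the `(d, inl κ)`; for `unc`:
`rv (d, inl κ) = (rv d, inl (R d κ))`). `sum_exact_inl`, `sum_exact_inr`, `sum_tie_inl`: restrict; the darts of the other part are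
not cut. `sum_ustar_inl`: the labelling of `h` on the first part, `proj_el` on the second one.

`LConn`: connected. `el_const`: if `L` is connected and `f, e` is a labelling without cuts then every vertex of `L` is the label of
the same number of vertices of the net: `flow_unc` for the positions `Unit` (`g` the trivial `Vt`) along the darts.
`guard_supp`: the kit is `liftKt (unitKt L) g`. Let `S` be the set of the `x` with `cl x = sc τ`, `supp L τ x ≤ 1`. If `v ∈ S` then all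
darts of type `τ` at `v` have the same end `z` (`supp` is the number of the ends, `Set.ncard_le_one`), so all darts of type `τ` at
`(v, ((), p))` have the same head `(z, ((), g τ p))` (`R` depends only on the type), so `e` is constant on them; by `star` the vertex
`f (v, ((), p))` has at most one end of type `τ`, `f (v, ((), p)) ∈ S`. So `{w | w.1 ∈ S} ⊆ {w | f w ∈ S}`. The first set has
`|S| * |Q|` elements, the second one too: by `el_const` all fibres of `f` have the same number `n₀` of elements,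
`n₀ * |V| = |V| * |Q|` (`V` is not empty). So the sets are equal: `f (v, q) ∈ S → v ∈ S`.
-/

namespace Pool.Agent.H24.GH

open Pool.Agent.H24.GG

variable {V D T K : Type} {L : LS V D T K}

/-- the disjoint union of two kits -/
def sumKt (k₁ k₂ : Kt L) : Kt L where
  Q := k₁.Q ⊕ k₂.Q
  fin := inferInstance
  R d := Equiv.sumCongr (k₁.R d) (k₂.R d)
  R_rv d := by
    rw [k₁.R_rv, k₂.R_rv]
    rfl

/-- the trivial kit -/
def unitKt (L : LS V D T K) : Kt L where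
  Q := Unit
  fin := inferInstance
  R _ := Equiv.refl _
  R_rv _ := rfl

theorem proj_el (k : Kt L) : EL k.net ∅ (fun w => w.1) (fun δ => L.hd δ.1) := by
  refine ⟨fun _ => rfl, ?_, fun _ _ _ => rfl⟩
  rintro ⟨x, κ⟩ t y
  refine Set.ncard_congr (fun δ _ => δ.1) ?_ ?_ ?_
  · rintro ⟨d, κ'⟩ ⟨h1, h2, h3⟩
    exact ⟨congrArg Prod.fst h1, h2, h3⟩
  · rintro ⟨d, κ₁⟩ ⟨d', κ₂⟩ ⟨h1, -⟩ ⟨h2, -⟩ h3
    have h0 : d = d' := h3
    have h4 : κ₁ = κ := congrArg Prod.snd h1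
    have h5 : κ₂ = κ := congrArg Prod.snd h2
    rw [h0, h4, h5]
  · rintro d ⟨h1, h2, h3⟩
    refine ⟨(d, κ), ⟨?_, h2, h3⟩, rfl⟩
    show (L.tl d, κ) = (x, κ)
    rw [h1]

section

variable {k₁ k₂ : Kt L}

theorem sumK_congr {W Δ : Type} {N : Net L W Δ} {C C' : Set Δ} {f : W → V} {e : Δ → V}
    (h : EL N C f e) (hC : C = C') : EL N C' f e := hC ▸ h

theorem sumK_star_inl (e : D × (k₁.Q ⊕ k₂.Q) → V) (x : V) (κ : k₁.Q) (t : T) (y : V) :
    {δ | (sumKt k₁ k₂).net.tl δ = (x, Sum.inl κ) ∧ (sumKt k₁ k₂).net.ty δ = t ∧ e δ = y}.ncard =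
      {δ | k₁.net.tl δ = (x, κ) ∧ k₁.net.ty δ = t ∧ e (δ.1, Sum.inl δ.2) = y}.ncard := by
  symm
  refine Set.ncard_congr (fun δ _ => ((δ.1, Sum.inl δ.2) : D × (k₁.Q ⊕ k₂.Q))) ?_ ?_ ?_
  · rintro ⟨d, κ'⟩ ⟨h1, h2, h3⟩
    have h4 : (L.tl d, κ') = (x, κ) := h1
    refine ⟨?_, h2, h3⟩
    have h5 : L.tl d = x := congrArg Prod.fst h4
    have h6 : κ' = κ := congrArg Prod.snd h4
    show (L.tl d, (Sum.inl κ' : k₁.Q ⊕ k₂.Q)) = (x, Sum.inl κ)
    rw [h5, h6]
  · rintro ⟨d, κ₁⟩ ⟨d', κ₂⟩ _ _ h3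
    have h4 : d = d' := congrArg Prod.fst h3
    have h5 : (Sum.inl κ₁ : k₁.Q ⊕ k₂.Q) = Sum.inl κ₂ := congrArg Prod.snd h3
    rw [h4, Sum.inl_injective h5]
  · rintro ⟨d, q⟩ ⟨h1, h2, h3⟩
    have h4 : (L.tl d, q) = (x, Sum.inl κ) := h1
    have h5 : L.tl d = x := congrArg Prod.fst h4
    have h6 : q = Sum.inl κ := congrArg Prod.snd h4
    subst h6
    refine ⟨(d, κ), ⟨?_, h2, h3⟩, rfl⟩
    show (L.tl d, κ) = (x, κ)
    rw [h5]

theorem sumK_star_inr (e : D × (k₁.Q ⊕ k₂.Q) → V) (x : V) (κ : k₂.Q) (t : T) (y : V) :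
    {δ | (sumKt k₁ k₂).net.tl δ = (x, Sum.inr κ) ∧ (sumKt k₁ k₂).net.ty δ = t ∧ e δ = y}.ncard =
      {δ | k₂.net.tl δ = (x, κ) ∧ k₂.net.ty δ = t ∧ e (δ.1, Sum.inr δ.2) = y}.ncard := by
  symm
  refine Set.ncard_congr (fun δ _ => ((δ.1, Sum.inr δ.2) : D × (k₁.Q ⊕ k₂.Q))) ?_ ?_ ?_
  · rintro ⟨d, κ'⟩ ⟨h1, h2, h3⟩
    have h4 : (L.tl d, κ') = (x, κ) := h1
    refine ⟨?_, h2, h3⟩
    have h5 : L.tl d = x := congrArg Prod.fst h4
    have h6 : κ' = κ := congrArg Prod.snd h4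
    show (L.tl d, (Sum.inr κ' : k₁.Q ⊕ k₂.Q)) = (x, Sum.inr κ)
    rw [h5, h6]
  · rintro ⟨d, κ₁⟩ ⟨d', κ₂⟩ _ _ h3
    have h4 : d = d' := congrArg Prod.fst h3
    have h5 : (Sum.inr κ₁ : k₁.Q ⊕ k₂.Q) = Sum.inr κ₂ := congrArg Prod.snd h3
    rw [h4, Sum.inr_injective h5]
  · rintro ⟨d, q⟩ ⟨h1, h2, h3⟩
    have h4 : (L.tl d, q) = (x, Sum.inr κ) := h1
    have h5 : L.tl d = x := congrArg Prod.fst h4
    have h6 : q = Sum.inr κ := congrArg Prod.snd h4
    subst h6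
    refine ⟨(d, κ), ⟨?_, h2, h3⟩, rfl⟩
    show (L.tl d, κ) = (x, κ)
    rw [h5]

theorem sum_el_inl {C : Set (D × (k₁.Q ⊕ k₂.Q))} {f : V × (k₁.Q ⊕ k₂.Q) → V}
    {e : D × (k₁.Q ⊕ k₂.Q) → V} (h : EL (sumKt k₁ k₂).net C f e) :
    EL k₁.net {δ | (δ.1, Sum.inl δ.2) ∈ C} (fun w => f (w.1, Sum.inl w.2))
      (fun δ => e (δ.1, Sum.inl δ.2)) := by
  refine ⟨fun w => h.cls (w.1, Sum.inl w.2), ?_, ?_⟩
  · rintro ⟨x, κ⟩ t y
    rw [← sumK_star_inl (k₂ := k₂) e x κ t y]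
    exact h.star (x, Sum.inl κ) t y
  · rintro ⟨d, q⟩ h1 h2
    exact h.unc (d, Sum.inl q) h1 h2

theorem sum_el_inr {C : Set (D × (k₁.Q ⊕ k₂.Q))} {f : V × (k₁.Q ⊕ k₂.Q) → V}
    {e : D × (k₁.Q ⊕ k₂.Q) → V} (h : EL (sumKt k₁ k₂).net C f e) :
    EL k₂.net {δ | (δ.1, Sum.inr δ.2) ∈ C} (fun w => f (w.1, Sum.inr w.2))
      (fun δ => e (δ.1, Sum.inr δ.2)) := by
  refine ⟨fun w => h.cls (w.1, Sum.inr w.2), ?_, ?_⟩
  · rintro ⟨x, κ⟩ t y
    rw [← sumK_star_inr (k₁ := k₁) e x κ t y]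
    exact h.star (x, Sum.inr κ) t y
  · rintro ⟨d, q⟩ h1 h2
    exact h.unc (d, Sum.inr q) h1 h2

theorem sum_exact_inl {d : D} {q : k₁.Q} (h : Exact k₁.net {(d, q)}) :
    Exact (sumKt k₁ k₂).net {(d, Sum.inl q)} := by
  intro f e h1
  rintro ⟨d', q' | q'⟩
  · have h2 := sum_el_inl h1
    have h3 : {δ : D × k₁.Q | (δ.1, (Sum.inl δ.2 : k₁.Q ⊕ k₂.Q)) ∈
        ({(d, Sum.inl q)} : Set (D × (k₁.Q ⊕ k₂.Q)))} = {(d, q)} := by
      ext δ
      constructor
      · intro h4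
        have h5 : (δ.1, (Sum.inl δ.2 : k₁.Q ⊕ k₂.Q)) = (d, Sum.inl q) := h4
        have h6 : δ.1 = d := congrArg Prod.fst h5
        have h7 : (Sum.inl δ.2 : k₁.Q ⊕ k₂.Q) = Sum.inl q := congrArg Prod.snd h5
        exact Prod.ext h6 (Sum.inl_injective h7)
      · intro h4
        have h5 : δ = (d, q) := h4
        show (δ.1, (Sum.inl δ.2 : k₁.Q ⊕ k₂.Q)) = (d, Sum.inl q)
        rw [h5]
    exact h _ _ (sumK_congr h2 h3) (d', q')
  · refine h1.unc (d', Sum.inr q') ?_ ?_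
    · intro h4
      have h5 : (Sum.inr q' : k₁.Q ⊕ k₂.Q) = Sum.inl q := congrArg Prod.snd h4
      exact Sum.inr_ne_inl h5
    · intro h4
      have h5 : (Sum.inr (k₂.R d' q') : k₁.Q ⊕ k₂.Q) = Sum.inl q := congrArg Prod.snd h4
      exact Sum.inr_ne_inl h5

theorem sum_exact_inr {d : D} {q : k₂.Q} (h : Exact k₂.net {(d, q)}) :
    Exact (sumKt k₁ k₂).net {(d, Sum.inr q)} := by
  intro f e h1
  rintro ⟨d', q' | q'⟩
  · refine h1.unc (d', Sum.inl q') ?_ ?_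
    · intro h4
      have h5 : (Sum.inl q' : k₁.Q ⊕ k₂.Q) = Sum.inr q := congrArg Prod.snd h4
      exact Sum.inl_ne_inr h5
    · intro h4
      have h5 : (Sum.inl (k₁.R d' q') : k₁.Q ⊕ k₂.Q) = Sum.inr q := congrArg Prod.snd h4
      exact Sum.inl_ne_inr h5
  · have h2 := sum_el_inr h1
    have h3 : {δ : D × k₂.Q | (δ.1, (Sum.inr δ.2 : k₁.Q ⊕ k₂.Q)) ∈
        ({(d, Sum.inr q)} : Set (D × (k₁.Q ⊕ k₂.Q)))} = {(d, q)} := by
      ext δ
      constructor
      · intro h4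
        have h5 : (δ.1, (Sum.inr δ.2 : k₁.Q ⊕ k₂.Q)) = (d, Sum.inr q) := h4
        have h6 : δ.1 = d := congrArg Prod.fst h5
        have h7 : (Sum.inr δ.2 : k₁.Q ⊕ k₂.Q) = Sum.inr q := congrArg Prod.snd h5
        exact Prod.ext h6 (Sum.inr_injective h7)
      · intro h4
        have h5 : δ = (d, q) := h4
        show (δ.1, (Sum.inr δ.2 : k₁.Q ⊕ k₂.Q)) = (d, Sum.inr q)
        rw [h5]
    exact h _ _ (sumK_congr h2 h3) (d', q')

theorem sum_tie_inl {d d' : D} {q : k₁.Q} (h : TlTie k₁.net (d, q) (d', q)) :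
    TlTie (sumKt k₁ k₂).net (d, Sum.inl q) (d', Sum.inl q) := by
  intro f e h1
  have h2 := sum_el_inl h1
  have h3 : {δ : D × k₁.Q | (δ.1, (Sum.inl δ.2 : k₁.Q ⊕ k₂.Q)) ∈
      ({(d, Sum.inl q), (d', Sum.inl q)} : Set (D × (k₁.Q ⊕ k₂.Q)))} = {(d, q), (d', q)} := by
    have aux : ∀ (δ : D × k₁.Q) (c : D),
        (δ.1, (Sum.inl δ.2 : k₁.Q ⊕ k₂.Q)) = (c, Sum.inl q) ↔ δ = (c, q) := by
      intro δ c
      constructor
      · intro h5
        have h6 : δ.1 = c := congrArg Prod.fst h5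
        have h7 : (Sum.inl δ.2 : k₁.Q ⊕ k₂.Q) = Sum.inl q := congrArg Prod.snd h5
        exact Prod.ext h6 (Sum.inl_injective h7)
      · intro h5
        rw [h5]
    ext δ
    exact or_congr (aux δ d) (aux δ d')
  exact h _ _ (sumK_congr h2 h3)

theorem sum_ustar_inl {v : V} {q : k₁.Q} (h : UStar k₁ v q) :
    UStar (sumKt k₁ k₂) v (Sum.inl q) := by
  intro x y hx hy
  obtain ⟨f₁, e₁, h1, h2, h3⟩ := h x y hx hy
  refine ⟨fun w => Sum.elim (fun κ => f₁ (w.1, κ)) (fun _ => w.1) w.2,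
    fun δ => Sum.elim (fun κ => e₁ (δ.1, κ)) (fun _ => L.hd δ.1) δ.2, ⟨?_, ?_, ?_⟩, h2, h3⟩
  · rintro ⟨z, κ | κ⟩
    · exact h1.cls (z, κ)
    · rfl
  · rintro ⟨z, κ | κ⟩ t u
    · exact (sumK_star_inl _ z κ t u).trans (h1.star (z, κ) t u)
    · exact (sumK_star_inr _ z κ t u).trans ((proj_el k₂).star (z, κ) t u)
  · rintro ⟨d, κ | κ⟩ _ _
    · exact h1.unc (d, κ) (Set.notMem_empty _) (Set.notMem_empty _)
    · rfl

end

/-- `L` is connected -/
def LConn (L : LS V D T K) : Prop :=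
  ∀ x y, Relation.ReflTransGen (fun a b => ∃ d, L.tl d = a ∧ L.hd d = b) x y

theorem el_const [Finite D] (hc : LConn L) {W Δ : Type} [Finite Δ] [Finite W] {N : Net L W Δ}
    {f : W → V} {e : Δ → V} (h : EL N ∅ f e) (x y : V) :
    {w | f w = x}.ncard = {w | f w = y}.ncard := by
  have key : ∀ a b, (∃ d, L.tl d = a ∧ L.hd d = b) →
      {w | f w = a}.ncard = {w | f w = b}.ncard := by
    rintro a b ⟨d, h1, h2⟩
    let g : Vt L Unit := ⟨fun _ => Equiv.refl _, fun _ => rfl⟩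
    have h3 := flow_unc h (pos := fun _ : W => ()) (g := g) (fun _ => rfl) (t := L.ty d) (x := a)
      (y := b) (p := ()) ⟨d, h1, h2, rfl⟩ (fun δ _ _ => ⟨Set.notMem_empty _, Set.notMem_empty _⟩)
    unfold nq at h3
    have h4 : ∀ z, {w : W | (() : Unit) = () ∧ f w = z} = {w | f w = z} := by
      intro z
      ext w
      exact ⟨fun h => h.2, fun h => ⟨rfl, h⟩⟩
    have h5 := h4 a
    have h6 := h4 b
    have h7 : ({w : W | (() : Unit) = () ∧ f w = a}.ncard : ℤ) =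
        ({w : W | (() : Unit) = () ∧ f w = b}.ncard : ℤ) := h3
    rw [h5, h6] at h7
    exact_mod_cast h7
  have h1 := hc x y
  induction h1 with
  | refl => rfl
  | tail _ h2 ih => exact ih.trans (key _ _ h2)

theorem sumK_fib {W : Type} [Finite W] [Finite V] (φ : W → V) (c : ℕ)
    (h : ∀ x, {w | φ w = x}.ncard = c) (S : Set V) : {w | φ w ∈ S}.ncard = S.ncard * c := by
  classical
  have := Fintype.ofFinite W
  have := Fintype.ofFinite V
  have e1 : {w | φ w ∈ S} = ((Finset.univ.filter (fun w => φ w ∈ S) : Finset W) : Set W) := by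
    ext w
    simp
  have e2 : S = ((Finset.univ.filter (fun x => x ∈ S) : Finset V) : Set V) := by
    ext w
    simp
  have e3 : S.ncard = (Finset.univ.filter (fun x => x ∈ S)).card := by
    rw [← Set.ncard_coe_finset, ← e2]
  rw [e1, Set.ncard_coe_finset, e3]
  have h3 := Finset.card_eq_sum_card_fiberwise
    (s := Finset.univ.filter (fun w => φ w ∈ S)) (t := Finset.univ.filter (fun x => x ∈ S))
    (f := φ) (by
      intro w hw
      have hw' := (Finset.mem_filter.1 hw).2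
      exact Finset.mem_coe.2 (Finset.mem_filter.2 ⟨Finset.mem_univ _, hw'⟩))
  rw [h3, Finset.sum_congr rfl (g := fun _ => c), Finset.sum_const, smul_eq_mul]
  intro x hx
  have hx' := (Finset.mem_filter.1 hx).2
  rw [← h x, ← Set.ncard_coe_finset]
  congr 1
  ext w
  simp only [Finset.coe_filter, Finset.mem_filter, Finset.mem_univ, true_and, Set.mem_ofPred_eq]
  constructor
  · exact fun h4 => h4.2
  · exact fun h4 => ⟨by rw [h4]; exact hx', h4⟩

theorem guard_supp [Finite V] [Finite D] (hc : LConn L) {P : Type} [Finite P] (g : Vt L P) {τ : T}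
    {f : V × (Unit × P) → V} {e : D × (Unit × P) → V}
    (h : EL (liftKt (unitKt L) g).net ∅ f e) {v : V} {q : Unit × P} (hv : L.cl v = L.sc τ)
    (h2 : 2 ≤ supp L τ v) : 2 ≤ supp L τ (f (v, q)) := by
  by_contra hcon
  have hQ : Finite (V × (Unit × P)) := inferInstance
  have hDQ : Finite (D × (Unit × P)) := inferInstance
  let N := (liftKt (unitKt L) g).net
  let S : Set V := {x | L.cl x = L.sc τ ∧ supp L τ x ≤ 1}
  have hA : ∀ w : V × (Unit × P), w.1 ∈ S → f w ∈ S := by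
    rintro ⟨v', q'⟩ ⟨a1, a2⟩
    refine ⟨(h.cls (v', q')).trans a1, ?_⟩
    unfold supp
    rw [Set.ncard_le_one (Set.toFinite _)]
    have hex : ∀ z, Dt L τ (f (v', q')) z → ∃ d, L.tl d = v' ∧ L.ty d = τ ∧ e (d, q') = z := by
      intro z hz
      have b1 := flow_M_ne hz
      have b2 := h.star (v', q') τ z
      obtain ⟨⟨d, q₁⟩, b3, b4, b5⟩ := Set.nonempty_of_ncard_ne_zero fun h0 => b1 (b2.symm.trans h0)
      have b6 : (L.tl d, q₁) = (v', q') := b3
      have b7 : L.tl d = v' := congrArg Prod.fst b6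
      have b8 : q₁ = q' := congrArg Prod.snd b6
      subst b8
      exact ⟨d, b7, b4, b5⟩
    intro z hz z' hz'
    obtain ⟨d, c1, c2, c3⟩ := hex z hz
    obtain ⟨d', c1', c2', c3'⟩ := hex z' hz'
    have a3 : {y | Dt L τ v' y}.ncard ≤ 1 := a2
    rw [Set.ncard_le_one (Set.toFinite _)] at a3
    have c4 : L.hd d = L.hd d' := a3 _ ⟨d, c1, rfl, c2⟩ _ ⟨d', c1', rfl, c2'⟩
    have c5 : e (d, q') = f (L.hd d, (q'.1, g.g (L.ty d) q'.2)) :=
      h.unc (d, q') (Set.notMem_empty _) (Set.notMem_empty _)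
    have c6 : e (d', q') = f (L.hd d', (q'.1, g.g (L.ty d') q'.2)) :=
      h.unc (d', q') (Set.notMem_empty _) (Set.notMem_empty _)
    rw [← c3, ← c3', c5, c6, c4, c2, c2']
  have hf : ∀ x, {w | f w = x}.ncard = {w | f w = v}.ncard := fun x => el_const hc h x v
  have hp : ∀ x, {w : V × (Unit × P) | w.1 = x}.ncard = {w : V × (Unit × P) | w.1 = v}.ncard :=
    fun x => el_const hc (proj_el (liftKt (unitKt L) g)) x v
  have hf1 := sumK_fib f _ hf
  have hp1 := sumK_fib (fun w : V × (Unit × P) => w.1) _ hp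
  have hV : 0 < (Set.univ : Set V).ncard := (Set.ncard_pos (Set.toFinite _)).2 ⟨v, Set.mem_univ v⟩
  have hU : {w : V × (Unit × P) | f w ∈ (Set.univ : Set V)} =
      {w : V × (Unit × P) | w.1 ∈ (Set.univ : Set V)} := by
    ext w
    exact ⟨fun _ => Set.mem_univ _, fun _ => Set.mem_univ _⟩
  have hn : {w | f w = v}.ncard = {w : V × (Unit × P) | w.1 = v}.ncard := by
    have h5 := hf1 Set.univ
    rw [hU] at h5
    exact Nat.eq_of_mul_eq_mul_left hV (h5.symm.trans (hp1 Set.univ))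
  have hS : {w : V × (Unit × P) | w.1 ∈ S} = {w | f w ∈ S} := by
    refine Set.eq_of_subset_of_ncard_le (fun w hw => hA w hw) ?_ (Set.toFinite _)
    rw [hf1 S, hn]
    exact (hp1 S).ge
  have h6 : (v, q) ∈ {w | f w ∈ S} := ⟨(h.cls (v, q)).trans hv, by omega⟩
  rw [← hS] at h6
  have h7 : supp L τ v ≤ 1 := h6.2
  omega

end Pool.Agent.H24.GH
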