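import Pool.Agent.H24.GH.NPotB
import Pool.Agent.H24.GH.SumK

/-!
# JOB GH-16: the second dart

Let `c` be a leaf type as in `exists_ndt`. `exists_sec`: there are a lift `NArr` with `ch c₀ = c`, and a type `σ` with the source
`sc c` such that a dart of type `c` and a dart of type `σ` at a vertex can be cut at the position `κD` (together or alone).
`leaf_all`: every dart at `x` has the type `bar c` (`Lfs`), so the darts of type `bar c` at `x` are all darts at `x`.
`leaf_supp`: if `supp L (bar c) x ≤ 1` and `Dt L c y x` then all darts at `x` have the end `y`, so `M c y x = M (bar c) x y` is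
`num (bar c)`.

`exists_sec`. Let `s` be live with `sc s = sc c`; `sc (bar c) ≠ sc c` (`lfs_ne`), `c` is not live (`lfs_dead`).
(A) `2 ≤ num c`: `σ = c`. `exists_loll` for `s`, `Ch = Unit`, `ch _ = c`, `exists_narr` (`h1`: `c` is not live but `w 0 = s` is; `h2`:
`loll_leaf`). `CutY`: no cut dart has a type in `tt` (`t2`), and `0 < num (w 0)`.
(B) There is `c' ≠ c` with `sc c' = sc c` and `Lfs (bar c')`: `σ = c'`, `Ch = Bool`, `ch true = c`, `ch false = c'`; as in (A)
(`loll_leaf` for `c'` too; `lfs_ne` for `c'`, `c'` is not live).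
(C) There is a live `s` with `sc s = sc c` and `2 ≤ num s`: `σ = s`, `w 0 = s`, `Ch = Unit`. `CutY`: the cut darts of type `s` are at most
one, less than `num s`; if `i = 0` and `bar (w (j - 1)) = s` nothing changes.
(D) Otherwise `num c = 1`, all types `≠ c` with the source `sc c` are live (`hnd`), and `num s = 1` for them. A vertex `y` of the
class `sc c` has at least three darts, so there are two different live types `s ≠ s'` with the source `sc c`. `σ = s`.
`closed_types` (file `Pool.Agent.H24.GG.TGraph`) and `loll_closed` give `w` with `w 0 = s`, `i = 0`, `j = l + 1`,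
`w (j - 1) = bar s'`; `Ch = Unit`; `exists_narr`: `tt τ` iff `τ = s` or `τ = s'`. `CutY`: `τ = s'` (no cut dart has this type). The cut
darts of type `s`: at most one, and for all `x` of the class `sc (bar c)`: `2 ≤ supp (bar c) x`: otherwise `M c y x = num (bar c) ≥ 3`
for the end `y` of `x` (`leaf_supp`), but `M c y x ≤ num c = 1`.
-/

namespace Pool.Agent.H24.GH

open Pool.Agent.H24.GG

variable {V D T K : Type} {L : LS V D T K}

theorem leaf_all {c : T} (hc : Lfs L.sc (L.bar c)) {x : V} (hx : L.cl x = L.sc (L.bar c)) :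
    {d | L.tl d = x}.ncard = L.num (L.bar c) := by
  rw [← L.num_eq x (L.bar c) hx]
  congr 1
  ext d
  constructor
  · intro hd
    refine ⟨hd, hc (L.ty d) ?_⟩
    rw [← L.cl_tl d, ← hx]
    exact congrArg L.cl hd
  · exact fun hd => hd.1

private theorem nsec_fin [Finite D] (τ : T) (x : V) : {y | Dt L τ x y}.Finite := by
  refine (Set.finite_range L.hd).subset ?_
  rintro y ⟨d, -, h, -⟩
  exact ⟨d, h⟩

theorem supp_pos [Finite D] {τ : T} {x : V} (hx : L.cl x = L.sc τ) : 1 ≤ supp L τ x := by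
  obtain ⟨y, hy⟩ := dt_exists hx
  exact (Set.ncard_pos (nsec_fin τ x)).mpr ⟨y, hy⟩

theorem supp_one [Finite D] {τ : T} {x y : V} (h : supp L τ x ≤ 1) (hy : Dt L τ x y) :
    L.M τ x y = L.num τ := by
  rw [← L.num_eq x τ (dt_cl hy).1]
  unfold LS.M
  congr 1
  ext d
  constructor
  · rintro ⟨h1, h2, -⟩
    exact ⟨h1, h2⟩
  · rintro ⟨h1, h2⟩
    refine ⟨h1, h2, ?_⟩
    have h3 := (Set.ncard_le_one (nsec_fin (L := L) τ x)).mp h
    exact h3 (L.hd d) ⟨d, h1, rfl, h2⟩ y hy

theorem M_le [Finite D] (τ : T) (x y : V) : L.M τ x y ≤ L.num τ := by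
  by_cases h : Dt L τ x y
  · rw [← L.num_eq x τ (dt_cl h).1]
    unfold LS.M
    exact Set.ncard_le_ncard (fun d hd => ⟨hd.1, hd.2.1⟩) (Set.toFinite _)
  · have h0 : L.M τ x y = 0 := by
      by_contra h1
      exact h (dt_iff.mpr h1)
    rw [h0]
    exact Nat.zero_le _

theorem M_two [Finite D] {τ : T} {x y y' : V} (hne : y ≠ y') : L.M τ x y + L.M τ x y' ≤ L.num τ := by
  by_cases h : Dt L τ x y
  · rw [← L.num_eq x τ (dt_cl h).1]
    unfold LS.M
    rw [← Set.ncard_union_eq ?_ (Set.toFinite _) (Set.toFinite _)]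
    · refine Set.ncard_le_ncard ?_ (Set.toFinite _)
      rintro d (hd | hd)
      · exact ⟨hd.1, hd.2.1⟩
      · exact ⟨hd.1, hd.2.1⟩
    · rw [Set.disjoint_left]
      intro d hd hd'
      exact hne (hd.2.2.symm.trans hd'.2.2)
  · have h0 : L.M τ x y = 0 := by
      by_contra h1
      exact h (dt_iff.mpr h1)
    rw [h0, Nat.zero_add]
    exact M_le τ x y'

section

variable {P Ch : Type} {g : Vt L P} {ch : Ch → T} {κD : P} {κc : Ch → P} {tt : T → Prop}

private theorem nsec_cutA (hA : NArr L g ch κD κc tt) (ht : ∃ τ, tt τ) (c₀ : Ch) {C : Set D}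
    (hC : ∀ d ∈ C, ∃ c, L.ty d = ch c) : CutY L ch tt c₀ C := by
  obtain ⟨τ, hτ⟩ := ht
  refine ⟨fun d hd => Or.inl (hC d hd), ⟨τ, hτ, ?_⟩, ?_⟩
  · have h0 : {d ∈ C | L.ty d = τ} = ∅ := by
      ext d
      simp only [Set.mem_setOf_eq, Set.mem_empty_iff_false, iff_false, not_and]
      intro hd h
      obtain ⟨c, hc⟩ := hC d hd
      exact hA.t2 τ hτ c (by rw [← h, hc])
    rw [h0, Set.ncard_empty]
    exact L.num_pos τ
  · intro d hd h
    obtain ⟨c, hc⟩ := hC d hd
    exact absurd hc (hA.t2 _ h c)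

private theorem nsec_le_one {d d' : D} {s : T} {C : Set D} (hC : ∀ x ∈ C, x = d ∨ x = d')
    (hd : L.ty d ≠ s) : {x ∈ C | L.ty x = s}.ncard ≤ 1 := by
  have h : {x ∈ C | L.ty x = s} ⊆ {d'} := by
    rintro x ⟨hx, hs⟩
    rcases hC x hx with h | h
    · rw [h] at hs
      exact absurd hs hd
    · exact h
  calc {x ∈ C | L.ty x = s}.ncard ≤ ({d'} : Set D).ncard :=
        Set.ncard_le_ncard h (Set.finite_singleton d')
    _ = 1 := Set.ncard_singleton d'

private theorem nsec_cutC (hA : NArr L g ch κD κc tt) (c₀ : Ch) {d d' : D} {C : Set D}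
    (hC : ∀ x ∈ C, x = d ∨ x = d') (hd : ∃ c, L.ty d = ch c) {s : T} (hd' : L.ty d' = s)
    (hs : tt s) (h2 : 2 ≤ L.num s) : CutY L ch tt c₀ C := by
  have hne : L.ty d ≠ s := by
    obtain ⟨c, hc⟩ := hd
    rw [hc]
    exact (hA.t2 s hs c).symm
  have h1 := nsec_le_one (L := L) hC hne
  refine ⟨?_, ⟨s, hs, by omega⟩, ?_⟩
  · intro x hx
    rcases hC x hx with h | h
    · rw [h]
      exact Or.inl hd
    · rw [h, hd']
      exact Or.inr hs
  · intro x hx ht
    rcases hC x hx with h | h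
    · rw [h] at ht
      obtain ⟨c, hc⟩ := hd
      exact absurd hc (hA.t2 _ ht c)
    · left
      rw [h, hd']
      omega

private theorem nsec_cutD (hA : NArr L g ch κD κc tt) (c₀ : Ch) {d d' : D} {C : Set D}
    (hC : ∀ x ∈ C, x = d ∨ x = d') (hd : ∃ c, L.ty d = ch c) {s s' : T} (hd' : L.ty d' = s)
    (hs : tt s) (hs' : tt s') (hss : s ≠ s')
    (hsp : ∀ x, L.cl x = L.sc (L.bar (ch c₀)) → 2 ≤ supp L (L.bar (ch c₀)) x) :
    CutY L ch tt c₀ C := by
  have hne : L.ty d ≠ s := by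
    obtain ⟨c, hc⟩ := hd
    rw [hc]
    exact (hA.t2 s hs c).symm
  have h1 := nsec_le_one (L := L) hC hne
  refine ⟨?_, ⟨s', hs', ?_⟩, ?_⟩
  · intro x hx
    rcases hC x hx with h | h
    · rw [h]
      exact Or.inl hd
    · rw [h, hd']
      exact Or.inr hs
  · have h0 : {d ∈ C | L.ty d = s'} = ∅ := by
      ext x
      simp only [Set.mem_setOf_eq, Set.mem_empty_iff_false, iff_false, not_and]
      intro hx h
      rcases hC x hx with e | e
      · rw [e] at h
        obtain ⟨c, hc⟩ := hd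
        exact hA.t2 s' hs' c (by rw [← h, hc])
      · rw [e, hd'] at h
        exact hss h
    rw [h0, Set.ncard_empty]
    exact L.num_pos s'
  · intro x hx ht
    rcases hC x hx with h | h
    · rw [h] at ht
      obtain ⟨c, hc⟩ := hd
      exact absurd hc (hA.t2 _ ht c)
    · right
      rw [h, hd']
      exact ⟨h1, hsp⟩

end

private theorem nsec_supp [Finite D] (h3 : ∀ x, 3 ≤ {d | L.tl d = x}.ncard) {c : T}
    (hc : Lfs L.sc (L.bar c)) (h1 : L.num c ≤ 1) {x : V} (hx : L.cl x = L.sc (L.bar c)) :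
    2 ≤ supp L (L.bar c) x := by
  by_contra h
  obtain ⟨y, hy⟩ := dt_exists hx
  have e1 := supp_one (by omega) hy
  have e2 := M_bar L c y x
  have e3 := M_le (L := L) c y x
  have e4 := leaf_all hc hx
  have e5 := h3 x
  omega

private theorem nsec_two [Finite D] (h3 : ∀ x, 3 ≤ {d | L.tl d = x}.ncard) {c : T}
    (h1 : ∀ s, L.sc s = L.sc c → L.num s ≤ 1) :
    ∃ s s', s ≠ s' ∧ s ≠ c ∧ s' ≠ c ∧ L.sc s = L.sc c ∧ L.sc s' = L.sc c := by
  obtain ⟨y, hy⟩ := L.cls c
  have h2 : 2 < {d | L.tl d = y}.ncard := h3 y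
  rw [Set.two_lt_ncard_iff (Set.toFinite _)] at h2
  obtain ⟨a, b, e, ha, hb, he, hab, hae, hbe⟩ := h2
  have hsc : ∀ d, L.tl d = y → L.sc (L.ty d) = L.sc c := by
    intro d hd
    rw [← L.cl_tl d, hd, hy]
  have hinj : ∀ d d', L.tl d = y → L.tl d' = y → d ≠ d' → L.ty d ≠ L.ty d' := by
    intro d d' hd hd' hne h
    have h4 : {d'' | L.tl d'' = y ∧ L.ty d'' = L.ty d}.ncard ≤ 1 := by
      rw [L.num_eq y (L.ty d) (by rw [hy, hsc d hd])]
      exact h1 _ (hsc d hd)
    rw [Set.ncard_le_one (Set.toFinite _)] at h4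
    exact hne (h4 d ⟨hd, rfl⟩ d' ⟨hd', h.symm⟩)
  have hab' := hinj a b ha hb hab
  have hae' := hinj a e ha he hae
  have hbe' := hinj b e hb he hbe
  by_cases h5 : L.ty a = c
  · exact ⟨L.ty b, L.ty e, hbe', fun h => hab' (h5.trans h.symm), fun h => hae' (h5.trans h.symm),
      hsc b hb, hsc e he⟩
  · by_cases h6 : L.ty b = c
    · exact ⟨L.ty a, L.ty e, hae', h5, fun h => hbe' (h6.trans h.symm), hsc a ha, hsc e he⟩
    · exact ⟨L.ty a, L.ty b, hab', h5, h6, hsc a ha, hsc b hb⟩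

theorem exists_sec [Finite V] [Finite D] [Finite T] (h3 : ∀ x, 3 ≤ {d | L.tl d = x}.ncard) {c : T}
    (hc : Lfs L.sc (L.bar c)) (hl : ∃ s, L.sc s = L.sc c ∧ TLive L.sc L.bar s)
    (hnd : ∀ s, L.sc s = L.sc c → TLive L.sc L.bar s ∨ Lfs L.sc (L.bar s)) :
    ∃ (P : Type) (_ : Finite P) (g : Vt L P) (Ch : Type) (ch : Ch → T) (κD : P) (κc : Ch → P)
      (tt : T → Prop) (c₀ : Ch) (σ : T), NArr L g ch κD κc tt ∧ (∃ τ, tt τ) ∧
      (∀ c, Lfs L.sc (L.bar (ch c))) ∧ ch c₀ = c ∧ L.sc σ = L.sc c ∧ (σ = c → 2 ≤ L.num c) ∧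
      ∀ d d', L.tl d = L.tl d' → L.ty d = c → L.ty d' = σ →
        CutY L ch tt c₀ {d} ∧ CutY L ch tt c₀ {d'} ∧ CutY L ch tt c₀ {d, d'} := by
  obtain ⟨s, hs, hlive⟩ := hl
  have hdead : ¬ TLive L.sc L.bar c := lfs_dead hc
  have hne : L.sc (L.bar c) ≠ L.sc c := lfs_ne L.bar_bar hc hs hlive
  by_cases hA : 2 ≤ L.num c
  · obtain ⟨w, i, j, hw0, hw⟩ := exists_loll hlive
    obtain ⟨P, fP, g, κD, κc, hN⟩ := exists_narr (L := L) hw (Ch := Unit) (fun _ => c)
      (fun _ => by rw [hw0]; exact hs.symm) (fun _ _ _ => rfl)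
      (fun _ h => hdead (by rw [h, hw0]; exact hlive))
      (fun hi _ => by
        subst hi
        exact loll_leaf L.bar_bar hw hc (by rw [hw0]; exact hs) hne)
    refine ⟨P, fP, g, Unit, fun _ => c, κD, κc, _, (), c, hN, ⟨w 0, Or.inl rfl⟩, fun _ => hc, rfl,
      rfl, fun _ => hA, ?_⟩
    intro d d' _ hd hd'
    refine ⟨nsec_cutA hN ⟨w 0, Or.inl rfl⟩ () ?_, nsec_cutA hN ⟨w 0, Or.inl rfl⟩ () ?_,
      nsec_cutA hN ⟨w 0, Or.inl rfl⟩ () ?_⟩
    · rintro x rfl
      exact ⟨(), hd⟩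
    · rintro x rfl
      exact ⟨(), hd'⟩
    · rintro x (rfl | rfl)
      · exact ⟨(), hd⟩
      · exact ⟨(), hd'⟩
  by_cases hB : ∃ c', c' ≠ c ∧ L.sc c' = L.sc c ∧ Lfs L.sc (L.bar c')
  · obtain ⟨c', hcc, hsc, hc'⟩ := hB
    have hdead' : ¬ TLive L.sc L.bar c' := lfs_dead hc'
    have hs' : L.sc s = L.sc c' := hs.trans hsc.symm
    have hne' : L.sc (L.bar c') ≠ L.sc c' := lfs_ne L.bar_bar hc' hs' hlive
    obtain ⟨w, i, j, hw0, hw⟩ := exists_loll hlive
    obtain ⟨P, fP, g, κD, κc, hN⟩ := exists_narr (L := L) hw (Ch := Bool)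
      (fun b => if b = true then c else c')
      (fun b => by
        rw [hw0]
        cases b
        · exact hs'.symm
        · exact hs.symm)
      (fun b b' h => by
        cases b <;> cases b'
        · rfl
        · exact absurd h hcc
        · exact absurd h.symm hcc
        · rfl)
      (fun b h => by
        cases b
        · refine hdead' ?_
          have h' : c' = w 0 := h
          rw [h', hw0]
          exact hlive
        · refine hdead ?_
          have h' : c = w 0 := h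
          rw [h', hw0]
          exact hlive)
      (fun hi b => by
        subst hi
        cases b
        · exact loll_leaf L.bar_bar hw hc' (by rw [hw0]; exact hs') hne'
        · exact loll_leaf L.bar_bar hw hc (by rw [hw0]; exact hs) hne)
    refine ⟨P, fP, g, Bool, _, κD, κc, _, true, c', hN, ⟨w 0, Or.inl rfl⟩, ?_, rfl,
      hsc, fun h => absurd h hcc, ?_⟩
    · intro b
      cases b
      · exact hc'
      · exact hc
    intro d d' _ hd hd'
    refine ⟨nsec_cutA hN ⟨w 0, Or.inl rfl⟩ true ?_, nsec_cutA hN ⟨w 0, Or.inl rfl⟩ true ?_,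
      nsec_cutA hN ⟨w 0, Or.inl rfl⟩ true ?_⟩
    · rintro x rfl
      exact ⟨true, hd⟩
    · rintro x rfl
      exact ⟨false, hd'⟩
    · rintro x (rfl | rfl)
      · exact ⟨true, hd⟩
      · exact ⟨false, hd'⟩
  by_cases hC : ∃ s', L.sc s' = L.sc c ∧ TLive L.sc L.bar s' ∧ 2 ≤ L.num s'
  · obtain ⟨s', hs', hl', hn'⟩ := hC
    have hcs : s' ≠ c := fun h => hdead (h ▸ hl')
    obtain ⟨w, i, j, hw0, hw⟩ := exists_loll hl'
    obtain ⟨P, fP, g, κD, κc, hN⟩ := exists_narr (L := L) hw (Ch := Unit) (fun _ => c)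
      (fun _ => by rw [hw0]; exact hs'.symm) (fun _ _ _ => rfl)
      (fun _ h => hdead (by rw [h, hw0]; exact hl'))
      (fun hi _ => by
        subst hi
        exact loll_leaf L.bar_bar hw hc (by rw [hw0]; exact hs') hne)
    refine ⟨P, fP, g, Unit, fun _ => c, κD, κc, _, (), s', hN, ⟨w 0, Or.inl rfl⟩, fun _ => hc, rfl,
      hs', fun h => absurd h hcs, ?_⟩
    intro d d' _ hd hd'
    have key : ∀ C : Set D, (∀ x ∈ C, x = d ∨ x = d') → CutY L (fun _ : Unit => c)
        (fun τ => τ = w 0 ∨ (i = 0 ∧ τ = L.bar (w (j - 1)))) () C := fun C hC' =>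
      nsec_cutC hN () hC' ⟨(), hd⟩ hd' (Or.inl hw0.symm) hn'
    exact ⟨key _ (fun x hx => Or.inl hx), key _ (fun x hx => Or.inr hx), key _ (fun x hx => hx)⟩
  · have hlv : ∀ s', L.sc s' = L.sc c → s' ≠ c → TLive L.sc L.bar s' := by
      intro s' h1 h2
      rcases hnd s' h1 with h | h
      · exact h
      · exact absurd ⟨s', h2, h1, h⟩ hB
    have hnum : ∀ s', L.sc s' = L.sc c → L.num s' ≤ 1 := by
      intro s' h1
      by_cases h2 : s' = c
      · rw [h2]
        omega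
      · by_contra h3'
        exact hC ⟨s', h1, hlv s' h1 h2, by omega⟩
    obtain ⟨t, t', htt, htc, htc', hst, hst'⟩ := nsec_two h3 hnum
    have hlt := hlv t hst htc
    have hlt' := hlv t' hst' htc'
    obtain ⟨l, w, hw0, hwl, hw⟩ := closed_types L.bar_bar hlt hlt' (hst.trans hst'.symm) htt
    obtain ⟨w', hw0', hwl', hL⟩ := loll_closed L.bar_bar hw0 hwl hw (hst.trans hst'.symm) htt
    have hb' : L.bar (w' (l + 1 - 1)) = t' := by
      rw [Nat.add_sub_cancel, hwl', L.bar_bar]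
    obtain ⟨P, fP, g, κD, κc, hN⟩ := exists_narr (L := L) hL (Ch := Unit) (fun _ => c)
      (fun _ => by rw [hw0']; exact hst.symm) (fun _ _ _ => rfl)
      (fun _ h => htc (by rw [h, hw0']))
      (fun _ _ h => htc' (by rw [h, hb']))
    refine ⟨P, fP, g, Unit, fun _ => c, κD, κc, _, (), t, hN, ⟨w' 0, Or.inl rfl⟩, fun _ => hc, rfl,
      hst, fun h => absurd h htc, ?_⟩
    intro d d' _ hd hd'
    have key : ∀ C : Set D, (∀ x ∈ C, x = d ∨ x = d') → CutY L (fun _ : Unit => c)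
        (fun τ => τ = w' 0 ∨ (0 = 0 ∧ τ = L.bar (w' (l + 1 - 1)))) () C := fun C hC' =>
      nsec_cutD hN () hC' ⟨(), hd⟩ hd' (Or.inl hw0'.symm) (Or.inr ⟨rfl, hb'.symm⟩) htt
        (fun x hx => nsec_supp h3 hc (hnum c rfl) hx)
    exact ⟨key _ (fun x hx => Or.inl hx), key _ (fun x hx => Or.inr hx), key _ (fun x hx => hx)⟩

end Pool.Agent.H24.GH
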