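import Pool.Agent.H24.GH.OMul

/-!
# JOB GH-6: hardness at a star with three different ends

`hp_three`. Let `r = supp L τ x₀`, `y₀ : Fin m → V` with `Ful L τ x₀ y₀` (`ful_exists`), `hh : Fin r → V` injective with range the
ends of `x₀` (`{y | Dt L τ x₀ y}`), `b : Fin m → Fin r` with `y₀ = hh ∘ b` (`ful_dt`), surjective (`ful_surj`). `J₀ = Unit ⊕ Fin r`,
`J = Unit`, `Ω = V`; the sort of `inl ()` is `tS τ yt Gt`, all others have the sort `hS ζ zt Gz`. Choose `i₁, i₂, i₃ : Fin m` with
different `b`-values. For values `c` let `x = c (inl (inl ()))`, `S = cs ∘ b`, `cs` the values of the constants `Fin r`, `u, v` the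
values of the two vertex variables. The relation: for all `j` the relation `P` with the hole `j` for `S` (`of_P t j`, `OF.comap`,
`OF.all`): `Xg x ∧ ∃ w, Ful L τ x (update S j w)`; and `P` with the hole `i₃` for `S` with `u, v` at the indices `i₁, i₂`:
`∃ w, Ful L τ x (update (update (update S i₁ u) i₂ v) i₃ w)`. (In `OF.comap` use `ρ i = if i = i₁ then u-variable else
if i = i₂ then v-variable else constant (b i)`.)
Soundness: `L.cl x = L.sc τ` by `Ful`. `S` is not constant (`ful_const`, `hB`), so `Ful L τ x S` (`ful_all`), `cs` is injective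
(`ful_inj`, `hmin`). By `ful_res` for `I = {i₁, i₂, i₃}` the values `u, v, w` are `S i₁, S i₂, S i₃` in some order; these are three
different values. The colour `β cs a`: `0` if `a () = cs (b i₁)`, else `1` if `a () = cs (b i₂)`, else `2`; so `u`, `v` have
different colours.
Completeness: the constants `x₀`, `hh`, the colours `γ s` = `hh (b i_s)`. For `j`: `w = y₀ j` (`Function.update_eq_self`). For the
edge: `w` is the third value; the function is `y₀` composed with a permutation of `{i₁, i₂, i₃}` (`ful_perm`).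
-/

namespace Pool.Agent.H24.GH

open Pool.Agent.H24.GC Pool.Agent.H24.GG

variable {V D T K : Type} {L : LS V D T K} {k : Kt L} {τ ζ : T} {m : ℕ} {x₀ yt : V} {zt : V → V}
  {Xg : V → Prop} {Gt Gz : V × V → Prop}

theorem ocla_perm : ∀ s t : Fin 3, s ≠ t → ∃ π : Equiv.Perm (Fin 3), π 0 = s ∧ π 1 = t := by
  decide

/-- three indices: the values at the first two of them are different and among the three values -/
theorem ocla_three {m : ℕ} {S F : Fin m → V} {i : Fin 3 → Fin m} (hi : Function.Injective i)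
    (hS : ∀ a b, S (i a) = S (i b) → a = b)
    (h : ∀ z, {j | j ∈ Set.range i ∧ S j = z}.ncard = {j | j ∈ Set.range i ∧ F j = z}.ncard) :
    F (i 0) ≠ F (i 1) ∧ ∀ a, ∃ b, F (i a) = S (i b) := by
  constructor
  · intro he
    have h1 : {j | j ∈ Set.range i ∧ S j = F (i 0)}.ncard ≤ 1 := by
      rw [Set.ncard_le_one_iff]
      rintro a b ⟨⟨a', rfl⟩, ha⟩ ⟨⟨b', rfl⟩, hb⟩
      rw [hS a' b' (ha.trans hb.symm)]
    have h2 : 1 < {j | j ∈ Set.range i ∧ F j = F (i 0)}.ncard := by
      rw [Set.one_lt_ncard_iff]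
      exact ⟨i 0, i 1, ⟨⟨0, rfl⟩, rfl⟩, ⟨⟨1, rfl⟩, he.symm⟩, fun h' => by
        have := hi h'
        exact absurd this (by decide)⟩
    rw [h] at h1
    omega
  · intro a
    have h1 : {j | j ∈ Set.range i ∧ F j = F (i a)}.Nonempty := ⟨i a, ⟨a, rfl⟩, rfl⟩
    have h2 : 0 < {j | j ∈ Set.range i ∧ F j = F (i a)}.ncard := h1.ncard_pos
    rw [← h] at h2
    obtain ⟨j, ⟨b, rfl⟩, hb⟩ := Set.nonempty_of_ncard_ne_zero h2.ne'
    exact ⟨b, hb.symm⟩

theorem ocla_col {α : Type} [DecidableEq α] {p0 p1 p2 u v : α} (huv : u ≠ v)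
    (hu : u = p0 ∨ u = p1 ∨ u = p2) (hv : v = p0 ∨ v = p1 ∨ v = p2) :
    (if u = p0 then (0 : Fin 3) else if u = p1 then 1 else 2) ≠
      (if v = p0 then (0 : Fin 3) else if v = p1 then 1 else 2) := by
  by_cases h1 : u = p0
  · rw [if_pos h1, if_neg (fun h => huv (h1.trans h.symm))]
    by_cases h2 : v = p1
    · rw [if_pos h2]
      decide
    · rw [if_neg h2]
      decide
  · rw [if_neg h1]
    by_cases h3 : v = p0
    · rw [if_pos h3]
      by_cases h4 : u = p1
      · rw [if_pos h4]
        decide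
      · rw [if_neg h4]
        decide
    · rw [if_neg h3]
      by_cases h4 : u = p1
      · rw [if_pos h4, if_neg (fun h => huv (h4.trans h.symm))]
        decide
      · rw [if_neg h4]
        by_cases h5 : v = p1
        · rw [if_pos h5]
          decide
        · exfalso
          apply huv
          rw [hu.resolve_left h1 |>.resolve_left h4, hv.resolve_left h3 |>.resolve_left h5]

open Classical in
theorem hp_three [Finite V] [Finite D] (t : Ties k τ ζ m x₀ yt zt Xg Gt Gz)
    (hcl : L.cl x₀ = L.sc τ)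
    (hB : ∀ x, Xg x → L.cl x = L.sc τ → ∀ z, L.M τ x z + 2 ≤ m)
    (hmin : ∀ x, Xg x → L.cl x = L.sc τ → supp L τ x₀ ≤ supp L τ x)
    (h3 : 3 ≤ supp L τ x₀) : HPat k := by
  obtain ⟨y₀, hy₀⟩ := ful_exists t.num hcl
  obtain ⟨r, hr⟩ : ∃ r, r = supp L τ x₀ := ⟨_, rfl⟩
  have hcard : Nat.card {y | Dt L τ x₀ y} = r := by
    rw [hr]
    rfl
  obtain ⟨ee⟩ : Nonempty (Fin r ≃ {y | Dt L τ x₀ y}) :=
    ⟨(Finite.equivFinOfCardEq hcard).symm⟩
  obtain ⟨hh, hhdef⟩ : ∃ hh : Fin r → V, ∀ s, hh s = (ee s).1 := ⟨fun s => (ee s).1, fun _ => rfl⟩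
  have hhinj : Function.Injective hh := by
    intro a b hab
    rw [hhdef, hhdef] at hab
    exact ee.injective (Subtype.ext hab)
  obtain ⟨b, hb⟩ : ∃ b : Fin m → Fin r, ∀ i, hh (b i) = y₀ i := by
    refine ⟨fun i => ee.symm ⟨y₀ i, ful_dt hy₀ i⟩, fun i => ?_⟩
    rw [hhdef, Equiv.apply_symm_apply]
  have hbs : Function.Surjective b := by
    intro s
    obtain ⟨i, hi⟩ := ful_surj hy₀ (z := hh s) (by rw [hhdef]; exact (ee s).2)
    exact ⟨i, hhinj ((hb i).trans hi)⟩
  have hr3 : 3 ≤ r := by omega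
  obtain ⟨i, hi⟩ : ∃ i : Fin 3 → Fin m, ∀ a, b (i a) = Fin.castLE hr3 a :=
    ⟨fun a => (hbs (Fin.castLE hr3 a)).choose, fun a => (hbs (Fin.castLE hr3 a)).choose_spec⟩
  have hbi : ∀ a a', b (i a) = b (i a') → a = a' := by
    intro a a' h
    rw [hi, hi] at h
    exact Fin.castLE_injective hr3 h
  have hiinj : Function.Injective i := fun a a' h => hbi a a' (congrArg b h)
  have hb' : (fun i => hh (b i)) = y₀ := funext hb
  have n01 : i 1 ≠ i 0 := fun h => absurd (hiinj h) (by decide)
  have n02 : i 2 ≠ i 0 := fun h => absurd (hiinj h) (by decide)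
  have n12 : i 2 ≠ i 1 := fun h => absurd (hiinj h) (by decide)
  -- the renamings
  let ρ : Unit ⊕ Fin m → (Unit ⊕ Fin r) ⊕ (Bool × Unit) :=
    Sum.elim (fun _ => Sum.inl (Sum.inl ())) (fun j => Sum.inl (Sum.inr (b j)))
  let ρ' : Unit ⊕ Fin m → (Unit ⊕ Fin r) ⊕ (Bool × Unit) :=
    Sum.elim (fun _ => Sum.inl (Sum.inl ())) (fun j => if j = i 0 then Sum.inr (false, ())
      else if j = i 1 then Sum.inr (true, ()) else Sum.inl (Sum.inr (b j)))
  let s₀ : Unit ⊕ Fin r → Srt V T V := Sum.elim (fun _ => tS τ yt Gt) (fun _ => hS ζ zt Gz)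
  let sJ : Unit → Srt V T V := fun _ => hS ζ zt Gz
  have e1 : ∀ j, OF k (Sum.elim s₀ (fun p : Bool × Unit => sJ p.2))
      (fun c => RelP L τ j Xg (c ∘ ρ)) (fun c => RelP L τ j (fun x => x = x₀) (c ∘ ρ)) := by
    intro j
    refine (of_P t j).comap ρ ?_
    rintro (x | x) <;> rfl
  have e2 : OF k (Sum.elim s₀ (fun p : Bool × Unit => sJ p.2))
      (fun c => RelP L τ (i 2) Xg (c ∘ ρ')) (fun c => RelP L τ (i 2) (fun x => x = x₀) (c ∘ ρ')) := by
    refine (of_P t (i 2)).comap ρ' ?_
    rintro (x | x)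
    · rfl
    · show hS ζ zt Gz = Sum.elim s₀ (fun p : Bool × Unit => sJ p.2) (if x = i 0 then _ else _)
      by_cases h : x = i 0
      · rw [if_pos h]
        rfl
      · rw [if_neg h]
        by_cases h' : x = i 1
        · rw [if_pos h']
          rfl
        · rw [if_neg h']
          rfl
  refine ⟨Unit ⊕ Fin r, Unit, V, inferInstance, inferInstance, ⟨x₀⟩, s₀, sJ,
    fun c => (∀ j, RelP L τ j Xg (c ∘ ρ)) ∧ RelP L τ (i 2) Xg (c ∘ ρ'),
    fun c => (∀ j, RelP L τ j (fun x => x = x₀) (c ∘ ρ)) ∧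
      RelP L τ (i 2) (fun x => x = x₀) (c ∘ ρ'),
    fun cs a => if a () = cs (Sum.inr (b (i 0))) then 0 else
      if a () = cs (Sum.inr (b (i 1))) then 1 else 2,
    Sum.elim (fun _ => x₀) hh, fun s _ => hh (b (i s)), (OF.all e1).and e2, ?_, ?_⟩
  · -- soundness
    rintro c ⟨h1, hXg, w, hw⟩
    obtain ⟨S, hSdef⟩ : ∃ S : Fin m → V, ∀ j, S j = c (Sum.inl (Sum.inr (b j))) := ⟨_, fun _ => rfl⟩
    obtain ⟨x, hx⟩ : ∃ x, x = c (Sum.inl (Sum.inl ())) := ⟨_, rfl⟩
    have hSe : (fun j => c (Sum.inl (Sum.inr (b j)))) = S := (funext hSdef).symm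
    have hXx : Xg x := by rw [hx]; exact hXg
    have hj : ∀ j, ∃ v, Ful L τ x (Function.update S j v) := by
      intro j
      obtain ⟨-, v, hv⟩ := h1 j
      refine ⟨v, ?_⟩
      rw [hx, ← hSe]
      exact hv
    have hclx : L.cl x = L.sc τ := by
      obtain ⟨v, hv⟩ := hj (i 0)
      exact hv.1
    have hnc : ∃ j j', S j ≠ S j' := by
      by_contra hcon
      push Not at hcon
      obtain ⟨v, hv⟩ := hj (i 0)
      have hS' : S = fun _ => S (i 0) := funext fun j => hcon j (i 0)
      rw [hS'] at hv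
      have h4 := ful_const hv
      have h5 := hB x hXx hclx (S (i 0))
      omega
    obtain ⟨j, j', hjj⟩ := hnc
    have hFS : Ful L τ x S := ful_all hj hjj
    have hcs : Function.Injective (fun s => c (Sum.inl (Sum.inr s))) := by
      refine ful_inj (b := b) (x := x) (L := L) (τ := τ) ?_ ?_
      · have : (fun s => c (Sum.inl (Sum.inr s))) ∘ b = S := hSe
        rw [this]
        exact hFS
      · rw [hr]
        exact hmin x hXx hclx
    obtain ⟨F, hFdef⟩ : ∃ F : Fin m → V, F = Function.update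
        (fun j => (c ∘ ρ') (Sum.inr j)) (i 2) w := ⟨_, rfl⟩
    have hFF : Ful L τ x F := by
      rw [hFdef, hx]
      exact hw
    have F0 : F (i 0) = c (Sum.inr (false, ())) := by
      rw [hFdef, Function.update_of_ne n02.symm]
      show c (if i 0 = i 0 then _ else _) = _
      rw [if_pos rfl]
    have F1 : F (i 1) = c (Sum.inr (true, ())) := by
      rw [hFdef, Function.update_of_ne n12.symm]
      show c (if i 1 = i 0 then _ else _) = _
      rw [if_neg n01, if_pos rfl]
    have hout : ∀ j, j ∉ Set.range i → S j = F j := by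
      intro j hj'
      have g0 : j ≠ i 0 := fun h => hj' ⟨0, h.symm⟩
      have g1 : j ≠ i 1 := fun h => hj' ⟨1, h.symm⟩
      have g2 : j ≠ i 2 := fun h => hj' ⟨2, h.symm⟩
      rw [hFdef, Function.update_of_ne g2]
      show S j = c (if j = i 0 then _ else _)
      rw [if_neg g0, if_neg g1]
      exact hSdef j
    obtain ⟨q1, q2⟩ := ocla_three (S := S) (F := F) hiinj (by
      intro a a' h
      rw [hSdef, hSdef] at h
      exact hbi a a' (hcs h)) (fun z => ful_res hFS hFF hout z)
    have q3 : ∀ a, F (i a) = S (i 0) ∨ F (i a) = S (i 1) ∨ F (i a) = S (i 2) := by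
      intro a
      obtain ⟨a', ha'⟩ := q2 a
      fin_cases a'
      · exact Or.inl ha'
      · exact Or.inr (Or.inl ha')
      · exact Or.inr (Or.inr ha')
    have q4 := ocla_col q1 (q3 0) (q3 1)
    rw [F0, F1, hSdef, hSdef] at q4
    exact q4
  · -- completeness
    intro s t' hst
    obtain ⟨π, hπ0, hπ1⟩ := ocla_perm s t' hst
    refine ⟨?_, rfl, hh (b (i (π 2))), ?_⟩
    · intro j
      refine ⟨rfl, y₀ j, ?_⟩
      show Ful L τ x₀ (Function.update (fun i => hh (b i)) j (y₀ j))
      rw [hb', Function.update_eq_self]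
      exact hy₀
    · have hσ := ful_perm hy₀ (π.viaEmbedding ⟨i, hiinj⟩)
      have key : (Function.update (fun j => ((Sum.elim (Sum.elim (fun _ => x₀) hh)
          (fun p : Bool × Unit => if p.1 then hh (b (i t')) else hh (b (i s)))) ∘ ρ')
          (Sum.inr j)) (i 2) (hh (b (i (π 2))))) = y₀ ∘ (π.viaEmbedding ⟨i, hiinj⟩) := by
        funext j
        by_cases hj : j ∈ Set.range i
        · obtain ⟨a, rfl⟩ := hj
          have h4 : (π.viaEmbedding ⟨i, hiinj⟩) (i a) = i (π a) :=
            Equiv.Perm.viaEmbedding_apply π ⟨i, hiinj⟩ a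
          rw [Function.comp_apply, h4, ← hb]
          have ha : a = 0 ∨ a = 1 ∨ a = 2 := by
            fin_cases a
            · exact Or.inl rfl
            · exact Or.inr (Or.inl rfl)
            · exact Or.inr (Or.inr rfl)
          rcases ha with rfl | rfl | rfl
          · rw [Function.update_of_ne n02.symm, hπ0]
            show (Sum.elim (Sum.elim (fun _ => x₀) hh)
              (fun p : Bool × Unit => if p.1 then hh (b (i t')) else hh (b (i s))))
              (if i 0 = i 0 then _ else _) = _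
            rw [if_pos rfl]
            rfl
          · rw [Function.update_of_ne n12.symm, hπ1]
            show (Sum.elim (Sum.elim (fun _ => x₀) hh)
              (fun p : Bool × Unit => if p.1 then hh (b (i t')) else hh (b (i s))))
              (if i 1 = i 0 then _ else _) = _
            rw [if_neg n01, if_pos rfl]
            rfl
          · rw [Function.update_self]
        · have g0 : j ≠ i 0 := fun h => hj ⟨0, h.symm⟩
          have g1 : j ≠ i 1 := fun h => hj ⟨1, h.symm⟩
          have g2 : j ≠ i 2 := fun h => hj ⟨2, h.symm⟩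
          rw [Function.comp_apply, Equiv.Perm.viaEmbedding_apply_of_notMem π ⟨i, hiinj⟩ j hj,
            Function.update_of_ne g2]
          show (Sum.elim (Sum.elim (fun _ => x₀) hh)
              (fun p : Bool × Unit => if p.1 then hh (b (i t')) else hh (b (i s))))
              (if j = i 0 then _ else _) = _
          rw [if_neg g0, if_neg g1]
          exact hb j
      show Ful L τ x₀ (Function.update (fun j => ((Sum.elim (Sum.elim (fun _ => x₀) hh)
          (fun p : Bool × Unit => if p.1 then hh (b (i t')) else hh (b (i s)))) ∘ ρ')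
          (Sum.inr j)) (i 2) (hh (b (i (π 2)))))
      rw [key]
      exact hσ

end Pool.Agent.H24.GH
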