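import Pool.Agent.H24.GH.OMul

/-!
# JOB GH-7: hardness at a star with two different ends of multiplicity at least two

`y₀, hh : Fin 2 → V, b : Fin m → Fin 2` as in the file `OColA` (`supp L τ x₀ = 2`). By `hB'` both fibres of `b` have at least two
elements (`M τ x₀ (hh i)` is the size of the fibre of `i`, the sum is `m`); let `p₁ ≠ p₂` be indices with `b = 0`, `q₁ ≠ q₂` indices
with `b = 1`.
`nae`: on the hub variables `(Unit ⊕ Fin 2) ⊕ Fin 3` (tail variable, two constants, three head variables `u, v, w`): `of_P t j` for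
all `j` and `S = cs ∘ b`, and `of_P t q₂` for `S` with `u, v, w` at the indices `p₁, p₂, q₁`. Soundness: as in `OColA` `S` is not
constant (`ful_const`, `hB`), `Ful L τ x S`, so `cs 0 ≠ cs 1`; by `ful_res` for `I = {p₁, p₂, q₁, q₂}` two of `u, v, w` and the value at
`q₂` are `cs 0` and two are `cs 1`; so `u, v, w ∈ {cs 0, cs 1}`, not all equal. Completeness: `x = x₀`, `cs = hh`, `u, v, w` values of
`hh`, not all equal: choose the value at `q₂` such that each value occurs twice; the function is `y₀` composed with a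
permutation of `{p₁, p₂, q₁, q₂}` (there are six cases), `ful_perm`.
`hp_nae`: `J₀ = Unit ⊕ Fin 2`, `J = Fin 5` (`u₀, u₁, u₂, z, z'`). Let `F, T'` be the constants `0`, `1` and `N u v w` the relation `nae`.
The relation: for both tuples `N u₀ u₁ z`, `N z z' F`, `N z z' T'`, `N u₂ z' F`; and for the tuples `u`, `v` and `i < 3`: `N uᵢ vᵢ T'`
(`OF.comap`, `OF.and`, `OF.all`). Soundness: if `u₀ = u₁ = F` then `z = T'`, `z' = F`, so `u₂ = T'`; so some `uᵢ` is `T'`. The colour is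
the first `i` with `uᵢ = T'` (`uᵢ = c (inr 1)`), it is `2` otherwise. Two adjacent vertices have different colours, as
`uᵢ = vᵢ = T'` contradicts `N uᵢ vᵢ T'`. Completeness: the tuple of the colour `0` is `T', F, F, F, T'`, of `1`: `F, T', F, F, T'`, of
`2`: `F, F, T', T', F` (with `F = hh 0`, `T' = hh 1`).
-/

namespace Pool.Agent.H24.GH

open Pool.Agent.H24.GC Pool.Agent.H24.GG

variable {V D T K : Type} {L : LS V D T K} {k : Kt L} {τ ζ : T} {m : ℕ} {x₀ yt : V} {zt : V → V}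
  {Xg : V → Prop} {Gt Gz : V × V → Prop}

theorem oclb_perm : ∀ x y z : Fin 2, ¬ (x = y ∧ y = z) → ∃ π : Equiv.Perm (Fin 4),
    (![0, 0, 1, 1] : Fin 4 → Fin 2) (π 0) = x ∧ (![0, 0, 1, 1] : Fin 4 → Fin 2) (π 1) = y ∧
    (![0, 0, 1, 1] : Fin 4 → Fin 2) (π 2) = z := by
  decide

theorem oclb_pair {α : Type} (a b : α) : ({a, b} : Set α).ncard ≤ 2 := by
  have h := Set.ncard_insert_le a {b}
  rwa [Set.ncard_singleton] at h

/-- four indices: the first three values are among the two values and not all equal -/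
theorem oclb_four {m : ℕ} {S F : Fin m → V} {i : Fin 4 → Fin m} (hi : Function.Injective i)
    {s0 s1 : V} (h01 : s0 ≠ s1) (hS : ∀ a, S (i a) = if (![0, 0, 1, 1] : Fin 4 → Fin 2) a = 0 then s0 else s1)
    (h : ∀ z, {j | j ∈ Set.range i ∧ S j = z}.ncard = {j | j ∈ Set.range i ∧ F j = z}.ncard) :
    ¬ (F (i 0) = F (i 1) ∧ F (i 1) = F (i 2)) ∧ ∀ a, F (i a) = s0 ∨ F (i a) = s1 := by
  have hS2 : ∀ a, S (i a) = s0 ∨ S (i a) = s1 := by
    intro a
    rw [hS]
    split_ifs
    · exact Or.inl rfl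
    · exact Or.inr rfl
  have n01 : i 0 ≠ i 1 := fun h => absurd (hi h) (by decide)
  have n02 : i 0 ≠ i 2 := fun h => absurd (hi h) (by decide)
  have n12 : i 1 ≠ i 2 := fun h => absurd (hi h) (by decide)
  constructor
  · rintro ⟨h1, h2⟩
    have h3 : 3 ≤ {j | j ∈ Set.range i ∧ F j = F (i 0)}.ncard := by
      have h4 : ({i 0, i 1, i 2} : Set (Fin m)) ⊆ {j | j ∈ Set.range i ∧ F j = F (i 0)} := by
        rintro j (rfl | rfl | rfl)
        · exact ⟨⟨0, rfl⟩, rfl⟩
        · exact ⟨⟨1, rfl⟩, h1.symm⟩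
        · exact ⟨⟨2, rfl⟩, (h1.trans h2).symm⟩
      have h5 := Set.ncard_le_ncard h4 (Set.toFinite _)
      rwa [Set.ncard_eq_three.2 ⟨i 0, i 1, i 2, n01, n02, n12, rfl⟩] at h5
    rw [← h] at h3
    have h6 : {j | j ∈ Set.range i ∧ S j = F (i 0)}.ncard ≤ 2 := by
      by_cases hz : F (i 0) = s0
      · have h7 : {j | j ∈ Set.range i ∧ S j = F (i 0)} ⊆ {i 0, i 1} := by
          rintro _ ⟨⟨a, rfl⟩, ha⟩
          rw [hS, hz] at ha
          fin_cases a
          · exact Or.inl rfl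
          · exact Or.inr rfl
          · exact absurd ha (by simpa using h01.symm)
          · exact absurd ha (by simpa using h01.symm)
        exact (Set.ncard_le_ncard h7 (Set.toFinite _)).trans (oclb_pair _ _)
      · have h7 : {j | j ∈ Set.range i ∧ S j = F (i 0)} ⊆ {i 2, i 3} := by
          rintro _ ⟨⟨a, rfl⟩, ha⟩
          rw [hS] at ha
          fin_cases a
          · exact absurd ha (by simpa using Ne.symm hz)
          · exact absurd ha (by simpa using Ne.symm hz)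
          · exact Or.inl rfl
          · exact Or.inr rfl
        exact (Set.ncard_le_ncard h7 (Set.toFinite _)).trans (oclb_pair _ _)
    omega
  · intro a
    have h1 : {j | j ∈ Set.range i ∧ F j = F (i a)}.Nonempty := ⟨i a, ⟨a, rfl⟩, rfl⟩
    have h2 : 0 < {j | j ∈ Set.range i ∧ F j = F (i a)}.ncard := h1.ncard_pos
    rw [← h] at h2
    obtain ⟨j, ⟨b, rfl⟩, hb⟩ := Set.nonempty_of_ncard_ne_zero h2.ne'
    rw [← hb]
    exact hS2 b

/-- the indices of a star with two ends -/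
theorem oclb_ix [Finite D] {τ : T} {m : ℕ} {x₀ : V} {y₀ : Fin m → V} (hy₀ : Ful L τ x₀ y₀)
    (hx₀ : ∀ z, L.M τ x₀ z + 2 ≤ m) (h2 : supp L τ x₀ = 2) :
    ∃ (hh : Fin 2 → V) (b : Fin m → Fin 2) (i : Fin 4 → Fin m), hh 0 ≠ hh 1 ∧
      (∀ j, hh (b j) = y₀ j) ∧ Function.Injective i ∧
      ∀ a, b (i a) = (![0, 0, 1, 1] : Fin 4 → Fin 2) a := by
  have hcard : Nat.card {y | Dt L τ x₀ y} = 2 := h2
  obtain ⟨ee⟩ : Nonempty (Fin 2 ≃ {y | Dt L τ x₀ y}) := by
    have : Finite {y | Dt L τ x₀ y} := Nat.finite_of_card_ne_zero (by omega)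
    exact ⟨(Finite.equivFinOfCardEq hcard).symm⟩
  obtain ⟨hh, hhdef⟩ : ∃ hh : Fin 2 → V, ∀ s, hh s = (ee s).1 := ⟨fun s => (ee s).1, fun _ => rfl⟩
  have hhinj : Function.Injective hh := by
    intro a b hab
    rw [hhdef, hhdef] at hab
    exact ee.injective (Subtype.ext hab)
  obtain ⟨b, hb⟩ : ∃ b : Fin m → Fin 2, ∀ i, hh (b i) = y₀ i := by
    refine ⟨fun i => ee.symm ⟨y₀ i, ful_dt hy₀ i⟩, fun i => ?_⟩
    rw [hhdef, Equiv.apply_symm_apply]
  have hfib : ∀ s, {j | b j = s}.ncard = L.M τ x₀ (hh s) := by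
    intro s
    rw [← hy₀.2]
    congr 1
    ext j
    show b j = s ↔ y₀ j = hh s
    rw [← hb]
    exact ⟨fun h => by rw [h], fun h => hhinj h⟩
  have hun : {j | b j = 0}.ncard + {j | b j = 1}.ncard = m := by
    rw [← Set.ncard_union_eq]
    · have : {j | b j = 0} ∪ {j | b j = 1} = (Set.univ : Set (Fin m)) := by
        ext j
        have : b j = 0 ∨ b j = 1 := by omega
        exact ⟨fun _ => trivial, fun _ => this⟩
      rw [this, Set.ncard_univ, Nat.card_eq_fintype_card, Fintype.card_fin]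
    · rw [Set.disjoint_left]
      intro j h3 h4
      have h5 : b j = 0 := h3
      have h6 : b j = 1 := h4
      rw [h5] at h6
      exact absurd h6 (by decide)
  have h0 := hx₀ (hh 0)
  have h1 := hx₀ (hh 1)
  rw [← hfib] at h0 h1
  obtain ⟨p1, p2, hp1, hp2, hp⟩ := (Set.one_lt_ncard_iff (Set.toFinite {j | b j = 0})).1 (by omega)
  obtain ⟨q1, q2, hq1, hq2, hq⟩ := (Set.one_lt_ncard_iff (Set.toFinite {j | b j = 1})).1 (by omega)
  have hp1' : b p1 = 0 := hp1
  have hp2' : b p2 = 0 := hp2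
  have hq1' : b q1 = 1 := hq1
  have hq2' : b q2 = 1 := hq2
  have hbi : ∀ a, b ((![p1, p2, q1, q2] : Fin 4 → Fin m) a) = (![0, 0, 1, 1] : Fin 4 → Fin 2) a := by
    intro a
    fin_cases a
    · exact hp1'
    · exact hp2'
    · exact hq1'
    · exact hq2'
  refine ⟨hh, b, ![p1, p2, q1, q2], fun h => absurd (hhinj h) (by decide), hb, ?_, hbi⟩
  have hpq : ∀ p q, b p = 0 → b q = 1 → p ≠ q := by
    intro p q h3 h4 h5
    rw [h5, h4] at h3
    exact absurd h3 (by decide)
  intro a a' haa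
  fin_cases a <;> fin_cases a' <;> first
    | rfl
    | exact absurd haa hp
    | exact absurd haa hp.symm
    | exact absurd haa hq
    | exact absurd haa hq.symm
    | exact absurd haa (hpq _ _ hp1' hq1')
    | exact absurd haa (hpq _ _ hp1' hq2')
    | exact absurd haa (hpq _ _ hp2' hq1')
    | exact absurd haa (hpq _ _ hp2' hq2')
    | exact absurd haa (hpq _ _ hp1' hq1').symm
    | exact absurd haa (hpq _ _ hp1' hq2').symm
    | exact absurd haa (hpq _ _ hp2' hq1').symm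
    | exact absurd haa (hpq _ _ hp2' hq2').symm

open Classical in
theorem nae [Finite V] [Finite D] (t : Ties k τ ζ m x₀ yt zt Xg Gt Gz)
    (hcl : L.cl x₀ = L.sc τ) (hx₀ : ∀ z, L.M τ x₀ z + 2 ≤ m)
    (hB : ∀ x, Xg x → L.cl x = L.sc τ → ∀ z, L.M τ x z + 2 ≤ m)
    (h2 : supp L τ x₀ = 2) : ∃ hh : Fin 2 → V, hh 0 ≠ hh 1 ∧
      OF k (Sum.elim (Sum.elim (fun _ : Unit => tS τ yt Gt) (fun _ : Fin 2 => hS ζ zt Gz))
        (fun _ : Fin 3 => hS ζ zt Gz))
      (fun c => c (Sum.inl (Sum.inr 0)) ≠ c (Sum.inl (Sum.inr 1)) ∧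
        (∀ i, c (Sum.inr i) = c (Sum.inl (Sum.inr 0)) ∨ c (Sum.inr i) = c (Sum.inl (Sum.inr 1))) ∧
        ¬ (c (Sum.inr 0) = c (Sum.inr 1) ∧ c (Sum.inr 1) = c (Sum.inr 2)))
      (fun c => c (Sum.inl (Sum.inl ())) = x₀ ∧ c (Sum.inl (Sum.inr 0)) = hh 0 ∧
        c (Sum.inl (Sum.inr 1)) = hh 1 ∧
        (∀ i, c (Sum.inr i) = hh 0 ∨ c (Sum.inr i) = hh 1) ∧
        ¬ (c (Sum.inr 0) = c (Sum.inr 1) ∧ c (Sum.inr 1) = c (Sum.inr 2))) := by
  obtain ⟨y₀, hy₀⟩ := ful_exists t.num hcl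
  obtain ⟨hh, b, i, hh01, hb, hiinj, hbi⟩ := oclb_ix hy₀ hx₀ h2
  have hb' : (fun i => hh (b i)) = y₀ := funext hb
  have n10 : i 1 ≠ i 0 := fun h => absurd (hiinj h) (by decide)
  have n20 : i 2 ≠ i 0 := fun h => absurd (hiinj h) (by decide)
  have n21 : i 2 ≠ i 1 := fun h => absurd (hiinj h) (by decide)
  have n30 : i 3 ≠ i 0 := fun h => absurd (hiinj h) (by decide)
  have n31 : i 3 ≠ i 1 := fun h => absurd (hiinj h) (by decide)
  have n32 : i 3 ≠ i 2 := fun h => absurd (hiinj h) (by decide)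
  -- the renamings
  let ρ : Unit ⊕ Fin m → (Unit ⊕ Fin 2) ⊕ Fin 3 :=
    Sum.elim (fun _ => Sum.inl (Sum.inl ())) (fun j => Sum.inl (Sum.inr (b j)))
  let ρ' : Unit ⊕ Fin m → (Unit ⊕ Fin 2) ⊕ Fin 3 :=
    Sum.elim (fun _ => Sum.inl (Sum.inl ())) (fun j => if j = i 0 then Sum.inr 0
      else if j = i 1 then Sum.inr 1 else if j = i 2 then Sum.inr 2 else Sum.inl (Sum.inr (b j)))
  have e1 : ∀ j, OF k (Sum.elim (Sum.elim (fun _ : Unit => tS τ yt Gt) (fun _ : Fin 2 => hS ζ zt Gz))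
        (fun _ : Fin 3 => hS ζ zt Gz))
      (fun c => RelP L τ j Xg (c ∘ ρ)) (fun c => RelP L τ j (fun x => x = x₀) (c ∘ ρ)) := by
    intro j
    refine (of_P t j).comap ρ ?_
    rintro (x | x) <;> rfl
  have e2 : OF k (Sum.elim (Sum.elim (fun _ : Unit => tS τ yt Gt) (fun _ : Fin 2 => hS ζ zt Gz))
        (fun _ : Fin 3 => hS ζ zt Gz))
      (fun c => RelP L τ (i 3) Xg (c ∘ ρ')) (fun c => RelP L τ (i 3) (fun x => x = x₀) (c ∘ ρ')) := by
    refine (of_P t (i 3)).comap ρ' ?_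
    rintro (x | x)
    · rfl
    · show hS ζ zt Gz = Sum.elim (Sum.elim (fun _ : Unit => tS τ yt Gt)
        (fun _ : Fin 2 => hS ζ zt Gz)) (fun _ : Fin 3 => hS ζ zt Gz) (if x = i 0 then _ else _)
      by_cases h : x = i 0
      · rw [if_pos h]
        rfl
      · rw [if_neg h]
        by_cases h' : x = i 1
        · rw [if_pos h']
          rfl
        · rw [if_neg h']
          by_cases h'' : x = i 2
          · rw [if_pos h'']
            rfl
          · rw [if_neg h'']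
            rfl
  refine ⟨hh, hh01, ((OF.all e1).and e2).mono ?_ ?_⟩
  · -- soundness
    rintro c ⟨h1, hXg, w, hw⟩
    obtain ⟨S, hSdef⟩ : ∃ S : Fin m → V, ∀ j, S j = c (Sum.inl (Sum.inr (b j))) := ⟨_, fun _ => rfl⟩
    obtain ⟨x, hx⟩ : ∃ x, x = c (Sum.inl (Sum.inl ())) := ⟨_, rfl⟩
    have hSe : (fun j => c (Sum.inl (Sum.inr (b j)))) = S := (funext hSdef).symm
    have hXx : Xg x := by rw [hx]; exact hXg
    have hj : ∀ j, ∃ v, Ful L τ x (Function.update S j v) := by
      intro j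
      obtain ⟨-, v, hv⟩ := h1 j
      refine ⟨v, ?_⟩
      rw [hx, ← hSe]
      exact hv
    have hclx : L.cl x = L.sc τ := by
      obtain ⟨v, hv⟩ := hj (i 0)
      exact hv.1
    have hnc : ∃ j j', S j ≠ S j' := by
      by_contra hcon
      push Not at hcon
      obtain ⟨v, hv⟩ := hj (i 0)
      have hS' : S = fun _ => S (i 0) := funext fun j => hcon j (i 0)
      rw [hS'] at hv
      have h4 := ful_const hv
      have h5 := hB x hXx hclx (S (i 0))
      omega
    obtain ⟨j, j', hjj⟩ := hnc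
    have hFS : Ful L τ x S := ful_all hj hjj
    have hcs : c (Sum.inl (Sum.inr 0)) ≠ c (Sum.inl (Sum.inr 1)) := by
      intro hcc
      apply hjj
      rw [hSdef, hSdef]
      have g1 : ∀ s : Fin 2, c (Sum.inl (Sum.inr s)) = c (Sum.inl (Sum.inr 0)) := by
        intro s
        fin_cases s
        · rfl
        · exact hcc.symm
      rw [g1 (b j), g1 (b j')]
    obtain ⟨F, hFdef⟩ : ∃ F : Fin m → V, F = Function.update
        (fun j => (c ∘ ρ') (Sum.inr j)) (i 3) w := ⟨_, rfl⟩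
    have hFF : Ful L τ x F := by
      rw [hFdef, hx]
      exact hw
    have F0 : F (i 0) = c (Sum.inr 0) := by
      rw [hFdef, Function.update_of_ne n30.symm]
      show c (if i 0 = i 0 then _ else _) = _
      rw [if_pos rfl]
    have F1 : F (i 1) = c (Sum.inr 1) := by
      rw [hFdef, Function.update_of_ne n31.symm]
      show c (if i 1 = i 0 then _ else _) = _
      rw [if_neg n10, if_pos rfl]
    have F2 : F (i 2) = c (Sum.inr 2) := by
      rw [hFdef, Function.update_of_ne n32.symm]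
      show c (if i 2 = i 0 then _ else _) = _
      rw [if_neg n20, if_neg n21, if_pos rfl]
    have hout : ∀ j, j ∉ Set.range i → S j = F j := by
      intro j hj'
      have g0 : j ≠ i 0 := fun h => hj' ⟨0, h.symm⟩
      have g1 : j ≠ i 1 := fun h => hj' ⟨1, h.symm⟩
      have g2 : j ≠ i 2 := fun h => hj' ⟨2, h.symm⟩
      have g3 : j ≠ i 3 := fun h => hj' ⟨3, h.symm⟩
      rw [hFdef, Function.update_of_ne g3]
      show S j = c (if j = i 0 then _ else _)
      rw [if_neg g0, if_neg g1, if_neg g2]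
      exact hSdef j
    obtain ⟨q1, q2⟩ := oclb_four (S := S) (F := F) hiinj hcs (by
      intro a
      rw [hSdef, hbi]
      fin_cases a
      · exact (if_pos rfl).symm
      · exact (if_pos rfl).symm
      · exact (if_neg (by decide)).symm
      · exact (if_neg (by decide)).symm) (fun z => ful_res hFS hFF hout z)
    refine ⟨hcs, ?_, ?_⟩
    · intro a
      fin_cases a
      · have := q2 0
        rwa [F0] at this
      · have := q2 1
        rwa [F1] at this
      · have := q2 2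
        rwa [F2] at this
    · rwa [F0, F1, F2] at q1
  · -- completeness
    rintro c ⟨hcx, hc0, hc1, hcu, hcn⟩
    have hcc : ∀ s, c (Sum.inl (Sum.inr s)) = hh s := by
      intro s
      fin_cases s
      · exact hc0
      · exact hc1
    have hcode : ∀ a, ∃ s : Fin 2, c (Sum.inr a) = hh s := by
      intro a
      rcases hcu a with h | h
      · exact ⟨0, h⟩
      · exact ⟨1, h⟩
    choose u hu using hcode
    obtain ⟨π, hπ0, hπ1, hπ2⟩ := oclb_perm (u 0) (u 1) (u 2) (by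
      rintro ⟨h3, h4⟩
      exact hcn ⟨by rw [hu, hu, h3], by rw [hu, hu, h4]⟩)
    refine ⟨?_, hcx, hh (b (i (π 3))), ?_⟩
    · intro j
      refine ⟨hcx, y₀ j, ?_⟩
      show Ful L τ (c (Sum.inl (Sum.inl ())))
        (Function.update (fun i => c (Sum.inl (Sum.inr (b i)))) j (y₀ j))
      have g1 : (fun i => c (Sum.inl (Sum.inr (b i)))) = y₀ := by
        rw [← hb']
        exact funext fun i => hcc (b i)
      rw [hcx, g1, Function.update_eq_self]
      exact hy₀
    · have hσ := ful_perm hy₀ (π.viaEmbedding ⟨i, hiinj⟩)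
      have key : (Function.update (fun j => (c ∘ ρ') (Sum.inr j)) (i 3) (hh (b (i (π 3))))) =
          y₀ ∘ (π.viaEmbedding ⟨i, hiinj⟩) := by
        funext j
        by_cases hj : j ∈ Set.range i
        · obtain ⟨a, rfl⟩ := hj
          have h4 : (π.viaEmbedding ⟨i, hiinj⟩) (i a) = i (π a) :=
            Equiv.Perm.viaEmbedding_apply π ⟨i, hiinj⟩ a
          rw [Function.comp_apply, h4, ← hb]
          have ha : a = 0 ∨ a = 1 ∨ a = 2 ∨ a = 3 := by
            fin_cases a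
            · exact Or.inl rfl
            · exact Or.inr (Or.inl rfl)
            · exact Or.inr (Or.inr (Or.inl rfl))
            · exact Or.inr (Or.inr (Or.inr rfl))
          rcases ha with rfl | rfl | rfl | rfl
          · rw [Function.update_of_ne n30.symm, hbi, hπ0]
            show c (if i 0 = i 0 then _ else _) = _
            rw [if_pos rfl]
            exact hu 0
          · rw [Function.update_of_ne n31.symm, hbi, hπ1]
            show c (if i 1 = i 0 then _ else _) = _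
            rw [if_neg n10, if_pos rfl]
            exact hu 1
          · rw [Function.update_of_ne n32.symm, hbi, hπ2]
            show c (if i 2 = i 0 then _ else _) = _
            rw [if_neg n20, if_neg n21, if_pos rfl]
            exact hu 2
          · rw [Function.update_self]
        · have g0 : j ≠ i 0 := fun h => hj ⟨0, h.symm⟩
          have g1 : j ≠ i 1 := fun h => hj ⟨1, h.symm⟩
          have g2 : j ≠ i 2 := fun h => hj ⟨2, h.symm⟩
          have g3 : j ≠ i 3 := fun h => hj ⟨3, h.symm⟩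
          rw [Function.comp_apply, Equiv.Perm.viaEmbedding_apply_of_notMem π ⟨i, hiinj⟩ j hj,
            Function.update_of_ne g3]
          show c (if j = i 0 then _ else _) = _
          rw [if_neg g0, if_neg g1, if_neg g2, hcc]
          exact hb j
      show Ful L τ (c (Sum.inl (Sum.inl ())))
        (Function.update (fun j => (c ∘ ρ') (Sum.inr j)) (i 3) (hh (b (i (π 3)))))
      rw [key, hcx]
      exact hσ

/-- the places of the relation: constants and the variables of the two tuples -/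
def oclb_con : (Bool × Fin 4) ⊕ Fin 3 → Fin 3 → Fin 2 ⊕ (Bool × Fin 5)
  | Sum.inl p => (![![Sum.inr (p.1, 0), Sum.inr (p.1, 1), Sum.inr (p.1, 3)],
      ![Sum.inr (p.1, 3), Sum.inr (p.1, 4), Sum.inl 0],
      ![Sum.inr (p.1, 3), Sum.inr (p.1, 4), Sum.inl 1],
      ![Sum.inr (p.1, 2), Sum.inr (p.1, 4), Sum.inl 0]] :
      Fin 4 → Fin 3 → Fin 2 ⊕ (Bool × Fin 5)) p.2
  | Sum.inr a => ![Sum.inr (false, (![0, 1, 2] : Fin 3 → Fin 5) a),
      Sum.inr (true, (![0, 1, 2] : Fin 3 → Fin 5) a), Sum.inl 1]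

/-- the tuple of a colour -/
def oclb_tup : Fin 3 → Fin 5 → Fin 2 :=
  ![![1, 0, 0, 0, 1], ![0, 1, 0, 0, 1], ![0, 0, 1, 1, 0]]

def oclb_cd (s t : Fin 3) : Fin 2 ⊕ (Bool × Fin 5) → Fin 2
  | Sum.inl e => e
  | Sum.inr p => if p.1 then oclb_tup t p.2 else oclb_tup s p.2

theorem oclb_code : ∀ s t : Fin 3, s ≠ t → ∀ a : (Bool × Fin 4) ⊕ Fin 3,
    ¬ (oclb_cd s t (oclb_con a 0) = oclb_cd s t (oclb_con a 1) ∧
      oclb_cd s t (oclb_con a 1) = oclb_cd s t (oclb_con a 2)) := by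
  decide

/-- some of the first three values is the constant `1` -/
theorem oclb_some {F T' u0 u1 u2 z z' : V}
    (h0 : (u0 = F ∨ u0 = T') ∧ (u1 = F ∨ u1 = T') ∧ (z = F ∨ z = T') ∧ ¬ (u0 = u1 ∧ u1 = z))
    (h1 : z' = F ∨ z' = T') (h2 : ¬ (z = z' ∧ z' = T')) (h3 : u2 = F ∨ u2 = T')
    (h4 : ¬ (u2 = z' ∧ z' = F)) (g0 : u0 ≠ T') (g1 : u1 ≠ T') : u2 = T' := by
  obtain ⟨a0, a1, a2, a3⟩ := h0
  have b0 : u0 = F := a0.resolve_right g0
  have b1 : u1 = F := a1.resolve_right g1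
  have b2 : z = T' := a2.resolve_left fun h => a3 ⟨b0.trans b1.symm, b1.trans h.symm⟩
  have b3 : z' = F := h1.resolve_right fun h => h2 ⟨b2.trans h.symm, h⟩
  exact h3.resolve_left fun h => h4 ⟨h.trans b3.symm, b3⟩

open Classical in
theorem hp_nae [Finite V] [Finite D] (t : Ties k τ ζ m x₀ yt zt Xg Gt Gz)
    (hcl : L.cl x₀ = L.sc τ) (hx₀ : ∀ z, L.M τ x₀ z + 2 ≤ m)
    (hB : ∀ x, Xg x → L.cl x = L.sc τ → ∀ z, L.M τ x z + 2 ≤ m)
    (h2 : supp L τ x₀ = 2) : HPat k := by
  obtain ⟨hh, hh01, hN⟩ := nae t hcl hx₀ hB h2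
  let s₀ : Unit ⊕ Fin 2 → Srt V T V := Sum.elim (fun _ => tS τ yt Gt) (fun _ => hS ζ zt Gz)
  let sJ : Fin 5 → Srt V T V := fun _ => hS ζ zt Gz
  let κ : Fin 2 ⊕ (Bool × Fin 5) → (Unit ⊕ Fin 2) ⊕ (Bool × Fin 5) :=
    Sum.elim (fun e => Sum.inl (Sum.inr e)) Sum.inr
  let ρ : (Bool × Fin 4) ⊕ Fin 3 → (Unit ⊕ Fin 2) ⊕ Fin 3 → (Unit ⊕ Fin 2) ⊕ (Bool × Fin 5) :=
    fun a => Sum.elim Sum.inl (fun l => κ (oclb_con a l))
  have hκ : ∀ p, hS ζ zt Gz = Sum.elim s₀ (fun p : Bool × Fin 5 => sJ p.2) (κ p) := by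
    rintro (e | p) <;> rfl
  have e1 := fun a => hN.comap (sX' := Sum.elim s₀ (fun p : Bool × Fin 5 => sJ p.2)) (ρ a) (by
    rintro (x | l)
    · rfl
    · exact hκ _)
  refine ⟨Unit ⊕ Fin 2, Fin 5, V, inferInstance, inferInstance, ⟨x₀⟩, s₀, sJ, _, _,
    fun cs a => if a 0 = cs (Sum.inr 1) then 0 else if a 1 = cs (Sum.inr 1) then 1 else 2,
    Sum.elim (fun _ => x₀) hh, fun s j => hh (oclb_tup s j), OF.all e1, ?_, ?_⟩
  · -- soundness
    intro c hc
    have hF : ∀ a, (∀ l, c (κ (oclb_con a l)) = c (Sum.inl (Sum.inr 0)) ∨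
        c (κ (oclb_con a l)) = c (Sum.inl (Sum.inr 1))) ∧
        ¬ (c (κ (oclb_con a 0)) = c (κ (oclb_con a 1)) ∧
          c (κ (oclb_con a 1)) = c (κ (oclb_con a 2))) := fun a => (hc a).2
    have hs : ∀ β : Bool, c (Sum.inr (β, 0)) ≠ c (Sum.inl (Sum.inr 1)) →
        c (Sum.inr (β, 1)) ≠ c (Sum.inl (Sum.inr 1)) →
        c (Sum.inr (β, 2)) = c (Sum.inl (Sum.inr 1)) := by
      intro β
      have k0 := hF (Sum.inl (β, 0))
      have k1 := hF (Sum.inl (β, 1))
      have k2 := hF (Sum.inl (β, 2))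
      have k3 := hF (Sum.inl (β, 3))
      exact oclb_some (z := c (Sum.inr (β, 3))) (z' := c (Sum.inr (β, 4)))
        ⟨k0.1 0, k0.1 1, k0.1 2, k0.2⟩ (k1.1 1) k2.2 (k3.1 0) k3.2
    have hd : ∀ a : Fin 3, ¬ (c (Sum.inr (false, (![0, 1, 2] : Fin 3 → Fin 5) a)) =
        c (Sum.inl (Sum.inr 1)) ∧ c (Sum.inr (true, (![0, 1, 2] : Fin 3 → Fin 5) a)) =
        c (Sum.inl (Sum.inr 1))) := by
      rintro a ⟨h3, h4⟩
      exact (hF (Sum.inr a)).2 ⟨h3.trans h4.symm, h4⟩
    have d0 := hd 0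
    have d1 := hd 1
    have d2 := hd 2
    have s0 := hs false
    have s1 := hs true
    show (if c (Sum.inr (false, 0)) = c (Sum.inl (Sum.inr 1)) then (0 : Fin 3) else
      if c (Sum.inr (false, 1)) = c (Sum.inl (Sum.inr 1)) then 1 else 2) ≠
      (if c (Sum.inr (true, 0)) = c (Sum.inl (Sum.inr 1)) then (0 : Fin 3) else
      if c (Sum.inr (true, 1)) = c (Sum.inl (Sum.inr 1)) then 1 else 2)
    have d0' : ¬ (c (Sum.inr (false, 0)) = c (Sum.inl (Sum.inr 1)) ∧
      c (Sum.inr (true, 0)) = c (Sum.inl (Sum.inr 1))) := d0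
    have d1' : ¬ (c (Sum.inr (false, 1)) = c (Sum.inl (Sum.inr 1)) ∧
      c (Sum.inr (true, 1)) = c (Sum.inl (Sum.inr 1))) := d1
    have d2' : ¬ (c (Sum.inr (false, 2)) = c (Sum.inl (Sum.inr 1)) ∧
      c (Sum.inr (true, 2)) = c (Sum.inl (Sum.inr 1))) := d2
    by_cases a0 : c (Sum.inr (false, 0)) = c (Sum.inl (Sum.inr 1))
    · have b0 : c (Sum.inr (true, 0)) ≠ c (Sum.inl (Sum.inr 1)) := fun h => d0' ⟨a0, h⟩
      rw [if_pos a0, if_neg b0]
      by_cases b1 : c (Sum.inr (true, 1)) = c (Sum.inl (Sum.inr 1))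
      · rw [if_pos b1]
        decide
      · rw [if_neg b1]
        decide
    · rw [if_neg a0]
      by_cases b0 : c (Sum.inr (true, 0)) = c (Sum.inl (Sum.inr 1))
      · rw [if_pos b0]
        by_cases a1 : c (Sum.inr (false, 1)) = c (Sum.inl (Sum.inr 1))
        · rw [if_pos a1]
          decide
        · rw [if_neg a1]
          decide
      · rw [if_neg b0]
        by_cases a1 : c (Sum.inr (false, 1)) = c (Sum.inl (Sum.inr 1))
        · rw [if_pos a1, if_neg (fun h => d1' ⟨a1, h⟩)]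
          decide
        · rw [if_neg a1]
          by_cases b1 : c (Sum.inr (true, 1)) = c (Sum.inl (Sum.inr 1))
          · rw [if_pos b1]
            decide
          · exact absurd ⟨s0 a0 a1, s1 b0 b1⟩ d2'
  · -- completeness
    intro s s' hss a
    have hval : ∀ p, (Sum.elim (Sum.elim (fun _ => x₀) hh) (fun p : Bool × Fin 5 =>
        if p.1 then hh (oclb_tup s' p.2) else hh (oclb_tup s p.2)) :
        (Unit ⊕ Fin 2) ⊕ (Bool × Fin 5) → V) (κ p) = hh (oclb_cd s s' p) := by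
      rintro (e | ⟨β, j⟩)
      · rfl
      · cases β <;> rfl
    have hinj : ∀ e e' : Fin 2, hh e = hh e' → e = e' := by
      intro e e' h
      fin_cases e <;> fin_cases e'
      · rfl
      · exact absurd h hh01
      · exact absurd h.symm hh01
      · rfl
    refine ⟨rfl, rfl, rfl, ?_, ?_⟩
    · intro l
      have h3 := hval (oclb_con a l)
      rcases (by omega : oclb_cd s s' (oclb_con a l) = 0 ∨ oclb_cd s s' (oclb_con a l) = 1)
        with h4 | h4
      · rw [h4] at h3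
        exact Or.inl h3
      · rw [h4] at h3
        exact Or.inr h3
    · rintro ⟨h3, h4⟩
      refine oclb_code s s' hss a ⟨hinj _ _ ?_, hinj _ _ ?_⟩
      · rw [← hval, ← hval]
        exact h3
      · rw [← hval, ← hval]
        exact h4

end Pool.Agent.H24.GH
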