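import Pool.Agent.H24.GH.OMul

/-!
# JOB GH-8: hardness at a star with one end of multiplicity `m - 1`

`y₀, hh : Fin 2 → V, b : Fin m → Fin 2` as in the file `OColA`, with `hh 0 = v₀` (`M τ x₀ v₀ + 1 = m`); `supp L τ x₀ = 2` (the ends are
`v₀` and one more, as `y₀` takes the value `v₀` exactly `m - 1` times). Let `q` be the index with `b q = 1` and `p₁ ≠ p₂` indices
with `b = 0` (`3 ≤ m`). `J₀ = Unit ⊕ Fin 2`, `J = Fin 3`; `F, T'` the constants `0, 1`, `S = cs ∘ b`. The relation: `P` with every
hole `j` for `S` (`of_P t j`); `R` for `S` (`of_R`); for both tuples `u`: `R` for `S` with `u₀, u₁, u₂` at the indices `p₁, p₂, q`; for the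
tuples `u, v` and `i < 3`: `P` with the hole `q` for `S` with `uᵢ, vᵢ` at the indices `p₁, p₂`.
Soundness: let `x` be the value of the tail variable, `Xg x`. `S` is not constant: if it is constant `z` then `m ≤ M τ x z + 1`
(`ful_const`), so `Dt L τ x z`, and `R` gives `x'` with `Ful L τ x' (fun _ => z)` and `Gt (x', z)`, contradiction to `hX`. So
`Ful L τ x S` (`ful_all`), `F ≠ T'`, `Dt L τ x F`, and `F` is taken `m - 1` times, `T'` once. By `ful_res` for `I = {p₁, p₂, q}`:
`uᵢ, vᵢ ∈ {F, T'}`, not both `T'`. If all `uᵢ` are `F` then the function in `R` is constant `F`: contradiction to `hX`. So some `uᵢ`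
is `T'`; the colour is the first such `i`.
Completeness: the constants `x₀, hh`; the tuple of the colour `s` is `T'` at `s` and `F` otherwise. All functions are `y₀`
composed with transpositions (`ful_perm`).
-/

namespace Pool.Agent.H24.GH

open Pool.Agent.H24.GC Pool.Agent.H24.GG

variable {V D T K : Type} {L : LS V D T K} {k : Kt L} {τ ζ : T} {m : ℕ} {x₀ yt : V} {zt : V → V}
  {Xg : V → Prop} {Gt Gz : V × V → Prop}

/-- the index with the exceptional value -/
theorem oclc_q {x : V} {y₀ : Fin m → V} {v₀ : V} (h : Ful L τ x y₀) (hv : L.M τ x v₀ + 1 = m) :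
    ∃ q : Fin m, ∀ i, y₀ i = if i = q then y₀ q else v₀ := by
  have h1 : {i | y₀ i = v₀}.ncard + {i | y₀ i = v₀}ᶜ.ncard = Nat.card (Fin m) :=
    Set.ncard_add_ncard_compl _
  rw [h.2, Nat.card_eq_fintype_card, Fintype.card_fin] at h1
  have h2 : {i | y₀ i = v₀}ᶜ.ncard = 1 := by omega
  obtain ⟨q, hq⟩ := Set.ncard_eq_one.1 h2
  refine ⟨q, fun i => ?_⟩
  by_cases hi : i = q
  · rw [if_pos hi, hi]
  · rw [if_neg hi]
    by_contra hcon
    apply hi
    have h3 : i ∈ {i | y₀ i = v₀}ᶜ := hcon
    rw [hq] at h3
    exact h3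

/-- the exceptional value at another index -/
theorem oclc_one {x : V} {y₀ : Fin m → V} {q : Fin m} {v₀ v₁ : V} (h : Ful L τ x y₀)
    (hy : ∀ i, y₀ i = if i = q then v₁ else v₀) (r : Fin m) {S : Fin m → V}
    (hS : ∀ i, S i = if i = r then v₁ else v₀) : Ful L τ x S := by
  have h1 := ful_perm h (Equiv.swap q r)
  have h2 : y₀ ∘ (Equiv.swap q r) = S := by
    funext i
    rw [Function.comp_apply, hy, hS]
    by_cases hi : i = r
    · rw [if_pos hi, hi, Equiv.swap_apply_right, if_pos rfl]
    · rw [if_neg hi, if_neg]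
      intro h3
      apply hi
      apply (Equiv.swap q r).injective
      rw [h3, Equiv.swap_apply_right]
  rw [h2] at h1
  exact h1

theorem oclc_pair {x F T' : V} {q p₁ p₂ : Fin m} {S S' : Fin m → V} (h : Ful L τ x S)
    (h' : Ful L τ x S') (hne : F ≠ T') (hS : ∀ i, S i = if i = q then T' else F) (hp : p₁ ≠ p₂) :
    (∀ i, S' i = F ∨ S' i = T') ∧ ¬ (S' p₁ = T' ∧ S' p₂ = T') := by
  have hc : ∀ z, {i | S i = z}.ncard = {i | S' i = z}.ncard := fun z =>
    (h.2 z).trans (h'.2 z).symm
  constructor
  · intro i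
    have h1 : {j | S' j = S' i}.Nonempty := ⟨i, rfl⟩
    have h2 : 0 < {j | S' j = S' i}.ncard := h1.ncard_pos
    rw [← hc] at h2
    obtain ⟨j, hj⟩ := Set.nonempty_of_ncard_ne_zero h2.ne'
    have hj' : S j = S' i := hj
    rw [← hj', hS]
    by_cases hq : j = q
    · rw [if_pos hq]
      exact Or.inr rfl
    · rw [if_neg hq]
      exact Or.inl rfl
  · rintro ⟨h1, h2⟩
    have h3 : {j | S j = T'}.ncard ≤ 1 := by
      rw [Set.ncard_le_one_iff]
      have key : ∀ a, S a = T' → a = q := by
        intro a ha
        by_contra hcon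
        rw [hS, if_neg hcon] at ha
        exact hne ha
      intro a b ha hb
      rw [key a ha, key b hb]
    have h4 : 1 < {j | S' j = T'}.ncard := by
      rw [Set.one_lt_ncard_iff]
      exact ⟨p₁, p₂, h1, h2, hp⟩
    rw [hc] at h3
    omega

theorem oclc_fin3 : ∀ s : Fin 3, s = 0 ∨ s = 1 ∨ s = 2 := by
  decide

open Classical in
/-- the colour of a tuple -/
theorem oclc_col {F T' : V} {a : Fin 3 → V} (h : ∀ i, a i = F ∨ a i = T') (h' : ¬ ∀ i, a i = F) :
    a (if a 0 = T' then 0 else if a 1 = T' then 1 else 2) = T' := by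
  by_cases h0 : a 0 = T'
  · rw [if_pos h0]
    exact h0
  · rw [if_neg h0]
    by_cases h1 : a 1 = T'
    · rw [if_pos h1]
      exact h1
    · rw [if_neg h1]
      rcases h 2 with h2 | h2
      · exfalso
        apply h'
        intro i
        rcases oclc_fin3 i with rfl | rfl | rfl
        · exact (h 0).resolve_right h0
        · exact (h 1).resolve_right h1
        · exact h2
      · exact h2

open Classical in
theorem hp_one [Finite V] [Finite D] (t : Ties k τ ζ m x₀ yt zt Xg Gt Gz)
    (hcl : L.cl x₀ = L.sc τ) {v₀ : V} (hv : L.M τ x₀ v₀ + 1 = m)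
    (hX : ∀ x z x', Xg x → Dt L τ x z → Gt (x', z) → ¬ Ful L τ x' (fun _ : Fin m => z)) :
    HPat k := by
  obtain ⟨y₀, hy₀⟩ := ful_exists t.num hcl
  obtain ⟨q, hq⟩ := oclc_q hy₀ hv
  obtain ⟨v₁, hv₁⟩ : ∃ v₁, v₁ = y₀ q := ⟨_, rfl⟩
  rw [← hv₁] at hq
  obtain ⟨p₁, hp₁, -⟩ := otie_third t.m3 q q
  obtain ⟨p₂, hp₂, hpp⟩ := otie_third t.m3 q p₁
  obtain ⟨hh, hh0, hh1⟩ : ∃ hh : Fin 2 → V, hh 0 = v₀ ∧ hh 1 = v₁ := ⟨![v₀, v₁], rfl, rfl⟩
  -- the renamings
  let sy : Fin m → (Unit ⊕ Fin 2) ⊕ (Bool × Fin 3) := fun j =>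
    if j = q then Sum.inl (Sum.inr 1) else Sum.inl (Sum.inr 0)
  let ρ : Unit ⊕ Fin m → (Unit ⊕ Fin 2) ⊕ (Bool × Fin 3) :=
    Sum.elim (fun _ => Sum.inl (Sum.inl ())) sy
  let ρR : Bool → Fin m → (Unit ⊕ Fin 2) ⊕ (Bool × Fin 3) := fun bb j =>
    if j = q then Sum.inr (bb, 2) else if j = p₁ then Sum.inr (bb, 0) else
      if j = p₂ then Sum.inr (bb, 1) else Sum.inl (Sum.inr 0)
  let ρ4 : Fin 3 → Unit ⊕ Fin m → (Unit ⊕ Fin 2) ⊕ (Bool × Fin 3) := fun i =>
    Sum.elim (fun _ => Sum.inl (Sum.inl ())) (fun j => if j = p₁ then Sum.inr (false, i)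
      else if j = p₂ then Sum.inr (true, i) else Sum.inl (Sum.inr 0))
  let s₀ : Unit ⊕ Fin 2 → Srt V T V := Sum.elim (fun _ => tS τ yt Gt) (fun _ => hS ζ zt Gz)
  let sJ : Fin 3 → Srt V T V := fun _ => hS ζ zt Gz
  let sX : (Unit ⊕ Fin 2) ⊕ (Bool × Fin 3) → Srt V T V :=
    Sum.elim s₀ (fun p : Bool × Fin 3 => sJ p.2)
  have e1 : ∀ j, OF k sX (fun c => RelP L τ j Xg (c ∘ ρ))
      (fun c => RelP L τ j (fun x => x = x₀) (c ∘ ρ)) := by
    intro j
    refine (of_P t j).comap ρ ?_
    rintro (x | x)
    · rfl
    · show hS ζ zt Gz = sX (if x = q then _ else _)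
      by_cases h : x = q
      · rw [if_pos h]
        rfl
      · rw [if_neg h]
        rfl
  have e2 : OF k sX (fun c => RelR L τ (fun _ => True) Gt (c ∘ sy))
      (fun c => Ful L τ x₀ (c ∘ sy)) := by
    refine (of_R t).comap sy ?_
    intro x
    show hS ζ zt Gz = sX (if x = q then _ else _)
    by_cases h : x = q
    · rw [if_pos h]
      rfl
    · rw [if_neg h]
      rfl
  have e3 : ∀ bb, OF k sX (fun c => RelR L τ (fun _ => True) Gt (c ∘ ρR bb))
      (fun c => Ful L τ x₀ (c ∘ ρR bb)) := by
    intro bb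
    refine (of_R t).comap (ρR bb) ?_
    intro x
    show hS ζ zt Gz = sX (if x = q then _ else _)
    by_cases h : x = q
    · rw [if_pos h]
      rfl
    · rw [if_neg h]
      by_cases h' : x = p₁
      · rw [if_pos h']
        rfl
      · rw [if_neg h']
        by_cases h'' : x = p₂
        · rw [if_pos h'']
          rfl
        · rw [if_neg h'']
          rfl
  have e4 : ∀ i, OF k sX (fun c => RelP L τ q Xg (c ∘ ρ4 i))
      (fun c => RelP L τ q (fun x => x = x₀) (c ∘ ρ4 i)) := by
    intro i
    refine (of_P t q).comap (ρ4 i) ?_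
    rintro (x | x)
    · rfl
    · show hS ζ zt Gz = sX (if x = p₁ then _ else _)
      by_cases h' : x = p₁
      · rw [if_pos h']
        rfl
      · rw [if_neg h']
        by_cases h'' : x = p₂
        · rw [if_pos h'']
          rfl
        · rw [if_neg h'']
          rfl
  refine ⟨Unit ⊕ Fin 2, Fin 3, V, inferInstance, inferInstance, ⟨x₀⟩, s₀, sJ,
    fun c => (∀ j, RelP L τ j Xg (c ∘ ρ)) ∧ RelR L τ (fun _ => True) Gt (c ∘ sy) ∧
      (∀ bb, RelR L τ (fun _ => True) Gt (c ∘ ρR bb)) ∧ ∀ i, RelP L τ q Xg (c ∘ ρ4 i),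
    fun c => (∀ j, RelP L τ j (fun x => x = x₀) (c ∘ ρ)) ∧ Ful L τ x₀ (c ∘ sy) ∧
      (∀ bb, Ful L τ x₀ (c ∘ ρR bb)) ∧ ∀ i, RelP L τ q (fun x => x = x₀) (c ∘ ρ4 i),
    fun cs a => if a 0 = cs (Sum.inr 1) then 0 else if a 1 = cs (Sum.inr 1) then 1 else 2,
    Sum.elim (fun _ => x₀) hh, fun s i => if i = s then hh 1 else hh 0,
    (OF.all e1).and (e2.and ((OF.all e3).and (OF.all e4))), ?_, ?_⟩
  · -- soundness
    rintro c ⟨h1, h2, h3, h4⟩ hcol
    obtain ⟨x, hx⟩ : ∃ x, x = c (Sum.inl (Sum.inl ())) := ⟨_, rfl⟩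
    obtain ⟨F, hF⟩ : ∃ F, F = c (Sum.inl (Sum.inr 0)) := ⟨_, rfl⟩
    obtain ⟨T', hT'⟩ : ∃ T', T' = c (Sum.inl (Sum.inr 1)) := ⟨_, rfl⟩
    obtain ⟨S, hSdef⟩ : ∃ S : Fin m → V, S = c ∘ sy := ⟨_, rfl⟩
    have hS : ∀ j, S j = if j = q then T' else F := by
      intro j
      rw [hSdef]
      show c (if j = q then _ else _) = _
      by_cases h : j = q
      · rw [if_pos h, if_pos h, hT']
      · rw [if_neg h, if_neg h, hF]
    have hXx : Xg x := by
      rw [hx]
      exact (h1 q).1
    have hj : ∀ j, ∃ v, Ful L τ x (Function.update S j v) := by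
      intro j
      obtain ⟨-, v, hv'⟩ := h1 j
      refine ⟨v, ?_⟩
      rw [hx, hSdef]
      exact hv'
    have hne : F ≠ T' := by
      intro hFT
      have hS' : S = fun _ => F := by
        funext j
        rw [hS, ← hFT, ite_self]
      obtain ⟨v, hv'⟩ := hj q
      rw [hS'] at hv'
      have h5 := ful_const hv'
      have h6 : Dt L τ x F := by
        have h7 := ful_dt hv' p₁
        rw [Function.update_of_ne hp₁] at h7
        exact h7
      obtain ⟨x', -, h7, h8⟩ := h2
      rw [← hSdef, hS'] at h7
      have h9 := h8 q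
      have h10 : (c ∘ sy) q = F := by
        rw [← hSdef, hS']
      rw [h10] at h9
      exact hX x F x' hXx h6 h9 h7
    have hFS : Ful L τ x S := by
      refine ful_all hj (i := p₁) (i' := q) ?_
      rw [hS, hS, if_neg hp₁, if_pos rfl]
      exact hne
    have hDF : Dt L τ x F := by
      have h5 := ful_dt hFS p₁
      rw [hS, if_neg hp₁] at h5
      exact h5
    -- the pairs
    have hpair : ∀ i, (c (Sum.inr (false, i)) = F ∨ c (Sum.inr (false, i)) = T') ∧
        (c (Sum.inr (true, i)) = F ∨ c (Sum.inr (true, i)) = T') ∧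
        ¬ (c (Sum.inr (false, i)) = T' ∧ c (Sum.inr (true, i)) = T') := by
      intro i
      obtain ⟨-, w, hw⟩ := h4 i
      obtain ⟨S', hS'⟩ : ∃ S' : Fin m → V, S' = Function.update
        (fun j => (c ∘ ρ4 i) (Sum.inr j)) q w := ⟨_, rfl⟩
      have hFS' : Ful L τ x S' := by
        rw [hS', hx]
        exact hw
      have g1 : S' p₁ = c (Sum.inr (false, i)) := by
        rw [hS', Function.update_of_ne hp₁]
        show c (if p₁ = p₁ then _ else _) = _
        rw [if_pos rfl]
      have g2 : S' p₂ = c (Sum.inr (true, i)) := by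
        rw [hS', Function.update_of_ne hp₂]
        show c (if p₂ = p₁ then _ else _) = _
        rw [if_neg hpp, if_pos rfl]
      obtain ⟨g3, g4⟩ := oclc_pair hFS hFS' hne hS hpp.symm
      rw [← g1, ← g2]
      exact ⟨g3 p₁, g3 p₂, g4⟩
    have hnF : ∀ bb : Bool, ¬ ∀ i : Fin 3, c (Sum.inr (bb, i)) = F := by
      intro bb hcon
      obtain ⟨x', -, h5, h6⟩ := h3 bb
      have h7 : (c ∘ ρR bb) = fun _ => F := by
        funext j
        show c (if j = q then _ else _) = F
        by_cases g1 : j = q
        · rw [if_pos g1]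
          exact hcon 2
        · rw [if_neg g1]
          by_cases g2 : j = p₁
          · rw [if_pos g2]
            exact hcon 0
          · rw [if_neg g2]
            by_cases g3 : j = p₂
            · rw [if_pos g3]
              exact hcon 1
            · rw [if_neg g3, hF]
      have h8 := h6 q
      rw [h7] at h5 h8
      exact hX x F x' hXx hDF h8 h5
    have hc0 := oclc_col (F := F) (T' := T') (a := fun i => c (Sum.inr (false, i)))
      (fun i => (hpair i).1) (hnF false)
    have hc1 := oclc_col (F := F) (T' := T') (a := fun i => c (Sum.inr (true, i)))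
      (fun i => (hpair i).2.1) (hnF true)
    have hcol' : (if c (Sum.inr (false, 0)) = T' then (0 : Fin 3) else
          if c (Sum.inr (false, 1)) = T' then 1 else 2) =
        (if c (Sum.inr (true, 0)) = T' then (0 : Fin 3) else
          if c (Sum.inr (true, 1)) = T' then 1 else 2) := by
      rw [hT']
      exact hcol
    have hc1' : c (Sum.inr (true, if c (Sum.inr (false, 0)) = T' then (0 : Fin 3) else
          if c (Sum.inr (false, 1)) = T' then 1 else 2)) = T' := by
      rw [hcol']
      exact hc1
    exact (hpair _).2.2 ⟨hc0, hc1'⟩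
  · -- completeness
    intro s t' hst
    obtain ⟨c, hc⟩ : ∃ c : (Unit ⊕ Fin 2) ⊕ (Bool × Fin 3) → V, c = Sum.elim
        (Sum.elim (fun _ => x₀) hh) (fun p => if p.1 then (if p.2 = t' then hh 1 else hh 0) else
          (if p.2 = s then hh 1 else hh 0)) := ⟨_, rfl⟩
    have c0 : c (Sum.inl (Sum.inr 0)) = v₀ := by
      rw [hc]
      exact hh0
    have c1 : c (Sum.inl (Sum.inr 1)) = v₁ := by
      rw [hc]
      exact hh1
    have cx : c (Sum.inl (Sum.inl ())) = x₀ := by
      rw [hc]
      rfl
    have cf : ∀ i, c (Sum.inr (false, i)) = if i = s then v₁ else v₀ := by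
      intro i
      rw [hc, ← hh0, ← hh1]
      rfl
    have ct : ∀ i, c (Sum.inr (true, i)) = if i = t' then v₁ else v₀ := by
      intro i
      rw [hc, ← hh0, ← hh1]
      rfl
    have hsy : ∀ j, c (sy j) = if j = q then v₁ else v₀ := by
      intro j
      show c (if j = q then _ else _) = _
      by_cases h : j = q
      · rw [if_pos h, if_pos h, c1]
      · rw [if_neg h, if_neg h, c0]
    have hcb : ∀ bb : Bool, ∃ s', ∀ i, c (Sum.inr (bb, i)) = if i = s' then v₁ else v₀ := by
      intro bb
      cases bb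
      · exact ⟨s, cf⟩
      · exact ⟨t', ct⟩
    have main : (∀ j, RelP L τ j (fun x => x = x₀) (c ∘ ρ)) ∧ Ful L τ x₀ (c ∘ sy) ∧
      (∀ bb, Ful L τ x₀ (c ∘ ρR bb)) ∧ ∀ i, RelP L τ q (fun x => x = x₀) (c ∘ ρ4 i) := by
      refine ⟨?_, ?_, ?_, ?_⟩
      · intro j
        refine ⟨cx, c (sy j), ?_⟩
        show Ful L τ (c (Sum.inl (Sum.inl ()))) (Function.update (fun i => c (sy i)) j (c (sy j)))
        rw [Function.update_eq_self, cx]
        exact oclc_one hy₀ hq q hsy
      · exact oclc_one hy₀ hq q hsy
      · intro bb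
        obtain ⟨s', hs'⟩ := hcb bb
        rcases oclc_fin3 s' with rfl | rfl | rfl
        · refine oclc_one hy₀ hq p₁ ?_
          intro j
          show c (if j = q then _ else _) = _
          by_cases g1 : j = q
          · rw [if_pos g1, hs', if_neg (by decide), if_neg]
            rw [g1]
            exact hp₁.symm
          · rw [if_neg g1]
            by_cases g2 : j = p₁
            · rw [if_pos g2, if_pos g2, hs', if_pos rfl]
            · rw [if_neg g2, if_neg g2]
              by_cases g3 : j = p₂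
              · rw [if_pos g3, hs', if_neg (by decide)]
              · rw [if_neg g3, c0]
        · refine oclc_one hy₀ hq p₂ ?_
          intro j
          show c (if j = q then _ else _) = _
          by_cases g1 : j = q
          · rw [if_pos g1, hs', if_neg (by decide), if_neg]
            rw [g1]
            exact hp₂.symm
          · rw [if_neg g1]
            by_cases g2 : j = p₁
            · rw [if_pos g2, hs', if_neg (by decide), if_neg]
              rw [g2]
              exact hpp.symm
            · rw [if_neg g2]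
              by_cases g3 : j = p₂
              · rw [if_pos g3, if_pos g3, hs', if_pos rfl]
              · rw [if_neg g3, if_neg g3, c0]
        · refine oclc_one hy₀ hq q ?_
          intro j
          show c (if j = q then _ else _) = _
          by_cases g1 : j = q
          · rw [if_pos g1, if_pos g1, hs', if_pos rfl]
          · rw [if_neg g1, if_neg g1]
            by_cases g2 : j = p₁
            · rw [if_pos g2, hs', if_neg (by decide)]
            · rw [if_neg g2]
              by_cases g3 : j = p₂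
              · rw [if_pos g3, hs', if_neg (by decide)]
              · rw [if_neg g3, c0]
      · intro i
        obtain ⟨r, w, hr⟩ : ∃ (r : Fin m) (w : V), ∀ j, Function.update
            (fun j => c (ρ4 i (Sum.inr j))) q w j = if j = r then v₁ else v₀ := by
          by_cases his : i = s
          · have hit : i ≠ t' := by
              rw [his]
              exact hst
            refine ⟨p₁, v₀, fun j => ?_⟩
            by_cases g1 : j = q
            · rw [g1, Function.update_self, if_neg hp₁.symm]
            · rw [Function.update_of_ne g1]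
              show c (if j = p₁ then _ else _) = _
              by_cases g2 : j = p₁
              · rw [if_pos g2, if_pos g2, cf, if_pos his]
              · rw [if_neg g2, if_neg g2]
                by_cases g3 : j = p₂
                · rw [if_pos g3, ct, if_neg hit]
                · rw [if_neg g3, c0]
          · by_cases hit : i = t'
            · refine ⟨p₂, v₀, fun j => ?_⟩
              by_cases g1 : j = q
              · rw [g1, Function.update_self, if_neg hp₂.symm]
              · rw [Function.update_of_ne g1]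
                show c (if j = p₁ then _ else _) = _
                by_cases g2 : j = p₁
                · rw [if_pos g2, cf, if_neg his, g2, if_neg hpp.symm]
                · rw [if_neg g2]
                  by_cases g3 : j = p₂
                  · rw [if_pos g3, if_pos g3, ct, if_pos hit]
                  · rw [if_neg g3, if_neg g3, c0]
            · refine ⟨q, v₁, fun j => ?_⟩
              by_cases g1 : j = q
              · rw [g1, Function.update_self, if_pos rfl]
              · rw [Function.update_of_ne g1, if_neg g1]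
                show c (if j = p₁ then _ else _) = _
                by_cases g2 : j = p₁
                · rw [if_pos g2, cf, if_neg his]
                · rw [if_neg g2]
                  by_cases g3 : j = p₂
                  · rw [if_pos g3, ct, if_neg hit]
                  · rw [if_neg g3, c0]
        refine ⟨cx, w, ?_⟩
        show Ful L τ (c (Sum.inl (Sum.inl ()))) (Function.update
            (fun j => c (ρ4 i (Sum.inr j))) q w)
        rw [cx]
        exact oclc_one hy₀ hq r hr
    rw [hc] at main
    exact main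

end Pool.Agent.H24.GH
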