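import Pool.Agent.H24.GH.NTie
import Pool.Agent.H24.GH.NSec
import Pool.Agent.H24.GH.OColA
import Pool.Agent.H24.GH.OColB
import Pool.Agent.H24.GH.OColC

/-!
# JOB GH-17: the choice of the vertex

`hp_fin`. (1) If there are `x₀, v₀` with `Xg x₀`, `cl x₀ = sc τ`, `M τ x₀ v₀ + 1 = m`: `hp_one` (`h1`). (2) Otherwise `M τ x z + 2 ≤ m` for all
`x` with `Xg x`, `cl x = sc τ` (`hM`). Choose such `x₀` with the smallest `supp L τ x₀`. `2 ≤ supp L τ x₀`: otherwise `M τ x₀ y = num τ`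
for its end `y` (`supp_one`, `dt_exists`). If `supp L τ x₀ = 2`: `hp_nae`; otherwise `hp_three`.
-/

namespace Pool.Agent.H24.GH

open Pool.Agent.H24.GG

variable {V D T K : Type} {L : LS V D T K}

theorem hp_fin [Finite V] [Finite D] {k : Kt L} {τ : T} {m : ℕ} (hn : L.num τ = m)
    {Xg : V → Prop} (hX : ∃ x, Xg x ∧ L.cl x = L.sc τ)
    (hM : ∀ x z, Xg x → L.cl x = L.sc τ → L.M τ x z < m)
    (h1 : ∀ x z x', Xg x → Dt L τ x z → ¬ Ful L τ x' (fun _ : Fin m => z))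
    (ht : ∀ x₀, Xg x₀ → L.cl x₀ = L.sc τ → ∃ ζ yt zt,
      Nonempty (Ties k τ ζ m x₀ yt zt Xg (fun _ => True) (fun _ => True))) : HPat k := by
  by_cases hc1 : ∃ x₀ v₀, Xg x₀ ∧ L.cl x₀ = L.sc τ ∧ L.M τ x₀ v₀ + 1 = m
  · obtain ⟨x₀, v₀, hx, hcl, hv⟩ := hc1
    obtain ⟨ζ, yt, zt, ⟨t⟩⟩ := ht x₀ hx hcl
    exact hp_one t hcl hv (fun x z x' hx hz _ => h1 x z x' hx hz)
  · have hB : ∀ x, Xg x → L.cl x = L.sc τ → ∀ z, L.M τ x z + 2 ≤ m := by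
      intro x hx hcl z
      have a := hM x z hx hcl
      have b : L.M τ x z + 1 ≠ m := fun h => hc1 ⟨x, z, hx, hcl, h⟩
      omega
    obtain ⟨x₀, ⟨hx, hcl⟩, hmin⟩ := WellFounded.has_min (measure (supp L τ)).wf
      {x | Xg x ∧ L.cl x = L.sc τ} hX
    have hmin' : ∀ x, Xg x → L.cl x = L.sc τ → supp L τ x₀ ≤ supp L τ x :=
      fun x h1 h2 => not_lt.1 (hmin x ⟨h1, h2⟩)
    have h2 : 2 ≤ supp L τ x₀ := by
      by_contra hlt
      obtain ⟨y, hy⟩ := dt_exists hcl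
      have e1 := supp_one (by omega) hy
      have e2 := hB x₀ hx hcl y
      omega
    obtain ⟨ζ, yt, zt, ⟨t⟩⟩ := ht x₀ hx hcl
    by_cases h3 : supp L τ x₀ = 2
    · exact hp_nae t hcl (hB x₀ hx hcl) hB h3
    · exact hp_three t hcl hB hmin' (by omega)

end Pool.Agent.H24.GH
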