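import Pool.Agent.H24.GH.ORed
import Pool.Agent.H79.Thr.ColK

/-!
# JOB GH-3: hardness from an observed relation

The hub variables are constants `J₀` and two tuples `(b, j)`, `b : Bool`, `j : J`, of the same sorts. `Rs c a b'` (`c` the values
of the constants, `a, b'` the values of the tuples) implies that the colours `β c a`, `β c b'` are different, and for suitable
constants `c₀` and tuples `γ 0, γ 1, γ 2` the relation `Rc` holds for different colours.

Proof: as `hard_of_fdef` (file `Pool.Agent.H24.GF.FHard`). Number the hub variables: `Fin h ≃ J₀ ⊕ Bool × J`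
(`OF.comap`). Let `L ∈ NP` and `φ` from `hardk` for `k = 3` (file `Pool.Agent.H79.Thr.ColK`): the word `x` is in `L` iff the list
`φ x` of edges (pairs of elements of `β = ℕ × V3`) is `3`-colourable. The variables are `α = ℕ × β`: the constant number `i`
(`i < |J₀|`) is `(i, default)`, the `j`-th variable of the vertex `v` is `(|J₀| + j, v)`. The edge `(u, v)` gives the tuple of the
variables of the constants, of `u` and of `v` (a list of length `h`, by `List.ofFn` or `List.map` over a fixed list of
positions: for each position `p : Fin h` the entry is `(code p, default)`, `(code p, u)` or `(code p, v)`). Equal entries have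
the same code, so the same sort. `PT`: as in `hard_of_fdef` (`fun_prop`, a list of fixed length). `of_red`.
If the graph covers `H` there are values with `Rs` for every edge, the colour of `v` is `β c (the values of the tuple of v)`, where `c`
are the values of the constants. If there is a colouring `κ` take the values `c₀` and `γ (κ v)`. (If `γ` is needed for `default`:
every variable gets a value: constants `c₀`, the tuple of `v` the values `γ (κ v)`.)
-/

namespace Pool.Agent.H24.GH

open Pool.Agent.H24.GC Pool.Agent.H24.GD Pool.Agent.H24.GE Pool.Agent.H24.GG Pool.Agent.PPS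
  Pool.Agent.H64.Cook Pool.Agent.H79.Thr

/-- the tuple of an edge: `q.1` is the code, `q.2` the kind of the entry -/
def OHard_tup {β : Type} (T : List (ℕ × ℕ)) (d : β) (e : β × β) : List (ℕ × β) :=
  T.map fun q => (q.1, bif decide (q.2 = 0) then d else bif decide (q.2 = 1) then e.1 else e.2)

theorem OHard_getD {β : Type} {h : ℕ} (t : Fin h → ℕ × ℕ) (d : β) (e : β × β) (dd : ℕ × β)
    (p : Fin h) : (OHard_tup (List.ofFn t) d e).getD (p : ℕ) dd =
      ((t p).1, bif decide ((t p).2 = 0) then d else bif decide ((t p).2 = 1) then e.1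
        else e.2) := by
  unfold OHard_tup
  rw [List.getD_eq_getElem _ _ (by rw [List.length_map, List.length_ofFn]; exact p.2),
    List.getElem_map, List.getElem_ofFn]

/-- code and kind -/
def OHard_ck {J₀ J : Type} (n₀ : ℕ) (f₀ : J₀ → ℕ) (fJ : J → ℕ) : J₀ ⊕ (Bool × J) → ℕ × ℕ
  | Sum.inl i => (f₀ i, 0)
  | Sum.inr (false, j) => (n₀ + fJ j, 1)
  | Sum.inr (true, j) => (n₀ + fJ j, 2)

theorem hard_gen {V : Type} [Finite V] {H : SimpleGraph V} (hH : Gd H) {k : Kt (lab H)}
    {J₀ J Ω : Type} [Finite J₀] [Finite J] [Nonempty Ω] {s₀ : J₀ → Srt (LV H) (LT H) Ω}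
    {sJ : J → Srt (LV H) (LT H) Ω} {Rs Rc : (J₀ ⊕ (Bool × J) → Ω) → Prop}
    (hR : OF k (Sum.elim s₀ (fun p : Bool × J => sJ p.2)) Rs Rc)
    (β : (J₀ → Ω) → (J → Ω) → Fin 3)
    (h1 : ∀ c, Rs c → β (c ∘ Sum.inl) (fun j => c (Sum.inr (false, j))) ≠
      β (c ∘ Sum.inl) (fun j => c (Sum.inr (true, j))))
    (c₀ : J₀ → Ω) (γ : Fin 3 → J → Ω)
    (h2 : ∀ s t, s ≠ t → Rc (Sum.elim c₀ (fun p => if p.1 then γ t p.2 else γ s p.2))) :
    HardH H := by
  classical
  have hf0 := Finite.equivFin J₀
  have hfJ := Finite.equivFin J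
  have hfX := Finite.equivFin (J₀ ⊕ (Bool × J))
  obtain ⟨n₀, f₀, hn₀, hinj₀⟩ : ∃ (n₀ : ℕ) (f₀ : J₀ → ℕ), (∀ i, f₀ i < n₀) ∧
      Function.Injective f₀ :=
    ⟨_, fun i => (hf0 i : ℕ), fun i => (hf0 i).2, fun i i' h => hf0.injective (Fin.ext h)⟩
  obtain ⟨fJ, hinjJ⟩ : ∃ fJ : J → ℕ, Function.Injective fJ :=
    ⟨fun i => (hfJ i : ℕ), fun i i' h => hfJ.injective (Fin.ext h)⟩
  obtain ⟨h, ⟨eX⟩⟩ : ∃ h : ℕ, Nonempty ((J₀ ⊕ (Bool × J)) ≃ Fin h) := ⟨_, ⟨hfX⟩⟩
  have hOF := OF.comap (sX' := fun p => Sum.elim s₀ (fun p : Bool × J => sJ p.2) (eX.symm p)) hR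
    (fun x => eX x) (fun x => by rw [Equiv.symm_apply_apply])
  obtain ⟨t, ht⟩ : ∃ t : Fin h → ℕ × ℕ, t = fun p => OHard_ck n₀ f₀ fJ (eX.symm p) := ⟨_, rfl⟩
  have htX : ∀ x, t (eX x) = OHard_ck n₀ f₀ fJ x := by
    intro x
    rw [ht]
    show OHard_ck n₀ f₀ fJ (eX.symm (eX x)) = _
    rw [Equiv.symm_apply_apply]
  intro L hL
  obtain ⟨φ, hφ, hφ'⟩ := hardk (k := 3) le_rfl hL
  obtain ⟨Rd, hRd1, hRd2⟩ := of_red hH hOF (ℕ × (ℕ × V3))
  refine ⟨fun x => Rd ((φ x).map (OHard_tup (List.ofFn t) default)), ?_, fun x => ?_⟩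
  · rw [mem_FP_iff]
    refine hRd1 _ _ ?_
    refine PT.map' (l := φ)
      (f := fun v : List Bool × ((ℕ × V3) × (ℕ × V3)) => OHard_tup (List.ofFn t) default v.2)
      hφ ?_
    unfold OHard_tup
    refine PT.map' (l := fun _ : List Bool × ((ℕ × V3) × (ℕ × V3)) => List.ofFn t)
      (f := fun z : (List Bool × ((ℕ × V3) × (ℕ × V3))) × (ℕ × ℕ) =>
        (z.2.1, bif decide (z.2.2 = 0) then default
          else bif decide (z.2.2 = 1) then z.1.2.1 else z.1.2.2)) (PT.const _) ?_
    have p1 : PT true (fun z : (List Bool × ((ℕ × V3) × (ℕ × V3))) × (ℕ × ℕ) =>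
        bif decide (z.2.2 = 0) then (default : ℕ × V3)
          else bif decide (z.2.2 = 1) then z.1.2.1 else z.1.2.2) :=
      PT.cond (by fun_prop) (PT.const _) (PT.cond (by fun_prop) (by fun_prop) (by fun_prop))
    have p2 : PT true (fun z : (List Bool × ((ℕ × V3) × (ℕ × V3))) × (ℕ × ℕ) => z.2.1) := by
      fun_prop
    exact p2.pair p1
  · have hent : ∀ (e : (ℕ × V3) × (ℕ × V3)) (y : J₀ ⊕ (Bool × J)),
        (OHard_tup (List.ofFn t) default e).getD ((eX y : Fin h) : ℕ) default =
        ((OHard_ck n₀ f₀ fJ y).1, bif decide ((OHard_ck n₀ f₀ fJ y).2 = 0) then default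
          else bif decide ((OHard_ck n₀ f₀ fJ y).2 = 1) then e.1 else e.2) := by
      intro e y
      rw [OHard_getD, htX]
    obtain ⟨n, G, g1, g2, g3⟩ := hRd2 ((φ x).map (OHard_tup (List.ofFn t) default)) (by
      intro e he e' he' j j' hjj
      obtain ⟨a, -, rfl⟩ := List.mem_map.1 he
      obtain ⟨a', -, rfl⟩ := List.mem_map.1 he'
      obtain ⟨y, rfl⟩ := eX.surjective j
      obtain ⟨y', rfl⟩ := eX.surjective j'
      rw [hent, hent] at hjj
      have hc := congrArg Prod.fst hjj
      dsimp only at hc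
      rw [Equiv.symm_apply_apply, Equiv.symm_apply_apply]
      rcases y with i | ⟨b, j⟩
      · rcases y' with i' | ⟨b', j'⟩
        · have h3 : f₀ i = f₀ i' := hc
          rw [hinj₀ h3]
        · exfalso
          have h3 := hn₀ i
          cases b'
          · have h4 : f₀ i = n₀ + fJ j' := hc
            omega
          · have h4 : f₀ i = n₀ + fJ j' := hc
            omega
      · rcases y' with i' | ⟨b', j'⟩
        · exfalso
          have h3 := hn₀ i'
          cases b
          · have h4 : n₀ + fJ j = f₀ i' := hc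
            omega
          · have h4 : n₀ + fJ j = f₀ i' := hc
            omega
        · have h4 : n₀ + fJ j = n₀ + fJ j' := by
            cases b <;> cases b' <;> exact hc
          have h5 : j = j' := hinjJ (by omega)
          rw [h5]
          rfl)
    refine ⟨n, G, g1, ?_⟩
    rw [(hφ' x).2]
    constructor
    · rintro ⟨κ, hκ⟩
      apply g3
      obtain ⟨ω⟩ := (inferInstance : Nonempty Ω)
      obtain ⟨a, ha⟩ : ∃ a : ℕ × (ℕ × V3) → Ω, a = fun z =>
          if h3 : ∃ i, f₀ i = z.1 then c₀ h3.choose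
          else if h4 : ∃ j, n₀ + fJ j = z.1 then γ (κ z.2) h4.choose else ω := ⟨_, rfl⟩
      have a0 : ∀ i z, a (f₀ i, z) = c₀ i := by
        intro i z
        have h3 : ∃ i', f₀ i' = (f₀ i, z).1 := ⟨i, rfl⟩
        rw [ha]
        show (if h3 : ∃ i', f₀ i' = (f₀ i, z).1 then c₀ h3.choose else _) = _
        rw [dif_pos h3]
        exact congrArg c₀ (hinj₀ h3.choose_spec)
      have a1 : ∀ j z, a (n₀ + fJ j, z) = γ (κ z) j := by
        intro j z
        have h3 : ¬ ∃ i', f₀ i' = (n₀ + fJ j, z).1 := by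
          rintro ⟨i', hi'⟩
          have h5 := hn₀ i'
          dsimp only at hi'
          omega
        have h4 : ∃ j', n₀ + fJ j' = (n₀ + fJ j, z).1 := ⟨j, rfl⟩
        rw [ha]
        show (if h3 : ∃ i', f₀ i' = (n₀ + fJ j, z).1 then c₀ h3.choose
          else if h4 : ∃ j', n₀ + fJ j' = (n₀ + fJ j, z).1 then γ (κ z) h4.choose else ω) = _
        rw [dif_neg h3, dif_pos h4]
        have h5 : fJ h4.choose = fJ j := by
          have h6 := h4.choose_spec
          dsimp only at h6
          omega
        rw [hinjJ h5]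
      refine ⟨a, fun e he => ?_⟩
      obtain ⟨e', he', rfl⟩ := List.mem_map.1 he
      have h3 := h2 _ _ (hκ e' he')
      have h4 : (fun y => a ((OHard_tup (List.ofFn t) default e').getD ((eX y : Fin h) : ℕ)
          default)) = Sum.elim c₀ (fun p => if p.1 then γ (κ e'.2) p.2 else γ (κ e'.1) p.2) := by
        funext y
        rw [hent]
        rcases y with i | ⟨b, j⟩
        · exact a0 i _
        · cases b
          · exact a1 j _
          · exact a1 j _
      rw [← h4] at h3
      exact h3
    · intro hcov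
      obtain ⟨a, ha⟩ := g2 hcov
      refine ⟨fun v => β (fun i => a (f₀ i, default)) (fun j => a (n₀ + fJ j, v)), fun e he => ?_⟩
      have h3 := ha (OHard_tup (List.ofFn t) default e) (List.mem_map.2 ⟨e, he, rfl⟩)
      have h4 := h1 _ h3
      have e0 : ((fun j : Fin h => a ((OHard_tup (List.ofFn t) default e).getD (j : ℕ) default)) ∘
          fun y => eX y) ∘ Sum.inl = fun i => a (f₀ i, default) := by
        funext i
        show a ((OHard_tup (List.ofFn t) default e).getD ((eX (Sum.inl i) : Fin h) : ℕ)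
          default) = _
        rw [hent]
        rfl
      have e1 : (fun j => ((fun j : Fin h => a ((OHard_tup (List.ofFn t) default e).getD (j : ℕ)
          default)) ∘ fun y => eX y) (Sum.inr (false, j))) = fun j => a (n₀ + fJ j, e.1) := by
        funext j
        show a ((OHard_tup (List.ofFn t) default e).getD ((eX (Sum.inr (false, j)) : Fin h) : ℕ)
          default) = _
        rw [hent]
        rfl
      have e2 : (fun j => ((fun j : Fin h => a ((OHard_tup (List.ofFn t) default e).getD (j : ℕ)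
          default)) ∘ fun y => eX y) (Sum.inr (true, j))) = fun j => a (n₀ + fJ j, e.2) := by
        funext j
        show a ((OHard_tup (List.ofFn t) default e).getD ((eX (Sum.inr (true, j)) : Fin h) : ℕ)
          default) = _
        rw [hent]
        rfl
      rw [e0, e1, e2] at h4
      exact h4

end Pool.Agent.H24.GH
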