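import Pool.Agent.H24.GH.OTie
import Pool.Agent.H24.GH.OHard

/-!
# JOB GH-5: stars as multisets; hardness patterns

`supp L τ x`: the number of the ends of the darts of type `τ` at `x`.

`ful_perm`: `{i | y (σ i) = z}` and `{i | y i = z}` have the same number of elements. `ful_dt`: `M τ x (y i) ≠ 0`. `ful_surj`:
`M τ x z ≠ 0` (the set of the darts is finite, `Finite D`). `ful_exists`: the set of the darts of type `τ` at `x` has `num τ = m`
elements; take a bijection of `Fin m` to it and `y i` the end.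
`ful_res`: `{i | S i = z}` is the disjoint union of `{i | i ∈ I ∧ S i = z}` and `{i | i ∉ I ∧ S i = z}`.
`ful_all`: let `a z = {i | S i = z}.ncard`. `a z ≤ M τ x z` for all `z`: there is `j` with `S j ≠ z` (as `S` is not constant), and the
indices `i` with `S i = z` are indices of `update S j v` with the value `z`. Both sides have the sum `m` (`Fin m` is the disjoint
union of the sets `{i | S i = z}`; the same for `update S j v` gives `∑ z, M τ x z = m`), so `a z = M τ x z`. (Or: the set
`{i | update S j v i = z}` has at most one element more than `{i | S i = z}` for `z = v`, and one element less for `z = S j`, and is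
equal otherwise; with `j, j'` such that `S j ≠ S j'`.)
`ful_const`: `update S j v` has `m - 1` indices with the value `z` at least.
`supp_le`: the ends of `x` are the values `S i`, `supp = (Set.range S).ncard`.
`ful_inj`: `S = c ∘ b` with `b : Fin m → Fin r` surjective, `Ful L τ x S` and `r ≤ supp L τ x`: then `c` is injective.
`HPat`: the hypothesis of `hard_gen`. `HPat.tr`: `OF.tr` (the sorts `fun x => (Sum.elim s₀ s₁ x).tr ρ` are
`Sum.elim (fun x => (s₀ x).tr ρ) ...`, `funext`).
-/

namespace Pool.Agent.H24.GH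

open Pool.Agent.H24.GC Pool.Agent.H24.GG

variable {V D T K : Type} {L : LS V D T K}

/-- the number of the ends of the darts of type `τ` at `x` -/
noncomputable def supp (L : LS V D T K) (τ : T) (x : V) : ℕ := {y | Dt L τ x y}.ncard

theorem ful_perm {τ : T} {m : ℕ} {x : V} {y : Fin m → V} (h : Ful L τ x y) (σ : Equiv.Perm (Fin m)) :
    Ful L τ x (y ∘ σ) := by
  refine ⟨h.1, fun z => ?_⟩
  rw [← h.2 z]
  have h1 : {i | (y ∘ σ) i = z} = σ ⁻¹' {i | y i = z} := rfl
  rw [h1]
  exact Set.ncard_preimage_of_injective_subset_range σ.injective fun i _ => σ.surjective i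

theorem ful_dt {τ : T} {m : ℕ} {x : V} {y : Fin m → V} (h : Ful L τ x y) (i : Fin m) :
    Dt L τ x (y i) := otie_dt h i

theorem ful_surj [Finite D] {τ : T} {m : ℕ} {x : V} {y : Fin m → V} (h : Ful L τ x y) {z : V}
    (hz : Dt L τ x z) : ∃ i, y i = z := otie_ix h hz

theorem ful_exists [Finite D] {τ : T} {m : ℕ} (hm : L.num τ = m) {x : V} (hx : L.cl x = L.sc τ) :
    ∃ y : Fin m → V, Ful L τ x y := by
  have hc : Nat.card {d | L.tl d = x ∧ L.ty d = τ} = m := by
    have h1 := L.num_eq x τ hx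
    rw [hm] at h1
    exact h1
  obtain ⟨e⟩ : Nonempty (Fin m ≃ {d | L.tl d = x ∧ L.ty d = τ}) :=
    ⟨(Finite.equivFinOfCardEq hc).symm⟩
  refine ⟨fun i => L.hd (e i).1, hx, fun z => ?_⟩
  have hinj : Function.Injective fun i => (e i).1 := fun i j hij => e.injective (Subtype.ext hij)
  unfold LS.M
  rw [← Set.ncard_image_of_injective _ hinj]
  refine congrArg Set.ncard ?_
  ext d
  constructor
  · rintro ⟨i, hi, rfl⟩
    exact ⟨(e i).2.1, (e i).2.2, hi⟩
  · rintro ⟨h1, h2, h3⟩
    refine ⟨e.symm ⟨d, h1, h2⟩, ?_, ?_⟩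
    · show L.hd (e (e.symm ⟨d, h1, h2⟩)).1 = z
      rw [e.apply_symm_apply]
      exact h3
    · show (e (e.symm ⟨d, h1, h2⟩)).1 = d
      rw [e.apply_symm_apply]

theorem ful_res {τ : T} {m : ℕ} {x : V} {S S' : Fin m → V} (h : Ful L τ x S) (h' : Ful L τ x S')
    {I : Set (Fin m)} (hI : ∀ i, i ∉ I → S i = S' i) (z : V) :
    {i | i ∈ I ∧ S i = z}.ncard = {i | i ∈ I ∧ S' i = z}.ncard := by
  have key : ∀ S : Fin m → V, {i | i ∈ I ∧ S i = z}.ncard + {i | i ∉ I ∧ S i = z}.ncard =
      {i | S i = z}.ncard := by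
    intro S
    rw [← Set.ncard_union_eq (Set.disjoint_left.2 fun i h1 h2 => h2.1 h1.1) (Set.toFinite _)
      (Set.toFinite _)]
    refine congrArg Set.ncard ?_
    ext i
    constructor
    · rintro (h1 | h1)
      · exact h1.2
      · exact h1.2
    · intro h1
      by_cases h2 : i ∈ I
      · exact Or.inl ⟨h2, h1⟩
      · exact Or.inr ⟨h2, h1⟩
  have h1 := key S
  have h2 := key S'
  have h3 : {i | i ∉ I ∧ S i = z} = {i | i ∉ I ∧ S' i = z} := by
    ext i
    constructor
    · rintro ⟨h4, h5⟩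
      exact ⟨h4, (hI i h4) ▸ h5⟩
    · rintro ⟨h4, h5⟩
      exact ⟨h4, (hI i h4).trans h5⟩
  rw [h3, h.2 z] at h1
  rw [h'.2 z] at h2
  omega

theorem ful_all {τ : T} {m : ℕ} {x : V} {S : Fin m → V}
    (h : ∀ j, ∃ v, Ful L τ x (Function.update S j v)) {i i' : Fin m} (hi : S i ≠ S i') :
    Ful L τ x S := by
  obtain ⟨v₀, hv₀⟩ := h i
  refine ⟨hv₀.1, fun z => ?_⟩
  have hle : ∀ w, {l | S l = w}.ncard ≤ L.M τ x w := by
    intro w
    obtain ⟨j, hj⟩ : ∃ j, S j ≠ w := by
      by_cases h1 : S i = w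
      · exact ⟨i', fun h2 => hi (h1.trans h2.symm)⟩
      · exact ⟨i, h1⟩
    obtain ⟨v, hv⟩ := h j
    rw [← hv.2 w]
    refine Set.ncard_le_ncard (fun l hl => ?_) (Set.toFinite _)
    have hl' : S l = w := hl
    have hlj : l ≠ j := fun h2 => hj (h2 ▸ hl')
    show Function.update S j v l = w
    rw [Function.update_of_ne hlj]
    exact hl'
  refine le_antisymm (hle z) ?_
  by_cases hz : ∃ j, S j = z
  · obtain ⟨j, hj⟩ := hz
    obtain ⟨v, hv⟩ := h j
    rw [← hv.2 z]
    refine Set.ncard_le_ncard (fun l hl => ?_) (Set.toFinite _)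
    have hl' : Function.update S j v l = z := hl
    by_cases hlj : l = j
    · rw [hlj]
      exact hj
    · rw [Function.update_of_ne hlj] at hl'
      exact hl'
  · have hne : v₀ ≠ z := by
      intro h1
      have h2 : L.M τ x (S i) < {l | S l = S i}.ncard := by
        rw [← hv₀.2 (S i)]
        refine Set.ncard_lt_ncard ?_ (Set.toFinite _)
        refine ⟨fun l hl => ?_, fun h3 => ?_⟩
        · have hl' : Function.update S i v₀ l = S i := hl
          by_cases hli : l = i
          · rw [hli]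
            rfl
          · rw [Function.update_of_ne hli] at hl'
            exact hl'
        · have h4 : Function.update S i v₀ i = S i := h3 rfl
          rw [Function.update_self, h1] at h4
          exact hz ⟨i, h4.symm⟩
      exact absurd (hle (S i)) (not_le.2 h2)
    have h2 : {l | Function.update S i v₀ l = z} = ∅ := by
      ext l
      simp only [Set.mem_setOf_eq, Set.mem_empty_iff_false, iff_false]
      intro h3
      by_cases hli : l = i
      · rw [hli, Function.update_self] at h3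
        exact hne h3
      · rw [Function.update_of_ne hli] at h3
        exact hz ⟨l, h3⟩
    rw [← hv₀.2 z, h2, Set.ncard_empty]
    exact Nat.zero_le _

theorem ful_const {τ : T} {m : ℕ} {x : V} {z : V} {j : Fin m} {v : V}
    (h : Ful L τ x (Function.update (fun _ => z) j v)) : m ≤ L.M τ x z + 1 := by
  rw [← h.2 z]
  have h1 : (Set.univ : Set (Fin m)) ⊆
      {i | Function.update (fun _ => z) j v i = z} ∪ {j} := by
    intro i _
    by_cases hi : i = j
    · exact Or.inr hi
    · left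
      show Function.update (fun _ => z) j v i = z
      rw [Function.update_of_ne hi]
  have h2 := Set.ncard_le_ncard h1 (Set.toFinite _)
  have h3 := Set.ncard_union_le {i | Function.update (fun _ => z) j v i = z} {j}
  rw [Set.ncard_univ, Nat.card_eq_fintype_card, Fintype.card_fin] at h2
  rw [Set.ncard_singleton] at h3
  exact h2.trans h3

theorem supp_eq [Finite D] {τ : T} {m : ℕ} {x : V} {S : Fin m → V} (h : Ful L τ x S) :
    supp L τ x = (Set.range S).ncard := by
  refine congrArg Set.ncard ?_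
  ext y
  constructor
  · intro hy
    exact ful_surj h hy
  · rintro ⟨i, rfl⟩
    exact ful_dt h i

theorem ful_inj [Finite D] {τ : T} {m r : ℕ} {x : V} {b : Fin m → Fin r} {c : Fin r → V}
    (h : Ful L τ x (c ∘ b)) (hr : r ≤ supp L τ x) : Function.Injective c := by
  rw [supp_eq h] at hr
  have h1 : (Set.range (c ∘ b)).ncard ≤ (c '' Set.univ).ncard := by
    refine Set.ncard_le_ncard ?_ (Set.toFinite _)
    rintro _ ⟨i, rfl⟩
    exact ⟨b i, trivial, rfl⟩
  have h2 : (Set.univ : Set (Fin r)).ncard = r := by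
    rw [Set.ncard_univ, Nat.card_eq_fintype_card, Fintype.card_fin]
  have h3 : (c '' Set.univ).ncard ≤ (Set.univ : Set (Fin r)).ncard :=
    Set.ncard_image_le (Set.toFinite _)
  have h4 : (c '' Set.univ).ncard = (Set.univ : Set (Fin r)).ncard := by omega
  exact Set.injOn_univ.1 (Set.injOn_of_ncard_image_eq h4 (Set.toFinite _))

/-- a hardness pattern -/
def HPat (k : Kt L) : Prop :=
  ∃ (J₀ J Ω : Type) (_ : Finite J₀) (_ : Finite J) (_ : Nonempty Ω) (s₀ : J₀ → Srt V T Ω)
    (sJ : J → Srt V T Ω) (Rs Rc : (J₀ ⊕ (Bool × J) → Ω) → Prop)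
    (β : (J₀ → Ω) → (J → Ω) → Fin 3) (c₀ : J₀ → Ω) (γ : Fin 3 → J → Ω),
    OF k (Sum.elim s₀ (fun p : Bool × J => sJ p.2)) Rs Rc ∧
    (∀ c, Rs c → β (c ∘ Sum.inl) (fun j => c (Sum.inr (false, j))) ≠
      β (c ∘ Sum.inl) (fun j => c (Sum.inr (true, j)))) ∧
    ∀ s t, s ≠ t → Rc (Sum.elim c₀ (fun p => if p.1 then γ t p.2 else γ s p.2))

theorem HPat.tr [Finite D] {T' : Type} {L' : LS V D T' K} {ρ : T' → T} (h : Rf L L' ρ) {k : Kt L'}
    (h' : HPat k) : HPat (Kt.tr h k) := by
  obtain ⟨J₀, J, Ω, i1, i2, i3, s₀, sJ, Rs, Rc, β, c₀, γ, g1, g2, g3⟩ := h'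
  have h1 := OF.tr h g1
  have h2 : (fun x => (Sum.elim s₀ (fun p : Bool × J => sJ p.2) x).tr ρ) =
      Sum.elim (fun i => (s₀ i).tr ρ) (fun p : Bool × J => (sJ p.2).tr ρ) := by
    funext x
    rcases x with x | x <;> rfl
  rw [h2] at h1
  exact ⟨J₀, J, Ω, i1, i2, i3, fun i => (s₀ i).tr ρ, fun j => (sJ j).tr ρ, Rs, Rc, β, c₀, γ, h1, g2, g3⟩

theorem hard_of_hpat {V : Type} [Finite V] {H : SimpleGraph V} (hH : Gd H) {k : Kt (lab H)}
    (h : HPat k) : HardH H := by
  obtain ⟨J₀, J, Ω, h1, h2, h3, s₀, sJ, Rs, Rc, β, c₀, γ, g1, g2, g3⟩ := h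
  exact hard_gen hH g1 β g2 c₀ γ g3

end Pool.Agent.H24.GH
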