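import Pool.Agent.H24.GH.NArrT
import Pool.Agent.H24.GH.OMul

/-!
# JOB GH-12: cuts at a child position

`TlTie N u u'`: in the labellings cut at `u, u'` the tails of the values `evh` are the label of the tail of `u`.

`tie_of_dfc`. Suppose `e (rv u) = x' ≠ f (tl u)`; let `t = ty u`, `y' = f (hd u)`, so `evh u = (x', y')`. `cl x' = cl (tl u)`: there is a
dart of type `bar t` from `f (hd u)` to `x'` (`EL.star` for `rv u`), `dt_cl`. `evt u`, `evt u'` have the first component
`f (tl u) = f (tl u')`, which is not `x'`; so `dfc t x' y' ≤ - ind2 (evh u) (x', y') = -1` (`baseMK_dfc2`), contradiction. The same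
for `u'`.
`narr_x`: the position is `pos w = w.2.2`. The cut darts start at `b` (position `κc c₀`, class of `bar (ch c₀)`), their type
is `bar (ch c₀)` (`hlf`), which leads from `κc c₀` to `κD` (`c1`, `Vt.inv`). Let `n = nq pos f`.
(a) `n` satisfies the hypothesis of `st` (`flow_unc`: a dart `δ` with `δ ∈ C` starts at the position `κc c₀`; if `rv δ ∈ C` then
`hd δ = b`, so `g s κ = κc c₀`).
(b) Let `tt τ`, `Dt (ch c₀) y x`. Then `n y κD = n v (g τ κD)` for `Dt τ y v` by `flow_unc`: a dart `δ` of type `τ` which starts at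
the position `κD` is not in `C`, as `κc c₀ ≠ κD`; if `rv δ ∈ C` then `bar τ = bar (ch c₀)`, contradiction to `t2`.
So by `st` `n y κD` is the same number `ν'` for all `y` with `Dt (ch c₀) y x`.
(c) `flow_base` (the heads are over `κD ≠ κc c₀`): `M t x y * (n x (κc c₀) - n y (g t (κc c₀))) = dfc t x y`. So
`dfc t x y = (n x (κc c₀) - ν') * M t x y` for all `t, y`: if `M t x y ≠ 0` then `Dt t x y` (`dt_iff`), so `sc t = cl x`,
`t = bar (ch c₀)` (`hlf`), `g t (κc c₀) = κD`, `Dt (ch c₀) y x` (`dt_symm`). By `dfc_zero` `ν = 0`.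
`narr_ex_x`: `exact_of_dfc1` (`Set.range (fun _ : Unit => u) = {u}`). `narr_tie_x`: `tie_of_dfc` (`Set.range ![u, u'] = {u, u'}`).
-/

namespace Pool.Agent.H24.GH

open Pool.Agent.H24.GG

variable {V D T K : Type} {L : LS V D T K}

/-- the tails of the values agree -/
def TlTie {W Δ : Type} (N : Net L W Δ) (u u' : Δ) : Prop :=
  ∀ f e, EL N {u, u'} f e → e (N.rv u) = f (N.tl u) ∧ e (N.rv u') = f (N.tl u)

theorem tie_of_dfc {W Δ : Type} {N : Net L W Δ} {u u' : Δ} (htl : N.tl u = N.tl u')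
    (h : ∀ f e, EL N {u, u'} f e → ∀ t x y, L.cl x = N.cl (N.tl u) →
      dfc N f e ![u, u'] t x y = 0) : TlTie N u u' := by
  intro f e he
  have key : ∀ v, v = u ∨ v = u' → e (N.rv v) = f (N.tl u) := by
    intro v hv
    by_contra hne
    have htv : N.tl v = N.tl u := by
      rcases hv with rfl | rfl
      · rfl
      · exact htl.symm
    have hcl : L.cl (e (N.rv v)) = N.cl (N.tl u) := by
      have hfin : {δ | N.tl δ = N.tl (N.rv v) ∧ N.ty δ = N.ty (N.rv v)}.Finite := by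
        refine Set.finite_of_ncard_ne_zero ?_
        rw [N.num_eq _ _ (N.cl_tl _)]
        exact (L.num_pos _).ne'
      have hM : L.M (N.ty (N.rv v)) (f (N.tl (N.rv v))) (e (N.rv v)) ≠ 0 := by
        rw [← he.star]
        intro h0
        have hfin' : {δ | N.tl δ = N.tl (N.rv v) ∧ N.ty δ = N.ty (N.rv v) ∧
            e δ = e (N.rv v)}.Finite := hfin.subset fun δ hδ => ⟨hδ.1, hδ.2.1⟩
        rw [Set.ncard_eq_zero hfin'] at h0
        have h1 : N.rv v ∈ {δ | N.tl δ = N.tl (N.rv v) ∧ N.ty δ = N.ty (N.rv v) ∧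
            e δ = e (N.rv v)} := ⟨rfl, rfl, rfl⟩
        rw [h0] at h1
        exact h1
      obtain ⟨d, h1, h2, h3⟩ := Set.nonempty_of_ncard_ne_zero hM
      have h4 : Dt L (N.ty (N.rv v)) (f (N.tl (N.rv v))) (e (N.rv v)) := ⟨d, h1, h3, h2⟩
      rw [(dt_cl h4).2, N.ty_rv, L.bar_bar, ← N.cl_tl, htv]
    have h1 := h f e he (N.ty v) (e (N.rv v)) (f (N.hd v)) hcl
    rw [baseMK_dfc2] at h1
    have hz : ∀ w, w = u ∨ w = u' → ind2 (evt N f e w) (e (N.rv v), f (N.hd v)) = 0 := by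
      intro w hw
      refine flow_ind2_ne ?_
      intro h2
      have h3 : f (N.tl w) = e (N.rv v) := congrArg Prod.fst h2
      have h4 : N.tl w = N.tl u := by
        rcases hw with rfl | rfl
        · rfl
        · exact htl.symm
      rw [h4] at h3
      exact hne h3.symm
    have hp : ∀ w : Δ, (0 : ℤ) ≤ ind2 (evh N f e w) (e (N.rv v), f (N.hd v)) := by
      intro w
      unfold ind2
      split_ifs <;> norm_num
    have ho : ind2 (evh N f e v) (e (N.rv v), f (N.hd v)) = 1 := flow_ind2_self rfl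
    rw [hz u (Or.inl rfl), hz u' (Or.inr rfl)] at h1
    have hpu := hp u
    have hpu' := hp u'
    rcases hv with rfl | rfl
    · rw [if_pos rfl, ho] at h1
      split_ifs at h1 <;> omega
    · rw [if_pos (rfl : N.ty v = N.ty v), ho] at h1
      split_ifs at h1 <;> omega
  exact ⟨key u (Or.inl rfl), key u' (Or.inr rfl)⟩

variable [Finite V] [Finite D] {k : Kt L} {P : Type} [Finite P] {g : Vt L P} {Ch : Type}
  {ch : Ch → T} {κD : P} {κc : Ch → P} {tt : T → Prop}

theorem narr_x (hA : NArr L g ch κD κc tt) (h3 : ∀ x, 3 ≤ {d | L.tl d = x}.ncard)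
    (ht : ∃ τ, tt τ) {c₀ : Ch} (hlf : Lfs L.sc (L.bar (ch c₀))) {ι : Type} [Fintype ι]
    (hι : Fintype.card ι ≤ 2) {b : V × (k.Q × P)} (hb : b.2.2 = κc c₀)
    (hcl : L.cl b.1 = L.sc (L.bar (ch c₀))) {u : ι → D × (k.Q × P)} (hu : Function.Injective u)
    (htl : ∀ i, (liftKt k g).net.tl (u i) = b) {f : V × (k.Q × P) → V} {e : D × (k.Q × P) → V}
    (h : EL (liftKt k g).net (Set.range u) f e) {t : T} {x y : V} (hx : L.cl x = L.cl b.1) :
    dfc (liftKt k g).net f e u t x y = 0 := by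
  obtain ⟨τ, hτ⟩ := ht
  let pos : V × (liftKt k g).Q → P := fun w => w.2.2
  have hg : ∀ δ, pos ((liftKt k g).net.hd δ) =
      g.g ((liftKt k g).net.ty δ) (pos ((liftKt k g).net.tl δ)) := fun δ => rfl
  have hpb : pos b = κc c₀ := hb
  have hty : ∀ i, (liftKt k g).net.ty (u i) = L.bar (ch c₀) := by
    intro i
    apply hlf
    rw [← (liftKt k g).net.cl_tl, htl i]
    exact hcl
  have hbk : g.g (L.bar (ch c₀)) (κc c₀) = κD := by
    rw [g.inv, Equiv.symm_apply_eq]
    exact (hA.c1 c₀).symm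
  have hhd : ∀ i, pos ((liftKt k g).net.hd (u i)) = κD := by
    intro i
    rw [hg, hty i, htl i, hpb, hbk]
  have hn : ∀ s u₁ v κ, Dt L s u₁ v → κ ≠ κD → (∀ c, κ ≠ κc c) → g.g s κ ≠ κD →
      (∀ c, g.g s κ ≠ κc c) → nq pos f u₁ κ = nq pos f v (g.g s κ) := by
    intro s u₁ v κ hs _ h2 _ h4
    refine flow_unc h hg hs ?_
    intro δ hδ hκ
    constructor
    · rintro ⟨i, rfl⟩
      apply h2 c₀
      rw [← hκ, htl i, hpb]
    · rintro ⟨i, hi⟩
      apply h4 c₀
      rw [← hκ, ← hδ, ← hg]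
      have h5 : (liftKt k g).net.hd δ = b := by
        show (liftKt k g).net.tl ((liftKt k g).net.rv δ) = b
        rw [← hi]
        exact htl i
      rw [h5, hpb]
  have hD : ∀ y₁ v, Dt L τ y₁ v → nq pos f y₁ κD = nq pos f v (g.g τ κD) := by
    intro y₁ v hy
    refine flow_unc h hg hy ?_
    intro δ hδ hκ
    constructor
    · rintro ⟨i, rfl⟩
      apply hA.cd c₀
      rw [← hκ, htl i, hpb]
    · rintro ⟨i, hi⟩
      apply hA.t2 τ hτ c₀
      have h5 := (liftKt k g).net.ty_rv δ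
      rw [← hi, hty i, hδ] at h5
      rw [← L.bar_bar τ, ← h5, L.bar_bar]
  have hsame : ∀ y₁ y₂, Dt L (ch c₀) y₁ x → Dt L (ch c₀) y₂ x →
      nq pos f y₁ κD = nq pos f y₂ κD := by
    intro y₁ y₂ h1 h2
    obtain ⟨v₁, hv₁⟩ := dt_exists (L := L) (t := τ) (x := y₁) (by
      rw [(dt_cl h1).1, hA.tsc τ hτ c₀])
    obtain ⟨v₂, hv₂⟩ := dt_exists (L := L) (t := τ) (x := y₂) (by
      rw [(dt_cl h2).1, hA.tsc τ hτ c₀])
    rw [hD y₁ v₁ hv₁, hD y₂ v₂ hv₂]
    exact hA.st (nq pos f) hn τ c₀ x y₁ y₂ v₁ v₂ hτ h1 h2 hv₁ hv₂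
  obtain ⟨y₀, hy₀⟩ := dt_exists (L := L) (t := L.bar (ch c₀)) (x := x) (by rw [hx, hcl])
  have hy₀' : Dt L (ch c₀) y₀ x := by
    have := dt_symm hy₀
    rwa [L.bar_bar] at this
  have hflow := fun t y => flow_base hu h hg htl (by
    intro i hi
    exact hA.cd c₀ (hpb.symm.trans (hi.symm.trans (hhd i)))) t x y
  have hall : ∀ t y, dfc (liftKt k g).net f e u t x y =
      (nq pos f x (κc c₀) - nq pos f y₀ κD) * L.M t x y := by
    intro t y
    have e1 := hflow t y
    rw [hpb] at e1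
    refine e1.symm.trans ?_
    by_cases hM : L.M t x y = 0
    · rw [hM]
      push_cast
      ring
    · have hy : Dt L t x y := dt_iff.2 hM
      have ht' : t = L.bar (ch c₀) := by
        apply hlf
        rw [← (dt_cl hy).1, hx, hcl]
      subst ht'
      have hy' : Dt L (ch c₀) y x := by
        have := dt_symm hy
        rwa [L.bar_bar] at this
      rw [hbk, hsame y y₀ hy' hy₀']
      ring
  have h0 := dfc_zero hι (h3 x) hall
  refine (hall t y).trans ?_
  rw [h0, zero_mul]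

theorem narr_ex_x (hA : NArr L g ch κD κc tt) (h3 : ∀ x, 3 ≤ {d | L.tl d = x}.ncard)
    (ht : ∃ τ, tt τ) {c₀ : Ch} (hlf : Lfs L.sc (L.bar (ch c₀))) {d : D} {q : k.Q}
    (hd : L.cl (L.tl d) = L.sc (L.bar (ch c₀))) :
    Exact (liftKt k g).net {(d, (q, κc c₀))} := by
  refine exact_of_dfc1 ?_
  intro f e he t x y hx
  refine narr_x hA h3 ht hlf (ι := Unit) (by simp) (b := (L.tl d, (q, κc c₀))) rfl hd
    (u := fun _ => (d, (q, κc c₀))) ?_ (fun _ => rfl) ?_ hx
  · rintro ⟨⟩ ⟨⟩ _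
    rfl
  · rw [Set.range_const]
    exact he

theorem narr_tie_x (hA : NArr L g ch κD κc tt) (h3 : ∀ x, 3 ≤ {d | L.tl d = x}.ncard)
    (ht : ∃ τ, tt τ) {c₀ : Ch} (hlf : Lfs L.sc (L.bar (ch c₀))) {d d' : D} {q : k.Q}
    (hd : L.cl (L.tl d) = L.sc (L.bar (ch c₀))) (hdd : L.tl d = L.tl d') (hne : d ≠ d') :
    TlTie (liftKt k g).net (d, (q, κc c₀)) (d', (q, κc c₀)) := by
  refine tie_of_dfc ?_ ?_
  · show (L.tl d, (q, κc c₀)) = (L.tl d', (q, κc c₀))
    rw [hdd]
  · intro f e he t x y hx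
    refine narr_x hA h3 ht hlf (ι := Fin 2) (by simp) (b := (L.tl d, (q, κc c₀))) rfl hd
      (u := ![(d, (q, κc c₀)), (d', (q, κc c₀))]) ?_ ?_ ?_ hx
    · intro i j hij
      fin_cases i <;> fin_cases j
      · rfl
      · exact absurd (congrArg Prod.fst hij) hne
      · exact absurd (congrArg Prod.fst hij).symm hne
      · rfl
    · intro i
      fin_cases i
      · rfl
      · show (L.tl d', (q, κc c₀)) = (L.tl d, (q, κc c₀))
        rw [hdd]
    · have hr : Set.range (![(d, (q, κc c₀)), (d', (q, κc c₀))] : Fin 2 → D × (liftKt k g).Q) =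
          ({(d, (q, κc c₀)), (d', (q, κc c₀))} : Set (D × (liftKt k g).Q)) := by
        ext δ
        constructor
        · rintro ⟨i, rfl⟩
          fin_cases i
          · left
            rfl
          · right
            rfl
        · rintro (rfl | rfl)
          · exact ⟨0, rfl⟩
          · exact ⟨1, rfl⟩
      have he' : EL (liftKt k g).net (Set.range (![(d, (q, κc c₀)), (d', (q, κc c₀))] :
          Fin 2 → D × (liftKt k g).Q)) f e := by
        rw [hr]
        exact he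
      exact he'

end Pool.Agent.H24.GH
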