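import Pool.Agent.H24.GH.NPotA

/-!
# JOB GH-13: cuts at the position `κD`

`narr_y`: `pos w = w.2.2`, `n = nq pos f`. The cut darts start at `b` (position `κD`), their heads are over other positions
(`c1`, `cd`, `t1`). `n` satisfies the hypothesis of `st` (`flow_unc`: `δ ∈ C` starts at `κD`; if `rv δ ∈ C` then `g s κ = κD`).
All `ch c` have the same source (`tsc`). `flow_base`: for `cl y = cl b`: `M s y v * (n y κD - n v (g s κD)) = dfc s y v`. If
`¬ Dt s y v` then `dfc s y v = 0` (`dt_iff`).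
(1) Let `τ₀` be from `hτ`, `cl y = cl b`. There is `x` with `Dt (ch c₀) y x` (`dt_exists`). By `st` (`y' = y`) `n v (g τ₀ κD)` is the same
for all `v` with `Dt τ₀ y v`; so `dfc τ₀ y v = ν * M τ₀ y v` for all `v`. If `ν > 0` then for every `v` there are at least
`M τ₀ y v` indices `i` with `ty (u i) = τ₀`, `evt (u i) = (y, v)`; together at least `∑ v, M τ₀ y v = num τ₀` indices with
`ty (u i) = τ₀`, contradiction to `hτ`. The same for `ν < 0` with `evh`. So `ν = 0`, `n y κD = n v (g τ₀ κD)` for `Dt τ₀ y v`.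
(2) So by `st`: `n y κD = n y' κD` if `Dt (ch c) y x`, `Dt (ch c) y' x`.
(3) Let `t = ch c`, `cl v = sc (bar (ch c))`. By (2) `n y' κD - n v (κc c)` is the same number `ν` for all `y'` with `Dt (ch c) y' v`, so
`dfc (ch c) y' v = ν * M (ch c) y' v` for all `y'`. If `ν > 0` then for every `y'` there are at least `M (ch c) y' v` indices with
`evt (u i) = (y', v)`, together at least `∑ y', M (ch c) y' v = ∑ y', M (bar (ch c)) v y' = num (bar (ch c))` (`M_bar`), which is the
number of all darts at `v` (`hlf`), so at least `3`, contradiction to `hι`. The same for `ν < 0`. (Or: `dfc_zero` for the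
darts `rv ∘ u` at `v`: `dfc (rv ∘ u) (bar t) v y = - dfc u t y v`.)
(4) Let `tt t`, `Dt t y v`, `cl y = cl b`. If no `u i` has the type `t` then `dfc t y v = 0`. If the number of the `u i` of type `t` is less
than `num t` the proof of (1) works for `t`. Otherwise by `hB` there is exactly one `u i` of type `t`. Let `ν = n y κD - n v (g t κD)`,
`Dt (ch c₀) y x`. For all `y'` with `Dt (ch c₀) y' x` and all `v'` with `Dt t y' v'`: `n y' κD - n v' (g t κD) = ν` by (2), `st`; so
`dfc t y' v' = ν * M t y' v'`. There are two different such `y'` (`2 ≤ supp (bar (ch c₀)) x`). If `ν > 0` then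
`evt (u i) = (y', v')`, so `y' = f b` for both; if `ν < 0` then `evh (u i) = (y', v')` for both. Contradiction, so `ν = 0`.
(5) Other types `t`: no `u i` has the type `t` (`hty`), so `dfc t y v = 0`.
`narr_ex_y`, `narr_tie_y`: as `narr_ex_x`, `narr_tie_x`.
-/

namespace Pool.Agent.H24.GH

open Pool.Agent.H24.GG

variable {V D T K : Type} {L : LS V D T K}

theorem npotb_ind (a b : V × V) : (0 : ℤ) ≤ ind2 a b := by
  unfold ind2
  split_ifs <;> norm_num

theorem npotb_cut {ι : Type} {C : Set D} {v : ι → D} (hv : Function.Injective v)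
    (hC : Set.range v = C) (τ : T) :
    {i | L.ty (v i) = τ}.ncard = {d ∈ C | L.ty d = τ}.ncard := by
  rw [← Set.ncard_image_of_injective _ hv]
  refine congrArg Set.ncard ?_
  ext d
  constructor
  · rintro ⟨i, hi, rfl⟩
    refine ⟨?_, hi⟩
    rw [← hC]
    exact ⟨i, rfl⟩
  · rintro ⟨h1, h2⟩
    rw [← hC] at h1
    obtain ⟨i, rfl⟩ := h1
    exact ⟨i, h2, rfl⟩

/-- counting the darts of one type -/
theorem npotb_count [Finite D] {ι : Type} [Finite ι] {t : T} {x : V} (hx : L.cl x = L.sc t)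
    (p : ι → Prop) (k : ι → V) (h : ∀ y, L.M t x y ≤ {i | p i ∧ k i = y}.ncard) :
    L.num t ≤ {i | p i}.ncard := by
  classical
  have := Fintype.ofFinite D
  have := Fintype.ofFinite ι
  let A : Finset D := Finset.univ.filter (fun d => L.tl d = x ∧ L.ty d = t)
  have hA : A.card = L.num t := by
    rw [← L.num_eq x t hx, ← Set.ncard_coe_finset]
    congr 1
    ext d
    simp [A]
  let B : Finset ι := Finset.univ.filter (fun i => p i)
  have hB : B.card = {i | p i}.ncard := by
    rw [← Set.ncard_coe_finset]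
    congr 1
    ext d
    simp [B]
  let Y : Finset V := A.image L.hd
  have h1 : A.card = ∑ b ∈ Y, (A.filter (fun d => L.hd d = b)).card :=
    Finset.card_eq_sum_card_fiberwise (fun d hd => Finset.mem_image_of_mem L.hd hd)
  let B' : Finset ι := B.filter (fun i => k i ∈ Y)
  have h2 : B'.card = ∑ b ∈ Y, (B'.filter (fun i => k i = b)).card :=
    Finset.card_eq_sum_card_fiberwise (fun i hi => (Finset.mem_filter.1 hi).2)
  have h3 : B'.card ≤ B.card := Finset.card_filter_le _ _
  rw [← hA, ← hB]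
  refine le_trans ?_ h3
  rw [h1, h2]
  refine Finset.sum_le_sum fun b hb => ?_
  have e1 : (A.filter (fun d => L.hd d = b)).card = L.M t x b := by
    unfold LS.M
    rw [← Set.ncard_coe_finset]
    congr 1
    ext d
    simp only [A, Finset.coe_filter, Finset.mem_filter, Finset.mem_univ, true_and,
      Set.mem_ofPred_eq]
    constructor
    · rintro ⟨⟨g1, g2⟩, g3⟩
      exact ⟨g1, g2, g3⟩
    · rintro ⟨g1, g2, g3⟩
      exact ⟨⟨g1, g2⟩, g3⟩
  have e2 : (B'.filter (fun i => k i = b)).card = {i | p i ∧ k i = b}.ncard := by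
    rw [← Set.ncard_coe_finset]
    congr 1
    ext i
    simp only [B', B, Finset.coe_filter, Finset.mem_filter, Finset.mem_univ, true_and,
      Set.mem_ofPred_eq]
    constructor
    · rintro ⟨⟨g1, g2⟩, g3⟩
      exact ⟨g1, g3⟩
    · rintro ⟨g1, g2⟩
      refine ⟨⟨g1, ?_⟩, g2⟩
      rw [g2]
      exact hb
  rw [e1, e2]
  exact h b

section npotb

variable {W Δ : Type} {N : Net L W Δ} {ι : Type} [Fintype ι] {u : ι → Δ} {f : W → V} {e : Δ → V}

theorem npotb_le_evt (t : T) (x y : V) : dfc N f e u t x y ≤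
    ({i | N.ty (u i) = t ∧ evt N f e (u i) = (x, y)}.ncard : ℤ) := by
  classical
  have h2 : ({i | N.ty (u i) = t ∧ evt N f e (u i) = (x, y)}.ncard : ℤ) =
      ((Finset.univ.filter fun i => N.ty (u i) = t ∧ evt N f e (u i) = (x, y)).card : ℤ) := by
    rw [← Set.ncard_coe_finset]
    congr 2
    ext i
    simp
  rw [h2, Finset.card_filter]
  push_cast
  unfold dfc
  refine Finset.sum_le_sum fun i _ => ?_
  by_cases a1 : N.ty (u i) = t
  · rw [if_pos a1]
    have a2 := npotb_ind (evh N f e (u i)) (x, y)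
    by_cases a3 : evt N f e (u i) = (x, y)
    · rw [if_pos ⟨a1, a3⟩, flow_ind2_self a3]
      omega
    · rw [if_neg (fun a4 => a3 a4.2), flow_ind2_ne a3]
      omega
  · rw [if_neg a1, if_neg (fun a4 => a1 a4.1)]

theorem npotb_le_evh (t : T) (x y : V) : -dfc N f e u t x y ≤
    ({i | N.ty (u i) = t ∧ evh N f e (u i) = (x, y)}.ncard : ℤ) := by
  classical
  have h2 : ({i | N.ty (u i) = t ∧ evh N f e (u i) = (x, y)}.ncard : ℤ) =
      ((Finset.univ.filter fun i => N.ty (u i) = t ∧ evh N f e (u i) = (x, y)).card : ℤ) := by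
    rw [← Set.ncard_coe_finset]
    congr 2
    ext i
    simp
  rw [h2, Finset.card_filter]
  push_cast
  unfold dfc
  rw [← Finset.sum_neg_distrib]
  refine Finset.sum_le_sum fun i _ => ?_
  by_cases a1 : N.ty (u i) = t
  · rw [if_pos a1]
    have a2 := npotb_ind (evt N f e (u i)) (x, y)
    by_cases a3 : evh N f e (u i) = (x, y)
    · rw [if_pos ⟨a1, a3⟩, flow_ind2_self a3]
      omega
    · rw [if_neg (fun a4 => a3 a4.2), flow_ind2_ne a3]
      omega
  · rw [if_neg a1, if_neg (fun a4 => a1 a4.1)]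
    norm_num

theorem npotb_pos {t : T} {x y : V} {ν : ℤ} (hν : 0 < ν)
    (h : dfc N f e u t x y = ν * L.M t x y) :
    L.M t x y ≤ {i | N.ty (u i) = t ∧ evt N f e (u i) = (x, y)}.ncard := by
  have h1 := npotb_le_evt (N := N) (f := f) (e := e) (u := u) t x y
  rw [h] at h1
  have h4 : (0 : ℤ) ≤ L.M t x y := by positivity
  have h5 : (L.M t x y : ℤ) ≤ ν * L.M t x y := by nlinarith
  exact_mod_cast h5.trans h1

theorem npotb_neg {t : T} {x y : V} {ν : ℤ} (hν : ν < 0)
    (h : dfc N f e u t x y = ν * L.M t x y) :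
    L.M t x y ≤ {i | N.ty (u i) = t ∧ evh N f e (u i) = (x, y)}.ncard := by
  have h1 := npotb_le_evh (N := N) (f := f) (e := e) (u := u) t x y
  rw [h] at h1
  have h4 : (0 : ℤ) ≤ L.M t x y := by positivity
  have h5 : (L.M t x y : ℤ) ≤ -(ν * L.M t x y) := by nlinarith
  exact_mod_cast h5.trans h1

theorem npotb_zero1 [Finite D] {t : T} {x : V} (hx : L.cl x = L.sc t)
    (hlt : {i | N.ty (u i) = t}.ncard < L.num t) {ν : ℤ}
    (h : ∀ y, dfc N f e u t x y = ν * L.M t x y) : ν = 0 := by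
  rcases lt_trichotomy ν 0 with hν | hν | hν
  · exfalso
    have h1 := npotb_count hx (fun i => N.ty (u i) = t) (fun i => f (N.hd (u i))) (fun y =>
      (npotb_neg hν (h y)).trans (Set.ncard_le_ncard
        (fun i hi => ⟨hi.1, congrArg Prod.snd hi.2⟩) (Set.toFinite _)))
    omega
  · exact hν
  · exfalso
    have h1 := npotb_count hx (fun i => N.ty (u i) = t) (fun i => e (u i)) (fun y =>
      (npotb_pos hν (h y)).trans (Set.ncard_le_ncard
        (fun i hi => ⟨hi.1, congrArg Prod.snd hi.2⟩) (Set.toFinite _)))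
    omega

theorem npotb_zero2 [Finite D] (hι : Fintype.card ι ≤ 2) {s : T} {v : V}
    (h3 : 3 ≤ {d | L.tl d = v}.ncard) (hlf : Lfs L.sc (L.bar s)) (hv : L.cl v = L.sc (L.bar s))
    {ν : ℤ} (h : ∀ y, dfc N f e u s y v = ν * L.M s y v) : ν = 0 := by
  have key : ∀ k : ι → V, (∀ y, L.M s y v ≤ {i | N.ty (u i) = s ∧ k i = y}.ncard) → False := by
    intro k hk
    refine baseMK_count hι h3 (fun i => (L.bar (N.ty (u i)), k i)) fun t' y => ?_
    by_cases hM : L.M t' v y = 0
    · rw [hM]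
      exact Nat.zero_le _
    · have hd : Dt L t' v y := dt_iff.2 hM
      have ht' : t' = L.bar s := hlf t' (by rw [← (dt_cl hd).1, hv])
      subst ht'
      rw [M_bar]
      refine (hk y).trans (Set.ncard_le_ncard ?_ (Set.toFinite _))
      rintro i ⟨h1, h2⟩
      exact Prod.ext (congrArg L.bar h1) h2
  rcases lt_trichotomy ν 0 with hν | hν | hν
  · exfalso
    exact key (fun i => e (N.rv (u i))) (fun y => (npotb_neg hν (h y)).trans
      (Set.ncard_le_ncard (fun i hi => ⟨hi.1, congrArg Prod.fst hi.2⟩) (Set.toFinite _)))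
  · exact hν
  · exfalso
    exact key (fun i => f (N.tl (u i))) (fun y => (npotb_pos hν (h y)).trans
      (Set.ncard_le_ncard (fun i hi => ⟨hi.1, congrArg Prod.fst hi.2⟩) (Set.toFinite _)))

end npotb
variable [Finite V] [Finite D] {k : Kt L} {P : Type} [Finite P] {g : Vt L P} {Ch : Type}
  {ch : Ch → T} {κD : P} {κc : Ch → P} {tt : T → Prop}

theorem narr_y (hA : NArr L g ch κD κc tt) (h3 : ∀ x, 3 ≤ {d | L.tl d = x}.ncard)
    (hlf : ∀ c, Lfs L.sc (L.bar (ch c))) {ι : Type} [Fintype ι] (hι : Fintype.card ι ≤ 2)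
    {c₀ : Ch} {b : V × (k.Q × P)} (hb : b.2.2 = κD) (hcl : L.cl b.1 = L.sc (ch c₀))
    {u : ι → D × (k.Q × P)} (hu : Function.Injective u)
    (htl : ∀ i, (liftKt k g).net.tl (u i) = b)
    (hty : ∀ i, (∃ c, L.ty (u i).1 = ch c) ∨ tt (L.ty (u i).1))
    (hτ : ∃ τ, tt τ ∧ {i | L.ty (u i).1 = τ}.ncard < L.num τ)
    (hB : ∀ i, tt (L.ty (u i).1) →
      {i' | L.ty (u i').1 = L.ty (u i).1}.ncard < L.num (L.ty (u i).1) ∨
      ({i' | L.ty (u i').1 = L.ty (u i).1}.ncard ≤ 1 ∧
        ∀ x, L.cl x = L.sc (L.bar (ch c₀)) → 2 ≤ supp L (L.bar (ch c₀)) x))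
    {f : V × (k.Q × P) → V} {e : D × (k.Q × P) → V} (h : EL (liftKt k g).net (Set.range u) f e)
    {t : T} {x y : V} (hx : L.cl x = L.cl b.1) : dfc (liftKt k g).net f e u t x y = 0 := by
  classical
  obtain ⟨τ₀, hτ₀, hlt₀⟩ := hτ
  let pos : V × (liftKt k g).Q → P := fun w => w.2.2
  have hg : ∀ δ, pos ((liftKt k g).net.hd δ) =
      g.g ((liftKt k g).net.ty δ) (pos ((liftKt k g).net.tl δ)) := fun δ => rfl
  have hpb : pos b = κD := hb
  have hhd : ∀ i, pos ((liftKt k g).net.hd (u i)) ≠ κD := by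
    intro i
    rw [hg, htl i, hpb]
    rcases hty i with ⟨c, hc⟩ | hc
    · have hc' : (liftKt k g).net.ty (u i) = ch c := hc
      rw [hc', hA.c1]
      exact hA.cd c
    · exact hA.t1 _ hc
  have hn : ∀ s u₁ v κ, Dt L s u₁ v → κ ≠ κD → (∀ c, κ ≠ κc c) → g.g s κ ≠ κD →
      (∀ c, g.g s κ ≠ κc c) → nq pos f u₁ κ = nq pos f v (g.g s κ) := by
    intro s u₁ v κ hs h1 _ h4 _
    refine flow_unc h hg hs ?_
    intro δ hδ hκ
    constructor
    · rintro ⟨i, rfl⟩
      apply h1
      rw [← hκ, htl i, hpb]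
    · rintro ⟨i, hi⟩
      apply h4
      rw [← hκ, ← hδ, ← hg]
      have h5 : (liftKt k g).net.hd δ = b := by
        show (liftKt k g).net.tl ((liftKt k g).net.rv δ) = b
        rw [← hi]
        exact htl i
      rw [h5, hpb]
  have hflow : ∀ t x y, (L.M t x y : ℤ) * (nq pos f x κD - nq pos f y (g.g t κD)) =
      dfc (liftKt k g).net f e u t x y := by
    intro t x y
    have h1 := flow_base hu h hg htl (by
      intro i
      rw [hpb]
      exact hhd i) t x y
    rw [hpb] at h1
    exact h1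
  have hmul : ∀ t x y (ν : ℤ), (Dt L t x y → nq pos f x κD - nq pos f y (g.g t κD) = ν) →
      dfc (liftKt k g).net f e u t x y = ν * L.M t x y := by
    intro t x y ν h1
    rw [← hflow]
    by_cases hM : L.M t x y = 0
    · rw [hM]
      push_cast
      ring
    · rw [h1 (dt_iff.2 hM)]
      ring
  have hclc : ∀ c, L.cl b.1 = L.sc (ch c) := by
    intro c
    rw [hcl, ← hA.tsc τ₀ hτ₀ c₀, hA.tsc τ₀ hτ₀ c]
  have hT : ∀ t, tt t → {i | L.ty (u i).1 = t}.ncard < L.num t → ∀ y v, L.cl y = L.cl b.1 →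
      Dt L t y v → nq pos f y κD = nq pos f v (g.g t κD) := by
    intro t ht hlt y v hy hv
    obtain ⟨z, hz⟩ := dt_exists (L := L) (t := ch c₀) (x := y) (by rw [hy, hcl])
    have h1 : ∀ v', Dt L t y v' → nq pos f y κD - nq pos f v' (g.g t κD) =
        nq pos f y κD - nq pos f v (g.g t κD) := by
      intro v' hv'
      rw [hA.st (nq pos f) hn t c₀ z y y v' v ht hz hz hv' hv]
    have h2 := npotb_zero1 (N := (liftKt k g).net) (u := u) (dt_cl hv).1 hlt
      (fun v' => hmul t y v' _ (h1 v'))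
    exact sub_eq_zero.1 h2
  have h2 : ∀ c x y y', Dt L (ch c) y x → Dt L (ch c) y' x →
      nq pos f y κD = nq pos f y' κD := by
    intro c x y y' hy hy'
    obtain ⟨v, hv⟩ := dt_exists (L := L) (t := τ₀) (x := y) (by
      rw [(dt_cl hy).1, hA.tsc τ₀ hτ₀ c])
    obtain ⟨v', hv'⟩ := dt_exists (L := L) (t := τ₀) (x := y') (by
      rw [(dt_cl hy').1, hA.tsc τ₀ hτ₀ c])
    rw [hT τ₀ hτ₀ hlt₀ y v (by rw [(dt_cl hy).1, hclc c]) hv,
      hT τ₀ hτ₀ hlt₀ y' v' (by rw [(dt_cl hy').1, hclc c]) hv']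
    exact hA.st (nq pos f) hn τ₀ c x y y' v v' hτ₀ hy hy' hv hv'
  by_cases hDt : Dt L t x y
  swap
  · rw [hmul t x y 0 (fun h0 => absurd h0 hDt), zero_mul]
  by_cases hc : ∃ c, t = ch c
  · obtain ⟨c, rfl⟩ := hc
    have h4 : ∀ y', Dt L (ch c) y' y → nq pos f y' κD - nq pos f y (g.g (ch c) κD) =
        nq pos f x κD - nq pos f y (g.g (ch c) κD) := by
      intro y' hy'
      rw [h2 c y y' x hy' hDt]
    have h5 := npotb_zero2 (N := (liftKt k g).net) (u := u) hι (h3 y) (hlf c) (dt_cl hDt).2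
      (fun y' => hmul (ch c) y' y _ (h4 y'))
    rw [hmul (ch c) x y _ (h4 x), h5, zero_mul]
  by_cases ht : tt t
  · by_cases hlt : {i | L.ty (u i).1 = t}.ncard < L.num t
    · rw [hmul t x y 0 (fun _ => sub_eq_zero.2 (hT t ht hlt x y hx hDt)), zero_mul]
    · have hpos := L.num_pos t
      obtain ⟨i₀, hi₀⟩ : {i | L.ty (u i).1 = t}.Nonempty :=
        Set.nonempty_of_ncard_ne_zero (by omega)
      have hi₀' : L.ty (u i₀).1 = t := hi₀
      have h6 := hB i₀ (by rw [hi₀']; exact ht)
      rw [hi₀'] at h6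
      obtain ⟨h7, h8⟩ := h6.resolve_left hlt
      have huniq : ∀ i, L.ty (u i).1 = t → i = i₀ := fun i hi =>
        (Set.ncard_le_one (Set.toFinite _)).1 h7 i hi i₀ hi₀
      have hdf : ∀ x' y', dfc (liftKt k g).net f e u t x' y' =
          ind2 (evt (liftKt k g).net f e (u i₀)) (x', y') -
            ind2 (evh (liftKt k g).net f e (u i₀)) (x', y') := by
        intro x' y'
        unfold dfc
        rw [Finset.sum_eq_single i₀]
        · exact if_pos hi₀'
        · intro i _ hne
          exact if_neg (fun h0 => hne (huniq i h0))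
        · intro h0
          exact absurd (Finset.mem_univ _) h0
      obtain ⟨z, hz⟩ := dt_exists (L := L) (t := ch c₀) (x := x) (by rw [hx, hcl])
      have h9 : ∀ y' v', Dt L (ch c₀) y' z → Dt L t y' v' →
          nq pos f y' κD - nq pos f v' (g.g t κD) = nq pos f x κD - nq pos f y (g.g t κD) := by
        intro y' v' hy' hv'
        rw [h2 c₀ z y' x hy' hz, hA.st (nq pos f) hn t c₀ z y' x v' y ht hy' hz hv' hDt]
      have h10 : ∀ y' v', Dt L (ch c₀) y' z → Dt L t y' v' →
          dfc (liftKt k g).net f e u t y' v' =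
            (nq pos f x κD - nq pos f y (g.g t κD)) * L.M t y' v' := by
        intro y' v' hy' hv'
        exact hmul t y' v' _ (fun _ => h9 y' v' hy' hv')
      have h11 := h8 z (dt_cl hz).2
      obtain ⟨y₁, hy₁, y₂, hy₂, hne⟩ := (Set.one_lt_ncard (Set.toFinite _)).1 h11
      have hy₁' : Dt L (ch c₀) y₁ z := by
        have h0 : Dt L (L.bar (ch c₀)) z y₁ := hy₁
        have := dt_symm h0
        rwa [L.bar_bar] at this
      have hy₂' : Dt L (ch c₀) y₂ z := by
        have h0 : Dt L (L.bar (ch c₀)) z y₂ := hy₂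
        have := dt_symm h0
        rwa [L.bar_bar] at this
      obtain ⟨v₁, hv₁⟩ := dt_exists (L := L) (t := t) (x := y₁) (by
        rw [(dt_cl hy₁').1, hA.tsc t ht c₀])
      obtain ⟨v₂, hv₂⟩ := dt_exists (L := L) (t := t) (x := y₂) (by
        rw [(dt_cl hy₂').1, hA.tsc t ht c₀])
      have e1 := h10 y₁ v₁ hy₁' hv₁
      have e2 := h10 y₂ v₂ hy₂' hv₂
      rw [hdf] at e1 e2
      have m1 : (1 : ℤ) ≤ L.M t y₁ v₁ := by
        have := Nat.pos_of_ne_zero (dt_iff.1 hv₁)
        exact_mod_cast this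
      have m2 : (1 : ℤ) ≤ L.M t y₂ v₂ := by
        have := Nat.pos_of_ne_zero (dt_iff.1 hv₂)
        exact_mod_cast this
      have hν : nq pos f x κD - nq pos f y (g.g t κD) = 0 := by
        obtain ⟨ν, hνd⟩ : ∃ ν : ℤ, ν = nq pos f x κD - nq pos f y (g.g t κD) := ⟨_, rfl⟩
        rw [← hνd] at e1 e2 ⊢
        rcases lt_trichotomy ν 0 with hν | hν | hν
        · exfalso
          have key : ∀ y' v', (1 : ℤ) ≤ L.M t y' v' →
              ind2 (evt (liftKt k g).net f e (u i₀)) (y', v') -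
                ind2 (evh (liftKt k g).net f e (u i₀)) (y', v') = ν * L.M t y' v' →
              e ((liftKt k g).net.rv (u i₀)) = y' := by
            intro y' v' hm he
            by_contra h0
            have h1 : ind2 (evh (liftKt k g).net f e (u i₀)) (y', v') = 0 :=
              flow_ind2_ne (fun h5 => h0 (congrArg Prod.fst h5))
            have h5 := npotb_ind (evt (liftKt k g).net f e (u i₀)) (y', v')
            rw [h1] at he
            nlinarith
          exact hne ((key y₁ v₁ m1 e1).symm.trans (key y₂ v₂ m2 e2))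
        · exact hν
        · exfalso
          have key : ∀ y' v', (1 : ℤ) ≤ L.M t y' v' →
              ind2 (evt (liftKt k g).net f e (u i₀)) (y', v') -
                ind2 (evh (liftKt k g).net f e (u i₀)) (y', v') = ν * L.M t y' v' →
              f ((liftKt k g).net.tl (u i₀)) = y' := by
            intro y' v' hm he
            by_contra h0
            have h1 : ind2 (evt (liftKt k g).net f e (u i₀)) (y', v') = 0 :=
              flow_ind2_ne (fun h5 => h0 (congrArg Prod.fst h5))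
            have h5 := npotb_ind (evh (liftKt k g).net f e (u i₀)) (y', v')
            rw [h1] at he
            nlinarith
          exact hne ((key y₁ v₁ m1 e1).symm.trans (key y₂ v₂ m2 e2))
      rw [hmul t x y 0 (fun _ => hν), zero_mul]
  · unfold dfc
    refine Finset.sum_eq_zero fun i _ => ?_
    refine if_neg ?_
    intro h0
    have h0' : L.ty (u i).1 = t := h0
    rcases hty i with ⟨c, hc'⟩ | hc'
    · exact hc ⟨c, h0'.symm.trans hc'⟩
    · rw [h0'] at hc'
      exact ht hc'

/-- the condition on the darts which are cut at `κD` -/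
def CutY (L : LS V D T K) {Ch : Type} (ch : Ch → T) (tt : T → Prop) (c₀ : Ch) (C : Set D) : Prop :=
  (∀ d ∈ C, (∃ c, L.ty d = ch c) ∨ tt (L.ty d)) ∧
    (∃ τ, tt τ ∧ {d ∈ C | L.ty d = τ}.ncard < L.num τ) ∧
    ∀ d ∈ C, tt (L.ty d) → {d' ∈ C | L.ty d' = L.ty d}.ncard < L.num (L.ty d) ∨
      ({d' ∈ C | L.ty d' = L.ty d}.ncard ≤ 1 ∧
        ∀ x, L.cl x = L.sc (L.bar (ch c₀)) → 2 ≤ supp L (L.bar (ch c₀)) x)

theorem npotb_y (hA : NArr L g ch κD κc tt) (h3 : ∀ x, 3 ≤ {d | L.tl d = x}.ncard)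
    (hlf : ∀ c, Lfs L.sc (L.bar (ch c))) {ι : Type} [Fintype ι] (hι : Fintype.card ι ≤ 2)
    {c₀ : Ch} {C : Set D} {v : ι → D} (hv : Function.Injective v) (hr : Set.range v = C)
    (hC : CutY L ch tt c₀ C) {a : V} (htl : ∀ i, L.tl (v i) = a) (hcl : L.cl a = L.sc (ch c₀))
    {q : k.Q} {f : V × (k.Q × P) → V} {e : D × (k.Q × P) → V}
    (h : EL (liftKt k g).net (Set.range (fun i => ((v i, (q, κD)) : D × (k.Q × P)))) f e)
    {t : T} {x y : V} (hx : L.cl x = L.cl a) :
    dfc (liftKt k g).net f e (fun i => ((v i, (q, κD)) : D × (k.Q × P))) t x y = 0 := by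
  have hmem : ∀ i, v i ∈ C := fun i => by
    rw [← hr]
    exact ⟨i, rfl⟩
  refine narr_y hA h3 hlf hι (c₀ := c₀) (b := (a, (q, κD))) rfl hcl
    (u := fun i => ((v i, (q, κD)) : D × (k.Q × P))) ?_ ?_ ?_ ?_ ?_ h hx
  · intro i j hij
    exact hv (congrArg Prod.fst hij)
  · intro i
    show (L.tl (v i), (q, κD)) = (a, (q, κD))
    rw [htl i]
  · intro i
    exact hC.1 (v i) (hmem i)
  · obtain ⟨τ, h1, h2⟩ := hC.2.1
    refine ⟨τ, h1, ?_⟩
    rw [← npotb_cut hv hr τ] at h2
    exact h2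
  · intro i hi
    have h1 := hC.2.2 (v i) (hmem i) hi
    rw [← npotb_cut hv hr (L.ty (v i))] at h1
    exact h1

theorem narr_ex_y (hA : NArr L g ch κD κc tt) (h3 : ∀ x, 3 ≤ {d | L.tl d = x}.ncard)
    (hlf : ∀ c, Lfs L.sc (L.bar (ch c))) {c₀ : Ch} {d : D} {q : k.Q}
    (hd : L.cl (L.tl d) = L.sc (ch c₀)) (hC : CutY L ch tt c₀ {d}) :
    Exact (liftKt k g).net {(d, (q, κD))} := by
  refine exact_of_dfc1 ?_
  intro f e he t x y hx
  refine npotb_y hA h3 hlf (ι := Unit) (by simp) (v := fun _ => d) ?_ Set.range_const hC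
    (fun _ => rfl) hd ?_ hx
  · rintro ⟨⟩ ⟨⟩ _
    rfl
  · rw [Set.range_const]
    exact he

theorem narr_tie_y (hA : NArr L g ch κD κc tt) (h3 : ∀ x, 3 ≤ {d | L.tl d = x}.ncard)
    (hlf : ∀ c, Lfs L.sc (L.bar (ch c))) {c₀ : Ch} {d d' : D} {q : k.Q}
    (hd : L.cl (L.tl d) = L.sc (ch c₀)) (hdd : L.tl d = L.tl d') (hne : d ≠ d')
    (hC : CutY L ch tt c₀ {d, d'}) :
    TlTie (liftKt k g).net (d, (q, κD)) (d', (q, κD)) := by
  refine tie_of_dfc ?_ ?_
  · show (L.tl d, (q, κD)) = (L.tl d', (q, κD))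
    rw [hdd]
  · intro f e he t x y hx
    have hr : Set.range (![d, d'] : Fin 2 → D) = {d, d'} := by
      ext δ
      constructor
      · rintro ⟨i, rfl⟩
        fin_cases i
        · left
          rfl
        · right
          rfl
      · rintro (rfl | rfl)
        · exact ⟨0, rfl⟩
        · exact ⟨1, rfl⟩
    have hu : (![(d, (q, κD)), (d', (q, κD))] : Fin 2 → D × (k.Q × P)) =
        fun i => ((![d, d'] : Fin 2 → D) i, (q, κD)) := by
      funext i
      fin_cases i <;> rfl
    have hr' : Set.range (fun i => (((![d, d'] : Fin 2 → D) i, (q, κD)) : D × (k.Q × P))) =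
        {(d, (q, κD)), (d', (q, κD))} := by
      rw [← hu]
      ext δ
      constructor
      · rintro ⟨i, rfl⟩
        fin_cases i
        · left
          rfl
        · right
          rfl
      · rintro (rfl | rfl)
        · exact ⟨0, rfl⟩
        · exact ⟨1, rfl⟩
    have hz : dfc (liftKt k g).net f e
        (fun i => (((![d, d'] : Fin 2 → D) i, (q, κD)) : D × (k.Q × P))) t x y = 0 := by
      refine npotb_y hA h3 hlf (ι := Fin 2) (by simp) (v := ![d, d']) ?_ hr hC ?_ hd ?_ hx
      · intro i j hij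
        fin_cases i <;> fin_cases j
        · rfl
        · exact absurd hij hne
        · exact absurd hij.symm hne
        · rfl
      · intro i
        fin_cases i
        · rfl
        · exact hdd.symm
      · exact (congrArg (fun C => EL (liftKt k g).net C f e) hr').mpr he
    have hz' : dfc (liftKt k g).net f e
        (![(d, (q, κD)), (d', (q, κD))] : Fin 2 → D × (k.Q × P)) t x y = 0 := by
      rw [hu]
      exact hz
    exact hz'

end Pool.Agent.H24.GH
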