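import Pool.Agent.H24.GH.SumK

/-!
# JOB GH-15: ties from exact cuts

`star_pair`: let `σ` be from `dp_exists` (file `Pool.Agent.H24.GG.UState`; `DP L v x σ`), and `e₁ ≠ e₂` darts at `x` of the types
`ty d₁`, `ty d₂` with the ends `y₁`, `y₂` (they exist by `h1`, `h2`; if the types and the ends are equal then by `h12`). Compose `σ`
with two transpositions of darts at `x` of the same type, such that `σ d₁ = e₁`, `σ d₂ = e₂`; it still satisfies `DP L v x σ`. Let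
`y d = hd (σ d)`: `σ` is a bijection of `{d | tl d = v, ty d = t, y d = z}` to `{d | tl d = x, ty d = t, hd d = z}`.
`star_full`: `y' d = y i` if `d = dd i`, otherwise `y' d = hd (σ d)` with `σ` from `dp_exists`. For `t ≠ τ` as before, for `t = τ` the
darts of type `τ` at `v` are the `dd i` (`num τ = m`, `dd` is injective), so the number is `{i | y i = z}.ncard = M τ x z`.

`mk_ties`: `sd i = (dd i, qs)` with `dd` a bijection of `Fin m` to the darts of type `τ` at `vs`. `s_nrev`: `(dd i, qs) = rv (dd j, qs)`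
would give `R (dd j) qs = qs` (`ne`). `s_sp`: `Exact` gives `evt = evh` (`e δ = f (hd δ)` for all `δ`). `s_cp`: `star_full` and
`UStar`. `a1 = (dd 0, qs)`, `a2 = (dd 1, qs)`; `a_tie`: `TlTie`; `a_cp`: `star_pair`, `UStar`. `b1 = rv (d, qb)`, `b2 = rv (d', qb)`:
`hd b1 = tl (d, qb)`; `evt b1 = (f (hd (d, qb)), e (rv (d, qb)))`, so the second component is `f (vb, qb)` by `TlTie`; a
labelling cut at `{b1, b2}` is a labelling cut at `{(d, qb), (d', qb)}` (`el_symm`, `exact_symm`). `b_nrev`: `b1 = rv b2` would give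
`rv (d, qb) = (d', qb)`, so `R d qb = qb` (`nr`). `b_cp`: `star_pair` at the label `y` with the ends `x₀` and `zt y`, `UStar`;
`evt b1 = (e' , ...)`: in a labelling without cuts `f (hd (d, qb)) = e (d, qb) = x₀`, `e (rv (d, qb)) = f (vb, qb) = y`.
-/

namespace Pool.Agent.H24.GH

open Pool.Agent.H24.GG

variable {V D T K : Type} {L : LS V D T K}

theorem nTie_comp {x y z : V} {σ τ : Equiv.Perm D} (h : DP L x y σ) (h' : DP L y z τ) :
    DP L x z (σ.trans τ) :=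
  ⟨fun d => (h'.1 (σ d)).trans (h.1 d), fun d => (h.2 d).trans (h'.2 (σ d))⟩

theorem nTie_swap [DecidableEq D] {x : V} {a b : D} (h : L.ty a = L.ty b)
    (h' : L.tl a = x ↔ L.tl b = x) : DP L x x (Equiv.swap a b) := by
  constructor
  · intro d
    by_cases h1 : d = a
    · rw [h1, Equiv.swap_apply_left]
      exact h.symm
    · by_cases h2 : d = b
      · rw [h2, Equiv.swap_apply_right]
        exact h
      · rw [Equiv.swap_apply_of_ne_of_ne h1 h2]
  · intro d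
    by_cases h1 : d = a
    · rw [h1, Equiv.swap_apply_left]
      exact h'
    · by_cases h2 : d = b
      · rw [h2, Equiv.swap_apply_right]
        exact h'.symm
      · rw [Equiv.swap_apply_of_ne_of_ne h1 h2]

theorem nTie_cnt {v x : V} {σ : Equiv.Perm D} (h : DP L v x σ) (t : T) (z : V) :
    {d | L.tl d = v ∧ L.ty d = t ∧ L.hd (σ d) = z}.ncard = L.M t x z := by
  unfold LS.M
  have himg : {d | L.tl d = x ∧ L.ty d = t ∧ L.hd d = z} =
      σ '' {d | L.tl d = v ∧ L.ty d = t ∧ L.hd (σ d) = z} := by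
    ext d
    constructor
    · rintro ⟨h1, h2, h3⟩
      refine ⟨σ.symm d, ⟨?_, ?_, ?_⟩, σ.apply_symm_apply d⟩
      · rw [h.2, σ.apply_symm_apply]
        exact h1
      · rw [← h.1, σ.apply_symm_apply]
        exact h2
      · rw [σ.apply_symm_apply]
        exact h3
    · rintro ⟨d', ⟨h1, h2, h3⟩, rfl⟩
      exact ⟨(h.2 d').1 h1, (h.1 d').trans h2, h3⟩
  rw [himg, Set.ncard_image_of_injective _ σ.injective]

theorem nTie_two [Finite D] {x : V} {t₁ t₂ : T} {y₁ y₂ : V} (h1 : Dt L t₁ x y₁) (h2 : Dt L t₂ x y₂)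
    (h12 : t₁ = t₂ → y₁ = y₂ → 2 ≤ L.M t₁ x y₁) :
    ∃ e₁ e₂ : D, e₁ ≠ e₂ ∧ (L.tl e₁ = x ∧ L.ty e₁ = t₁ ∧ L.hd e₁ = y₁) ∧
      (L.tl e₂ = x ∧ L.ty e₂ = t₂ ∧ L.hd e₂ = y₂) := by
  obtain ⟨e₁, a1, a2, a3⟩ := h1
  obtain ⟨e₂, b1, b2, b3⟩ := h2
  by_cases hc : t₁ = t₂ ∧ y₁ = y₂
  · obtain ⟨c1, c2⟩ := hc
    have h3 : 1 < {d | L.tl d = x ∧ L.ty d = t₁ ∧ L.hd d = y₁}.ncard := h12 c1 c2
    obtain ⟨u, hu, w, hw, huw⟩ := (Set.one_lt_ncard_iff_nontrivial).1 h3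
    refine ⟨u, w, huw, hu, ?_⟩
    rw [← c1, ← c2]
    exact hw
  · refine ⟨e₁, e₂, ?_, ⟨a1, a3, a2⟩, ⟨b1, b3, b2⟩⟩
    rintro rfl
    exact hc ⟨a3.symm.trans b3, a2.symm.trans b2⟩

theorem star_pair [Finite V] [Finite D] {v x : V} (hx : L.cl x = L.cl v) {d₁ d₂ : D}
    (hd₁ : L.tl d₁ = v) (hd₂ : L.tl d₂ = v) (hne : d₁ ≠ d₂) {y₁ y₂ : V}
    (h1 : Dt L (L.ty d₁) x y₁) (h2 : Dt L (L.ty d₂) x y₂)
    (h12 : L.ty d₁ = L.ty d₂ → y₁ = y₂ → 2 ≤ L.M (L.ty d₁) x y₁) :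
    ∃ y : D → V, (∀ t z, {d | L.tl d = v ∧ L.ty d = t ∧ y d = z}.ncard = L.M t x z) ∧
      y d₁ = y₁ ∧ y d₂ = y₂ := by
  classical
  obtain ⟨e₁, e₂, he, ⟨a1, a2, a3⟩, ⟨b1, b2, b3⟩⟩ := nTie_two h1 h2 h12
  obtain ⟨σ, hσ, hσ1⟩ := dp_pres hx.symm hd₁ a1 a2
  have hσ2 : L.tl (σ d₂) = x := (hσ.2 d₂).1 hd₂
  have hs : DP L x x (Equiv.swap (σ d₂) e₂) :=
    nTie_swap ((hσ.1 d₂).trans b2.symm) (iff_of_true hσ2 b1)
  have hτ := nTie_comp hσ hs
  have c2 : (σ.trans (Equiv.swap (σ d₂) e₂)) d₂ = e₂ := by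
    rw [Equiv.trans_apply, Equiv.swap_apply_left]
  have c1 : (σ.trans (Equiv.swap (σ d₂) e₂)) d₁ = e₁ := by
    rw [Equiv.trans_apply, hσ1]
    refine Equiv.swap_apply_of_ne_of_ne ?_ he
    rw [← hσ1]
    exact fun h => hne (σ.injective h)
  refine ⟨fun d => L.hd ((σ.trans (Equiv.swap (σ d₂) e₂)) d), fun t z => nTie_cnt hτ t z, ?_, ?_⟩
  · show L.hd ((σ.trans (Equiv.swap (σ d₂) e₂)) d₁) = y₁
    rw [c1, a3]
  · show L.hd ((σ.trans (Equiv.swap (σ d₂) e₂)) d₂) = y₂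
    rw [c2, b3]

theorem star_full [Finite V] [Finite D] {τ : T} {m : ℕ} (hm : L.num τ = m) {v x : V}
    (hx : L.cl x = L.cl v) {y : Fin m → V} (h : Ful L τ x y) {dd : Fin m → D}
    (hi : Function.Injective dd) (h1 : ∀ i, L.tl (dd i) = v) (h2 : ∀ i, L.ty (dd i) = τ) :
    ∃ y' : D → V, (∀ t z, {d | L.tl d = v ∧ L.ty d = t ∧ y' d = z}.ncard = L.M t x z) ∧
      ∀ i, y' (dd i) = y i := by
  classical
  obtain ⟨σ, hσ⟩ := dp_exists hx.symm
  refine ⟨Function.extend dd y (fun d => L.hd (σ d)), ?_, fun i => hi.extend_apply _ _ i⟩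
  intro t z
  by_cases ht : t = τ
  · subst ht
    have hr : Set.range dd = {d | L.tl d = v ∧ L.ty d = t} := by
      have hsub : Set.range dd ⊆ {d | L.tl d = v ∧ L.ty d = t} := by
        rintro _ ⟨i, rfl⟩
        exact ⟨h1 i, h2 i⟩
      refine Set.eq_of_subset_of_ncard_le hsub ?_ (Set.toFinite _)
      rw [L.num_eq v t (by rw [← hx]; exact h.1), hm, ← Set.image_univ,
        Set.ncard_image_of_injective _ hi, Set.ncard_univ, Nat.card_eq_fintype_card, Fintype.card_fin]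
    have himg : {d | L.tl d = v ∧ L.ty d = t ∧ Function.extend dd y (fun d => L.hd (σ d)) d = z} =
        dd '' {i | y i = z} := by
      ext d
      constructor
      · rintro ⟨g1, g2, g3⟩
        have g4 : d ∈ Set.range dd := by
          rw [hr]
          exact ⟨g1, g2⟩
        obtain ⟨i, rfl⟩ := g4
        refine ⟨i, ?_, rfl⟩
        rw [hi.extend_apply] at g3
        exact g3
      · rintro ⟨i, g1, rfl⟩
        refine ⟨h1 i, h2 i, ?_⟩
        rw [hi.extend_apply]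
        exact g1
    rw [himg, Set.ncard_image_of_injective _ hi, h.2]
  · rw [← nTie_cnt hσ t z]
    congr 1
    ext d
    constructor
    · rintro ⟨g1, g2, g3⟩
      refine ⟨g1, g2, ?_⟩
      rw [Function.extend_apply'] at g3
      · exact g3
      · rintro ⟨i, rfl⟩
        exact ht (g2.symm.trans (h2 i))
    · rintro ⟨g1, g2, g3⟩
      refine ⟨g1, g2, ?_⟩
      rw [Function.extend_apply']
      · exact g3
      · rintro ⟨i, rfl⟩
        exact ht (g2.symm.trans (h2 i))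

/-- the darts of type `τ` at the base vertex can be cut -/
structure SBase (k : Kt L) (τ : T) (v : V) (q : k.Q) : Prop where
  cl : L.cl v = L.sc τ
  us : UStar k v q
  ne : ∀ d, L.tl d = v → L.ty d = τ → k.R d q ≠ q
  ex : ∀ d, L.tl d = v → L.ty d = τ → Exact k.net {(d, q)}
  ti : ∀ d d', L.tl d = v → L.tl d' = v → L.ty d = τ → L.ty d' = τ → d ≠ d' →
    TlTie k.net (d, q) (d', q)

/-- the darts `d, d'` at the base vertex can be cut -/
structure PBase (k : Kt L) (v : V) (q : k.Q) (d d' : D) : Prop where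
  us : UStar k v q
  tl : L.tl d = v
  tl' : L.tl d' = v
  ne : d ≠ d'
  nr : k.R d q ≠ q
  ex : Exact k.net {(d, q)}
  ex' : Exact k.net {(d', q)}
  ti : TlTie k.net (d, q) (d', q)

/-- a guard at the dart `g` -/
structure GBase (k : Kt L) (τ : T) (x₀ yt : V) (Xg : V → Prop) (g : D × k.Q) : Prop where
  ty : L.ty g.1 = τ
  ex : Exact k.net {g}
  xg : ∀ f e, EL k.net ∅ f e → Xg (f (k.net.tl g))
  cp : ∃ f e, EL k.net ∅ f e ∧ evt k.net f e g = (x₀, yt)

theorem nTie_sp {W Δ : Type} {N : Net L W Δ} {C : Set Δ} (hC : Exact N C) {f : W → V} {e : Δ → V}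
    (h : EL N C f e) (δ : Δ) : evt N f e δ = evh N f e δ := by
  have h1 := hC f e h δ
  have h2 := hC f e h (N.rv δ)
  have h3 : N.hd (N.rv δ) = N.tl δ := by
    unfold Net.hd
    rw [N.rv_rv]
  rw [h3] at h2
  show (f (N.tl δ), e δ) = (e (N.rv δ), f (N.hd δ))
  rw [h1, h2]

theorem nTie_rv {W Δ : Type} {N : Net L W Δ} {δ : Δ} {C : Set Δ} (hC : C = {N.rv δ}) (δ' : Δ) :
    (δ' ∈ C ∨ N.rv δ' ∈ C) ↔ (δ' ∈ ({δ} : Set Δ) ∨ N.rv δ' ∈ ({δ} : Set Δ)) := by
  subst hC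
  simp only [Set.mem_singleton_iff]
  constructor
  · rintro (h | h)
    · right
      rw [h, N.rv_rv]
    · left
      rw [← N.rv_rv δ', h, N.rv_rv]
  · rintro (h | h)
    · right
      rw [h]
    · left
      rw [← h, N.rv_rv]

theorem nTie_rv2 {W Δ : Type} {N : Net L W Δ} (δ₁ δ₂ δ' : Δ) :
    (δ' ∈ ({N.rv δ₁, N.rv δ₂} : Set Δ) ∨ N.rv δ' ∈ ({N.rv δ₁, N.rv δ₂} : Set Δ)) ↔
      (δ' ∈ ({δ₁, δ₂} : Set Δ) ∨ N.rv δ' ∈ ({δ₁, δ₂} : Set Δ)) := by
  have key : ∀ a b : Δ, N.rv a = b ↔ a = N.rv b := by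
    intro a b
    constructor
    · rintro rfl
      rw [N.rv_rv]
    · rintro rfl
      rw [N.rv_rv]
  have key2 : ∀ a b : Δ, N.rv a = N.rv b ↔ a = b := by
    intro a b
    rw [key, N.rv_rv]
  simp only [Set.mem_insert_iff, Set.mem_singleton_iff, key2]
  rw [← key, ← key]
  tauto

theorem mk_ties [Finite V] [Finite D] {k : Kt L} {τ ζ : T} {m : ℕ} (hm : 3 ≤ m)
    (hn : L.num τ = m) {vs : V} {qs : k.Q} (hs : SBase k τ vs qs) {vb : V} {qb : k.Q} {d d' : D}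
    (hb : PBase k vb qb d d') (hd : L.ty d = L.bar τ) (hd' : L.ty d' = L.bar ζ) {x₀ yt : V}
    {zt : V → V} (hzt : ∀ y, Dt L τ x₀ y → Dt L ζ (zt y) y ∧
      (ζ = τ → zt y = x₀ → 2 ≤ L.M τ x₀ y)) (hyt : Dt L τ x₀ yt) {Xg : V → Prop} {g : D × k.Q}
    (hg : GBase k τ x₀ yt Xg g) :
    Nonempty (Ties k τ ζ m x₀ yt zt Xg (fun _ => True) (fun _ => True)) := by
  classical
  have hcard : Nat.card {d | L.tl d = vs ∧ L.ty d = τ} = m := by
    rw [Nat.card_coe_set_eq, L.num_eq vs τ hs.cl, hn]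
  let E := Finite.equivFinOfCardEq hcard
  let dd : Fin m → D := fun i => (E.symm i).1
  have hdd : ∀ i, L.tl (dd i) = vs ∧ L.ty (dd i) = τ := fun i => (E.symm i).2
  have hdi : Function.Injective dd := fun i j hij => E.symm.injective (Subtype.ext hij)
  have hnrev : ∀ i j, ((dd i, qs) : D × k.Q) ≠ k.net.rv (dd j, qs) := by
    intro i j h
    have h1 : qs = k.R (dd j) qs := congrArg Prod.snd h
    exact hs.ne (dd j) (hdd j).1 (hdd j).2 h1.symm
  have hnei : ∀ i j, i ≠ j → ((dd i, qs) : D × k.Q) ≠ (dd j, qs) := fun i j hij h =>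
    hij (hdi (congrArg Prod.fst h))
  have htl : ∀ i, k.net.tl (dd i, qs) = (vs, qs) := fun i => by
    show (L.tl (dd i), qs) = (vs, qs)
    rw [(hdd i).1]
  have hx0 : L.cl x₀ = L.cl vs := by
    rw [(dt_cl hyt).1, hs.cl]
  have htlb : k.net.tl (d, qb) = (vb, qb) := by
    show (L.tl d, qb) = (vb, qb)
    rw [hb.tl]
  have htlb' : k.net.tl (d', qb) = (vb, qb) := by
    show (L.tl d', qb) = (vb, qb)
    rw [hb.tl']
  have hhd : ∀ δ, k.net.hd (k.net.rv δ) = k.net.tl δ := fun δ => by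
    unfold Net.hd
    rw [k.net.rv_rv]
  let i0 : Fin m := ⟨0, by omega⟩
  let i1 : Fin m := ⟨1, by omega⟩
  have h01 : i0 ≠ i1 := fun h => by
    have h1 := congrArg Fin.val h
    exact absurd h1 (by show ¬ (0 = 1); omega)
  refine ⟨{
    m3 := hm
    num := hn
    sd := fun i => (dd i, qs)
    s_inj := fun i j h => hdi (congrArg Prod.fst h)
    s_tl := fun i j => by rw [htl, htl]
    s_ty := fun i => (hdd i).2
    s_nrev := hnrev
    s_sp := fun i f e h => ⟨nTie_sp (hs.ex _ (hdd i).1 (hdd i).2) h _, trivial⟩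
    s_cp := ?_
    a1 := (dd i0, qs)
    a2 := (dd i1, qs)
    a_tl := by rw [htl, htl]
    a_ty1 := (hdd i0).2
    a_ty2 := (hdd i1).2
    a_ne := hnei _ _ h01
    a_nrev := hnrev _ _
    a_sp1 := fun f e h => ⟨nTie_sp (hs.ex _ (hdd i0).1 (hdd i0).2) h _, trivial⟩
    a_sp2 := fun f e h => ⟨nTie_sp (hs.ex _ (hdd i1).1 (hdd i1).2) h _, trivial⟩
    a_tie := ?_
    a_cp := ?_
    b1 := k.net.rv (d, qb)
    b2 := k.net.rv (d', qb)
    b_hd := by rw [hhd, hhd, htlb, htlb']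
    b_ty1 := ?_
    b_ty2 := ?_
    b_ne := ?_
    b_nrev := ?_
    b_sp1 := ?_
    b_sp2 := ?_
    b_tie := ?_
    b_cp := ?_
    g1 := g
    g_ty := hg.ty
    g_sp := ?_
    yt_dt := hyt
    g_cp := hg.cp }⟩
  · intro y hy
    obtain ⟨y', h1, h2⟩ := star_full hn hx0 hy hdi (fun i => (hdd i).1) (fun i => (hdd i).2)
    obtain ⟨f, e, h3, h4, h5⟩ := hs.us x₀ y' hx0 h1
    refine ⟨f, e, h3, fun i => ?_⟩
    show (f (k.net.tl (dd i, qs)), e (dd i, qs)) = (x₀, y i)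
    rw [htl, h4, h5 _ (hdd i).1, h2]
  · intro f e h _ _ _ _
    have h1 := hs.ti (dd i0) (dd i1) (hdd i0).1 (hdd i1).1 (hdd i0).2 (hdd i1).2
      (fun h => h01 (hdi h)) f e h
    exact h1
  · intro y y' hy
    obtain ⟨u, h1, h2, h3⟩ := star_pair (L := L) hx0 (hdd i0).1 (hdd i1).1
      (fun h => h01 (hdi h)) (y₁ := y) (y₂ := y') (by rw [(hdd i0).2]; exact hy.1)
      (by rw [(hdd i1).2]; exact hy.2.1) (fun _ h => by rw [(hdd i0).2]; exact hy.2.2 h)
    obtain ⟨f, e, h4, h5, h6⟩ := hs.us x₀ u hx0 h1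
    refine ⟨f, e, h4, ?_, ?_⟩
    · show (f (k.net.tl (dd i0, qs)), e (dd i0, qs)) = (x₀, y)
      rw [htl, h5, h6 _ (hdd i0).1, h2]
    · show (f (k.net.tl (dd i1, qs)), e (dd i1, qs)) = (x₀, y')
      rw [htl, h5, h6 _ (hdd i1).1, h3]
  · show L.ty (L.rv d) = τ
    rw [L.ty_rv, hd, L.bar_bar]
  · show L.ty (L.rv d') = ζ
    rw [L.ty_rv, hd', L.bar_bar]
  · intro h
    have h1 := congrArg k.net.rv h
    rw [k.net.rv_rv, k.net.rv_rv] at h1
    exact hb.ne (congrArg Prod.fst h1)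
  · intro h
    rw [k.net.rv_rv] at h
    have h1 : k.R d qb = qb := congrArg Prod.snd h
    exact hb.nr h1
  · intro f e h
    exact ⟨nTie_sp (exact_symm (fun δ => (nTie_rv rfl δ).symm) hb.ex) h _, trivial⟩
  · intro f e h
    exact ⟨nTie_sp (exact_symm (fun δ => (nTie_rv rfl δ).symm) hb.ex') h _, trivial⟩
  · intro f e h _ _ _ _
    have h1 := el_symm (fun δ => nTie_rv2 (N := k.net) (d, qb) (d', qb) δ) h
    have h2 := hb.ti f e h1
    rw [hhd]
    exact h2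
  · intro y hy
    obtain ⟨z1, z2⟩ := hzt y hy
    have hcl : L.cl y = L.cl vb := by
      rw [(dt_cl hy).2, ← hb.tl, L.cl_tl, hd]
    obtain ⟨u, h1, h2, h3⟩ := star_pair (L := L) hcl hb.tl hb.tl' hb.ne (y₁ := x₀) (y₂ := zt y)
      (by rw [hd]; exact dt_symm hy) (by rw [hd']; exact dt_symm z1) (fun h h' => by
        rw [hd, M_bar]
        refine z2 ?_ h'.symm
        rw [hd, hd'] at h
        rw [← L.bar_bar ζ, ← h, L.bar_bar])
    obtain ⟨f, e, h4, h5, h6⟩ := hb.us y u hcl h1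
    have h7 : ∀ δ, e δ = f (k.net.hd δ) := fun δ =>
      h4.unc δ (Set.notMem_empty _) (Set.notMem_empty _)
    refine ⟨f, e, h4, ?_, ?_⟩
    · show (f (k.net.tl (k.net.rv (d, qb))), e (k.net.rv (d, qb))) = (x₀, y)
      have h8 := h7 (d, qb)
      rw [h6 d hb.tl, h2] at h8
      have h9 : f (k.net.tl (k.net.rv (d, qb))) = x₀ := h8.symm
      rw [h9, h7, hhd, htlb, h5]
    · show (f (k.net.tl (k.net.rv (d', qb))), e (k.net.rv (d', qb))) = (zt y, y)
      have h8 := h7 (d', qb)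
      rw [h6 d' hb.tl', h3] at h8
      have h9 : f (k.net.tl (k.net.rv (d', qb))) = zt y := h8.symm
      rw [h9, h7, hhd, htlb', h5]
  · intro f e h
    have h1 := hg.ex f e h
    exact ⟨nTie_sp hg.ex h _, trivial, hg.xg f e ⟨h.cls, h.star, fun δ _ _ => h1 δ⟩⟩

end Pool.Agent.H24.GH
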