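import Pool.Agent.H24.GG.Refine

/-!
# JOB GH-1: relations observed by pieces of a kit

A variable has a sort: the type `t` of its darts, the relation `sp` between the two values of a spacer (the first argument is
the value `evt`, the second the value `evh`), the observation `ob` of a value, and the canonical value `fv` with a given
observation. `OF k sX Rs Rc`: there is a system of pieces with slots, whose hub variables `x : X` have the sorts `sX x`, such
that (`sound`) for all values `a s = evt`, `b s = evh` at the slots which come from labellings of the pieces cut at their slots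
(`PCond`), and which are compatible with the spacers, the observation of a hub variable is the same for `a` and `b`, and `Rs`
holds for the observations, and (`comp`) for all `c` with `Rc c` there are labellings of the pieces with the values
`fv (c x)` at the hub slots. `Cyc`: the auxiliary variables occur only in these pieces; the occurrences of an auxiliary variable
form a cycle `σ`, and the spacer from the occurrence `s` has the values `evh = a s`, `evt = b (σ s)`.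

`OF.mono`: clear. `OF.all`: the disjoint union (`Y = Σ i, Y i`, `B = Σ i, B i`, `S = Σ i, S i`, as for `EP.all`, file
`Pool.Agent.H24.GG.EDef`). `sound`: for `i` restrict `a, b` to the slots `⟨i, s⟩`; `PCond` for the pieces `⟨i, p⟩` (the set of the
cut darts is the same), `Cyc`: `σ` maps the auxiliary slots of `i` to auxiliary slots of `i` (the symbol is preserved), restrict it
(`Equiv.Perm.subtypePerm`-like, `SameCycle` restricts). `comp`: put the `y` together. `OF.and`: `OF.all` over `Bool`, and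
`OF.mono`. `OF.comap`: rename the symbols: `sy' s = Sum.map ρ id (sy s)`. `OF.ex`: `Y' = X₁ ⊕ Y`, the spacer relation of
`x₁ : X₁` is `(s₁ x₁).sp`. `sound`: for the inner system the conditions for the hub slots of `x₁` follow from `Cyc`
(`a s` and `b (σ s)` are related; `b s` and `a (σ⁻¹ s)`), `Cyc` for `Y` by restriction. The first part of the inner conclusion
gives `ob (a s) = ob (b s)` for the slots of `x₁`; with `hob` `ob (a s) = ob (b (σ s)) = ob (a (σ s))`, so `ob (a s)` is the same for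
all slots of `x₁` (`SameCycle`); let `u x₁` be this value (arbitrary if there is no slot).
`OF.tr`: the kits are the same, `el_tr` (file `Pool.Agent.H24.GG.Refine`).
-/

namespace Pool.Agent.H24.GH

open Pool.Agent.H24.GG

variable {V D T K : Type} {L : LS V D T K}

/-- the sort of a variable -/
structure Srt (V T Ω : Type) where
  t : T
  sp : V × V → V × V → Prop
  ob : V × V → Ω
  fv : Ω → V × V
  hob : ∀ α β, sp α β → ob α = ob β

/-- the data of a system of pieces -/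
structure OSys (k : Kt L) (X Y S B : Type) where
  pc : S → B
  dt : S → D × k.Q
  sy : S → X ⊕ Y

/-- the occurrences of the auxiliary variables -/
def Cyc {S X Y : Type} (sy : S → X ⊕ Y) (sp : Y → V × V → V × V → Prop) (a b : S → V × V) : Prop :=
  ∃ σ : Equiv.Perm {s // ∃ y, sy s = Sum.inr y}, (∀ s, sy (σ s).1 = sy s.1) ∧
    (∀ s s', sy s.1 = sy s'.1 → σ.SameCycle s s') ∧
    ∀ s y, sy s.1 = Sum.inr y → sp y (b (σ s).1) (a s.1)

/-- the values come from labellings of the pieces -/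
def PCond (k : Kt L) {S B : Type} (pc : S → B) (dt : S → D × k.Q) (a b : S → V × V) : Prop :=
  ∀ p, ∃ f e, EL k.net {δ | ∃ s, pc s = p ∧ dt s = δ} f e ∧
    ∀ s, pc s = p → evt k.net f e (dt s) = a s ∧ evh k.net f e (dt s) = b s

/-- the conditions on a system -/
structure OSys.OK {k : Kt L} {X Y S B Ω : Type} (E : OSys k X Y S B) (sX : X → Srt V T Ω)
    (tY : Y → T) (spY : Y → V × V → V × V → Prop) (Rs Rc : (X → Ω) → Prop) : Prop where
  inj : ∀ s s', E.pc s = E.pc s' → E.dt s = E.dt s' → s = s'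
  nrev : ∀ s s', E.pc s = E.pc s' → E.dt s ≠ k.net.rv (E.dt s')
  ty : ∀ s, L.ty (E.dt s).1 = Sum.elim (fun x => (sX x).t) tY (E.sy s)
  spc : ∀ s f e, EL k.net {E.dt s} f e →
    Sum.elim (fun x => (sX x).sp) spY (E.sy s) (evt k.net f e (E.dt s)) (evh k.net f e (E.dt s))
  sound : ∀ a b : S → V × V,
    (∀ s x, E.sy s = Sum.inl x → (∃ α, (sX x).sp α (a s)) ∧ ∃ β, (sX x).sp (b s) β) →
    Cyc E.sy spY a b → PCond k E.pc E.dt a b →
    (∀ s x, E.sy s = Sum.inl x → (sX x).ob (a s) = (sX x).ob (b s)) ∧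
    ∀ c : X → Ω, (∀ s x, E.sy s = Sum.inl x → (sX x).ob (a s) = c x) → Rs c
  comp : ∀ c : X → Ω, Rc c → ∃ y : Y → V × V, ∀ p, ∃ f e, EL k.net ∅ f e ∧
    ∀ s, E.pc s = p → evt k.net f e (E.dt s) = Sum.elim (fun x => (sX x).fv (c x)) y (E.sy s)

/-- `Rs`, `Rc` are observed by pieces -/
def OF (k : Kt L) {X Ω : Type} (sX : X → Srt V T Ω) (Rs Rc : (X → Ω) → Prop) : Prop :=
  ∃ (Y B S : Type) (_ : Finite Y) (_ : Finite B) (_ : Finite S) (tY : Y → T)
    (spY : Y → V × V → V × V → Prop) (E : OSys k X Y S B), E.OK sX tY spY Rs Rc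

variable {k : Kt L} {X Ω : Type} {sX : X → Srt V T Ω}

theorem odef_zpow {A B : Type} {σ : Equiv.Perm A} {τ : Equiv.Perm B} {ψ : A → B}
    (h : ∀ s, ψ (σ s) = τ (ψ s)) (i : ℤ) (s : A) : ψ ((σ ^ i) s) = (τ ^ i) (ψ s) := by
  have hn : ∀ (n : ℕ) (s : A), ψ ((σ ^ n) s) = (τ ^ n) (ψ s) := by
    intro n
    induction n with
    | zero => intro s; rfl
    | succ n ih =>
      intro s
      rw [pow_succ', pow_succ', Equiv.Perm.mul_apply, Equiv.Perm.mul_apply, h, ih]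
  obtain ⟨n, rfl | rfl⟩ := Int.eq_nat_or_neg i
  · rw [zpow_natCast, zpow_natCast]
    exact hn n s
  · rw [zpow_neg, zpow_neg, zpow_natCast, zpow_natCast, Equiv.Perm.eq_inv_iff_eq, ← hn]
    congr 1
    rw [← Equiv.Perm.mul_apply, mul_inv_cancel]
    rfl

theorem odef_map {X C ι : Type} {Y : ι → Type} (v : X → C) (y : (Σ i, Y i) → C) (i : ι)
    (z : X ⊕ Y i) :
    Sum.elim v y (Sum.map id (Sigma.mk i) z) = Sum.elim v (fun q => y ⟨i, q⟩) z := by
  cases z <;> rfl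

theorem odef_cyc {S₁ S₂ X₁ X₂ Y₁ Y₂ : Type} {sy₁ : S₁ → X₁ ⊕ Y₁} {sy₂ : S₂ → X₂ ⊕ Y₂}
    {sp₁ : Y₁ → V × V → V × V → Prop} {sp₂ : Y₂ → V × V → V × V → Prop} {a b : S₂ → V × V}
    (φ : S₁ → S₂) (g : Y₁ → Y₂) (hφ : Function.Injective φ)
    (h1 : ∀ s y, sy₁ s = Sum.inr y → sy₂ (φ s) = Sum.inr (g y))
    (h2 : ∀ s' y, sy₂ s' = Sum.inr (g y) → ∃ s, φ s = s' ∧ sy₁ s = Sum.inr y)
    (h3 : ∀ y α β, sp₂ (g y) α β → sp₁ y α β)
    (h : Cyc sy₂ sp₂ a b) : Cyc sy₁ sp₁ (fun s => a (φ s)) (fun s => b (φ s)) := by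
  obtain ⟨σ, hσ1, hσ2, hσ3⟩ := h
  obtain ⟨ψ, hψ⟩ : ∃ ψ : {s // ∃ y, sy₁ s = Sum.inr y} → {s // ∃ y, sy₂ s = Sum.inr y},
      ∀ s, (ψ s).1 = φ s.1 :=
    ⟨fun s => ⟨φ s.1, by obtain ⟨y, hy⟩ := s.2; exact ⟨g y, h1 _ _ hy⟩⟩, fun s => rfl⟩
  have hψi : Function.Injective ψ := by
    intro s s' hs
    apply Subtype.ext
    apply hφ
    rw [← hψ, ← hψ, hs]
  have hfw : ∀ s, ∃ s', ψ s' = σ (ψ s) := by
    rintro ⟨s, y, hy⟩
    have h4 : sy₂ (σ (ψ ⟨s, y, hy⟩)).1 = Sum.inr (g y) := by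
      rw [hσ1, hψ]
      exact h1 _ _ hy
    obtain ⟨s', h5, h6⟩ := h2 _ _ h4
    refine ⟨⟨s', y, h6⟩, Subtype.ext ?_⟩
    rw [hψ]
    exact h5
  have hbw : ∀ s, ∃ s', ψ s' = σ.symm (ψ s) := by
    rintro ⟨s, y, hy⟩
    have h4 : sy₂ (σ.symm (ψ ⟨s, y, hy⟩)).1 = Sum.inr (g y) := by
      rw [← hσ1, Equiv.apply_symm_apply, hψ]
      exact h1 _ _ hy
    obtain ⟨s', h5, h6⟩ := h2 _ _ h4
    refine ⟨⟨s', y, h6⟩, Subtype.ext ?_⟩
    rw [hψ]
    exact h5
  choose F hF using hfw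
  choose G hG using hbw
  let τ : Equiv.Perm {s // ∃ y, sy₁ s = Sum.inr y} :=
    { toFun := F
      invFun := G
      left_inv := by
        intro s
        apply hψi
        rw [hG, hF, Equiv.symm_apply_apply]
      right_inv := by
        intro s
        apply hψi
        rw [hF, hG, Equiv.apply_symm_apply] }
  have hτ : ∀ s, ψ (τ s) = σ (ψ s) := hF
  have hval : ∀ s, φ (τ s).1 = (σ (ψ s)).1 := by
    intro s
    rw [← hψ, hτ]
  refine ⟨τ, ?_, ?_, ?_⟩
  · rintro ⟨s, y, hy⟩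
    have h4 : sy₂ (σ (ψ ⟨s, y, hy⟩)).1 = Sum.inr (g y) := by
      rw [hσ1, hψ]
      exact h1 _ _ hy
    obtain ⟨s', h5, h6⟩ := h2 _ _ h4
    have h7 : (τ ⟨s, y, hy⟩).1 = s' := hφ ((hval _).trans h5.symm)
    rw [h7, h6]
    exact hy.symm
  · rintro ⟨s, y, hy⟩ ⟨s', y', hy'⟩ h4
    have h4' : sy₁ s = sy₁ s' := h4
    rw [hy, hy'] at h4'
    have h5 : y = y' := Sum.inr.inj h4'
    have h6 : sy₂ (ψ ⟨s, y, hy⟩).1 = sy₂ (ψ ⟨s', y', hy'⟩).1 := by
      rw [hψ, hψ, h1 _ _ hy, h1 _ _ hy', h5]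
    obtain ⟨i, hi⟩ := hσ2 _ _ h6
    refine ⟨i, hψi ?_⟩
    rw [odef_zpow hτ]
    exact hi
  · rintro ⟨s, y', hy'⟩ y hy
    apply h3
    have h4 := hσ3 (ψ ⟨s, y', hy'⟩) (g y) (by rw [hψ]; exact h1 _ _ hy)
    rw [hψ, ← hval] at h4
    exact h4

theorem OF.mono {Rs Rs' Rc Rc' : (X → Ω) → Prop} (h : OF k sX Rs Rc) (h1 : ∀ c, Rs c → Rs' c)
    (h2 : ∀ c, Rc' c → Rc c) : OF k sX Rs' Rc' := by
  obtain ⟨Y, B, S, fY, fB, fS, tY, spY, E, hE⟩ := h
  exact ⟨Y, B, S, fY, fB, fS, tY, spY, E, hE.inj, hE.nrev, hE.ty, hE.spc,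
    fun a b h3 h4 h5 => ⟨(hE.sound a b h3 h4 h5).1, fun c hc => h1 c ((hE.sound a b h3 h4 h5).2 c hc)⟩,
    fun c hc => hE.comp c (h2 c hc)⟩

theorem OF.all {ι : Type} [Finite ι] {Rs Rc : ι → (X → Ω) → Prop}
    (h : ∀ i, OF k sX (Rs i) (Rc i)) : OF k sX (fun c => ∀ i, Rs i c) (fun c => ∀ i, Rc i c) := by
  choose Y B S fY fB fS tY spY E h1 using h
  obtain ⟨E', hE'⟩ : ∃ E' : OSys k X (Σ i, Y i) (Σ i, S i) (Σ i, B i),
      E' = ⟨fun s => ⟨s.1, (E s.1).pc s.2⟩, fun s => (E s.1).dt s.2,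
        fun s => Sum.map id (Sigma.mk s.1) ((E s.1).sy s.2)⟩ := ⟨_, rfl⟩
  have hdt : ∀ i s, E'.dt ⟨i, s⟩ = (E i).dt s := by
    intro i s
    rw [hE']
  have hpc : ∀ i s, E'.pc ⟨i, s⟩ = ⟨i, (E i).pc s⟩ := by
    intro i s
    rw [hE']
  have hsy0 : ∀ i s, E'.sy ⟨i, s⟩ = Sum.map id (Sigma.mk i) ((E i).sy s) := by
    intro i s
    rw [hE']
  have hinl : ∀ i s x, E'.sy ⟨i, s⟩ = Sum.inl x ↔ (E i).sy s = Sum.inl x := by
    intro i s x
    rw [hsy0]
    cases (E i).sy s with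
    | inl x' => simp
    | inr y => simp
  have hinr : ∀ i s y, (E i).sy s = Sum.inr y → E'.sy ⟨i, s⟩ = Sum.inr ⟨i, y⟩ := by
    intro i s y hy
    rw [hsy0, hy]
    rfl
  have hsy : ∀ (C : Type) (v : X → C) (y : (Σ i, Y i) → C) (i : ι) (a : S i),
      Sum.elim v y (E'.sy ⟨i, a⟩) = Sum.elim v (fun q => y ⟨i, q⟩) ((E i).sy a) := by
    intro C v y i a
    rw [hsy0]
    exact odef_map v y i _
  have hcut : ∀ i b, {δ | ∃ s, E'.pc s = ⟨i, b⟩ ∧ E'.dt s = δ} =
      {δ | ∃ s, (E i).pc s = b ∧ (E i).dt s = δ} := by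
    intro i b
    rw [hE']
    ext δ
    constructor
    · rintro ⟨⟨j, a⟩, h6, h7⟩
      have hij : j = i := congrArg Sigma.fst h6
      subst hij
      exact ⟨a, eq_of_heq (Sigma.mk.inj h6).2, h7⟩
    · rintro ⟨a, h6, h7⟩
      refine ⟨⟨i, a⟩, ?_, h7⟩
      show (⟨i, (E i).pc a⟩ : Σ i, B i) = ⟨i, b⟩
      rw [h6]
  refine ⟨Σ i, Y i, Σ i, B i, Σ i, S i, inferInstance, inferInstance, inferInstance,
    fun q => tY q.1 q.2, fun q => spY q.1 q.2, E', ⟨?_, ?_, ?_, ?_, ?_, ?_⟩⟩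
  · rintro ⟨i, a⟩ ⟨j, b⟩ h5 h6
    rw [hE'] at h5 h6
    have hij : i = j := congrArg Sigma.fst h5
    subst hij
    have h7 : (E i).pc a = (E i).pc b := eq_of_heq (Sigma.mk.inj h5).2
    rw [(h1 i).inj a b h7 h6]
  · rintro ⟨i, a⟩ ⟨j, b⟩ h5
    rw [hE'] at h5 ⊢
    have hij : i = j := congrArg Sigma.fst h5
    subst hij
    have h7 : (E i).pc a = (E i).pc b := eq_of_heq (Sigma.mk.inj h5).2
    exact (h1 i).nrev a b h7
  · rintro ⟨i, a⟩
    rw [hsy T _ (fun q => tY q.1 q.2) i a, hdt]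
    exact (h1 i).ty a
  · rintro ⟨i, a⟩ f e hf
    rw [hsy _ _ (fun q : (Σ i, Y i) => spY q.1 q.2) i a, hdt]
    rw [hdt] at hf
    exact (h1 i).spc a f e hf
  · intro a b h3 h4 h5
    have key := fun i => (h1 i).sound (fun s => a ⟨i, s⟩) (fun s => b ⟨i, s⟩)
      (fun s x hs => h3 ⟨i, s⟩ x ((hinl i s x).2 hs))
      (odef_cyc (sy₂ := E'.sy) (Sigma.mk i) (Sigma.mk i) sigma_mk_injective (fun s y hy => hinr i s y hy)
        (by
          rintro ⟨j, s⟩ y hy
          rw [hsy0] at hy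
          cases hc : (E j).sy s with
          | inl x =>
            rw [hc] at hy
            exact absurd hy (by simp)
          | inr y' =>
            rw [hc] at hy
            have h6 : (⟨j, y'⟩ : Σ i, Y i) = ⟨i, y⟩ := Sum.inr.inj hy
            have hij : j = i := congrArg Sigma.fst h6
            subst hij
            have h7 : y' = y := eq_of_heq (Sigma.mk.inj h6).2
            subst h7
            exact ⟨s, rfl, hc⟩)
        (fun y α β hαβ => hαβ) h4)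
      (by
        intro p
        obtain ⟨f, e, hf, hs⟩ := h5 ⟨i, p⟩
        rw [hcut] at hf
        refine ⟨f, e, hf, fun s hsp => ?_⟩
        have h6 := hs ⟨i, s⟩ (by rw [hpc, hsp])
        rw [hdt] at h6
        exact h6)
    refine ⟨?_, ?_⟩
    · rintro ⟨i, s⟩ x hs
      exact (key i).1 s x ((hinl i s x).1 hs)
    · intro c hc i
      exact (key i).2 c fun s x hs => hc ⟨i, s⟩ x ((hinl i s x).2 hs)
  · intro c hc
    choose y hy using fun i => (h1 i).comp c (hc i)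
    refine ⟨fun q => y q.1 q.2, ?_⟩
    rintro ⟨i, b⟩
    obtain ⟨f, e, he, hs⟩ := hy i b
    refine ⟨f, e, he, ?_⟩
    rintro ⟨j, a⟩ h5
    rw [hpc] at h5
    have hij : j = i := congrArg Sigma.fst h5
    subst hij
    rw [hdt, hsy (V × V) _ (fun q => y q.1 q.2) j a]
    exact hs a (eq_of_heq (Sigma.mk.inj h5).2)

theorem OF.and {Rs Rs' Rc Rc' : (X → Ω) → Prop} (h : OF k sX Rs Rc) (h' : OF k sX Rs' Rc') :
    OF k sX (fun c => Rs c ∧ Rs' c) (fun c => Rc c ∧ Rc' c) := by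
  have h1 : OF k sX (fun c => ∀ b : Bool, (fun b => cond b Rs Rs') b c)
      (fun c => ∀ b : Bool, (fun b => cond b Rc Rc') b c) := by
    apply OF.all
    intro b
    cases b
    · exact h'
    · exact h
  refine h1.mono (fun c hc => ⟨hc true, hc false⟩) ?_
  rintro c ⟨h2, h3⟩ b
  cases b
  · exact h3
  · exact h2

theorem OF.comap {X' : Type} {sX' : X' → Srt V T Ω} {Rs Rc : (X → Ω) → Prop}
    (h : OF k sX Rs Rc) (ρ : X → X') (hρ : ∀ x, sX x = sX' (ρ x)) :
    OF k sX' (fun c => Rs (c ∘ ρ)) (fun c => Rc (c ∘ ρ)) := by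
  obtain ⟨Y, B, S, fY, fB, fS, tY, spY, E, hE⟩ := h
  have hinl : ∀ s x, E.sy s = Sum.inl x → Sum.map ρ id (E.sy s) = (Sum.inl (ρ x) : X' ⊕ Y) := by
    intro s x hs
    rw [hs]
    rfl
  have hinl' : ∀ s x', Sum.map ρ id (E.sy s) = (Sum.inl x' : X' ⊕ Y) →
      ∃ x, E.sy s = Sum.inl x ∧ ρ x = x' := by
    intro s x' hs
    cases hc : E.sy s with
    | inl x =>
      rw [hc] at hs
      exact ⟨x, rfl, Sum.inl.inj hs⟩
    | inr y =>
      rw [hc] at hs
      exact absurd hs (by simp)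
  have hinr : ∀ s y, E.sy s = Sum.inr y ↔ Sum.map ρ id (E.sy s) = (Sum.inr y : X' ⊕ Y) := by
    intro s y
    cases E.sy s with
    | inl x => simp
    | inr y => simp
  have hel : ∀ (C : Type) (u : X → C) (u' : X' → C) (w : Y → C) (hu : ∀ x, u' (ρ x) = u x) (s : S),
      Sum.elim u' w (Sum.map ρ id (E.sy s)) = Sum.elim u w (E.sy s) := by
    intro C u u' w hu s
    cases E.sy s with
    | inl x => exact hu x
    | inr y => rfl
  refine ⟨Y, B, S, fY, fB, fS, tY, spY, ⟨E.pc, E.dt, fun s => Sum.map ρ id (E.sy s)⟩,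
    ⟨hE.inj, hE.nrev, ?_, ?_, ?_, ?_⟩⟩
  · intro s
    refine (hE.ty s).trans (hel _ _ _ _ ?_ s).symm
    intro x
    rw [hρ]
  · intro s f e hf
    have h1 := hE.spc s f e hf
    rw [← hel _ (fun x => (sX x).sp) (fun x => (sX' x).sp) spY (fun x => by rw [hρ]) s] at h1
    exact h1
  · intro a b h3 h4 h5
    have key := hE.sound a b
      (by
        intro s x hs
        have h6 := h3 s (ρ x) (hinl s x hs)
        rw [← hρ] at h6
        exact h6)
      (odef_cyc (fun s => s) (fun y => y) (fun _ _ hs => hs) (fun s y hy => (hinr s y).1 hy)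
        (fun s y hy => ⟨s, rfl, (hinr s y).2 hy⟩) (fun y α β hαβ => hαβ) h4) h5
    refine ⟨?_, ?_⟩
    · intro s x' hs
      obtain ⟨x, hx, rfl⟩ := hinl' s x' hs
      rw [← hρ]
      exact key.1 s x hx
    · intro c hc
      refine key.2 (c ∘ ρ) fun s x hs => ?_
      have h6 := hc s (ρ x) (hinl s x hs)
      rw [← hρ] at h6
      exact h6
  · intro c hc
    obtain ⟨y, hy⟩ := hE.comp (c ∘ ρ) hc
    refine ⟨y, fun p => ?_⟩
    obtain ⟨f, e, he, hs⟩ := hy p
    refine ⟨f, e, he, fun s hsp => ?_⟩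
    refine (hs s hsp).trans (hel _ _ _ _ ?_ s).symm
    intro x
    show (sX' (ρ x)).fv (c (ρ x)) = (sX x).fv ((c ∘ ρ) x)
    rw [hρ]
    rfl

theorem OF.ex {X₁ : Type} [Finite X₁] [Nonempty Ω] {s₁ : X₁ → Srt V T Ω}
    {Rs Rc : (X ⊕ X₁ → Ω) → Prop} (h : OF k (Sum.elim sX s₁) Rs Rc) :
    OF k sX (fun c => ∃ u : X₁ → Ω, Rs (Sum.elim c u)) (fun c => ∃ u : X₁ → Ω, Rc (Sum.elim c u)) := by
  obtain ⟨Y, B, S, fY, fB, fS, tY, spY, E, hE⟩ := h
  obtain ⟨g, hg⟩ : ∃ g : (X ⊕ X₁) ⊕ Y → X ⊕ (X₁ ⊕ Y), g = Equiv.sumAssoc X X₁ Y := ⟨_, rfl⟩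
  have hgi : Function.Injective g := by
    rw [hg]
    exact (Equiv.sumAssoc X X₁ Y).injective
  have hg1 : ∀ x, g (Sum.inl (Sum.inl x)) = Sum.inl x := by
    intro x
    rw [hg]
    rfl
  have hg2 : ∀ x, g (Sum.inl (Sum.inr x)) = Sum.inr (Sum.inl x) := by
    intro x
    rw [hg]
    rfl
  have hg3 : ∀ y, g (Sum.inr y) = Sum.inr (Sum.inr y) := by
    intro x
    rw [hg]
    rfl
  have hel : ∀ (C : Type) (v : X → C) (u : X₁ → C) (w : (X ⊕ X₁) → C) (y : Y → C)
      (z : (X ⊕ X₁) ⊕ Y), (∀ x, w (Sum.inl x) = v x) → (∀ x, w (Sum.inr x) = u x) →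
      Sum.elim v (Sum.elim u y) (g z) = Sum.elim w y z := by
    intro C v u w y z h1 h2
    rw [hg]
    rcases z with (z | z) | z
    · exact (h1 z).symm
    · exact (h2 z).symm
    · rfl
  refine ⟨X₁ ⊕ Y, B, S, inferInstance, fB, fS, Sum.elim (fun x => (s₁ x).t) tY,
    Sum.elim (fun x => (s₁ x).sp) spY, ⟨E.pc, E.dt, fun s => g (E.sy s)⟩,
    ⟨hE.inj, hE.nrev, ?_, ?_, ?_, ?_⟩⟩
  · intro s
    exact (hE.ty s).trans (hel _ _ _ _ _ _ (fun x => rfl) (fun x => rfl)).symm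
  · intro s f e hf
    have h1 := hE.spc s f e hf
    rw [← hel _ (fun x => (sX x).sp) (fun x => (s₁ x).sp) (fun x => (Sum.elim sX s₁ x).sp) spY _
      (fun x => rfl) (fun x => rfl)] at h1
    exact h1
  · intro a b h3 h4 h5
    obtain ⟨σ, hσ1, hσ2, hσ3⟩ := id h4
    have hx1 : ∀ s x, E.sy s = Sum.inl (Sum.inr x) → g (E.sy s) = Sum.inr (Sum.inl x) := by
      intro s x hs
      rw [hs]
      exact hg2 x
    have key := hE.sound a b
      (by
        rintro s (x | x) hs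
        · exact h3 s x (by
            show g (E.sy s) = _
            rw [hs, hg1])
        · have h6 := hx1 s x hs
          refine ⟨⟨b (σ ⟨s, _, h6⟩).1, hσ3 ⟨s, _, h6⟩ _ h6⟩, ?_⟩
          have h7 : g (E.sy (σ.symm ⟨s, _, h6⟩).1) = Sum.inr (Sum.inl x) := by
            have h8 := hσ1 (σ.symm ⟨s, _, h6⟩)
            rw [Equiv.apply_symm_apply] at h8
            exact h8.symm.trans h6
          have h9 := hσ3 (σ.symm ⟨s, _, h6⟩) _ h7
          rw [Equiv.apply_symm_apply] at h9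
          exact ⟨_, h9⟩)
      (odef_cyc (fun s => s) Sum.inr (fun _ _ hs => hs) (fun s y hy => by
          show g (E.sy s) = _
          rw [hy, hg3])
        (fun s y hy => ⟨s, rfl, hgi (hy.trans (hg3 y).symm)⟩) (fun y α β hαβ => hαβ) h4) h5
    refine ⟨?_, ?_⟩
    · intro s x hs
      have h6 : E.sy s = Sum.inl (Sum.inl x) := hgi (hs.trans (hg1 x).symm)
      exact key.1 s (Sum.inl x) h6
    · intro c hc
      have hstep : ∀ (s : {s // ∃ y, g (E.sy s) = Sum.inr y}) (x : X₁),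
          g (E.sy s.1) = Sum.inr (Sum.inl x) → (s₁ x).ob (a (σ s).1) = (s₁ x).ob (a s.1) := by
        intro s x hs
        have h6 := (s₁ x).hob _ _ (hσ3 s (Sum.inl x) hs)
        have h7 : g (E.sy (σ s).1) = Sum.inr (Sum.inl x) := (hσ1 s).trans hs
        have h8 : E.sy (σ s).1 = Sum.inl (Sum.inr x) := hgi (h7.trans (hg2 x).symm)
        exact (key.1 _ (Sum.inr x) h8).trans h6
      have hpow : ∀ (n : ℕ) (s : {s // ∃ y, g (E.sy s) = Sum.inr y}) (x : X₁),
          g (E.sy s.1) = Sum.inr (Sum.inl x) →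
          g (E.sy ((σ ^ n) s).1) = Sum.inr (Sum.inl x) ∧
            (s₁ x).ob (a ((σ ^ n) s).1) = (s₁ x).ob (a s.1) := by
        intro n
        induction n with
        | zero => intro s x hs; exact ⟨hs, rfl⟩
        | succ n ih =>
          intro s x hs
          obtain ⟨h6, h7⟩ := ih s x hs
          rw [pow_succ', Equiv.Perm.mul_apply]
          exact ⟨(hσ1 _).trans h6, (hstep _ x h6).trans h7⟩
      have hcon : ∀ (s s' : S) (x : X₁), E.sy s = Sum.inl (Sum.inr x) →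
          E.sy s' = Sum.inl (Sum.inr x) → (s₁ x).ob (a s) = (s₁ x).ob (a s') := by
        intro s s' x hs hs'
        have h6 := hx1 s x hs
        have h6' := hx1 s' x hs'
        have h7 : σ.SameCycle ⟨s, _, h6⟩ ⟨s', _, h6'⟩ := hσ2 _ _ (h6.trans h6'.symm)
        obtain ⟨i, hi⟩ := h7
        obtain ⟨n, rfl | rfl⟩ := Int.eq_nat_or_neg i
        · rw [zpow_natCast] at hi
          have h8 := (hpow n ⟨s, _, h6⟩ x h6).2
          rw [hi] at h8
          exact h8.symm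
        · rw [zpow_neg, zpow_natCast, Equiv.Perm.inv_eq_iff_eq] at hi
          have h8 := (hpow n ⟨s', _, h6'⟩ x h6').2
          rw [← hi] at h8
          exact h8
      have hu : ∀ x, ∃ u, ∀ s, E.sy s = Sum.inl (Sum.inr x) → (s₁ x).ob (a s) = u := by
        intro x
        by_cases hex : ∃ s, E.sy s = Sum.inl (Sum.inr x)
        · obtain ⟨s, hs⟩ := hex
          exact ⟨(s₁ x).ob (a s), fun s' hs' => hcon s' s x hs' hs⟩
        · exact ⟨Classical.arbitrary Ω, fun s hs => absurd ⟨s, hs⟩ hex⟩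
      choose u hu using hu
      refine ⟨u, key.2 _ ?_⟩
      rintro s (x | x) hs
      · exact hc s x (by
          show g (E.sy s) = _
          rw [hs, hg1])
      · exact hu x s hs
  · rintro c ⟨u, hu⟩
    obtain ⟨y, hy⟩ := hE.comp _ hu
    refine ⟨Sum.elim (fun x => (s₁ x).fv (u x)) y, fun p => ?_⟩
    obtain ⟨f, e, he, hs⟩ := hy p
    refine ⟨f, e, he, fun s hsp => ?_⟩
    exact (hs s hsp).trans (hel _ _ _ _ _ _ (fun x => rfl) (fun x => rfl)).symm

theorem odef_two {A : Type} {P : A → A → Prop} {α α' β β' : A} (h1 : α = α') (h2 : β = β')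
    (h : P α' β') : P α β := by
  subst h1 h2
  exact h

/-- the sort for the coarser types -/
def Srt.tr {T' : Type} (ρ : T' → T) (s : Srt V T' Ω) : Srt V T Ω where
  t := ρ s.t
  sp := s.sp
  ob := s.ob
  fv := s.fv
  hob := s.hob

theorem OF.tr [Finite D] {T' : Type} {L' : LS V D T' K} {ρ : T' → T} (h : Rf L L' ρ) {k : Kt L'}
    {sX : X → Srt V T' Ω} {Rs Rc : (X → Ω) → Prop} (h' : OF k sX Rs Rc) :
    OF (Kt.tr h k) (fun x => (sX x).tr ρ) Rs Rc := by
  obtain ⟨Y, B, S, fY, fB, fS, tY, spY, E, hE⟩ := h'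
  have hrv : ∀ δ, (Kt.tr h k).net.rv δ = k.net.rv δ := by
    intro δ
    show (L.rv δ.1, k.R δ.1 δ.2) = (L'.rv δ.1, k.R δ.1 δ.2)
    rw [h.rv]
  have htl : ∀ δ, (Kt.tr h k).net.tl δ = k.net.tl δ := by
    intro δ
    show (L.tl δ.1, δ.2) = (L'.tl δ.1, δ.2)
    rw [h.tl]
  have het : ∀ (f : V × k.Q → V) (e : D × k.Q → V) (δ : D × k.Q),
      evt (Kt.tr h k).net f e δ = evt k.net f e δ := by
    intro f e δ
    exact congrArg₂ Prod.mk (congrArg f (htl δ)) rfl
  have heh : ∀ (f : V × k.Q → V) (e : D × k.Q → V) (δ : D × k.Q),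
      evh (Kt.tr h k).net f e δ = evh k.net f e δ := by
    intro f e δ
    exact congrArg₂ Prod.mk (congrArg e (hrv δ)) (congrArg f (refi_nhd h k δ).symm)
  refine ⟨Y, B, S, fY, fB, fS, fun y => ρ (tY y), spY, ⟨E.pc, E.dt, E.sy⟩,
    ⟨hE.inj, ?_, ?_, ?_, ?_, ?_⟩⟩
  · intro s s' h1
    rw [hrv]
    exact hE.nrev s s' h1
  · intro s
    show L.ty (E.dt s).1 = Sum.elim (fun x => ρ (sX x).t) (fun y => ρ (tY y)) (E.sy s)
    rw [h.ty, hE.ty s]
    cases E.sy s with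
    | inl x => rfl
    | inr y => rfl
  · intro s f e hf
    exact odef_two (P := Sum.elim (fun x => (sX x).sp) spY (E.sy s)) (het f e (E.dt s))
      (heh f e (E.dt s)) (hE.spc s f e ((el_tr h k).1 hf))
  · intro a b h3 h4 h5
    refine hE.sound a b h3 h4 ?_
    intro p
    obtain ⟨f, e, hf, hs⟩ := h5 p
    exact ⟨f, e, (el_tr h k).1 hf, fun s hsp => ⟨(het f e _).symm.trans (hs s hsp).1,
      (heh f e _).symm.trans (hs s hsp).2⟩⟩
  · intro c hc
    obtain ⟨y, hy⟩ := hE.comp c hc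
    refine ⟨y, fun p => ?_⟩
    obtain ⟨f, e, hf, hs⟩ := hy p
    exact ⟨f, e, (el_tr h k).2 hf, fun s hsp => (het f e _).trans (hs s hsp)⟩

end Pool.Agent.H24.GH
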