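import Pool.Agent.H24.GH.ODef
import Pool.Agent.H24.GG.ERed

/-!
# JOB GH-2: the reduction for an observed relation

Let `OF` give `Y, B, S, tY, spY, E`. The pattern (`DPat`): `Pc = B`, `Sl = S`, auxiliary variables `Y`, `pc, dt, sy` those of `E`
(`DPat.OK` by `inj`, `nrev`). `Rd` from `grt`. For a list `E'` the occurrences are `o = (k, s)`; two occurrences with the same
variable have the same sort (hub variables by the hypothesis; auxiliary variables: the same copy `k` and the same `y`), so the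
same type.
(⇒) `ESat` gives labellings `F, E`; let `a o = evt` at `dt o` in the piece `pc o`, `b o = evh` there; by the compatibility
conditions the spacer `o` has the values `evh = a o`, `evt = b (sg o)`. By `spc` `sp (b (sg o)) (a o)` for the sort of the
variable of `o`. For a copy `k` let `aS s = a (k, s)`, `bS s = b (k, s)`. `PCond`: the pieces `(k, p)` (the set of the cut darts is the
same). The first condition of `sound`: `sp (b (sg o)) (a o)`, and `sp (b o) (a (sg⁻¹ o))` (the sorts of `o`, `sg⁻¹ o` are equal).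
`Cyc`: the occurrences of an auxiliary variable `(k, y)` are all in the copy `k`, so `sg` restricts to a permutation of
`{s // ∃ y, sy s = inr y}` (`(sg (k, s)).1 = k`); `SameCycle` by the property of `sg` (powers of the restriction).
So `ob (a o) = ob (b o)` for all hub occurrences; with `hob`: `ob (a (sg o)) = ob (b (sg o)) = ob (a o)`, so `ob (a o)` only depends
on the variable of `o` (`SameCycle`); let `v` be this value for `v : α` (arbitrary if `v` does not occur). `sound` for the
copy `k` gives `Rs` for the `k`-th element of `E'` (every `e ∈ E'` is `E'.get k`).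
(⇐) `comp` for every copy gives `y` and labellings of the pieces without cuts. Let `val o` be the value of the variable of `o`:
`fv (a v)` (with the sort of the occurrence, it is the same for all occurrences of `v`) for hub variables, `y k z` for
auxiliary ones. The piece `pc o` has `evt = evh = val o` (no cuts: `EL.unc`); for the spacer `o` take the labelling of the piece
`pc o` (with the same values at `dt o`). A labelling without cuts is a labelling with cuts. This gives `ESat`: as the second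
part of the proof of `ecore` (file `Pool.Agent.H24.GG.ERed`); `val (sg o) = val o`.
-/

namespace Pool.Agent.H24.GH

open Pool.Agent.H24.GC Pool.Agent.H24.GD Pool.Agent.H24.GE Pool.Agent.H24.GG Pool.Agent.PPS
  Pool.Agent.H64.Cook Pool.Agent.H79.Thr

section ORed

variable {V D T K : Type} {L : LS V D T K} {h : ℕ} {k : Kt L}

/-- the pattern -/
def oPat {S B Y : Type} [Finite S] [Finite B] [Finite Y] (E : OSys k (Fin h) Y S B) :
    DPat h k where
  Pc := B
  Sl := S
  Y := Y
  pc := E.pc
  dt := E.dt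
  sy := E.sy
  finP := inferInstance
  finS := inferInstance
  finY := inferInstance

theorem ored_eq {α : Type} [Inhabited α] {p : DPat h k} {Ω C : Type} {sX : Fin h → Srt V T Ω}
    (E : List (List α))
    (hE : ∀ e ∈ E, ∀ e' ∈ E, ∀ j j' : Fin h,
      e.getD (j : ℕ) default = e'.getD (j' : ℕ) default → sX j = sX j')
    (Φ : Srt V T Ω → α → C) (u : Fin E.length → p.Y → C)
    (o o' : Fin E.length × p.Sl) (ho : p.var E o = p.var E o') :
    Sum.elim (fun x : Fin h => Φ (sX x) ((E.get o.1).getD (x : ℕ) default)) (u o.1) (p.sy o.2) =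
    Sum.elim (fun x : Fin h => Φ (sX x) ((E.get o'.1).getD (x : ℕ) default)) (u o'.1)
      (p.sy o'.2) := by
  rcases hs : p.sy o.2 with j | y <;> rcases hs' : p.sy o'.2 with j' | y'
  · rw [ered_var_inl p E o hs, ered_var_inl p E o' hs'] at ho
    have h1 := Sum.inl.inj ho
    have h2 := hE _ (List.get_mem E o.1) _ (List.get_mem E o'.1) j j' h1
    show Φ (sX j) ((E.get o.1).getD (j : ℕ) default) =
      Φ (sX j') ((E.get o'.1).getD (j' : ℕ) default)
    rw [h1, h2]
  · rw [ered_var_inl p E o hs, ered_var_inr p E o' hs'] at ho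
    exact absurd ho (by simp)
  · rw [ered_var_inr p E o hs, ered_var_inl p E o' hs'] at ho
    exact absurd ho (by simp)
  · rw [ered_var_inr p E o hs, ered_var_inr p E o' hs'] at ho
    obtain ⟨h1, h2⟩ := Prod.ext_iff.1 (Sum.inr.inj ho)
    dsimp only at h1 h2
    show u o.1 y = u o'.1 y'
    rw [h1, h2]

variable {S B Y Ω : Type} [Finite S] [Finite B] [Finite Y] {sX : Fin h → Srt V T Ω} {tY : Y → T}
  {spY : Y → V × V → V × V → Prop} {Rs Rc : (Fin h → Ω) → Prop} {E : OSys k (Fin h) Y S B}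

theorem ored_cut {α : Type} (E' : List (List α)) (sg : Equiv.Perm (Fin E'.length × (oPat E).Sl))
    (i : Fin E'.length) (c : B) :
    {δ | ∃ o : ((oPat E).inst E' sg).O, ((oPat E).inst E' sg).pc o = (i, c) ∧
      ((oPat E).inst E' sg).dt o = δ} = {δ | ∃ s, E.pc s = c ∧ E.dt s = δ} := by
  ext δ
  constructor
  · rintro ⟨o, h4, h5⟩
    exact ⟨o.2, congrArg Prod.snd h4, h5⟩
  · rintro ⟨s, h4, h5⟩
    refine ⟨(i, s), ?_, h5⟩
    show (i, E.pc s) = (i, c)
    rw [h4]

theorem ored_fwd [Nonempty Ω] (hE : E.OK sX tY spY Rs Rc) {α : Type} [Inhabited α]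
    (E' : List (List α))
    (hs : ∀ e ∈ E', ∀ e' ∈ E', ∀ j j' : Fin h,
      e.getD (j : ℕ) default = e'.getD (j' : ℕ) default → sX j = sX j')
    (sg : Equiv.Perm (Fin E'.length × (oPat E).Sl))
    (h1 : ∀ o, (oPat E).var E' (sg o) = (oPat E).var E' o)
    (h2 : ∀ o o', (oPat E).var E' o = (oPat E).var E' o' → sg.SameCycle o o')
    (hS : ESat ((oPat E).inst E' sg)) :
    ∃ a : α → Ω, ∀ e ∈ E', Rs (fun j => a (e.getD (j : ℕ) default)) := by
  classical
  obtain ⟨F, G, hP, hO, c1, c2⟩ := hS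
  obtain ⟨ω⟩ := (inferInstance : Nonempty Ω)
  obtain ⟨a, ha⟩ : ∃ a : Fin E'.length × S → V × V, ∀ o, a o =
      evt k.net (F (Sum.inl (o.1, E.pc o.2))) (G (Sum.inl (o.1, E.pc o.2))) (E.dt o.2) :=
    ⟨_, fun _ => rfl⟩
  obtain ⟨b, hb⟩ : ∃ b : Fin E'.length × S → V × V, ∀ o, b o =
      evh k.net (F (Sum.inl (o.1, E.pc o.2))) (G (Sum.inl (o.1, E.pc o.2))) (E.dt o.2) :=
    ⟨_, fun _ => rfl⟩
  obtain ⟨spz, hspz⟩ : ∃ spz : Fin h ⊕ Y → V × V → V × V → Prop,
      spz = Sum.elim (fun x => (sX x).sp) spY := ⟨_, rfl⟩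
  obtain ⟨obz, hobz⟩ : ∃ obz : Fin h ⊕ Y → V × V → Ω,
      obz = Sum.elim (fun x => (sX x).ob) (fun _ _ => ω) := ⟨_, rfl⟩
  -- the sorts of occurrences of the same variable agree
  have hspe : ∀ o o' : Fin E'.length × S, (oPat E).var E' o = (oPat E).var E' o' →
      spz (E.sy o.2) = spz (E.sy o'.2) := by
    intro o o' ho
    rw [hspz]
    exact ored_eq (p := oPat E) E' hs (fun s _ => s.sp) (fun _ => spY) o o' ho
  have hobe : ∀ o o' : Fin E'.length × S, (oPat E).var E' o = (oPat E).var E' o' →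
      obz (E.sy o.2) = obz (E.sy o'.2) := by
    intro o o' ho
    rw [hobz]
    exact ored_eq (p := oPat E) E' hs (fun s _ => s.ob) (fun _ _ _ => ω) o o' ho
  have hob : ∀ z β γ, spz z β γ → obz z β = obz z γ := by
    rintro (x | y) β γ h3
    · rw [hspz] at h3
      rw [hobz]
      exact (sX x).hob β γ h3
    · rw [hobz]
      rfl
  have hsp : ∀ o : Fin E'.length × S, spz (E.sy o.2) (b (sg o)) (a o) := by
    intro o
    have h3 := hE.spc o.2 _ _ (hO o)
    have e1 := (c2 o).trans (hb (sg o)).symm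
    have e2 := (c1 o).symm.trans (ha o).symm
    rw [hspz]
    exact e1 ▸ e2 ▸ h3
  have hbig : Cyc ((oPat E).var E') (fun q : Fin E'.length × Y => spY q.2) a b := by
    have hp : ∀ o, (∃ y, (oPat E).var E' (sg o) = Sum.inr y) ↔
        ∃ y, (oPat E).var E' o = Sum.inr y := by
      intro o
      rw [h1]
    refine ⟨sg.subtypePerm hp, fun o => h1 o.1, fun o o' ho => ?_, fun o y hy => ?_⟩
    · exact Equiv.Perm.sameCycle_subtypePerm.2 (h2 o.1 o'.1 ho)
    · have h3 := hsp o.1
      rcases hsy : E.sy o.1.2 with x | y'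
      · rw [ered_var_inl (oPat E) E' o.1 hsy] at hy
        exact absurd hy (by simp)
      · rw [ered_var_inr (oPat E) E' o.1 hsy] at hy
        have h4 : (o.1.1, y') = y := Sum.inr.inj hy
        rw [hsy, hspz] at h3
        rw [← h4]
        exact h3
  have key := fun i : Fin E'.length => hE.sound (fun s => a (i, s)) (fun s => b (i, s))
    (by
      intro s x hx
      have h3 := hsp (i, s)
      have h4 := hsp (sg.symm (i, s))
      rw [Equiv.apply_symm_apply] at h4
      have h5 : (oPat E).var E' (sg.symm (i, s)) = (oPat E).var E' (i, s) := by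
        have h6 := h1 (sg.symm (i, s))
        rw [Equiv.apply_symm_apply] at h6
        exact h6.symm
      rw [hspe _ _ h5] at h4
      have h7 : spz (E.sy (i, s).2) = (sX x).sp := by
        show spz (E.sy s) = (sX x).sp
        rw [hx, hspz]
        rfl
      rw [h7] at h3 h4
      exact ⟨⟨_, h3⟩, ⟨_, h4⟩⟩)
    (odef_cyc (sy₂ := (oPat E).var E') (fun s => (i, s)) (fun y => (i, y))
      (fun s s' hss => (Prod.ext_iff.1 hss).2)
      (fun s y hy => ered_var_inr (oPat E) E' (i, s) hy)
      (by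
        rintro o y hy
        rcases hsy : E.sy o.2 with x | y'
        · rw [ered_var_inl (oPat E) E' o hsy] at hy
          exact absurd hy (by simp)
        · rw [ered_var_inr (oPat E) E' o hsy] at hy
          obtain ⟨h3, h4⟩ := Prod.ext_iff.1 (Sum.inr.inj hy)
          dsimp only at h3 h4
          exact ⟨o.2, Prod.ext h3.symm rfl, by rw [hsy, h4]⟩)
      (fun y β γ hβ => hβ) hbig)
    (by
      intro c
      have h3 : EL k.net {δ | ∃ s, E.pc s = c ∧ E.dt s = δ} (F (Sum.inl (i, c)))
          (G (Sum.inl (i, c))) := by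
        rw [← ored_cut (E := E) E' sg i c]
        exact hP (i, c)
      refine ⟨_, _, h3, fun s hsc => ?_⟩
      dsimp only
      rw [ha, hb]
      dsimp only
      rw [hsc]
      exact ⟨rfl, rfl⟩)
  have hab : ∀ o : Fin E'.length × S, obz (E.sy o.2) (a o) = obz (E.sy o.2) (b o) := by
    rintro ⟨i, s⟩
    rcases hsy : E.sy s with x | y
    · rw [hobz]
      exact (key i).1 s x hsy
    · rw [hobz]
      rfl
  have hW : ∀ o : Fin E'.length × S, obz (E.sy (sg o).2) (a (sg o)) = obz (E.sy o.2) (a o) := by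
    intro o
    rw [hab (sg o), hobe _ _ (h1 o)]
    exact hob _ _ _ (hsp o)
  have hc : ∀ o o' : Fin E'.length × S, (oPat E).var E' o = (oPat E).var E' o' →
      obz (E.sy o.2) (a o) = obz (E.sy o'.2) (a o') := by
    intro o o' ho
    have hfin : Finite (Fin E'.length × S) := inferInstance
    exact const_of_cycle (D := Fin E'.length × S) (sg := sg)
      (a := fun o => obz (E.sy o.2) (a o)) (good := fun _ => True)
      (fun o _ => hW o) (fun _ _ _ h3 => absurd trivial h3) (h2 o o' ho)
  refine ⟨fun z => if hz : ∃ o : Fin E'.length × S, (oPat E).var E' o = Sum.inl z then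
    obz (E.sy hz.choose.2) (a hz.choose) else ω, fun e he => ?_⟩
  obtain ⟨i, rfl⟩ := List.mem_iff_get.1 he
  refine (key i).2 _ fun s x hx => ?_
  have hv : (oPat E).var E' (i, s) = Sum.inl ((E'.get i).getD (x : ℕ) default) :=
    ered_var_inl (oPat E) E' (i, s) hx
  have hex : ∃ o : Fin E'.length × S, (oPat E).var E' o =
      Sum.inl ((E'.get i).getD (x : ℕ) default) := ⟨(i, s), hv⟩
  dsimp only
  rw [dif_pos hex, hc hex.choose (i, s) (hex.choose_spec.trans hv.symm)]
  show (sX x).ob (a (i, s)) = obz (E.sy s) (a (i, s))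
  rw [hx, hobz]
  rfl

theorem ored_bwd (hE : E.OK sX tY spY Rs Rc) {α : Type} [Inhabited α]
    (E' : List (List α))
    (hs : ∀ e ∈ E', ∀ e' ∈ E', ∀ j j' : Fin h,
      e.getD (j : ℕ) default = e'.getD (j' : ℕ) default → sX j = sX j')
    (sg : Equiv.Perm (Fin E'.length × (oPat E).Sl))
    (h1 : ∀ o, (oPat E).var E' (sg o) = (oPat E).var E' o)
    (hR : ∃ a : α → Ω, ∀ e ∈ E', Rc (fun j => a (e.getD (j : ℕ) default))) :
    ESat ((oPat E).inst E' sg) := by
  obtain ⟨a, ha⟩ := hR
  have h3 := fun i : Fin E'.length => hE.comp _ (ha (E'.get i) (List.get_mem _ _))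
  choose y hy using h3
  choose f e hEL hv using hy
  have hx : ∀ i c δ, evt k.net (f i c) (e i c) δ = evh k.net (f i c) (e i c) δ := fun i c δ =>
    ered_eq (fun δ => (hEL i c).unc δ (Set.notMem_empty _) (Set.notMem_empty _)) δ
  refine ⟨fun q => Sum.elim (fun c : Fin E'.length × B => f c.1 c.2)
      (fun o : Fin E'.length × S => f o.1 (E.pc o.2)) q,
    fun q => Sum.elim (fun c : Fin E'.length × B => e c.1 c.2)
      (fun o : Fin E'.length × S => e o.1 (E.pc o.2)) q,
    fun c => ered_mono (hEL c.1 c.2) _, fun o => ered_mono (hEL o.1 (E.pc o.2)) _,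
    fun o => hx o.1 (E.pc o.2) _, fun o => ?_⟩
  show evt k.net (f o.1 (E.pc o.2)) (e o.1 (E.pc o.2)) (E.dt o.2) =
    evh k.net (f (sg o).1 (E.pc (sg o).2)) (e (sg o).1 (E.pc (sg o).2)) (E.dt (sg o).2)
  rw [← hx, hv o.1 (E.pc o.2) o.2 rfl, hv (sg o).1 (E.pc (sg o).2) (sg o).2 rfl]
  exact ored_eq (p := oPat E) E' hs (fun s z => s.fv (a z)) y o (sg o) (h1 o).symm

end ORed

theorem of_red {V : Type} [Finite V] {H : SimpleGraph V} (hH : Gd H) {k : Kt (lab H)} {h : ℕ}
    {Ω : Type} [Nonempty Ω] {sX : Fin h → Srt (LV H) (LT H) Ω} {Rs Rc : (Fin h → Ω) → Prop}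
    (hR : OF k sX Rs Rc) (α : Type) [Inhabited α] [DecidableEq α] [Rep α] :
    ∃ Rd : List (List α) → List Bool,
      (∀ (β : Type) [Rep β] (E : β → List (List α)), PT true E → PT true (fun b => Rd (E b))) ∧
      ∀ E : List (List α),
        (∀ e ∈ E, ∀ e' ∈ E, ∀ j j' : Fin h,
          e.getD (j : ℕ) default = e'.getD (j' : ℕ) default → sX j = sX j') →
        ∃ (n : ℕ) (G : SimpleGraph (Fin n)), Rd E = enc G ∧
          (Covers G H → ∃ a : α → Ω, ∀ e ∈ E, Rs (fun j => a (e.getD (j : ℕ) default))) ∧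
          ((∃ a : α → Ω, ∀ e ∈ E, Rc (fun j => a (e.getD (j : ℕ) default))) → Covers G H) := by
  obtain ⟨Y, B, S, fY, fB, fS, tY, spY, E₀, hE₀⟩ := hR
  obtain ⟨Rd, hRd, hE⟩ := grt hH (oPat E₀) ⟨hE₀.inj, hE₀.nrev⟩ α
  refine ⟨Rd, hRd, fun E hs => ?_⟩
  obtain ⟨n, G, sg, h1, h2, h3, h4, h5⟩ := hE E (by
    intro o o' ho
    have e1 := hE₀.ty o.2
    have e2 := hE₀.ty o'.2
    show (lab H).ty (E₀.dt o.2).1 = (lab H).ty (E₀.dt o'.2).1
    rw [e1, e2]
    exact ored_eq (p := oPat E₀) E hs (fun s _ => s.t) (fun _ => tY) o o' ho)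
  exact ⟨n, G, h1, fun hc => ored_fwd hE₀ E hs sg h2 h3 (h5.1 hc),
    fun hc => h5.2 (ored_bwd hE₀ E hs sg h2 hc)⟩

end Pool.Agent.H24.GH
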