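import Pool.Agent.H24.GH.ODef

/-!
# JOB GH-4: the relations of a star

`Ful L τ x y`: the `y i`, `i < m`, are the ends of the darts of type `τ` at `x`. `Ties`: a kit with the following darts.
`sd i`: the darts of type `τ` at a vertex (the star), each alone is exact with good values (`Gt`). `a1, a2`: two darts of type `τ` at
a vertex; if the values are good then the tails of all four values agree (`a_tie`). `b1, b2`: two darts with the same head, of
types `τ`, `ζ`; the heads of all four values agree (`b_tie`). `g1`: the tail of its value satisfies `Xg`. Completeness (`_cp`): the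
values which are needed for `x₀`. `hS`: the sort of the head variables, `tS`: the sort of the tail variable.

`of_R`: hub variables `Fin m`. Pieces: the star, and for every `i` a piece with `b1, b2`. Slots: `sd i` and `b1` of the piece `i`
have the auxiliary variable `i` (type `τ`, spacer relation `sp α β = (α = β ∧ Gt α)`), `b2` of the piece `i` has the hub variable `i`.
(`Y = Fin m`, `B = Option (Fin m)`, `S = Fin m ⊕ Fin m ⊕ Fin m`.) `inj`, `nrev`: `s_inj`, `s_nrev`, `b_ne`, `b_nrev` and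
`Net.rv_ne`. `sound`: `Cyc`: the auxiliary variable `i` has exactly the two occurrences `sd i`, `b1` of the piece `i`, so `σ`
exchanges them (`SameCycle`, `σ` preserves the symbol and is not the identity on them): `b (b1) = a (sd i)`, `b (sd i) = a (b1)`, and
these values are good. Let `f, e` be the labelling of the star, `x` the label of its vertex: `a (sd i) = (x, y i)`, `Ful x y` by
`EL.star` (`s_all`: the `sd i` are all the darts of type `τ` at the vertex). In the piece `i` the heads of `a (b1)`, `b (b1)`,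
`a (b2)`, `b (b2)` are the label of `hd b1` (`b_tie`; for `evh` this is the definition), so they are `y i` (`b (b1) = a (sd i)`).
`comp`: the values `(x₀, y i)` for the auxiliary variables; `s_cp`, `b_cp` (`M τ x₀ (y i) ≠ 0`, so `Dt`).
`of_P`: hub variables `Unit ⊕ Fin m`. Pieces: the star, the pieces `b1, b2` for `i ≠ i₀`, two pieces with `a1, a2`, and the piece of
`g1`. Slots: as for `of_R` for `i ≠ i₀`; `sd i₀` and `a1` of the first `a`-piece have one auxiliary variable, `a2` of the first and `a1`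
of the second `a`-piece have another one, `a2` of the second `a`-piece and `g1` have the hub variable `inl ()` (different slots; as
a hub variable it occurs elsewhere too). `sound`: the tails of `a (sd i₀)` and of all values at the `a`-pieces agree, so the tail
of the hub variable is `x` at `a2`. `Rs`: for `c` with `c (inl ()) = x`, `c (inr i) = y i` for `i ≠ i₀`: `Ful` for
`Function.update (fun i => c (inr i)) i₀ (y i₀)`; `Xg x`: `g_sp` for the piece of `g1` (its labelling is cut at `g1` only),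
`ob (a g1) = c (inl ())`. `comp`: let `v` be the value at `i₀`; the auxiliary variables have the values `(x₀, y i)`, `(x₀, v)` and
`(x₀, y')`, where `{v, y'}` and `{y', yt}` are parts of the star of `x₀` (`two_mid`); `a_cp`, `g_cp`.
`two_mid`: `3 ≤ m`: let `i` be an index with `y i = v` and `j` one with `y j = u`, choose a third index `l ≠ i, j` (if `i = j` is
forced take any `l ≠ i`) and `y' = y l`.
-/

namespace Pool.Agent.H24.GH

open Pool.Agent.H24.GG

variable {V D T K : Type} {L : LS V D T K}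

/-- the `y i` are the ends of the darts of type `τ` at `x` -/
def Ful (L : LS V D T K) (τ : T) {m : ℕ} (x : V) (y : Fin m → V) : Prop :=
  L.cl x = L.sc τ ∧ ∀ z, {i | y i = z}.ncard = L.M τ x z

/-- `y, y'` is a part of the star of `x` -/
def Sub2 (L : LS V D T K) (τ : T) (x y y' : V) : Prop :=
  Dt L τ x y ∧ Dt L τ x y' ∧ (y = y' → 2 ≤ L.M τ x y)

theorem otie_dt {τ : T} {m : ℕ} {x : V} {y : Fin m → V} (h : Ful L τ x y) (i : Fin m) :
    Dt L τ x (y i) := by
  have h1 : {j | y j = y i}.ncard ≠ 0 := by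
    intro h0
    rw [Set.ncard_eq_zero (Set.toFinite _)] at h0
    have h2 : i ∈ {j | y j = y i} := rfl
    rw [h0] at h2
    exact h2
  rw [h.2] at h1
  obtain ⟨d, h2, h3, h4⟩ := Set.nonempty_of_ncard_ne_zero h1
  exact ⟨d, h2, h4, h3⟩

theorem otie_ix {τ : T} {m : ℕ} {x : V} {y : Fin m → V} (h : Ful L τ x y) {v : V}
    (hv : Dt L τ x v) : ∃ i, y i = v := by
  obtain ⟨d, h1, h2, h3⟩ := hv
  have hf : {d | L.tl d = x ∧ L.ty d = τ}.Finite := by
    refine Set.finite_of_ncard_ne_zero ?_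
    rw [L.num_eq x τ h.1]
    exact (L.num_pos τ).ne'
  have h4 : L.M τ x v ≠ 0 := by
    intro h0
    have hf' : {d | L.tl d = x ∧ L.ty d = τ ∧ L.hd d = v}.Finite :=
      hf.subset fun d hd => ⟨hd.1, hd.2.1⟩
    have h5 : {d | L.tl d = x ∧ L.ty d = τ ∧ L.hd d = v} = ∅ := (Set.ncard_eq_zero hf').1 h0
    have h6 : d ∈ {d | L.tl d = x ∧ L.ty d = τ ∧ L.hd d = v} := ⟨h1, h3, h2⟩
    rw [h5] at h6
    exact h6
  rw [← h.2 v] at h4
  obtain ⟨i, hi⟩ := Set.nonempty_of_ncard_ne_zero h4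
  exact ⟨i, hi⟩

theorem otie_two {τ : T} {m : ℕ} {x : V} {y : Fin m → V} (h : Ful L τ x y) {i j : Fin m}
    (hij : i ≠ j) (he : y i = y j) : 2 ≤ L.M τ x (y i) := by
  rw [← h.2]
  have h1 : ({i, j} : Set (Fin m)) ⊆ {l | y l = y i} := by
    rintro l (rfl | rfl)
    · rfl
    · exact he.symm
  have h2 := Set.ncard_le_ncard h1 (Set.toFinite _)
  rwa [Set.ncard_pair hij] at h2

theorem otie_third {m : ℕ} (hm : 3 ≤ m) (i j : Fin m) : ∃ l : Fin m, l ≠ i ∧ l ≠ j := by
  have h1 : ({i, j} : Finset (Fin m)).card < (Finset.univ : Finset (Fin m)).card := by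
    rw [Finset.card_univ, Fintype.card_fin]
    exact lt_of_le_of_lt (Finset.card_insert_le _ _) (by rw [Finset.card_singleton]; omega)
  obtain ⟨l, -, hl⟩ := Finset.exists_mem_notMem_of_card_lt_card h1
  rw [Finset.mem_insert, Finset.mem_singleton, not_or] at hl
  exact ⟨l, hl.1, hl.2⟩

theorem two_mid {τ : T} {m : ℕ} (hm : 3 ≤ m) {x : V} {y : Fin m → V} (h : Ful L τ x y) {v u : V}
    (hv : Dt L τ x v) (hu : Dt L τ x u) : ∃ y', Sub2 L τ x v y' ∧ Sub2 L τ x y' u := by
  obtain ⟨i, hi⟩ := otie_ix h hv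
  obtain ⟨j, hj⟩ := otie_ix h hu
  obtain ⟨l, hli, hlj⟩ := otie_third hm i j
  refine ⟨y l, ⟨hv, otie_dt h l, ?_⟩, ⟨otie_dt h l, hu, ?_⟩⟩
  · intro he
    rw [← hi]
    exact otie_two h hli.symm (hi.trans he)
  · intro he
    exact otie_two h hlj (he.trans hj.symm)

/-- a kit with a star and ties -/
structure Ties (k : Kt L) (τ ζ : T) (m : ℕ) (x₀ yt : V) (zt : V → V) (Xg : V → Prop)
    (Gt Gz : V × V → Prop) where
  m3 : 3 ≤ m
  num : L.num τ = m
  sd : Fin m → D × k.Q
  s_inj : Function.Injective sd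
  s_tl : ∀ i j, k.net.tl (sd i) = k.net.tl (sd j)
  s_ty : ∀ i, L.ty (sd i).1 = τ
  s_nrev : ∀ i j, sd i ≠ k.net.rv (sd j)
  s_sp : ∀ i f e, EL k.net {sd i} f e → evt k.net f e (sd i) = evh k.net f e (sd i) ∧
    Gt (evt k.net f e (sd i))
  s_cp : ∀ y : Fin m → V, Ful L τ x₀ y → ∃ f e, EL k.net ∅ f e ∧
    ∀ i, evt k.net f e (sd i) = (x₀, y i)
  a1 : D × k.Q
  a2 : D × k.Q
  a_tl : k.net.tl a1 = k.net.tl a2
  a_ty1 : L.ty a1.1 = τ
  a_ty2 : L.ty a2.1 = τ
  a_ne : a1 ≠ a2
  a_nrev : a1 ≠ k.net.rv a2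
  a_sp1 : ∀ f e, EL k.net {a1} f e → evt k.net f e a1 = evh k.net f e a1 ∧ Gt (evt k.net f e a1)
  a_sp2 : ∀ f e, EL k.net {a2} f e → evt k.net f e a2 = evh k.net f e a2 ∧ Gt (evt k.net f e a2)
  a_tie : ∀ f e, EL k.net {a1, a2} f e → Gt (evt k.net f e a1) → Gt (evh k.net f e a1) →
    Gt (evt k.net f e a2) → Gt (evh k.net f e a2) →
    (evh k.net f e a1).1 = f (k.net.tl a1) ∧ (evh k.net f e a2).1 = f (k.net.tl a1)
  a_cp : ∀ y y', Sub2 L τ x₀ y y' → ∃ f e, EL k.net ∅ f e ∧ evt k.net f e a1 = (x₀, y) ∧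
    evt k.net f e a2 = (x₀, y')
  b1 : D × k.Q
  b2 : D × k.Q
  b_hd : k.net.hd b1 = k.net.hd b2
  b_ty1 : L.ty b1.1 = τ
  b_ty2 : L.ty b2.1 = ζ
  b_ne : b1 ≠ b2
  b_nrev : b1 ≠ k.net.rv b2
  b_sp1 : ∀ f e, EL k.net {b1} f e → evt k.net f e b1 = evh k.net f e b1 ∧ Gt (evt k.net f e b1)
  b_sp2 : ∀ f e, EL k.net {b2} f e → evt k.net f e b2 = evh k.net f e b2 ∧ Gz (evt k.net f e b2)
  b_tie : ∀ f e, EL k.net {b1, b2} f e → Gt (evt k.net f e b1) → Gt (evh k.net f e b1) →
    Gz (evt k.net f e b2) → Gz (evh k.net f e b2) →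
    (evt k.net f e b1).2 = f (k.net.hd b1) ∧ (evt k.net f e b2).2 = f (k.net.hd b1)
  b_cp : ∀ y, Dt L τ x₀ y → ∃ f e, EL k.net ∅ f e ∧ evt k.net f e b1 = (x₀, y) ∧
    evt k.net f e b2 = (zt y, y)
  g1 : D × k.Q
  g_ty : L.ty g1.1 = τ
  g_sp : ∀ f e, EL k.net {g1} f e → evt k.net f e g1 = evh k.net f e g1 ∧
    Gt (evt k.net f e g1) ∧ Xg (evt k.net f e g1).1
  yt_dt : Dt L τ x₀ yt
  g_cp : ∃ f e, EL k.net ∅ f e ∧ evt k.net f e g1 = (x₀, yt)

/-- the sort of the head variables -/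
def hS (ζ : T) (zt : V → V) (Gz : V × V → Prop) : Srt V T V where
  t := ζ
  sp α β := α = β ∧ Gz α
  ob α := α.2
  fv y := (zt y, y)
  hob := by
    rintro α β ⟨h, -⟩
    rw [h]

/-- the sort of the tail variable -/
def tS (τ : T) (yt : V) (Gt : V × V → Prop) : Srt V T V where
  t := τ
  sp α β := α = β ∧ Gt α
  ob α := α.1
  fv x := (x, yt)
  hob := by
    rintro α β ⟨h, -⟩
    rw [h]

/-- all but one of the ends -/
def RelP (L : LS V D T K) (τ : T) {m : ℕ} (i₀ : Fin m) (X : V → Prop) (c : Unit ⊕ Fin m → V) :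
    Prop :=
  X (c (Sum.inl ())) ∧
    ∃ v, Ful L τ (c (Sum.inl ())) (Function.update (fun i => c (Sum.inr i)) i₀ v)

/-- all the ends -/
def RelR (L : LS V D T K) (τ : T) {m : ℕ} (X : V → Prop) (Gt : V × V → Prop) (c : Fin m → V) :
    Prop :=
  ∃ x, X x ∧ Ful L τ x c ∧ ∀ i, Gt (x, c i)

variable {k : Kt L} {τ ζ : T} {m : ℕ} {x₀ yt : V} {zt : V → V} {Xg : V → Prop} {Gt Gz : V × V → Prop}

/-- the two occurrences of an auxiliary variable -/
theorem otie_cyc {S X Y : Type} {sy : S → X ⊕ Y} {sp : Y → V × V → V × V → Prop}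
    {a b : S → V × V} (h : Cyc sy sp a b) {y : Y} {s₁ s₂ : S} (hne : s₁ ≠ s₂)
    (h1 : sy s₁ = Sum.inr y) (h2 : sy s₂ = Sum.inr y)
    (h3 : ∀ s, sy s = Sum.inr y → s = s₁ ∨ s = s₂) :
    sp y (b s₂) (a s₁) ∧ sp y (b s₁) (a s₂) := by
  obtain ⟨σ, hσ1, hσ2, hσ3⟩ := h
  have key : ∀ t₁ t₂ : S, t₁ ≠ t₂ → ∀ (e1 : sy t₁ = Sum.inr y) (e2 : sy t₂ = Sum.inr y),
      (∀ s, sy s = Sum.inr y → s = t₁ ∨ s = t₂) → sp y (b t₂) (a t₁) := by
    intro t₁ t₂ hn e1 e2 e3
    have g1 := hσ1 ⟨t₁, y, e1⟩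
    have g2 : sy (σ ⟨t₁, y, e1⟩).1 = Sum.inr y := g1.trans e1
    rcases e3 _ g2 with g3 | g3
    · exfalso
      have g4 : σ ⟨t₁, y, e1⟩ = ⟨t₁, y, e1⟩ := Subtype.ext g3
      obtain ⟨n, hn'⟩ := hσ2 ⟨t₁, y, e1⟩ ⟨t₂, y, e2⟩ (e1.trans e2.symm)
      rw [Equiv.Perm.zpow_apply_eq_self_of_apply_eq_self g4] at hn'
      exact hn (congrArg Subtype.val hn')
    · have g5 := hσ3 ⟨t₁, y, e1⟩ y e1
      rwa [g3] at g5
  exact ⟨key s₁ s₂ hne h1 h2 h3, key s₂ s₁ hne.symm h2 h1 (fun s hs => (h3 s hs).symm)⟩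

/-- the star -/
theorem otie_star (t : Ties k τ ζ m x₀ yt zt Xg Gt Gz) {C : Set (D × k.Q)} {f : V × k.Q → V}
    {e : D × k.Q → V} (h : EL k.net C f e) (i₀ : Fin m) :
    Ful L τ (f (k.net.tl (t.sd i₀))) (fun i => e (t.sd i)) := by
  have hty : ∀ i, k.net.ty (t.sd i) = τ := t.s_ty
  have hcl : k.net.cl (k.net.tl (t.sd i₀)) = L.sc τ := by
    rw [k.net.cl_tl, hty]
  refine ⟨?_, ?_⟩
  · rw [h.cls, hcl]
  · intro z
    rw [← h.star]
    have hn := k.net.num_eq (k.net.tl (t.sd i₀)) τ hcl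
    have hfin : {δ | k.net.tl δ = k.net.tl (t.sd i₀) ∧ k.net.ty δ = τ}.Finite := by
      refine Set.finite_of_ncard_ne_zero ?_
      rw [hn]
      exact (L.num_pos τ).ne'
    have hsub : Set.range t.sd ⊆ {δ | k.net.tl δ = k.net.tl (t.sd i₀) ∧ k.net.ty δ = τ} := by
      rintro _ ⟨i, rfl⟩
      exact ⟨t.s_tl i i₀, hty i⟩
    have hcard : (Set.range t.sd).ncard = m := by
      rw [← Set.image_univ, Set.ncard_image_of_injective _ t.s_inj, Set.ncard_univ,
        Nat.card_eq_fintype_card, Fintype.card_fin]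
    have heq := Set.eq_of_subset_of_ncard_le hsub (by rw [hn, hcard, t.num]) hfin
    have himg : {δ | k.net.tl δ = k.net.tl (t.sd i₀) ∧ k.net.ty δ = τ ∧ e δ = z} =
        t.sd '' {i | e (t.sd i) = z} := by
      ext δ
      constructor
      · rintro ⟨g1, g2, g3⟩
        have g4 : δ ∈ Set.range t.sd := by
          rw [heq]
          exact ⟨g1, g2⟩
        obtain ⟨i, rfl⟩ := g4
        exact ⟨i, g3, rfl⟩
      · rintro ⟨i, g1, rfl⟩
        exact ⟨t.s_tl i i₀, hty i, g1⟩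
    rw [himg, Set.ncard_image_of_injective _ t.s_inj]

/-- the piece with `b1, b2` -/
theorem otie_b (t : Ties k τ ζ m x₀ yt zt Xg Gt Gz) {C : Set (D × k.Q)} (hC : C = {t.b1, t.b2})
    {f : V × k.Q → V} {e : D × k.Q → V} (h : EL k.net C f e) {a₁ b₁ a₂ b₂ : V × V}
    (ha₁ : evt k.net f e t.b1 = a₁) (hb₁ : evh k.net f e t.b1 = b₁)
    (ha₂ : evt k.net f e t.b2 = a₂) (hb₂ : evh k.net f e t.b2 = b₂)
    (h1 : Gt a₁) (h2 : Gt b₁) (h3 : Gz a₂) (h4 : Gz b₂) : a₂.2 = b₂.2 ∧ a₂.2 = b₁.2 := by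
  subst hC ha₁ hb₁ ha₂ hb₂
  obtain ⟨-, g2⟩ := t.b_tie f e h h1 h2 h3 h4
  refine ⟨?_, g2⟩
  rw [g2]
  show f (k.net.hd t.b1) = f (k.net.hd t.b2)
  rw [t.b_hd]

/-- the piece with `a1, a2` -/
theorem otie_a (t : Ties k τ ζ m x₀ yt zt Xg Gt Gz) {C : Set (D × k.Q)} (hC : C = {t.a1, t.a2})
    {f : V × k.Q → V} {e : D × k.Q → V} (h : EL k.net C f e) {a₁ b₁ a₂ b₂ : V × V}
    (ha₁ : evt k.net f e t.a1 = a₁) (hb₁ : evh k.net f e t.a1 = b₁)
    (ha₂ : evt k.net f e t.a2 = a₂) (hb₂ : evh k.net f e t.a2 = b₂)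
    (h1 : Gt a₁) (h2 : Gt b₁) (h3 : Gt a₂) (h4 : Gt b₂) :
    a₁.1 = b₁.1 ∧ a₂.1 = b₁.1 ∧ b₂.1 = b₁.1 := by
  subst hC ha₁ hb₁ ha₂ hb₂
  obtain ⟨g1, g2⟩ := t.a_tie f e h h1 h2 h3 h4
  refine ⟨g1.symm, ?_, g2.trans g1.symm⟩
  rw [g1]
  show f (k.net.tl t.a2) = f (k.net.tl t.a1)
  rw [t.a_tl]

theorem otie_nrev {x y : D × k.Q} (h : x ≠ k.net.rv y) : y ≠ k.net.rv x := by
  intro h1
  apply h
  rw [h1, k.net.rv_rv]

/-- the system for `of_R` -/
def otieR (t : Ties k τ ζ m x₀ yt zt Xg Gt Gz) :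
    OSys k (Fin m) (Fin m) (Fin m ⊕ Fin m ⊕ Fin m) (Option (Fin m)) where
  pc := Sum.elim (fun _ => none) (Sum.elim some some)
  dt := Sum.elim t.sd (Sum.elim (fun _ => t.b1) (fun _ => t.b2))
  sy := Sum.elim Sum.inr (Sum.elim Sum.inr Sum.inl)

theorem of_R (t : Ties k τ ζ m x₀ yt zt Xg Gt Gz) :
    OF k (fun _ : Fin m => hS ζ zt Gz) (RelR L τ (fun _ => True) Gt)
      (fun c => Ful L τ x₀ c) := by
  have i₀ : Fin m := ⟨0, by have := t.m3; omega⟩
  refine ⟨Fin m, Option (Fin m), Fin m ⊕ Fin m ⊕ Fin m, inferInstance, inferInstance,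
    inferInstance, fun _ => τ, fun _ α β => α = β ∧ Gt α, otieR t, ?_, ?_, ?_, ?_, ?_, ?_⟩
  · rintro (i | i | i) (j | j | j) h1 h2
    · exact congrArg Sum.inl (t.s_inj h2)
    · exact absurd h1 (by simp [otieR])
    · exact absurd h1 (by simp [otieR])
    · exact absurd h1 (by simp [otieR])
    · have h3 : i = j := Option.some.inj h1
      rw [h3]
    · exact absurd h2 t.b_ne
    · exact absurd h1 (by simp [otieR])
    · exact absurd h2 t.b_ne.symm
    · have h3 : i = j := Option.some.inj h1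
      rw [h3]
  · rintro (i | i | i) (j | j | j) h1
    · exact t.s_nrev i j
    · exact absurd h1 (by simp [otieR])
    · exact absurd h1 (by simp [otieR])
    · exact absurd h1 (by simp [otieR])
    · exact (k.net.rv_ne t.b1).symm
    · exact t.b_nrev
    · exact absurd h1 (by simp [otieR])
    · exact otie_nrev t.b_nrev
    · exact (k.net.rv_ne t.b2).symm
  · rintro (i | i | i)
    · exact t.s_ty i
    · exact t.b_ty1
    · exact t.b_ty2
  · rintro (i | i | i) f e h
    · exact t.s_sp i f e h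
    · exact t.b_sp1 f e h
    · exact t.b_sp2 f e h
  · intro a b hub hcyc hpc
    have hc : ∀ i : Fin m, (b (Sum.inr (Sum.inl i)) = a (Sum.inl i) ∧ Gt (b (Sum.inr (Sum.inl i)))) ∧
        (b (Sum.inl i) = a (Sum.inr (Sum.inl i)) ∧ Gt (b (Sum.inl i))) := by
      intro i
      refine otie_cyc hcyc (y := i) (s₁ := Sum.inl i) (s₂ := Sum.inr (Sum.inl i)) (by simp) rfl rfl ?_
      rintro (j | j | j) hj
      · left
        exact congrArg Sum.inl (Sum.inr.inj hj)
      · right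
        exact congrArg (fun z => Sum.inr (Sum.inl z)) (Sum.inr.inj hj)
      · exact absurd hj (by simp [otieR])
    have hb : ∀ i : Fin m, (a (Sum.inr (Sum.inr i))).2 = (b (Sum.inr (Sum.inr i))).2 ∧
        (a (Sum.inr (Sum.inr i))).2 = (a (Sum.inl i)).2 := by
      intro i
      obtain ⟨f, e, he, hs⟩ := hpc (some i)
      have hset : {δ | ∃ s, (otieR t).pc s = some i ∧ (otieR t).dt s = δ} = {t.b1, t.b2} := by
        ext δ
        constructor
        · rintro ⟨(j | j | j), g1, rfl⟩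
          · exact absurd g1 (by simp [otieR])
          · left; rfl
          · right; rfl
        · rintro (rfl | rfl)
          · exact ⟨Sum.inr (Sum.inl i), rfl, rfl⟩
          · exact ⟨Sum.inr (Sum.inr i), rfl, rfl⟩
      obtain ⟨q1, q2⟩ := hs (Sum.inr (Sum.inl i)) rfl
      obtain ⟨q3, q4⟩ := hs (Sum.inr (Sum.inr i)) rfl
      obtain ⟨⟨c1, c2⟩, c3, c4⟩ := hc i
      obtain ⟨⟨α, r1, r2⟩, ⟨β, r3, r4⟩⟩ := hub (Sum.inr (Sum.inr i)) i rfl
      obtain ⟨p1, p2⟩ := otie_b t hset he q1 q2 q3 q4 (by rw [← c3]; exact c4) c2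
        (by rw [← r1]; exact r2) r4
      refine ⟨p1, ?_⟩
      rw [p2, c1]
    refine ⟨?_, ?_⟩
    · rintro (i | i | i) x hx
      · exact absurd hx (by simp [otieR])
      · exact absurd hx (by simp [otieR])
      · exact (hb i).1
    · intro c hcc
      obtain ⟨f, e, he, hs⟩ := hpc none
      have hy : ∀ i, a (Sum.inl i) = (f (k.net.tl (t.sd i₀)), e (t.sd i)) := by
        intro i
        rw [← (hs (Sum.inl i) rfl).1]
        show (f (k.net.tl (t.sd i)), e (t.sd i)) = _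
        rw [t.s_tl i i₀]
      have hci : ∀ i, c i = e (t.sd i) := by
        intro i
        have g1 := hcc (Sum.inr (Sum.inr i)) i rfl
        have g2 : (a (Sum.inr (Sum.inr i))).2 = c i := g1
        rw [← g2, (hb i).2, hy i]
      have hce : c = fun i => e (t.sd i) := funext hci
      refine ⟨f (k.net.tl (t.sd i₀)), trivial, ?_, ?_⟩
      · rw [hce]
        exact otie_star t he i₀
      · intro i
        rw [hci i, ← hy i]
        obtain ⟨⟨c1, c2⟩, c3, c4⟩ := hc i
        rw [← c1]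
        exact c2
  · intro c hc
    refine ⟨fun i => (x₀, c i), ?_⟩
    rintro (_ | i)
    · obtain ⟨f, e, he, hs⟩ := t.s_cp c hc
      refine ⟨f, e, he, ?_⟩
      rintro (j | j | j) hj
      · exact hs j
      · exact absurd hj (by simp [otieR])
      · exact absurd hj (by simp [otieR])
    · obtain ⟨f, e, he, h1, h2⟩ := t.b_cp (c i) (otie_dt hc i)
      refine ⟨f, e, he, ?_⟩
      rintro (j | j | j) hj
      · exact absurd hj (by simp [otieR])
      · have h3 : j = i := Option.some.inj hj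
        rw [h3]
        exact h1
      · have h3 : j = i := Option.some.inj hj
        rw [h3]
        exact h2

/-- the slots for `of_P` -/
inductive OtieS (m : ℕ) (i₀ : Fin m) : Type
  | st (i : Fin m) : OtieS m i₀
  | p1 (i : {i : Fin m // i ≠ i₀}) : OtieS m i₀
  | p2 (i : {i : Fin m // i ≠ i₀}) : OtieS m i₀
  | u1 : OtieS m i₀
  | u2 : OtieS m i₀
  | w1 : OtieS m i₀
  | w2 : OtieS m i₀
  | gg : OtieS m i₀

/-- the pieces for `of_P` -/
inductive OtieB (m : ℕ) : Type
  | st : OtieB m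
  | pp (i : Fin m) : OtieB m
  | uu : OtieB m
  | ww : OtieB m
  | gg : OtieB m

theorem otieS_fin (m : ℕ) (i₀ : Fin m) : Finite (OtieS m i₀) := by
  let g : (Fin m ⊕ {i : Fin m // i ≠ i₀} ⊕ {i : Fin m // i ≠ i₀}) ⊕ Fin 5 → OtieS m i₀ :=
    Sum.elim (Sum.elim OtieS.st (Sum.elim OtieS.p1 OtieS.p2))
      ![OtieS.u1, OtieS.u2, OtieS.w1, OtieS.w2, OtieS.gg]
  have hg : Function.Surjective g := by
    rintro (i | i | i | _ | _ | _ | _ | _)
    · exact ⟨Sum.inl (Sum.inl i), rfl⟩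
    · exact ⟨Sum.inl (Sum.inr (Sum.inl i)), rfl⟩
    · exact ⟨Sum.inl (Sum.inr (Sum.inr i)), rfl⟩
    · exact ⟨Sum.inr 0, rfl⟩
    · exact ⟨Sum.inr 1, rfl⟩
    · exact ⟨Sum.inr 2, rfl⟩
    · exact ⟨Sum.inr 3, rfl⟩
    · exact ⟨Sum.inr 4, rfl⟩
  exact Finite.of_surjective g hg

theorem otieB_fin (m : ℕ) : Finite (OtieB m) := by
  let g : Fin m ⊕ Fin 4 → OtieB m :=
    Sum.elim OtieB.pp ![OtieB.st, OtieB.uu, OtieB.ww, OtieB.gg]
  have hg : Function.Surjective g := by
    rintro (_ | i | _ | _ | _)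
    · exact ⟨Sum.inr 0, rfl⟩
    · exact ⟨Sum.inl i, rfl⟩
    · exact ⟨Sum.inr 1, rfl⟩
    · exact ⟨Sum.inr 2, rfl⟩
    · exact ⟨Sum.inr 3, rfl⟩
  exact Finite.of_surjective g hg

/-- the pieces of the slots -/
def otiePc {m : ℕ} {i₀ : Fin m} : OtieS m i₀ → OtieB m
  | OtieS.st _ => OtieB.st
  | OtieS.p1 i => OtieB.pp i.1
  | OtieS.p2 i => OtieB.pp i.1
  | OtieS.u1 => OtieB.uu
  | OtieS.u2 => OtieB.uu
  | OtieS.w1 => OtieB.ww
  | OtieS.w2 => OtieB.ww
  | OtieS.gg => OtieB.gg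

/-- the symbols of the slots -/
def otieSy {m : ℕ} {i₀ : Fin m} : OtieS m i₀ → (Unit ⊕ Fin m) ⊕ Option (Fin m)
  | OtieS.st i => Sum.inr (some i)
  | OtieS.p1 i => Sum.inr (some i.1)
  | OtieS.p2 i => Sum.inl (Sum.inr i.1)
  | OtieS.u1 => Sum.inr (some i₀)
  | OtieS.u2 => Sum.inr none
  | OtieS.w1 => Sum.inr none
  | OtieS.w2 => Sum.inl (Sum.inl ())
  | OtieS.gg => Sum.inl (Sum.inl ())

/-- the darts of the slots -/
def otieDt (t : Ties k τ ζ m x₀ yt zt Xg Gt Gz) (i₀ : Fin m) : OtieS m i₀ → D × k.Q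
  | OtieS.st i => t.sd i
  | OtieS.p1 _ => t.b1
  | OtieS.p2 _ => t.b2
  | OtieS.u1 => t.a1
  | OtieS.u2 => t.a2
  | OtieS.w1 => t.a1
  | OtieS.w2 => t.a2
  | OtieS.gg => t.g1

/-- the system for `of_P` -/
def otieP (t : Ties k τ ζ m x₀ yt zt Xg Gt Gz) (i₀ : Fin m) :
    OSys k (Unit ⊕ Fin m) (Option (Fin m)) (OtieS m i₀) (OtieB m) where
  pc := otiePc
  dt := otieDt t i₀
  sy := otieSy

theorem otieP_inj (t : Ties k τ ζ m x₀ yt zt Xg Gt Gz) (i₀ : Fin m) (s s' : OtieS m i₀)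
    (h1 : otiePc s = otiePc s') (h2 : otieDt t i₀ s = otieDt t i₀ s') : s = s' := by
  rcases s with i | i | i | _ | _ | _ | _ | _ <;> rcases s' with j | j | j | _ | _ | _ | _ | _ <;>
    first
    | rfl
    | (simp [otiePc] at h1; done)
    | exact congrArg OtieS.st (t.s_inj h2)
    | exact congrArg OtieS.p1 (Subtype.ext (OtieB.pp.inj h1))
    | exact congrArg OtieS.p2 (Subtype.ext (OtieB.pp.inj h1))
    | exact absurd h2 t.b_ne
    | exact absurd h2 t.b_ne.symm
    | exact absurd h2 t.a_ne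
    | exact absurd h2 t.a_ne.symm

theorem otieP_nrev (t : Ties k τ ζ m x₀ yt zt Xg Gt Gz) (i₀ : Fin m) (s s' : OtieS m i₀)
    (h1 : otiePc s = otiePc s') : otieDt t i₀ s ≠ k.net.rv (otieDt t i₀ s') := by
  rcases s with i | i | i | _ | _ | _ | _ | _ <;> rcases s' with j | j | j | _ | _ | _ | _ | _ <;>
    first
    | (simp [otiePc] at h1; done)
    | exact t.s_nrev _ _
    | exact (k.net.rv_ne t.b1).symm
    | exact t.b_nrev
    | exact otie_nrev t.b_nrev
    | exact (k.net.rv_ne t.b2).symm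
    | exact (k.net.rv_ne t.a1).symm
    | exact t.a_nrev
    | exact otie_nrev t.a_nrev
    | exact (k.net.rv_ne t.a2).symm
    | exact (k.net.rv_ne t.g1).symm

theorem otieP_ty (t : Ties k τ ζ m x₀ yt zt Xg Gt Gz) (i₀ : Fin m) (s : OtieS m i₀) :
    L.ty (otieDt t i₀ s).1 = Sum.elim (fun x => (Sum.elim (fun _ : Unit => tS τ yt Gt)
      (fun _ : Fin m => hS ζ zt Gz) x : Srt V T V).t) (fun _ => τ) (otieSy s) := by
  rcases s with i | i | i | _ | _ | _ | _ | _
  · exact t.s_ty i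
  · exact t.b_ty1
  · exact t.b_ty2
  · exact t.a_ty1
  · exact t.a_ty2
  · exact t.a_ty1
  · exact t.a_ty2
  · exact t.g_ty

theorem otieP_set (t : Ties k τ ζ m x₀ yt zt Xg Gt Gz) (i₀ : Fin m) :
    (∀ i : {i : Fin m // i ≠ i₀}, {δ | ∃ s, otiePc s = OtieB.pp i.1 ∧ otieDt t i₀ s = δ} =
      {t.b1, t.b2}) ∧
    {δ | ∃ s, otiePc s = OtieB.uu ∧ otieDt t i₀ s = δ} = {t.a1, t.a2} ∧
    {δ | ∃ s, otiePc s = OtieB.ww ∧ otieDt t i₀ s = δ} = {t.a1, t.a2} ∧
    {δ | ∃ s, otiePc s = OtieB.gg ∧ otieDt t i₀ s = δ} = {t.g1} := by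
  refine ⟨?_, ?_, ?_, ?_⟩
  · intro i
    ext δ
    constructor
    · rintro ⟨(j | j | j | _ | _ | _ | _ | _), g1, rfl⟩
      · exact absurd g1 (by simp [otiePc])
      · left; rfl
      · right; rfl
      all_goals exact absurd g1 (by simp [otiePc])
    · rintro (rfl | rfl)
      · exact ⟨OtieS.p1 i, rfl, rfl⟩
      · exact ⟨OtieS.p2 i, rfl, rfl⟩
  · ext δ
    constructor
    · rintro ⟨(j | j | j | _ | _ | _ | _ | _), g1, rfl⟩
      · exact absurd g1 (by simp [otiePc])
      · exact absurd g1 (by simp [otiePc])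
      · exact absurd g1 (by simp [otiePc])
      · left; rfl
      · right; rfl
      all_goals exact absurd g1 (by simp [otiePc])
    · rintro (rfl | rfl)
      · exact ⟨OtieS.u1, rfl, rfl⟩
      · exact ⟨OtieS.u2, rfl, rfl⟩
  · ext δ
    constructor
    · rintro ⟨(j | j | j | _ | _ | _ | _ | _), g1, rfl⟩
      · exact absurd g1 (by simp [otiePc])
      · exact absurd g1 (by simp [otiePc])
      · exact absurd g1 (by simp [otiePc])
      · exact absurd g1 (by simp [otiePc])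
      · exact absurd g1 (by simp [otiePc])
      · left; rfl
      · right; rfl
      · exact absurd g1 (by simp [otiePc])
    · rintro (rfl | rfl)
      · exact ⟨OtieS.w1, rfl, rfl⟩
      · exact ⟨OtieS.w2, rfl, rfl⟩
  · ext δ
    constructor
    · rintro ⟨(j | j | j | _ | _ | _ | _ | _), g1, rfl⟩
      all_goals first | rfl | (simp [otiePc] at g1; done)
    · rintro rfl
      exact ⟨OtieS.gg, rfl, rfl⟩

theorem of_P (t : Ties k τ ζ m x₀ yt zt Xg Gt Gz) (i₀ : Fin m) :
    OF k (Sum.elim (fun _ : Unit => tS τ yt Gt) (fun _ : Fin m => hS ζ zt Gz))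
      (RelP L τ i₀ Xg) (RelP L τ i₀ (fun x => x = x₀)) := by
  refine ⟨Option (Fin m), OtieB m, OtieS m i₀, inferInstance, otieB_fin m, otieS_fin m i₀,
    fun _ => τ, fun _ α β => α = β ∧ Gt α, otieP t i₀, otieP_inj t i₀, otieP_nrev t i₀,
    otieP_ty t i₀, ?_, ?_, ?_⟩
  · rintro (i | i | i | _ | _ | _ | _ | _) f e h
    · exact t.s_sp i f e h
    · exact t.b_sp1 f e h
    · exact t.b_sp2 f e h
    · exact t.a_sp1 f e h
    · exact t.a_sp2 f e h
    · exact t.a_sp1 f e h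
    · exact t.a_sp2 f e h
    · exact ⟨(t.g_sp f e h).1, (t.g_sp f e h).2.1⟩
  · intro a b hub hcyc hpc
    obtain ⟨hset1, hset2, hset3, hset4⟩ := otieP_set t i₀
    have hc : ∀ i : {i : Fin m // i ≠ i₀},
        (b (OtieS.p1 i) = a (OtieS.st i.1) ∧ Gt (b (OtieS.p1 i))) ∧
        (b (OtieS.st i.1) = a (OtieS.p1 i) ∧ Gt (b (OtieS.st i.1))) := by
      intro i
      refine otie_cyc hcyc (y := some i.1) (s₁ := OtieS.st i.1) (s₂ := OtieS.p1 i)
        (by simp) rfl rfl ?_
      rintro (j | j | j | _ | _ | _ | _ | _) hj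
      · left
        exact congrArg OtieS.st (Option.some.inj (Sum.inr.inj hj))
      · right
        exact congrArg OtieS.p1 (Subtype.ext (Option.some.inj (Sum.inr.inj hj)))
      · exact absurd hj (by simp [otieP, otieSy])
      · exact absurd (Option.some.inj (Sum.inr.inj hj)).symm i.2
      all_goals exact absurd hj (by simp [otieP, otieSy])
    have hu : (b OtieS.u1 = a (OtieS.st i₀) ∧ Gt (b OtieS.u1)) ∧
        (b (OtieS.st i₀) = a OtieS.u1 ∧ Gt (b (OtieS.st i₀))) := by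
      refine otie_cyc hcyc (y := some i₀) (s₁ := OtieS.st i₀) (s₂ := OtieS.u1)
        (by simp) rfl rfl ?_
      rintro (j | j | j | _ | _ | _ | _ | _) hj
      · left
        exact congrArg OtieS.st (Option.some.inj (Sum.inr.inj hj))
      · exact absurd (Option.some.inj (Sum.inr.inj hj)) j.2
      · exact absurd hj (by simp [otieP, otieSy])
      · right; rfl
      all_goals exact absurd hj (by simp [otieP, otieSy])
    have hw : (b OtieS.w1 = a OtieS.u2 ∧ Gt (b OtieS.w1)) ∧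
        (b OtieS.u2 = a OtieS.w1 ∧ Gt (b OtieS.u2)) := by
      refine otie_cyc hcyc (y := none) (s₁ := OtieS.u2) (s₂ := OtieS.w1)
        (by simp) rfl rfl ?_
      rintro (j | j | j | _ | _ | _ | _ | _) hj
      · exact absurd hj (by simp [otieP, otieSy])
      · exact absurd hj (by simp [otieP, otieSy])
      · exact absurd hj (by simp [otieP, otieSy])
      · exact absurd hj (by simp [otieP, otieSy])
      · left; rfl
      · right; rfl
      all_goals exact absurd hj (by simp [otieP, otieSy])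
    obtain ⟨⟨u1, u2⟩, u3, u4⟩ := hu
    obtain ⟨⟨w1, w2⟩, w3, w4⟩ := hw
    -- the pieces with `b1, b2`
    have hb : ∀ i : {i : Fin m // i ≠ i₀}, (a (OtieS.p2 i)).2 = (b (OtieS.p2 i)).2 ∧
        (a (OtieS.p2 i)).2 = (a (OtieS.st i.1)).2 := by
      intro i
      obtain ⟨f, e, he, hs⟩ := hpc (OtieB.pp i.1)
      obtain ⟨q1, q2⟩ := hs (OtieS.p1 i) rfl
      obtain ⟨q3, q4⟩ := hs (OtieS.p2 i) rfl
      obtain ⟨⟨c1, c2⟩, c3, c4⟩ := hc i
      obtain ⟨⟨α, r1, r2⟩, ⟨β, r3, r4⟩⟩ := hub (OtieS.p2 i) (Sum.inr i.1) rfl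
      obtain ⟨p1, p2⟩ := otie_b t (hset1 i) he q1 q2 q3 q4 (by rw [← c3]; exact c4) c2
        (by rw [← r1]; exact r2) r4
      refine ⟨p1, ?_⟩
      rw [p2, c1]
    -- the star
    obtain ⟨f, e, he, hs⟩ := hpc OtieB.st
    have hy : ∀ i, a (OtieS.st i) = (f (k.net.tl (t.sd i₀)), e (t.sd i)) := by
      intro i
      rw [← (hs (OtieS.st i) rfl).1]
      show (f (k.net.tl (t.sd i)), e (t.sd i)) = _
      rw [t.s_tl i i₀]
    -- the pieces with `a1, a2`
    have hA1 : (a OtieS.u2).1 = f (k.net.tl (t.sd i₀)) := by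
      obtain ⟨f', e', he', hs'⟩ := hpc OtieB.uu
      obtain ⟨q1, q2⟩ := hs' OtieS.u1 rfl
      obtain ⟨q3, q4⟩ := hs' OtieS.u2 rfl
      obtain ⟨-, p2, -⟩ := otie_a t hset2 he' q1 q2 q3 q4 (by rw [← u3]; exact u4) u2
        (by rw [← w1]; exact w2) w4
      rw [p2, u1, hy i₀]
    have hA2 : (a OtieS.w2).1 = f (k.net.tl (t.sd i₀)) ∧
        (b OtieS.w2).1 = f (k.net.tl (t.sd i₀)) := by
      obtain ⟨f', e', he', hs'⟩ := hpc OtieB.ww
      obtain ⟨q1, q2⟩ := hs' OtieS.w1 rfl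
      obtain ⟨q3, q4⟩ := hs' OtieS.w2 rfl
      obtain ⟨⟨α, r1, r2⟩, ⟨β, r3, r4⟩⟩ := hub OtieS.w2 (Sum.inl ()) rfl
      obtain ⟨-, p2, p3⟩ := otie_a t hset3 he' q1 q2 q3 q4 (by rw [← w3]; exact w4) w2
        (by rw [← r1]; exact r2) r4
      rw [p2, p3, w1]
      exact ⟨hA1, hA1⟩
    -- the last piece
    have hg : a OtieS.gg = b OtieS.gg ∧ Xg (a OtieS.gg).1 := by
      obtain ⟨f', e', he', hs'⟩ := hpc OtieB.gg
      obtain ⟨q1, q2⟩ := hs' OtieS.gg rfl
      have he'' : EL k.net {t.g1} f' e' := by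
        have := he'
        rwa [show {δ | ∃ s, (otieP t i₀).pc s = OtieB.gg ∧ (otieP t i₀).dt s = δ} = {t.g1} from
          hset4] at this
      obtain ⟨p1, -, p3⟩ := t.g_sp f' e' he''
      have q1' : evt k.net f' e' t.g1 = a OtieS.gg := q1
      have q2' : evh k.net f' e' t.g1 = b OtieS.gg := q2
      rw [q1'] at p1 p3
      rw [q2'] at p1
      exact ⟨p1, p3⟩
    refine ⟨?_, ?_⟩
    · rintro (i | i | i | _ | _ | _ | _ | _) x hx
      · exact absurd hx (by simp [otieP, otieSy])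
      · exact absurd hx (by simp [otieP, otieSy])
      · have hx' : Sum.inr i.1 = x := Sum.inl.inj hx
        subst hx'
        exact (hb i).1
      · exact absurd hx (by simp [otieP, otieSy])
      · exact absurd hx (by simp [otieP, otieSy])
      · exact absurd hx (by simp [otieP, otieSy])
      · have hx' : Sum.inl () = x := Sum.inl.inj hx
        subst hx'
        exact hA2.1.trans hA2.2.symm
      · have hx' : Sum.inl () = x := Sum.inl.inj hx
        subst hx'
        show (a OtieS.gg).1 = (b OtieS.gg).1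
        rw [hg.1]
    · intro c hcc
      have hx : c (Sum.inl ()) = f (k.net.tl (t.sd i₀)) :=
        (hcc OtieS.w2 (Sum.inl ()) rfl).symm.trans hA2.1
      have hx' : c (Sum.inl ()) = (a OtieS.gg).1 := (hcc OtieS.gg (Sum.inl ()) rfl).symm
      refine ⟨?_, e (t.sd i₀), ?_⟩
      · rw [hx']
        exact hg.2
      · have hce : Function.update (fun i => c (Sum.inr i)) i₀ (e (t.sd i₀)) =
            fun i => e (t.sd i) := by
          funext i
          by_cases hi : i = i₀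
          · subst hi
            rw [Function.update_self]
          · rw [Function.update_of_ne hi]
            have g1 : (a (OtieS.p2 ⟨i, hi⟩)).2 = c (Sum.inr i) :=
              hcc (OtieS.p2 ⟨i, hi⟩) (Sum.inr i) rfl
            rw [← g1, (hb ⟨i, hi⟩).2]
            show (a (OtieS.st i)).2 = _
            rw [hy i]
        rw [hce, hx]
        exact otie_star t he i₀
  · rintro c ⟨hc, v, hv⟩
    rw [hc] at hv
    have hv' : Dt L τ x₀ v := by
      have := otie_dt hv i₀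
      rwa [Function.update_self] at this
    obtain ⟨y', h1, h2⟩ := two_mid t.m3 hv hv' t.yt_dt
    refine ⟨fun o => (x₀, o.elim y' (Function.update (fun i => c (Sum.inr i)) i₀ v)), ?_⟩
    rintro (_ | i | _ | _ | _)
    · obtain ⟨f, e, he, hs⟩ := t.s_cp _ hv
      refine ⟨f, e, he, ?_⟩
      rintro (j | j | j | _ | _ | _ | _ | _) hj
      · exact hs j
      all_goals exact absurd hj (by simp [otieP, otiePc])
    · by_cases hi : i = i₀
      · obtain ⟨f, e, he, -⟩ := t.g_cp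
        refine ⟨f, e, he, ?_⟩
        rintro (j | j | j | _ | _ | _ | _ | _) hj
        · exact absurd hj (by simp [otieP, otiePc])
        · exact absurd ((OtieB.pp.inj hj).trans hi) j.2
        · exact absurd ((OtieB.pp.inj hj).trans hi) j.2
        all_goals exact absurd hj (by simp [otieP, otiePc])
      · obtain ⟨f, e, he, h3, h4⟩ := t.b_cp _ (otie_dt hv i)
        rw [Function.update_of_ne hi] at h3 h4
        refine ⟨f, e, he, ?_⟩
        rintro (j | j | j | _ | _ | _ | _ | _) hj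
        · exact absurd hj (by simp [otieP, otiePc])
        · have hj' : j.1 = i := OtieB.pp.inj hj
          show evt k.net f e t.b1 = (x₀, Function.update (fun i => c (Sum.inr i)) i₀ v j.1)
          rw [hj', Function.update_of_ne hi]
          exact h3
        · have hj' : j.1 = i := OtieB.pp.inj hj
          show evt k.net f e t.b2 = (zt (c (Sum.inr j.1)), c (Sum.inr j.1))
          rw [hj']
          exact h4
        all_goals exact absurd hj (by simp [otieP, otiePc])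
    · obtain ⟨f, e, he, h3, h4⟩ := t.a_cp _ _ h1
      refine ⟨f, e, he, ?_⟩
      rintro (j | j | j | _ | _ | _ | _ | _) hj
      · exact absurd hj (by simp [otieP, otiePc])
      · exact absurd hj (by simp [otieP, otiePc])
      · exact absurd hj (by simp [otieP, otiePc])
      · show evt k.net f e t.a1 = (x₀, Function.update (fun i => c (Sum.inr i)) i₀ v i₀)
        rw [Function.update_self]
        exact h3
      · exact h4
      all_goals exact absurd hj (by simp [otieP, otiePc])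
    · obtain ⟨f, e, he, h3, h4⟩ := t.a_cp _ _ h2
      refine ⟨f, e, he, ?_⟩
      rintro (j | j | j | _ | _ | _ | _ | _) hj
      · exact absurd hj (by simp [otieP, otiePc])
      · exact absurd hj (by simp [otieP, otiePc])
      · exact absurd hj (by simp [otieP, otiePc])
      · exact absurd hj (by simp [otieP, otiePc])
      · exact absurd hj (by simp [otieP, otiePc])
      · exact h3
      · show evt k.net f e t.a2 = (c (Sum.inl ()), yt)
        rw [hc]
        exact h4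
      · exact absurd hj (by simp [otieP, otiePc])
    · obtain ⟨f, e, he, h3⟩ := t.g_cp
      refine ⟨f, e, he, ?_⟩
      rintro (j | j | j | _ | _ | _ | _ | _) hj
      all_goals first
        | (simp [otieP, otiePc] at hj; done)
        | (show evt k.net f e t.g1 = (c (Sum.inl ()), yt)
           rw [hc]
           exact h3)

end Pool.Agent.H24.GH
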