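import Pool.Agent.H24.GH.NDT
import Pool.Agent.H24.GG.Stab

/-!
# JOB GH-10: the unit of a walk of types with children

The file `Pool.Agent.H24.GE.Unit` for label structures. The unit consists of the positions `0, ..., j - 1` in a row, `s` is linked to
`s + 1` by the type `w s`, and of the children `c : Ch` of the position `0` (type `ch c`); the position `j - 1` of a copy is linked
to the position `i` of the next copy by the type `w (j - 1)`.

`unitPer`: `symm`: clear. `ca`: `NX`. `cz'`: `NX (w (j - 1)) (w j)`, `w j = w i`. `conn`: every position is connected to `inl 0`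
(induction on `s`).
`unit_hu`: the links of `(m, inl s)`: the type `w s` leads to `(m, inl (s + 1))` if `s + 1 < j` and to `(m + 1, inl i)` if
`s + 1 = j`; the type `bar (w (s - 1))` leads to `(m, inl (s - 1))` if `0 < s`; the type `bar (w (j - 1))` leads to
`(m - 1, inl (j - 1))` if `s = i`; the type `ch c` leads to `(m, inr c)` if `s = 0`. These types are different: `w s ≠ bar (w (s - 1))` by
`NX (w (s - 1)) (w s)`; for `s = i`: `w i = w j ≠ bar (w (j - 1))` by `NX`, and `w (i - 1) ≠ w (j - 1)` by `nb`; the children by `hinj`,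
`h1`, `h2` (`s = 0`). The only link of `(m, inr c)` leads to `(m, inl 0)`.
`unit_win`: as in the file `Pool.Agent.H24.GE.Unit` (or `win_conn`, file `Pool.Agent.H24.GG.Stab`).
`unit_right`: `X = {q | 0 ≤ q.1 ≤ b, q ≠ (0, inl 0), q ≠ (0, inr c)}`: the elements with `1 ≤ q.1` form the window `win 1 b`, which
is connected (`win_conn`); the elements `(0, inl s)`, `1 ≤ s < j`, are connected in a row to `(0, inl (j - 1))`, which is linked to
`(1, inl i)` (`1 ≤ b`).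
-/

namespace Pool.Agent.H24.GH

open Pool.Agent.H24.GG

variable {V D T K : Type} {L : LS V D T K}

/-- the links of the unit -/
def unitS (L : LS V D T K) (w : ℕ → T) (j : ℕ) {Ch : Type} (ch : Ch → T) :
    Fin j ⊕ Ch → T → Fin j ⊕ Ch → Prop
  | Sum.inl s, t, Sum.inl s' => ((s' : ℕ) = s + 1 ∧ t = w s) ∨ ((s : ℕ) = s' + 1 ∧ t = L.bar (w s'))
  | Sum.inl s, t, Sum.inr c => (s : ℕ) = 0 ∧ t = ch c
  | Sum.inr c, t, Sum.inl s => (s : ℕ) = 0 ∧ t = L.bar (ch c)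
  | Sum.inr _, _, Sum.inr _ => False

theorem unitS_symm (w : ℕ → T) (j : ℕ) {Ch : Type} (ch : Ch → T) :
    ∀ u t v, unitS L w j ch u t v → unitS L w j ch v (L.bar t) u := by
  rintro (s | c) t (s' | c') h
  · rcases h with ⟨h1, h2⟩ | ⟨h1, h2⟩
    · exact Or.inr ⟨h1, by rw [h2]⟩
    · exact Or.inl ⟨h1, by rw [h2, L.bar_bar]⟩
  · obtain ⟨h1, h2⟩ := h
    exact ⟨h1, by rw [h2]⟩
  · obtain ⟨h1, h2⟩ := h
    exact ⟨h1, by rw [h2, L.bar_bar]⟩
  · exact h.elim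

theorem unitS_ca {w : ℕ → T} {i j : ℕ} (h : LollT L.sc L.bar w i j) {Ch : Type} {ch : Ch → T}
    (hsc : ∀ c, L.sc (ch c) = L.sc (w 0)) : ∀ u t v, unitS L w j ch u t v →
      L.sc t = Sum.elim (fun s : Fin j => L.sc (w s)) (fun c => L.sc (L.bar (ch c))) u := by
  rintro (s | c) t (s' | c') hu
  · show L.sc t = L.sc (w s)
    rcases hu with ⟨h1, h2⟩ | ⟨h1, h2⟩
    · rw [h2]
    · rw [h2, h1]
      exact (h.nx s' s'.2).1.symm
  · show L.sc t = L.sc (w s)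
    obtain ⟨h1, h2⟩ := hu
    rw [h2, h1]
    exact hsc c'
  · show L.sc t = L.sc (L.bar (ch c))
    obtain ⟨h1, h2⟩ := hu
    rw [h2]
  · exact hu.elim

/-- a row of positions, upwards -/
theorem UnitT_row {α : Type} {j : ℕ} (f : Fin j → α) (r : α → α → Prop) (a : ℕ)
    (hr : ∀ s t : Fin j, a ≤ (s : ℕ) → (s : ℕ) + 1 = t → r (f s) (f t)) :
    ∀ (n : ℕ) (m : ℕ) (hm : m < j) (hn : m + n < j), a ≤ m →
      Relation.ReflTransGen r (f ⟨m, hm⟩) (f ⟨m + n, hn⟩) := by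
  intro n
  induction n with
  | zero =>
    intro m hm hn _
    exact Relation.ReflTransGen.refl
  | succ n ih =>
    intro m hm hn h0
    have h1 : m + n < j := by omega
    have h2 := ih m hm h1 h0
    exact h2.tail (hr ⟨m + n, h1⟩ ⟨m + (n + 1), hn⟩ (by simp only; omega) (by simp only; omega))

theorem UnitT_rtg_symm {α : Type} {r : α → α → Prop} (hr : ∀ a b, r a b → r b a) {a b : α}
    (h : Relation.ReflTransGen r a b) : Relation.ReflTransGen r b a := by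
  induction h with
  | refl => exact Relation.ReflTransGen.refl
  | tail _ hbc ih => exact Relation.ReflTransGen.head (hr _ _ hbc) ih

theorem unitS_conn {w : ℕ → T} {j : ℕ} {Ch : Type} {ch : Ch → T} (hj : 0 < j) :
    ∀ u v : Fin j ⊕ Ch, Relation.ReflTransGen (fun a b => ∃ t, unitS L w j ch a t b) u v := by
  have hs : ∀ a b : Fin j ⊕ Ch, (∃ t, unitS L w j ch a t b) → ∃ t, unitS L w j ch b t a := by
    rintro a b ⟨t, ht⟩
    exact ⟨L.bar t, unitS_symm w j ch a t b ht⟩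
  have h0 : ∀ u : Fin j ⊕ Ch,
      Relation.ReflTransGen (fun a b => ∃ t, unitS L w j ch a t b) (Sum.inl ⟨0, hj⟩) u := by
    rintro (s | c)
    · have h1 := UnitT_row (fun s : Fin j => (Sum.inl s : Fin j ⊕ Ch))
        (fun a b => ∃ t, unitS L w j ch a t b) 0
        (fun s t _ h2 => ⟨w s, Or.inl ⟨h2.symm, rfl⟩⟩) (s : ℕ) 0 hj (by rw [zero_add]; exact s.2)
        (le_refl 0)
      have h2 : (⟨0 + (s : ℕ), by rw [zero_add]; exact s.2⟩ : Fin j) = s := Fin.ext (by simp only; omega)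
      rw [h2] at h1
      exact h1
    · exact Relation.ReflTransGen.single ⟨ch c, rfl, rfl⟩
  intro u v
  exact (UnitT_rtg_symm hs (h0 u)).trans (h0 v)

/-- the periodic arrangement -/
def unitPer {w : ℕ → T} {i j : ℕ} (h : LollT L.sc L.bar w i j) {Ch : Type} (ch : Ch → T)
    (hsc : ∀ c, L.sc (ch c) = L.sc (w 0)) : Per L (Fin j ⊕ Ch) where
  kl := Sum.elim (fun s => L.sc (w s)) (fun c => L.sc (L.bar (ch c)))
  S := unitS L w j ch
  symm := unitS_symm w j ch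
  ui := Sum.inl ⟨i, h.lt⟩
  uo := Sum.inl ⟨j - 1, by have := h.lt; omega⟩
  tz := w (j - 1)
  ca := unitS_ca h hsc
  cz := rfl
  cz' := by
    have h1 := h.lt
    have h2 := h.nx (j - 1) (by omega)
    have h3 : j - 1 + 1 = j := by omega
    rw [h3, h.rep] at h2
    exact h2.1.symm
  conn := unitS_conn (by have := h.lt; omega)

/-- the kinds of the links of `(m, inl s)` -/
def UnitTK (L : LS V D T K) (w : ℕ → T) (i j : ℕ) {Ch : Type} (ch : Ch → T) (m : ℤ) (s : ℕ) (t : T) :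
    ℕ → ℤ × (Fin j ⊕ Ch) → Prop
  | 0, q => ∃ s' : Fin j, q = (m, Sum.inl s') ∧ (s' : ℕ) = s + 1 ∧ t = w s
  | 1, q => ∃ s' : Fin j, q = (m, Sum.inl s') ∧ s = (s' : ℕ) + 1 ∧ t = L.bar (w s')
  | 2, q => ∃ c : Ch, q = (m, Sum.inr c) ∧ s = 0 ∧ t = ch c
  | 3, q => ∃ s' : Fin j, q = (m + 1, Sum.inl s') ∧ (s' : ℕ) = i ∧ s = j - 1 ∧ t = w (j - 1)
  | 4, q => ∃ s' : Fin j, q = (m - 1, Sum.inl s') ∧ (s' : ℕ) = j - 1 ∧ s = i ∧
      t = L.bar (w (j - 1))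
  | _, _ => False

theorem UnitT_kind {w : ℕ → T} {i j : ℕ} (h : LollT L.sc L.bar w i j) {Ch : Type} (ch : Ch → T)
    (hsc : ∀ c, L.sc (ch c) = L.sc (w 0)) (m : ℤ) (s : Fin j) (q : ℤ × (Fin j ⊕ Ch)) (t : T)
    (hq : (unitPer h ch hsc).Sg (m, Sum.inl s) t q) : ∃ n, UnitTK L w i j ch m s t n q := by
  have h0 := h.lt
  obtain ⟨m', u⟩ := q
  rcases hq with ⟨h1, h2⟩ | ⟨h1, h2, h3, h4⟩ | ⟨h1, h2, h3, h4⟩
  · have h1' : m = m' := h1
    subst h1'
    rcases u with s' | c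
    · rcases h2 with ⟨h3, h4⟩ | ⟨h3, h4⟩
      · exact ⟨0, s', rfl, h3, h4⟩
      · exact ⟨1, s', rfl, h3, h4⟩
    · exact ⟨2, c, rfl, h2.1, h2.2⟩
  · have h1' : m' = m + 1 := h1
    have h2' : s = ⟨j - 1, by omega⟩ := Sum.inl.inj h2
    have h3' : u = Sum.inl ⟨i, h.lt⟩ := h3
    have h4' : t = w (j - 1) := h4
    refine ⟨3, ⟨i, h.lt⟩, by rw [h1', h3'], rfl, by rw [h2'], h4'⟩
  · have h1' : m = m' + 1 := h1
    have h2' : u = Sum.inl ⟨j - 1, by omega⟩ := h2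
    have h3' : s = ⟨i, h.lt⟩ := Sum.inl.inj h3
    have h4' : t = L.bar (w (j - 1)) := h4
    refine ⟨4, ⟨j - 1, by omega⟩, ?_, rfl, by rw [h3'], h4'⟩
    rw [h2', show m' = m - 1 by omega]

theorem UnitT_kind_eq {w : ℕ → T} {i j : ℕ} (h : LollT L.sc L.bar w i j) {Ch : Type} {ch : Ch → T}
    (hinj : Function.Injective ch) (h1 : ∀ c, ch c ≠ w 0)
    (h2 : i = 0 → ∀ c, ch c ≠ L.bar (w (j - 1))) (m : ℤ) (s : Fin j) (q r : ℤ × (Fin j ⊕ Ch))
    (t : T) (n n' : ℕ) (hnn : n ≤ n') (hq : UnitTK L w i j ch m s t n q)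
    (hr : UnitTK L w i j ch m s t n' r) : q = r := by
  have h0 := h.lt
  match n, n', hnn, hq, hr with
  | 0, 0, _, ⟨a, hq, ha, _⟩, ⟨b, hr, hb, _⟩ =>
    have e : a = b := Fin.ext (by omega)
    rw [hq, hr, e]
  | 0, 1, _, ⟨a, _, ha, ht⟩, ⟨b, _, hb, ht'⟩ =>
    have h3 := (h.nx b b.2).2
    rw [← hb] at h3
    exact absurd (ht.symm.trans ht') h3
  | 0, 2, _, ⟨a, _, ha, ht⟩, ⟨c, _, hs0, ht'⟩ =>
    rw [hs0] at ht
    exact absurd (ht'.symm.trans ht) (h1 c)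
  | 0, 3, _, ⟨a, _, ha, _⟩, ⟨_, _, _, hs0, _⟩ =>
    have := a.2
    exact absurd ha (by omega)
  | 0, 4, _, ⟨a, _, ha, ht⟩, ⟨b, _, hb, hs0, ht'⟩ =>
    have h3 := (h.nx (j - 1) (by omega)).2
    rw [show j - 1 + 1 = j by omega, h.rep] at h3
    rw [hs0] at ht
    exact absurd (ht.symm.trans ht') h3
  | 1, 1, _, ⟨a, hq, ha, _⟩, ⟨b, hr, hb, _⟩ =>
    have e : a = b := Fin.ext (by omega)
    rw [hq, hr, e]
  | 1, 2, _, ⟨a, _, ha, _⟩, ⟨_, _, hs0, _⟩ =>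
    exact absurd ha (by omega)
  | 1, 3, _, ⟨a, _, ha, ht⟩, ⟨b, _, hb, hs0, ht'⟩ =>
    have h3 := (h.nx a a.2).2
    rw [← ha, hs0] at h3
    exact absurd (ht'.symm.trans ht) h3
  | 1, 4, _, ⟨a, _, ha, ht⟩, ⟨b, _, hb, hs0, ht'⟩ =>
    have h3 := h.nb a (by omega)
    have h4 : L.bar (w a) = L.bar (w (j - 1)) := ht.symm.trans ht'
    have h5 := congrArg L.bar h4
    rw [L.bar_bar, L.bar_bar] at h5
    exact absurd h5 h3
  | 2, 2, _, ⟨c, hq, _, hc⟩, ⟨c', hr, _, hc'⟩ =>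
    rw [hq, hr, hinj (hc.symm.trans hc')]
  | 2, 3, _, ⟨c, _, hs0, ht⟩, ⟨_, _, _, hs1, ht'⟩ =>
    rw [show j - 1 = 0 by omega] at ht'
    exact absurd (ht.symm.trans ht') (h1 c)
  | 2, 4, _, ⟨c, _, hs0, ht⟩, ⟨_, _, _, hs1, ht'⟩ =>
    exact absurd (ht.symm.trans ht') (h2 (by omega) c)
  | 3, 3, _, ⟨a, hq, ha, _⟩, ⟨b, hr, hb, _⟩ =>
    have e : a = b := Fin.ext (by omega)
    rw [hq, hr, e]
  | 3, 4, _, ⟨_, _, _, hs0, ht⟩, ⟨_, _, _, hs1, ht'⟩ =>
    have h3 := (h.nx (j - 1) (by omega)).2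
    rw [show j - 1 + 1 = j by omega, h.rep, show i = j - 1 by omega] at h3
    exact absurd (ht.symm.trans ht') h3
  | 4, 4, _, ⟨a, hq, ha, _⟩, ⟨b, hr, hb, _⟩ =>
    have e : a = b := Fin.ext (by omega)
    rw [hq, hr, e]
  | n + 5, _, _, hq, _ => exact False.elim hq
  | 0, n' + 5, _, _, hr => exact False.elim hr
  | 1, n' + 5, _, _, hr => exact False.elim hr
  | 2, n' + 5, _, _, hr => exact False.elim hr
  | 3, n' + 5, _, _, hr => exact False.elim hr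
  | 4, n' + 5, _, _, hr => exact False.elim hr
  | n + 1, 0, hnn, _, _ => exact absurd hnn (by omega)
  | n + 2, 1, hnn, _, _ => exact absurd hnn (by omega)
  | n + 3, 2, hnn, _, _ => exact absurd hnn (by omega)
  | n + 4, 3, hnn, _, _ => exact absurd hnn (by omega)

theorem unit_hu {w : ℕ → T} {i j : ℕ} (h : LollT L.sc L.bar w i j) {Ch : Type} (ch : Ch → T)
    (hsc : ∀ c, L.sc (ch c) = L.sc (w 0)) (hinj : Function.Injective ch) (h1 : ∀ c, ch c ≠ w 0)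
    (h2 : i = 0 → ∀ c, ch c ≠ L.bar (w (j - 1))) {a b b' : ℤ × (Fin j ⊕ Ch)} {t : T}
    (hb : (unitPer h ch hsc).Sg a t b) (hb' : (unitPer h ch hsc).Sg a t b') : b = b' := by
  obtain ⟨m, u⟩ := a
  rcases u with s | c
  · obtain ⟨n, hn⟩ := UnitT_kind h ch hsc m s b t hb
    obtain ⟨n', hn'⟩ := UnitT_kind h ch hsc m s b' t hb'
    rcases Nat.le_total n n' with hnn | hnn
    · exact UnitT_kind_eq h hinj h1 h2 m s b b' t n n' hnn hn hn'
    · exact (UnitT_kind_eq h hinj h1 h2 m s b' b t n' n hnn hn' hn).symm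
  · have key : ∀ b : ℤ × (Fin j ⊕ Ch), (unitPer h ch hsc).Sg (m, Sum.inr c) t b →
        b = (m, Sum.inl ⟨0, by have := h.lt; omega⟩) := by
      rintro ⟨m', v⟩ (⟨h3, h4⟩ | ⟨_, h4, _⟩ | ⟨_, _, h4, _⟩)
      · have h3' : m = m' := h3
        subst h3'
        rcases v with s | c'
        · have h5 : (s : ℕ) = 0 := h4.1
          exact Prod.ext rfl (congrArg Sum.inl (Fin.ext h5))
        · exact h4.elim
      · have h5 : (Sum.inr c : Fin j ⊕ Ch) = Sum.inl ⟨j - 1, by have := h.lt; omega⟩ := h4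
        simp at h5
      · have h5 : (Sum.inr c : Fin j ⊕ Ch) = Sum.inl ⟨i, h.lt⟩ := h4
        simp at h5
    rw [key b hb, key b' hb']

theorem unit_right {w : ℕ → T} {i j : ℕ} (h : LollT L.sc L.bar w i j) {Ch : Type} (ch : Ch → T)
    (hsc : ∀ c, L.sc (ch c) = L.sc (w 0)) {b : ℤ} (hb : 1 ≤ b) {z : Fin j} (hz : (z : ℕ) = 0)
    {X : Set (ℤ × (Fin j ⊕ Ch))}
    (hX : X = {q | 0 ≤ q.1 ∧ q.1 ≤ b ∧ q ≠ (0, Sum.inl z) ∧ ∀ c, q ≠ (0, Sum.inr c)}) :
    ∀ p ∈ X, ∀ q ∈ X, Relation.ReflTransGen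
      (fun s t => s ∈ X ∧ t ∈ X ∧ ∃ τ, (unitPer h ch hsc).Sg s τ t) p q := by
  have h0 := h.lt
  have hX1 : ∀ q : ℤ × (Fin j ⊕ Ch), q ∈ win (Fin j ⊕ Ch) 1 b → q ∈ X := by
    intro q hq
    obtain ⟨h3, h4⟩ := hq
    rw [hX]
    refine ⟨by omega, h4, ?_, ?_⟩
    · intro h5
      rw [h5] at h3
      exact absurd h3 (by norm_num)
    · intro c h5
      rw [h5] at h3
      exact absurd h3 (by norm_num)
  have hX2 : ∀ s : Fin j, 1 ≤ (s : ℕ) → ((0 : ℤ), (Sum.inl s : Fin j ⊕ Ch)) ∈ X := by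
    intro s hs
    rw [hX]
    refine ⟨le_refl _, by simp only; omega, ?_, ?_⟩
    · intro h5
      have h6 : s = z := Sum.inl.inj (congrArg Prod.snd h5)
      rw [h6] at hs
      omega
    · intro c h5
      have h6 : (Sum.inl s : Fin j ⊕ Ch) = Sum.inr c := congrArg Prod.snd h5
      simp at h6
  have hsym : ∀ a b : ℤ × (Fin j ⊕ Ch),
      (a ∈ X ∧ b ∈ X ∧ ∃ τ, (unitPer h ch hsc).Sg a τ b) →
      (b ∈ X ∧ a ∈ X ∧ ∃ τ, (unitPer h ch hsc).Sg b τ a) := by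
    rintro a b ⟨h1, h2, τ, h3⟩
    exact ⟨h2, h1, L.bar τ, sg_symm _ h3⟩
  have hi : ((1 : ℤ), (Sum.inl ⟨i, h0⟩ : Fin j ⊕ Ch)) ∈ win (Fin j ⊕ Ch) 1 b := ⟨le_refl _, hb⟩
  have key : ∀ p ∈ X, Relation.ReflTransGen
      (fun s t => s ∈ X ∧ t ∈ X ∧ ∃ τ, (unitPer h ch hsc).Sg s τ t) p
      ((1 : ℤ), (Sum.inl ⟨i, h0⟩ : Fin j ⊕ Ch)) := by
    intro p hp
    have hp' := hp
    rw [hX] at hp'
    obtain ⟨h3, h4, h5, h6⟩ := hp'
    rcases (show 1 ≤ p.1 ∨ p.1 = 0 by omega) with h7 | h7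
    · have h8 := win_conn (unitPer h ch hsc) 1 b p ⟨h7, h4⟩ _ hi
      refine Relation.ReflTransGen.mono ?_ _ _ h8
      rintro a c ⟨h9, h10, h11⟩
      exact ⟨hX1 a h9, hX1 c h10, h11⟩
    · obtain ⟨m, u⟩ := p
      have h7' : m = 0 := h7
      subst h7'
      rcases u with s | c
      · have hs : 1 ≤ (s : ℕ) := by
          rcases Nat.eq_zero_or_pos (s : ℕ) with h8 | h8
          · have h9 : s = z := Fin.ext (h8.trans hz.symm)
            exact absurd (by rw [h9]) h5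
          · exact h8
        have hs2 := s.2
        have h8 := UnitT_row (fun s : Fin j => ((0 : ℤ), (Sum.inl s : Fin j ⊕ Ch)))
          (fun s t => s ∈ X ∧ t ∈ X ∧ ∃ τ, (unitPer h ch hsc).Sg s τ t) 1
          (fun a c h9 h10 => ⟨hX2 a h9, hX2 c (by omega), w a, Or.inl ⟨rfl, Or.inl ⟨h10.symm, rfl⟩⟩⟩)
          (j - 1 - (s : ℕ)) (s : ℕ) s.2 (by omega) hs
        have h9 : (⟨(s : ℕ) + (j - 1 - (s : ℕ)), by omega⟩ : Fin j) = ⟨j - 1, by omega⟩ :=
          Fin.ext (by simp only; omega)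
        rw [h9] at h8
        refine h8.tail ⟨hX2 _ (by simp only; omega), hX1 _ hi, w (j - 1), ?_⟩
        exact Or.inr (Or.inl ⟨rfl, rfl, rfl, rfl⟩)
      · exact absurd rfl (h6 c)
  intro p hp q hq
  exact (key p hp).trans (UnitT_rtg_symm hsym (key q hq))

end Pool.Agent.H24.GH
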